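import Pool.Agent.TTM.TargetsP

set_option autoImplicit false

/-!
# TTM (MP_c076ed_nt), third part: the parameter is the leading coefficient: targets (helper65)

THEOREM. `K` number field, `a ∈ K^*`. (B) `f = c z ^ n + a z ^ (-d)`, `gcd(n, d) ≥ 4`.
(E) `f = c z ^ n + a z ^ p`, `6 ≤ p < n`, `gcd(n, p) ≥ 4`. There is `B` such that for all
`c ∈ K^*` at most
`B` points are preperiodic and (periodic or end at `0` or infinity or in a cycle of length at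
least
two).

CONVENTIONS as in `Targets.lean`, `TargetsP.lean` (all blocks are landed as `P_X.lean`; they are
the
templates). (B): `f = FF c a n d` (the FIRST argument is the parameter `c`, the second the fixed
`a`),
powers with exponent `d + 1`. (E): `f = GG c a n p`, powers with exponent `p - 1`. Places with
`w c = 1` are covered by `T_L1` / `T_L1P` (with `a`, `c` exchanged).
-/

namespace Pool.Agent.TTM

open Function NumberField IsDedekindDomain WithZero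

section

variable {K Γ : Type} [Field K] [LinearOrderedCommGroupWithZero Γ]

/-- exponents for (B) -/
structure HB (w : Valuation K Γ) (n d : ℕ) : Prop where
  hn : 3 ≤ n
  hd : 2 ≤ d
  wn : w (n : K) = 1
  wd : w (d : K) = 1
  wnd : w ((n + d : ℕ) : K) = 1

/-- exponents for (E) -/
structure HE (w : Valuation K Γ) (n p : ℕ) : Prop where
  hp : 2 ≤ p
  hn : p < n
  wn : w (n : K) = 1
  wp : w (p : K) = 1
  wnp : w ((n - p : ℕ) : K) = 1

end

/-! ### (B), one place -/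

/-- **ST2B** (20 min; template `P_ST2.lean`, now `a` is arbitrary). -/
def T_ST2B : Prop := ∀ (K Γ : Type) [Field K] [LinearOrderedCommGroupWithZero Γ]
  (w : Valuation K Γ) (a c : K) (n d : ℕ), HB w n d → a ≠ 0 → c ≠ 0 → ∀ x y ω : K, x ≠ 0 →
    y ≠ 0 → w x = w y → w a * w x ^ (n + d) ≠ w c → Om n d ω → w (x - ω * y) < w x →
    FF a c n d x ≠ 0 ∧ FF a c n d y ≠ 0 ∧ w (FF a c n d x) = w (FF a c n d y) ∧
      w (FF a c n d x - FF a c n d y) * w x = w (x - ω * y) * w (FF a c n d x)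

/-- **ST3B** (20 min; template `P_ST3.lean`, now `a` is arbitrary). -/
def T_ST3B : Prop := ∀ (K Γ : Type) [Field K] [LinearOrderedCommGroupWithZero Γ]
  (w : Valuation K Γ) (a c : K) (n d : ℕ), HB w n d → a ≠ 0 → c ≠ 0 → ∀ x y ω : K, y ≠ 0 →
    w a * w y ^ (n + d) = w c → w (FF a c n d y) < w a * w y ^ n → Om n d ω →
    w (x - ω * y) < w y →
    w (FF a c n d x - FF a c n d y) * w y = w (x - ω * y) * (w a * w y ^ n)

/-- **ESCB** (45 min; template `P_ESC.lean`). Positions for `f = c z ^ n + a / z ^ d`, `w a = 1`.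
PROOF.
(0) If `1 < w z` and `1 < w c * w z ^ (n-1)` then `w (f z) = w c * w z ^ n > w z`, again in this
set:
infinite orbit. (1) `w c = 1`: `w x > 1`: (0). `w x < 1`: `w (f x) = w x ^ (-d) > 1`, (0) for
`f x`.
(2) `w c < 1`, `w c * w x ^ (n+d) = 1`, `y = f x ≠ 0`: `ρ = w x > 1`, `w y ≤ ρ^(-d)`,
`w (f y) = w y ^ (-d) ≥ ρ^(d²)`, and `w c * ρ^(d² (n-1)) = ρ^(d² (n-1) - (n+d)) > 1`: (0) for
`f y`.
(3) `1 < w c`. If `w c * w x ^ (n+d) > 1`: `w (f x) = w c * w x ^ n > w x` (for `w x < 1`: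
`w x ^ (n-1) ≥ w x ^ (n+d)`), again in this set: infinite orbit. If `< 1`: `w (f x) = w x ^ (-d)`,
`w c * w (f x) ^ (n+d) = w c / (w x ^ (n+d)) ^ d > 1`. -/
def T_ESCB : Prop := ∀ (K Γ : Type) [Field K] [LinearOrderedCommGroupWithZero Γ]
  (w : Valuation K Γ) (a c : K) (n d : ℕ), HB w n d → w a = 1 → c ≠ 0 → ∀ x : K,
    Fo c a n d x → x ≠ 0 → (w c = 1 → w x = 1) ∧
    (w c < 1 → FF c a n d x ≠ 0 → w c * w x ^ (n + d) ≠ 1) ∧
    (1 < w c → w c * w x ^ (n + d) = 1)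

/-- **L2B** (40 min; from ST2B, SEP; template `P_CH2.lean`, `P_L2.lean`). Orbits without turning
position; the hypothesis on the orbits replaces ESC (3). -/
def T_L2B : Prop := ∀ (K Γ : Type) [Field K] [LinearOrderedCommGroupWithZero Γ]
  (w : Valuation K Γ) (a c : K) (n d : ℕ), HB w n d → a ≠ 0 → c ≠ 0 → ∀ x y ω : K,
    PR a c n d x y → Om n d ω → w (1 - ω) = 1 →
    (∀ k : ℕ, (FF a c n d)^[k + 1] x ≠ 0 → w a * w ((FF a c n d)^[k] x) ^ (n + d) ≠ w c) →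
    (∀ k : ℕ, (FF a c n d)^[k + 1] y ≠ 0 → w a * w ((FF a c n d)^[k] y) ^ (n + d) ≠ w c) →
    w (x - ω * y) = max (w x) (w y)

/-- **L3B** (45 min; from ESCB, ST3B; template `P_L3.lean`). Places with `w c > 1`,
`f = FF c a n d`.
`ρ = w x = w y < 1`, `w c * ρ^(n+d) = 1`, all nonzero `x_k`, `y_k` are at `ρ`; ST3B:
`w (x_(k+1) - y_(k+1)) = w (x_k - ω_k y_k) * ρ^(-(d+1))`. Conclusion:
`w (x - ω y) = ρ * ρ^((d+1) j)`. -/
def T_L3B : Prop := ∀ (K : Type) [Field K] (w : Valuation K ℤᵐ⁰) (a c : K) (n d : ℕ),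
  HB w n d → w a = 1 → 1 < w c → ∀ x y ω : K, x ≠ 0 → y ≠ 0 → Fo c a n d x → Fo c a n d y →
    Sep c a n d x y → Om n d ω → GPP w (d + 2) x y ω

/-! ### (B), number fields -/

/-- **NBB** (45 min; from ESCB, L1, L2B, L3B, SEP, CNTP with `n := d + 2`; template `P_NB.lean` or
`P_NBP.lean`). `v c = 1`: `T_L1` for `FF c a n d` (`HW v c n d`, `v a = 1`). `v c < 1`: `T_L2B`.
-/
def T_NBB : Prop := ∀ (K : Type) [Field K] [NumberField K] (a : K) (n d m : ℕ) (ζ : K), a ≠ 0 →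
  4 ≤ n → 4 ≤ d → 4 ≤ m → m ∣ n → m ∣ d → IsPrimitiveRoot ζ m → ∃ B : ℕ, ∀ c : K, c ≠ 0 →
    (∀ S : Finset K, (∀ x ∈ S, x ≠ 0 ∧ x ∈ periodicPts (FF c a n d)) → S.card ≤ B) ∧
    (∀ (z : K) (k : ℕ), (FF c a n d)^[k] z ≠ 0 → (FF c a n d)^[k + 1] z = 0 → k ≤ B) ∧
    ∀ (z : K) (t : ℕ), (FF c a n d)^[t] z ∉ periodicPts (FF c a n d) →
      (FF c a n d)^[t + 1] z ∈ periodicPts (FF c a n d) →
      FF c a n d ((FF c a n d)^[t + 1] z) ≠ (FF c a n d)^[t + 1] z → t ≤ B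

/-- **TOTB** (20 min; from NBB; template `P_TOT.lean`). -/
def T_TOTB : Prop := ∀ (K : Type) [Field K] [NumberField K] (a : K) (n d : ℕ), a ≠ 0 → 1 ≤ n →
  1 ≤ d → 4 ≤ Nat.gcd n d → ∃ B : ℕ, ∀ c : K, c ≠ 0 →
    ∀ S : Finset K, (∀ z ∈ S, z ∈ periodicPts (FF c a n d) ∨ (∃ k, (FF c a n d)^[k] z = 0) ∨
      ∃ k, (FF c a n d)^[k] z ∈ periodicPts (FF c a n d) ∧
        FF c a n d ((FF c a n d)^[k] z) ≠ (FF c a n d)^[k] z) → S.card ≤ B

/-! ### (E), one place -/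

/-- **ST2E** (20 min; template `P_ST2P.lean`, now `a` is arbitrary). -/
def T_ST2E : Prop := ∀ (K Γ : Type) [Field K] [LinearOrderedCommGroupWithZero Γ]
  (w : Valuation K Γ) (a c : K) (n p : ℕ), HE w n p → a ≠ 0 → c ≠ 0 → ∀ x y ω : K, x ≠ 0 →
    y ≠ 0 → w x = w y → w a * w x ^ (n - p) ≠ w c → Om n p ω → w (x - ω * y) < w x →
    GG a c n p x ≠ 0 ∧ GG a c n p y ≠ 0 ∧ w (GG a c n p x) = w (GG a c n p y) ∧
      w (GG a c n p x - GG a c n p y) * w x = w (x - ω * y) * w (GG a c n p x)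

/-- **ST3E** (20 min; template `P_ST3P.lean`, now `a` is arbitrary). -/
def T_ST3E : Prop := ∀ (K Γ : Type) [Field K] [LinearOrderedCommGroupWithZero Γ]
  (w : Valuation K Γ) (a c : K) (n p : ℕ), HE w n p → a ≠ 0 → c ≠ 0 → ∀ x y ω : K, y ≠ 0 →
    w a * w y ^ (n - p) = w c → w (GG a c n p y) < w a * w y ^ n → Om n p ω →
    w (x - ω * y) < w y →
    w (GG a c n p x - GG a c n p y) * w y = w (x - ω * y) * (w a * w y ^ n)

/-- **ESCE** (30 min; template `P_ESCP.lean`). Positions for `f = c z ^ n + a z ^ p`, `w a = 1`.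
PROOF.
(0) If `1 < w z` and `1 < w c * w z ^ (n-p)` then `w (f z) = w c * w z ^ n > w z ^ p ≥ w z`,
again in this
set. (1) If `z ≠ 0`, `w z < 1` and `w c * w z ^ (n-p) < 1` then `w (f z) = w z ^ p < w z`,
`f z ≠ 0`, again in
this set. Both are impossible for finite orbits. (2) `w c = 1`: `w x = 1`. (3) `1 < w c`,
`w c * w x ^ (n-p) = 1`, `y = f x ≠ 0`: `w x < 1`, `w y ≤ w x ^ p < w x`, (1) for `y`. (4)
`w c < 1`:
`w c * w x ^ (n-p) > 1` implies `w x > 1`, (0); `w x < 1`: (1). -/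
def T_ESCE : Prop := ∀ (K Γ : Type) [Field K] [LinearOrderedCommGroupWithZero Γ]
  (w : Valuation K Γ) (a c : K) (n p : ℕ), HE w n p → w a = 1 → c ≠ 0 → ∀ x : K,
    FoG (GG c a n p) x → x ≠ 0 → (w c = 1 → w x = 1) ∧
    (1 < w c → GG c a n p x ≠ 0 → w c * w x ^ (n - p) ≠ 1) ∧
    (w c < 1 → w c * w x ^ (n - p) ≤ 1 ∧ 1 ≤ w x)

/-- **L2E** (30 min; from ST2E, SEPG; template `P_L2P.lean`). -/
def T_L2E : Prop := ∀ (K Γ : Type) [Field K] [LinearOrderedCommGroupWithZero Γ]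
  (w : Valuation K Γ) (a c : K) (n p : ℕ), HE w n p → a ≠ 0 → c ≠ 0 → ∀ x y ω : K,
    PRG (GG a c n p) x y → Om n p ω → w (1 - ω) = 1 →
    (∀ k : ℕ, (GG a c n p)^[k + 1] x ≠ 0 → w a * w ((GG a c n p)^[k] x) ^ (n - p) ≠ w c) →
    (∀ k : ℕ, (GG a c n p)^[k + 1] y ≠ 0 → w a * w ((GG a c n p)^[k] y) ^ (n - p) ≠ w c) →
    w (x - ω * y) = max (w x) (w y)

/-- **POSE** (30 min; from ESCE; template `P_POSP.lean`). `f = GG c a n p`, `w c < 1`. By ESCE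
`w z > 1`. If
`w c * w z ^ (n-p) = 1`: `R = log (w z)`. Otherwise `u = f z` has `w u = w z ^ p > w z`;
induction;
`log (w z) - p R = (log (w u) - p R) - (p-1) log (w z)`. -/
def T_POSE : Prop := ∀ (K : Type) [Field K] (w : Valuation K ℤᵐ⁰) (a c : K) (n p : ℕ),
  HE w n p → w a = 1 → c ≠ 0 → w c < 1 → ∀ z : K, FoG (GG c a n p) z → z ≠ 0 → w z ≠ 1 →
    ∃ R : ℤ, log (w c) = -(((n : ℤ) - p) * R) ∧ ((p : ℤ) - 1) ∣ log (w z) - p * R

/-- **NSTE** (30 min; from ESCE, SEPG; template `P_NST.lean`). Star is the position `w z = 1`: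
then
`w (f z) = 1` (`w c < 1`). Turning positions have `w z > 1`. -/
def T_NSTE : Prop := ∀ (K Γ : Type) [Field K] [LinearOrderedCommGroupWithZero Γ]
  (w : Valuation K Γ) (a c : K) (n p : ℕ), HE w n p → w a = 1 → c ≠ 0 → w c < 1 →
    ∀ (x y : K) (k : ℕ), PRG (GG c a n p) x y →
    w c * w ((GG c a n p)^[k] x) ^ (n - p) = 1 → w c * w ((GG c a n p)^[k] y) ^ (n - p) = 1 →
    max (w ((GG c a n p)^[k + 1] x)) (w ((GG c a n p)^[k + 1] y)) ≠ 1

/-- **L3E** (60 min; from ESCE, ST2E, ST3E, SEPG, L2E, POSE, NSTE; template `P_L3P.lean`, or its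
docstring). Places with `w c < 1`, `f = GG c a n p`. (A) `w x = w y = 1`: both orbits stay at
this position,
L2E. (B) `w x > 1`: at a position with `w c * w x_k ^ (n-p) < 1`:
`w x_(k+1) = w x_k ^ p > w x_k`, `D_k`
unchanged (ST2E). At a turning position `ρ = w x_k > 1`, `w c * ρ^n = ρ^p`: `w x_(k+1)`,
`w y_(k+1) ≤ ρ < ρ^p`, ST3E: `w (x_(k+1) - y_(k+1)) * ρ = w (x_k - ω_k y_k) * ρ^p`;
`D_(k+1) = D_k + p R - log μ`. -/
def T_L3E : Prop := ∀ (K : Type) [Field K] (w : Valuation K ℤᵐ⁰) (a c : K) (n p : ℕ),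
  HE w n p → w a = 1 → c ≠ 0 → w c < 1 → ∀ x y ω : K, PRG (GG c a n p) x y → Om n p ω →
    w (1 - ω) = 1 → GPP w p x y ω

/-! ### (E), number fields -/

/-- **NBE** (45 min; from ESCE, L1P, L2E, L3E, SEPG, CNTP with `n := p`; template `P_NBP.lean`).
`v c = 1`: `T_L1P` for `GG c a n p` (`HP v c n p`, `v a = 1`). `v c > 1`: `T_L2E` with ESCE (2).
-/
def T_NBE : Prop := ∀ (K : Type) [Field K] [NumberField K] (a : K) (n p m : ℕ) (ζ : K), a ≠ 0 →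
  6 ≤ p → p < n → 4 ≤ m → m ∣ n → m ∣ p → IsPrimitiveRoot ζ m → ∃ B : ℕ, ∀ c : K, c ≠ 0 →
    (∀ S : Finset K, (∀ x ∈ S, x ≠ 0 ∧ x ∈ periodicPts (GG c a n p)) → S.card ≤ B) ∧
    (∀ (z : K) (k : ℕ), (GG c a n p)^[k] z ≠ 0 → (GG c a n p)^[k + 1] z = 0 → k ≤ B) ∧
    ∀ (z : K) (t : ℕ), (GG c a n p)^[t] z ∉ periodicPts (GG c a n p) →
      (GG c a n p)^[t + 1] z ∈ periodicPts (GG c a n p) →
      GG c a n p ((GG c a n p)^[t + 1] z) ≠ (GG c a n p)^[t + 1] z → t ≤ B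

/-- **TOTE** (20 min; from NBE; template `P_TOTP.lean`). -/
def T_TOTE : Prop := ∀ (K : Type) [Field K] [NumberField K] (a : K) (n p : ℕ), a ≠ 0 → 6 ≤ p →
  p < n → 4 ≤ Nat.gcd n p → ∃ B : ℕ, ∀ c : K, c ≠ 0 →
    ∀ S : Finset K, (∀ z ∈ S, z ∈ periodicPts (GG c a n p) ∨ (∃ k, (GG c a n p)^[k] z = 0) ∨
      ∃ k, (GG c a n p)^[k] z ∈ periodicPts (GG c a n p) ∧
        GG c a n p ((GG c a n p)^[k] z) ≠ (GG c a n p)^[k] z) → S.card ≤ B

end Pool.Agent.TTM
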