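import Pool.Agent.TTM.TwoDef
import Pool.Agent.TTM.TargetsQ
import Pool.Agent.PDR.PowAll

set_option autoImplicit false

/-!
# TTM: two-term maps, the final statement from T_TOT, T_TOTP, T_TOTB, T_TOTE
-/

namespace Pool.Agent.TTM

open Function

section

variable {K : Type} [Field K] {a c : K}

lemma two_zero (k : ℤ) : twoMap a c k 0 = PDR.powMap a c k := by
  funext P
  cases P with
  | none =>
    unfold twoMap PDR.powMap
    simp
  | some z =>
    unfold twoMap PDR.powMap
    dsimp only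
    by_cases h : z = 0 ∧ k < 0
    · rw [if_pos h, if_pos ⟨h.1, Or.inl h.2⟩]
    · rw [if_neg h, if_neg (fun h' => h ⟨h'.1, h'.2.resolve_right (lt_irrefl 0)⟩), zpow_zero,
        mul_one]

/-- from the projective line to the field -/
lemma semi_count (g : Option K → Option K) (f : K → K)
    (hψ : ∀ P, (g P).getD 0 = f (P.getD 0)) (B : ℕ)
    (hB : ∀ S : Finset K, (∀ z ∈ S, z ∈ periodicPts f ∨ (∃ k, f^[k] z = 0) ∨
      ∃ k, f^[k] z ∈ periodicPts f ∧ f (f^[k] z) ≠ f^[k] z) → S.card ≤ B) :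
    {P : Option K | ∃ i m : ℕ, 0 < m ∧ g^[m] (g^[i] P) = g^[i] P ∧
      (i = 0 ∨ g (g^[i] P) ≠ g^[i] P ∨ g^[i] P = none ∨ g^[i] P = some 0)}.encard ≤
        ((B + 1 : ℕ) : ℕ∞) := by
  classical
  have hit : ∀ (i : ℕ) P, (g^[i] P).getD 0 = f^[i] (P.getD 0) := by
    intro i P
    induction i with
    | zero => rfl
    | succ i ih => rw [iterate_succ_apply', iterate_succ_apply', hψ, ih]
  refine PDR.encard_le_of _ (B + 1) fun s hs => ?_
  have h1 : ((s.filter fun P => P ≠ none).image fun P => P.getD 0).card ≤ B := by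
    refine hB _ fun z hz => ?_
    obtain ⟨P, hP, rfl⟩ := Finset.mem_image.1 hz
    obtain ⟨hPs, -⟩ := Finset.mem_filter.1 hP
    obtain ⟨i, m, hm, hp, hor2⟩ := hs P hPs
    have hper : f^[i] (P.getD 0) ∈ periodicPts f := by
      refine ⟨m, hm, ?_⟩
      change f^[m] (f^[i] (P.getD 0)) = f^[i] (P.getD 0)
      rw [← hit, ← hit, hp]
    rcases hor2 with h2 | h2 | h2 | h2
    · subst h2
      exact Or.inl hper
    · by_cases h0 : f^[i] (P.getD 0) = 0
      · exact Or.inr (Or.inl ⟨i, h0⟩)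
      · refine Or.inr (Or.inr ⟨i, hper, fun h3 => h2 ?_⟩)
        rw [← hit] at h0 h3
        rw [← hψ] at h3
        rcases hQ : g^[i] P with _ | y
        · rw [hQ] at h0
          exact absurd rfl h0
        · rw [hQ, Option.getD_some] at h0 h3
          rcases hR : g (some y) with _ | y'
          · rw [hR, Option.getD_none] at h3
            exact absurd h3.symm h0
          · rw [hR, Option.getD_some] at h3
            rw [h3]
    · refine Or.inr (Or.inl ⟨i, ?_⟩)
      rw [← hit, h2]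
      rfl
    · refine Or.inr (Or.inl ⟨i, ?_⟩)
      rw [← hit, h2]
      rfl
  have hinj : Set.InjOn (fun P : Option K => P.getD 0) (s.filter fun P => P ≠ none) := by
    intro P hP Q hQ hPQ
    obtain ⟨x, rfl⟩ := Option.ne_none_iff_exists'.1 (Finset.mem_filter.1 hP).2
    obtain ⟨y, rfl⟩ := Option.ne_none_iff_exists'.1 (Finset.mem_filter.1 hQ).2
    simpa using hPQ
  rw [Finset.card_image_of_injOn hinj] at h1
  have h2 : s ⊆ insert none (s.filter fun P => P ≠ none) := by
    intro P hP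
    by_cases h3 : P = none
    · rw [h3]; exact Finset.mem_insert_self _ _
    · exact Finset.mem_insert_of_mem (Finset.mem_filter.2 ⟨hP, h3⟩)
  have h4 := (Finset.card_le_card h2).trans (Finset.card_insert_le _ _)
  omega

lemma FF_zero {n d : ℕ} (hn : 1 ≤ n) (hd : 1 ≤ d) : FF a c n d 0 = 0 := by
  unfold FF
  rw [zero_pow (by omega), zero_pow (by omega), inv_zero, mul_zero, mul_zero, add_zero]

lemma GG_zero {n l : ℕ} (hn : 1 ≤ n) (hl : 1 ≤ l) : GG a c n l 0 = 0 := by
  unfold GG
  rw [zero_pow (by omega), zero_pow (by omega), mul_zero, mul_zero, add_zero]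

lemma psi_A {n d : ℕ} (hn : 1 ≤ n) (hd : 1 ≤ d) (P : Option K) :
    (twoMap a c (n : ℤ) (-(d : ℤ)) P).getD 0 = FF a c n d (P.getD 0) := by
  have h2 : -(d : ℤ) < 0 := by omega
  have h1 : (0 : ℤ) < n := by omega
  cases P with
  | none =>
    unfold twoMap
    simp only [h1, true_or, if_true, Option.getD_none, FF_zero hn hd]
  | some z =>
    unfold twoMap
    by_cases hz : z = 0
    · simp only [hz, true_and, h2, or_true, if_true, Option.getD_none, Option.getD_some,
        FF_zero hn hd]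
    · simp only [hz, false_and, if_false, Option.getD_some, zpow_natCast, zpow_neg, FF]

lemma psi_B {n d : ℕ} (hn : 1 ≤ n) (hd : 1 ≤ d) (P : Option K) :
    (twoMap a c (-(d : ℤ)) (n : ℤ) P).getD 0 = FF c a n d (P.getD 0) := by
  have h2 : -(d : ℤ) < 0 := by omega
  have h1 : (0 : ℤ) < n := by omega
  cases P with
  | none =>
    unfold twoMap
    simp only [h1, or_true, if_true, Option.getD_none, FF_zero hn hd]
  | some z =>
    unfold twoMap
    by_cases hz : z = 0
    · simp only [hz, true_and, h2, true_or, if_true, Option.getD_none, Option.getD_some,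
        FF_zero hn hd]
    · simp only [hz, false_and, if_false, Option.getD_some, zpow_natCast, zpow_neg, FF]
      ring

lemma psi_C {n l : ℕ} (hn : 1 ≤ n) (hl : 1 ≤ l) (P : Option K) :
    (twoMap a c (n : ℤ) (l : ℤ) P).getD 0 = GG a c n l (P.getD 0) := by
  have h1 : (0 : ℤ) < n := by omega
  have h2 : ¬ ((n : ℤ) < 0 ∨ (l : ℤ) < 0) := by omega
  cases P with
  | none =>
    unfold twoMap
    simp only [h1, true_or, if_true, Option.getD_none, GG_zero hn hl]
  | some z =>
    unfold twoMap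
    simp only [h2, and_false, if_false, Option.getD_some, zpow_natCast, GG]

lemma GG_comm (n l : ℕ) : GG a c n l = GG c a l n := by
  funext z
  unfold GG
  ring

end

lemma fin_of {α : Type} (f : α → α) {P : α} {i m : ℕ} (hm : 0 < m)
    (h : f^[m] (f^[i] P) = f^[i] P) : (Set.range fun n : ℕ => f^[n] P).Finite := by
  have hper : IsPeriodicPt f m (f^[i] P) := h
  have hsub : (Set.range fun n : ℕ => f^[n] P) ⊆ (fun n => f^[n] P) '' Set.Iio (i + m) := by
    rintro _ ⟨n, rfl⟩
    rcases lt_or_ge n i with hn | hn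
    · exact ⟨n, by rw [Set.mem_Iio]; omega, rfl⟩
    · obtain ⟨t, rfl⟩ := Nat.exists_eq_add_of_le hn
      refine ⟨t % m + i, ?_, ?_⟩
      · have := Nat.mod_lt t hm
        rw [Set.mem_Iio]
        omega
      · dsimp only
        rw [iterate_add_apply, hper.iterate_mod_apply, ← iterate_add_apply, add_comm t i]
  exact ((Set.finite_Iio _).image _).subset hsub

theorem two_all (hA : T_TOT) (hC : T_TOTP) (hB : T_TOTB) (hE : T_TOTE) (K : Type) [Field K]
    [NumberField K] (a : K) (k l : ℤ) (ha : a ≠ 0)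
    (h : l = 0 ∧ (5 ≤ k ∨ k ≤ -4 ∨ 3 ≤ |k| ∧ a = 1 ∧ Module.finrank ℚ K = 1) ∨
      l ≠ 0 ∧ k ≠ l ∧ (0 < k ∨ 0 < l) ∧ 4 ≤ Int.gcd k l ∧ (6 ≤ k ∨ k ≤ -4) ∧
        (0 < l → l < k → Int.gcd l (k - 1) = 1)) :
    ∃ B : ℕ, ∀ c : K, (l = 0 ∨ c ≠ 0) →
      {P : Option K | ∃ i m : ℕ, 0 < m ∧
        (twoMap a c k l)^[m] ((twoMap a c k l)^[i] P) = (twoMap a c k l)^[i] P ∧
        (l = 0 ∨ i = 0 ∨ twoMap a c k l ((twoMap a c k l)^[i] P) ≠ (twoMap a c k l)^[i] P ∨
          (twoMap a c k l)^[i] P = none ∨ (twoMap a c k l)^[i] P = some 0)}.encard ≤ B := by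
  classical
  rcases h with ⟨rfl, hk⟩ | ⟨hl0, hkl, hpos, hg, hk, hcop⟩
  · obtain ⟨B, hB⟩ := PDR.pow_all K a k ha hk
    refine ⟨B, fun c _ => le_trans (Set.encard_le_encard ?_) (hB c)⟩
    rintro P ⟨i, m, hm, hp, -⟩
    rw [two_zero] at hp
    exact fin_of _ hm hp
  · -- it is enough to treat the function on the field
    have key : ∀ (f : K → K → K) (B : ℕ),
        (∀ c P, (twoMap a c k l P).getD 0 = f c (P.getD 0)) →
        (∀ c : K, c ≠ 0 → ∀ S : Finset K, (∀ z ∈ S, z ∈ periodicPts (f c) ∨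
          (∃ k, (f c)^[k] z = 0) ∨
          ∃ k, (f c)^[k] z ∈ periodicPts (f c) ∧ f c ((f c)^[k] z) ≠ (f c)^[k] z) →
            S.card ≤ B) →
        ∃ B : ℕ, ∀ c : K, (l = 0 ∨ c ≠ 0) →
          {P : Option K | ∃ i m : ℕ, 0 < m ∧
            (twoMap a c k l)^[m] ((twoMap a c k l)^[i] P) = (twoMap a c k l)^[i] P ∧
            (l = 0 ∨ i = 0 ∨
              twoMap a c k l ((twoMap a c k l)^[i] P) ≠ (twoMap a c k l)^[i] P ∨
              (twoMap a c k l)^[i] P = none ∨ (twoMap a c k l)^[i] P = some 0)}.encard ≤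
                B := by
      intro f B h1 h2
      refine ⟨B + 1, fun c hc => le_trans (Set.encard_le_encard ?_)
        (semi_count (twoMap a c k l) (f c) (h1 c) B (h2 c (hc.resolve_left hl0)))⟩
      rintro P ⟨i, m, hm, hp, hP⟩
      exact ⟨i, m, hm, hp, hP.resolve_left hl0⟩
    rcases lt_or_gt_of_ne hl0 with hneg | hlpos
    · -- `l < 0 < k`
      obtain ⟨n, rfl⟩ : ∃ n : ℕ, k = n := ⟨k.toNat, by omega⟩
      obtain ⟨d, rfl⟩ : ∃ d : ℕ, l = -(d : ℤ) := ⟨(-l).toNat, by omega⟩
      rw [Int.gcd_neg, Int.gcd_natCast_natCast] at hg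
      obtain ⟨B, hB'⟩ := hA K a n d ha (by omega) (by omega) hg
      exact key (fun c => FF a c n d) B (fun c P => psi_A (by omega) (by omega) P) hB'
    · obtain ⟨l', rfl⟩ : ∃ l' : ℕ, l = l' := ⟨l.toNat, by omega⟩
      rcases hk with hk6 | hk4
      · obtain ⟨n, rfl⟩ : ∃ n : ℕ, k = n := ⟨k.toNat, by omega⟩
        rw [Int.gcd_natCast_natCast] at hg
        rcases lt_or_gt_of_ne hkl with h1 | h1
        · -- `0 < k < l`
          obtain ⟨B, hB'⟩ := hE K a l' n ha (by omega) (by omega) (by rwa [Nat.gcd_comm])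
          refine key (fun c => GG c a l' n) B (fun c P => ?_) hB'
          rw [psi_C (by omega) (by omega), GG_comm]
        · -- `0 < l < k`
          have h2 := hcop (by omega) h1
          have e1 : ((n : ℤ) - 1) = ((n - 1 : ℕ) : ℤ) := by
            push_cast [Nat.cast_sub (by omega : 1 ≤ n)]
            ring
          rw [e1, Int.gcd_natCast_natCast] at h2
          obtain ⟨B, hB'⟩ := hC K a n l' ha (by omega) (by omega) (by omega) hg h2
          exact key (fun c => GG a c n l') B (fun c P => psi_C (by omega) (by omega) P) hB'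
      · -- `k < 0 < l`
        obtain ⟨d, rfl⟩ : ∃ d : ℕ, k = -(d : ℤ) := ⟨(-k).toNat, by omega⟩
        rw [Int.neg_gcd, Int.gcd_natCast_natCast] at hg
        obtain ⟨B, hB'⟩ := hB K a l' d ha (by omega) (by omega) (by rwa [Nat.gcd_comm])
        exact key (fun c => FF c a l' d) B (fun c P => psi_B (by omega) (by omega) P) hB'

end Pool.Agent.TTM
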