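import Pool.Agent.TTM.TargetsQ

set_option autoImplicit false

/-! # TTM, ESCB: positions of the points with finite orbit, leading coefficient -/

namespace Pool.Agent.TTM

open Function

namespace ESCB_

variable {K Γ : Type} [Field K] [LinearOrderedCommGroupWithZero Γ]

theorem no_orbit (w : Valuation K Γ) {f : K → K} {S : K → Prop}
    (hS : ∀ z, S z → w z < w (f z) ∧ S (f z)) {z : K}
    (hz : (Set.range fun k : ℕ => f^[k] z).Finite) : ¬ S z := by
  intro hR
  have hk : ∀ k : ℕ, S (f^[k] z) := by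
    intro k
    induction k with
    | zero => exact hR
    | succ k ih =>
      rw [Function.iterate_succ_apply']
      exact (hS _ ih).2
  have hm : StrictMono fun k : ℕ => w (f^[k] z) := by
    refine strictMono_nat_of_lt_succ (fun k => ?_)
    rw [Function.iterate_succ_apply']
    exact (hS _ (hk k)).1
  have hinj : Function.Injective fun k : ℕ => f^[k] z := fun i j hij =>
    hm.injective (congrArg w hij)
  exact Set.infinite_range_of_injective hinj hz

theorem fo_next {a c : K} {n d : ℕ} {x : K} (h : Fo c a n d x) : Fo c a n d (FF c a n d x) := by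
  refine Set.Finite.subset h ?_
  rintro _ ⟨k, rfl⟩
  exact ⟨k + 1, rfl⟩

theorem w_fst (w : Valuation K Γ) (c : K) (n : ℕ) (z : K) :
    w (c * z ^ n) = w c * w z ^ n := by
  rw [map_mul, map_pow]

theorem w_snd (w : Valuation K Γ) {a : K} (ha : w a = 1) (d : ℕ) (z : K) :
    w (a * (z ^ d)⁻¹) = (w z ^ d)⁻¹ := by
  rw [map_mul, map_inv₀, map_pow, ha, one_mul]

theorem w_big (w : Valuation K Γ) {a c : K} {n d : ℕ} (ha : w a = 1) {z : K} (hz : z ≠ 0)
    (hc : 1 < w c * w z ^ (n + d)) : w (FF c a n d z) = w c * w z ^ n := by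
  have hz0 : 0 < w z := zero_lt_iff.mpr ((Valuation.ne_zero_iff w).mpr hz)
  have h1 : (w z ^ d)⁻¹ < w c * w z ^ n := by
    rw [inv_lt_iff_one_lt_mul₀ (pow_pos hz0 d), mul_assoc, ← pow_add]
    exact hc
  unfold FF
  rw [Valuation.map_add_eq_of_lt_left w (by rw [w_fst, w_snd w ha]; exact h1), w_fst]

theorem w_small (w : Valuation K Γ) {a c : K} {n d : ℕ} (ha : w a = 1) {z : K} (hz : z ≠ 0)
    (hc : w c * w z ^ (n + d) < 1) : w (FF c a n d z) = (w z ^ d)⁻¹ := by
  have hz0 : 0 < w z := zero_lt_iff.mpr ((Valuation.ne_zero_iff w).mpr hz)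
  have h1 : w c * w z ^ n < (w z ^ d)⁻¹ := by
    rw [← one_div, lt_div_iff₀ (pow_pos hz0 d), mul_assoc, ← pow_add]
    exact hc
  unfold FF
  rw [Valuation.map_add_eq_of_lt_right w (by rw [w_fst, w_snd w ha]; exact h1), w_snd w ha]

/-- the region of escape -/
def R (w : Valuation K Γ) (c : K) (n : ℕ) (z : K) : Prop := 1 < w z ∧ 1 < w c * w z ^ (n - 1)

/-- the region of escape for large parameters -/
def R' (w : Valuation K Γ) (c : K) (n d : ℕ) (z : K) : Prop := z ≠ 0 ∧ 1 < w c * w z ^ (n + d)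

theorem ne_zero_of_one_lt (w : Valuation K Γ) {z : K} (h : 1 < w z) : z ≠ 0 := by
  rintro rfl
  rw [map_zero] at h
  exact absurd h (not_lt.mpr zero_le_one)

theorem R_step (w : Valuation K Γ) {a c : K} {n d : ℕ} (hn : 3 ≤ n) (ha : w a = 1) {z : K}
    (hR : R w c n z) : w z < w (FF c a n d z) ∧ R w c n (FF c a n d z) := by
  have hz := ne_zero_of_one_lt w hR.1
  have hz0 : 0 < w z := zero_lt_iff.mpr ((Valuation.ne_zero_iff w).mpr hz)
  have h0 : w z ^ (n - 1) ≤ w z ^ (n + d) := pow_le_pow_right₀ hR.1.le (by omega)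
  have h1 := w_big w (d := d) ha hz (lt_of_lt_of_le hR.2 (mul_le_mul_right h0 _))
  have h2 : w z < w (FF c a n d z) := by
    rw [h1]
    have h3 : w c * w z ^ n = w c * w z ^ (n - 1) * w z := by
      rw [mul_assoc, ← pow_succ, Nat.sub_add_cancel (by omega)]
    rw [h3]
    exact lt_mul_of_one_lt_left hz0 hR.2
  refine ⟨h2, hR.1.trans h2, lt_of_lt_of_le hR.2 ?_⟩
  exact mul_le_mul_right (pow_le_pow_left₀ zero_le h2.le _) _

theorem R'_step (w : Valuation K Γ) {a c : K} {n d : ℕ} (hn : 3 ≤ n) (ha : w a = 1)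
    (hc : 1 < w c) {z : K} (hR : R' w c n d z) :
    w z < w (FF c a n d z) ∧ R' w c n d (FF c a n d z) := by
  have hz := hR.1
  have hz0 : 0 < w z := zero_lt_iff.mpr ((Valuation.ne_zero_iff w).mpr hz)
  have h1 := w_big w ha hz hR.2
  have h2 : w z < w (FF c a n d z) := by
    rw [h1]
    have h3 : w c * w z ^ n = w c * w z ^ (n - 1) * w z := by
      rw [mul_assoc, ← pow_succ, Nat.sub_add_cancel (by omega)]
    rw [h3]
    refine lt_mul_of_one_lt_left hz0 ?_
    rcases le_total 1 (w z) with h4 | h4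
    · exact lt_of_lt_of_le hc (le_mul_of_one_le_right' (one_le_pow₀ h4))
    · refine lt_of_lt_of_le hR.2 (mul_le_mul_right ?_ _)
      exact pow_le_pow_right_of_le_one' h4 (by omega)
  have h5 : FF c a n d z ≠ 0 := by
    intro h
    rw [h, map_zero] at h2
    exact absurd h2 (not_lt.mpr zero_le)
  refine ⟨h2, h5, lt_of_lt_of_le hR.2 ?_⟩
  exact mul_le_mul_right (pow_le_pow_left₀ zero_le h2.le _) _

theorem main (w : Valuation K Γ) {a c : K} {n d : ℕ} (hn : 3 ≤ n) (hd : 2 ≤ d) (ha : w a = 1)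
    (hc : c ≠ 0) {x : K} (hx : Fo c a n d x) (hx0 : x ≠ 0) :
    (w c = 1 → w x = 1) ∧ (w c < 1 → FF c a n d x ≠ 0 → w c * w x ^ (n + d) ≠ 1) ∧
    (1 < w c → w c * w x ^ (n + d) = 1) := by
  have hwx : 0 < w x := zero_lt_iff.mpr ((Valuation.ne_zero_iff w).mpr hx0)
  have hwc : 0 < w c := zero_lt_iff.mpr ((Valuation.ne_zero_iff w).mpr hc)
  have nR : ∀ {z : K}, Fo c a n d z → ¬ R w c n z := fun hz =>
    no_orbit w (fun z hR => R_step w (d := d) hn ha hR) hz
  refine ⟨?_, ?_, ?_⟩
  · intro h1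
    rcases lt_trichotomy (w x) 1 with h2 | h2 | h2
    · exfalso
      have h3 : w c * w x ^ (n + d) < 1 := by
        rw [h1, one_mul]
        exact pow_lt_one₀ zero_le h2 (by omega)
      have h4 := w_small w ha hx0 h3
      have h5 : 1 < w (FF c a n d x) := by
        rw [h4]
        exact (one_lt_inv₀ (pow_pos hwx d)).mpr (pow_lt_one₀ zero_le h2 (by omega))
      refine nR (fo_next hx) ⟨h5, ?_⟩
      rw [h1, one_mul]
      exact one_lt_pow₀ h5 (by omega)
    · exact h2
    · refine absurd ⟨h2, ?_⟩ (nR hx)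
      rw [h1, one_mul]
      exact one_lt_pow₀ h2 (by omega)
  · intro h1 hy h2
    have h3 : 1 < w x := by
      by_contra h3
      push Not at h3
      have h4 : w x ^ (n + d) ≤ 1 := pow_le_one₀ zero_le h3
      have h5 : w c * w x ^ (n + d) ≤ w c * 1 := mul_le_mul_right h4 _
      rw [h2, mul_one] at h5
      exact absurd h1 (not_lt.mpr h5)
    set y := FF c a n d x with hydef
    have hwy : 0 < w y := zero_lt_iff.mpr ((Valuation.ne_zero_iff w).mpr hy)
    have h4 : w y ≤ (w x ^ d)⁻¹ := by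
      rw [hydef]
      unfold FF
      refine (Valuation.map_add w _ _).trans ?_
      have h5 : w c * w x ^ n = (w x ^ d)⁻¹ := by
        refine eq_inv_of_mul_eq_one_left ?_
        rw [mul_assoc, ← pow_add]
        exact h2
      rw [w_fst, w_snd w ha, h5, max_self]
    have h5 : w y < 1 := lt_of_le_of_lt h4 (inv_lt_one_of_one_lt₀ (one_lt_pow₀ h3 (by omega)))
    have h6 : w c * w y ^ (n + d) < 1 := by
      have h7 : w c * w y ^ (n + d) ≤ w c * 1 :=
        mul_le_mul_right (pow_le_one₀ zero_le h5.le) _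
      rw [mul_one] at h7
      exact lt_of_le_of_lt h7 h1
    have h7 := w_small w ha hy h6
    have h8 : w x ^ (d * d) ≤ w (FF c a n d y) := by
      rw [h7, le_inv_comm₀ (pow_pos hwx _) (pow_pos hwy _), pow_mul, ← inv_pow]
      exact pow_le_pow_left₀ zero_le h4 _
    have h9 : 1 < w (FF c a n d y) :=
      lt_of_lt_of_le (one_lt_pow₀ h3 (by positivity)) h8
    refine nR (fo_next (fo_next hx)) ⟨h9, ?_⟩
    calc (1 : Γ) = w c * w x ^ (n + d) := h2.symm
      _ < w c * w x ^ (d * d * (n - 1)) := by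
        refine mul_lt_mul_of_pos_left (pow_lt_pow_right₀ h3 ?_) hwc
        obtain ⟨e, rfl⟩ : ∃ e, n = e + 1 := ⟨n - 1, by omega⟩
        rw [Nat.add_sub_cancel]
        have h10 : 2 ≤ e := by omega
        nlinarith [Nat.mul_le_mul hd h10, Nat.mul_le_mul hd hd,
          Nat.mul_le_mul (Nat.mul_le_mul hd hd) h10]
      _ = w c * (w x ^ (d * d)) ^ (n - 1) := by rw [pow_mul]
      _ ≤ w c * w (FF c a n d y) ^ (n - 1) :=
        mul_le_mul_right (pow_le_pow_left₀ zero_le h8 _) _
  · intro h1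
    have nR' : ∀ {z : K}, Fo c a n d z → ¬ R' w c n d z := fun hz =>
      no_orbit w (fun z hR => R'_step w hn ha h1 hR) hz
    rcases lt_trichotomy (w c * w x ^ (n + d)) 1 with h2 | h2 | h2
    · exfalso
      have h3 := w_small w ha hx0 h2
      have h4 : w x ^ (n + d) < 1 := by
        by_contra h5
        push Not at h5
        exact absurd h2 (not_lt.mpr (h1.le.trans (le_mul_of_one_le_right' h5)))
      have h5 : 1 < w c * w (FF c a n d x) ^ (n + d) := by
        rw [h3, inv_pow, ← pow_mul, mul_comm d, pow_mul]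
        refine lt_of_lt_of_le h1 (le_mul_of_one_le_right' ?_)
        exact (one_le_inv₀ (pow_pos (pow_pos hwx _) _)).mpr (pow_le_one₀ zero_le h4.le)
      refine nR' (fo_next hx) ⟨?_, h5⟩
      intro h
      rw [h, map_zero, zero_pow (by omega), mul_zero] at h5
      exact absurd h5 (not_lt.mpr zero_le)
    · exact h2
    · exact absurd ⟨hx0, h2⟩ (nR' hx)

end ESCB_

theorem p_ESCB : T_ESCB := by
  intro K Γ _ _ w a c n d h ha hc x hx hx0
  exact ESCB_.main w h.hn h.hd ha hc hx hx0

end Pool.Agent.TTM
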