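import Pool.Agent.TTM.TargetsQ

set_option autoImplicit false

/-! # TTM, ESCE: positions of the points with finite orbit, the parameter leads -/

namespace Pool.Agent.TTM

open Function

namespace ESCE_

variable {K Γ : Type} [Field K] [LinearOrderedCommGroupWithZero Γ]

theorem fo_next {f : K → K} {x : K} (h : FoG f x) : FoG f (f x) := by
  refine Set.Finite.subset h ?_
  rintro _ ⟨k, rfl⟩
  exact ⟨k + 1, rfl⟩

theorem w_fst (w : Valuation K Γ) (c : K) (n : ℕ) (z : K) :
    w (c * z ^ n) = w c * w z ^ n := by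
  rw [map_mul, map_pow]

theorem w_snd (w : Valuation K Γ) {a : K} (ha : w a = 1) (p : ℕ) (z : K) :
    w (a * z ^ p) = w z ^ p := by
  rw [map_mul, map_pow, ha, one_mul]

theorem split {n p : ℕ} (h : p < n) (b g : Γ) : b * g ^ n = b * g ^ (n - p) * g ^ p := by
  rw [mul_assoc, ← pow_add]
  congr 2
  omega

theorem w_big (w : Valuation K Γ) {a c : K} {n p : ℕ} (hn : p < n) (ha : w a = 1) {z : K}
    (hz : z ≠ 0) (hc : 1 < w c * w z ^ (n - p)) : w (GG c a n p z) = w c * w z ^ n := by
  have hz0 : 0 < w z := zero_lt_iff.mpr ((Valuation.ne_zero_iff w).mpr hz)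
  have h1 : w z ^ p < w c * w z ^ n := by
    rw [split hn]
    calc w z ^ p = 1 * w z ^ p := (one_mul _).symm
      _ < _ := mul_lt_mul_of_pos_right hc (pow_pos hz0 p)
  unfold GG
  rw [Valuation.map_add_eq_of_lt_left w (by rw [w_fst w c, w_snd w ha]; exact h1), w_fst w c]

theorem w_small (w : Valuation K Γ) {a c : K} {n p : ℕ} (hn : p < n) (ha : w a = 1) {z : K}
    (hz : z ≠ 0) (hc : w c * w z ^ (n - p) < 1) : w (GG c a n p z) = w z ^ p := by
  have hz0 : 0 < w z := zero_lt_iff.mpr ((Valuation.ne_zero_iff w).mpr hz)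
  have h1 : w c * w z ^ n < w z ^ p := by
    rw [split hn]
    calc w c * w z ^ (n - p) * w z ^ p < 1 * w z ^ p :=
          mul_lt_mul_of_pos_right hc (pow_pos hz0 p)
      _ = w z ^ p := one_mul _
  unfold GG
  rw [Valuation.map_add_eq_of_lt_right w (by rw [w_fst w c, w_snd w ha]; exact h1),
    w_snd w ha]

/-- the first region of escape -/
def R (w : Valuation K Γ) (c : K) (n p : ℕ) (z : K) : Prop :=
  1 < w z ∧ 1 < w c * w z ^ (n - p)

theorem R_ne {w : Valuation K Γ} {c : K} {n p : ℕ} {z : K} (h : R w c n p z) : z ≠ 0 := by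
  rintro rfl
  have := h.1
  rw [map_zero] at this
  exact absurd this (not_lt.mpr zero_le_one)

theorem R_step (w : Valuation K Γ) {a c : K} {n p : ℕ} (hp : 2 ≤ p) (hn : p < n) (ha : w a = 1)
    {z : K} (hR : R w c n p z) : w z < w (GG c a n p z) ∧ R w c n p (GG c a n p z) := by
  have h1 := w_big w hn ha (R_ne hR) hR.2
  have hz0 : 0 < w z := lt_trans zero_lt_one hR.1
  have h2 : w z < w (GG c a n p z) := by
    rw [h1, split hn]
    calc w z ≤ w z ^ p := by
          have : w z ^ 1 ≤ w z ^ p := pow_le_pow_right₀ hR.1.le (by omega)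
          simpa using this
      _ = 1 * w z ^ p := (one_mul _).symm
      _ < _ := mul_lt_mul_of_pos_right hR.2 (pow_pos hz0 p)
  refine ⟨h2, hR.1.trans h2, lt_of_lt_of_le hR.2 ?_⟩
  exact mul_le_mul_right (pow_le_pow_left₀ zero_le' h2.le _) _

theorem not_R (w : Valuation K Γ) {a c : K} {n p : ℕ} (hp : 2 ≤ p) (hn : p < n) (ha : w a = 1)
    {z : K} (hz : FoG (GG c a n p) z) : ¬ R w c n p z := by
  intro hR
  have hk : ∀ k : ℕ, R w c n p ((GG c a n p)^[k] z) := by
    intro k
    induction k with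
    | zero => exact hR
    | succ k ih =>
      rw [Function.iterate_succ_apply']
      exact (R_step w hp hn ha ih).2
  have hm : StrictMono fun k : ℕ => w ((GG c a n p)^[k] z) := by
    refine strictMono_nat_of_lt_succ (fun k => ?_)
    rw [Function.iterate_succ_apply']
    exact (R_step w hp hn ha (hk k)).1
  have hinj : Function.Injective fun k : ℕ => (GG c a n p)^[k] z := fun i j hij =>
    hm.injective (congrArg w hij)
  exact Set.infinite_range_of_injective hinj hz

/-- the second region of escape -/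
def Q (w : Valuation K Γ) (c : K) (n p : ℕ) (z : K) : Prop :=
  z ≠ 0 ∧ w z < 1 ∧ w c * w z ^ (n - p) < 1

theorem Q_step (w : Valuation K Γ) {a c : K} {n p : ℕ} (hp : 2 ≤ p) (hn : p < n) (ha : w a = 1)
    {z : K} (hQ : Q w c n p z) : w (GG c a n p z) < w z ∧ Q w c n p (GG c a n p z) := by
  obtain ⟨hz, h1, h2⟩ := hQ
  have hz0 : 0 < w z := zero_lt_iff.mpr ((Valuation.ne_zero_iff w).mpr hz)
  have h3 := w_small w hn ha hz h2
  have h4 : w (GG c a n p z) < w z := by
    rw [h3]
    have : w z ^ p < w z ^ 1 := pow_lt_pow_right_of_lt_one₀ hz0 h1 (by omega)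
    simpa using this
  refine ⟨h4, ?_, h4.trans h1, ?_⟩
  · rw [← Valuation.ne_zero_iff w, h3]
    exact pow_ne_zero _ hz0.ne'
  · refine lt_of_le_of_lt ?_ h2
    exact mul_le_mul_right (pow_le_pow_left₀ zero_le' h4.le _) _

theorem not_Q (w : Valuation K Γ) {a c : K} {n p : ℕ} (hp : 2 ≤ p) (hn : p < n) (ha : w a = 1)
    {z : K} (hz : FoG (GG c a n p) z) : ¬ Q w c n p z := by
  intro hQ
  have hk : ∀ k : ℕ, Q w c n p ((GG c a n p)^[k] z) := by
    intro k
    induction k with
    | zero => exact hQ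
    | succ k ih =>
      rw [Function.iterate_succ_apply']
      exact (Q_step w hp hn ha ih).2
  have hm : StrictAnti fun k : ℕ => w ((GG c a n p)^[k] z) := by
    refine strictAnti_nat_of_succ_lt (fun k => ?_)
    rw [Function.iterate_succ_apply']
    exact (Q_step w hp hn ha (hk k)).1
  have hinj : Function.Injective fun k : ℕ => (GG c a n p)^[k] z := fun i j hij =>
    hm.injective (congrArg w hij)
  exact Set.infinite_range_of_injective hinj hz

theorem main (w : Valuation K Γ) {a c : K} {n p : ℕ} (hp : 2 ≤ p) (hn : p < n) (ha : w a = 1)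
    (hc : c ≠ 0) {x : K} (hx : FoG (GG c a n p) x) (hx0 : x ≠ 0) :
    (w c = 1 → w x = 1) ∧
    (1 < w c → GG c a n p x ≠ 0 → w c * w x ^ (n - p) ≠ 1) ∧
    (w c < 1 → w c * w x ^ (n - p) ≤ 1 ∧ 1 ≤ w x) := by
  have hwx : 0 < w x := zero_lt_iff.mpr ((Valuation.ne_zero_iff w).mpr hx0)
  have hwc : 0 < w c := zero_lt_iff.mpr ((Valuation.ne_zero_iff w).mpr hc)
  refine ⟨?_, ?_, ?_⟩
  · intro h1
    refine le_antisymm ?_ ?_
    · by_contra h2
      push Not at h2
      refine not_R w hp hn ha hx ⟨h2, ?_⟩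
      rw [h1, one_mul]
      exact one_lt_pow₀ h2 (by omega)
    · by_contra h2
      push Not at h2
      refine not_Q w hp hn ha hx ⟨hx0, h2, ?_⟩
      rw [h1, one_mul]
      exact pow_lt_one₀ zero_le' h2 (by omega)
  · intro h1 hy h2
    have h3 : w x < 1 := by
      by_contra h3
      push Not at h3
      have h4 : 1 ≤ w x ^ (n - p) := one_le_pow₀ h3
      refine absurd h2 (ne_of_gt (lt_of_lt_of_le h1 ?_))
      calc w c = w c * 1 := (mul_one _).symm
        _ ≤ _ := mul_le_mul_right h4 _
    set y := GG c a n p x with hydef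
    have h4 : w y ≤ w x ^ p := by
      rw [hydef]
      unfold GG
      refine (Valuation.map_add w _ _).trans ?_
      rw [w_fst w c, w_snd w ha, split hn, h2, one_mul, max_self]
    have h5 : w y < w x := by
      refine lt_of_le_of_lt h4 ?_
      have : w x ^ p < w x ^ 1 := pow_lt_pow_right_of_lt_one₀ hwx h3 (by omega)
      simpa using this
    refine not_Q w hp hn ha (fo_next hx) ⟨hy, h5.trans h3, ?_⟩
    calc w c * w y ^ (n - p) < w c * w x ^ (n - p) :=
          mul_lt_mul_of_pos_left (pow_lt_pow_left₀ h5 zero_le' (by omega)) hwc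
      _ = 1 := h2
  · intro h1
    have h0 : w x ≤ 1 → w c * w x ^ (n - p) < 1 := by
      intro h3
      refine lt_of_le_of_lt ?_ h1
      calc w c * w x ^ (n - p) ≤ w c * 1 := mul_le_mul_right (pow_le_one₀ zero_le' h3) _
        _ = w c := mul_one _
    constructor
    · by_contra h2
      push Not at h2
      have h3 : 1 < w x := by
        by_contra h3
        push Not at h3
        exact absurd (h0 h3) (not_lt.mpr h2.le)
      exact not_R w hp hn ha hx ⟨h3, h2⟩
    · by_contra h2
      push Not at h2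
      exact not_Q w hp hn ha hx ⟨hx0, h2, h0 h2.le⟩

end ESCE_

theorem p_ESCE : T_ESCE := by
  intro K Γ _ _ w a c n p h ha hc x hx hx0
  exact ESCE_.main w h.hp h.hn ha hc hx hx0

end Pool.Agent.TTM
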