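import Pool.Agent.TTM.TargetsP

set_option autoImplicit false

/-!
# TTM (MP_c076ed_nt), job L2P: orbits without turning position, for `a z ^ n + c z ^ l`
-/

namespace Pool.Agent.TTM

open Function

namespace L2P_

variable {K Γ : Type} [Field K] [LinearOrderedCommGroupWithZero Γ]

theorem w_root (w : Valuation K Γ) {ω : K} {n : ℕ} (hn : n ≠ 0) (h : ω ^ n = 1) : w ω = 1 := by
  have h1 : (w ω) ^ n = 1 := by rw [← map_pow, h, map_one]
  exact (pow_eq_one_iff.mp h1).resolve_right hn

/-- the chain for the pairs `(x_(k+1), x_(k+1+j e))` -/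
theorem chain_mul (w : Valuation K Γ) (f : K → K) (x : K) (e : ℕ)
    (h : ∀ k : ℕ, w (f^[k + 1] x) = w (f^[k + 1 + e] x) ∧
      w (f^[k + 1] x - f^[k + 1 + e] x) < w (f^[k + 1] x)) (hne : ∀ k, f^[k + 1] x ≠ 0) (j : ℕ) :
    ∀ k : ℕ, w (f^[k + 1] x) = w (f^[k + 1 + j * e] x) ∧
      w (f^[k + 1] x - f^[k + 1 + j * e] x) < w (f^[k + 1] x) := by
  induction j with
  | zero =>
    intro k
    rw [zero_mul, add_zero, sub_self, map_zero]
    exact ⟨rfl, zero_lt_iff.mpr ((w.ne_zero_iff).mpr (hne k))⟩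
  | succ j ih =>
    intro k
    obtain ⟨a1, a2⟩ := ih k
    obtain ⟨b1, b2⟩ := h (k + j * e)
    have e1 : k + j * e + 1 = k + 1 + j * e := by ring
    have e2 : k + 1 + j * e + e = k + 1 + (j + 1) * e := by ring
    rw [e1, e2] at b1 b2
    refine ⟨a1.trans b1, ?_⟩
    have e3 : f^[k + 1] x - f^[k + 1 + (j + 1) * e] x =
        (f^[k + 1] x - f^[k + 1 + j * e] x) +
          (f^[k + 1 + j * e] x - f^[k + 1 + (j + 1) * e] x) := by ring
    rw [e3]
    refine (w.map_add _ _).trans_lt (max_lt a2 ?_)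
    rw [a1]
    exact b2

/-- one step -/
theorem step (h2 : T_ST2P) {w : Valuation K Γ} {a c : K} {n l : ℕ} (hH : HP w a n l)
    (hc : c ≠ 0) {x y ω : K} (hx : x ≠ 0) (hy : y ≠ 0)
    (hX : GG a c n l x ≠ 0 → w x ^ (n - l) ≠ w c) (hY : GG a c n l y ≠ 0 → w y ^ (n - l) ≠ w c)
    (hne : GG a c n l x ≠ GG a c n l y) (hω : Om n l ω) (hw : w x = w y)
    (hlt : w (x - ω * y) < w x) :
    GG a c n l x ≠ 0 ∧ GG a c n l y ≠ 0 ∧ w (GG a c n l x) = w (GG a c n l y) ∧
      w (GG a c n l x - GG a c n l y) * w x = w (x - ω * y) * w (GG a c n l x) := by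
  refine h2 K Γ w a c n l hH hc x y ω hx hy hw ?_ hω hlt
  by_cases h0 : GG a c n l x = 0
  · have h0' : GG a c n l y ≠ 0 := fun h => hne (h0.trans h.symm)
    rw [hw]
    exact hY h0'
  · exact hX h0

/-- the chain -/
theorem chain (h2 : T_ST2P) {w : Valuation K Γ} {a c : K} {n l : ℕ} (hH : HP w a n l)
    (hc : c ≠ 0) {x y ω : K} (hx : x ≠ 0) (hy : y ≠ 0) (hsep : SepG (GG a c n l) x y)
    (hω : Om n l ω)
    (hX : ∀ k : ℕ, (GG a c n l)^[k + 1] x ≠ 0 → w ((GG a c n l)^[k] x) ^ (n - l) ≠ w c)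
    (hY : ∀ k : ℕ, (GG a c n l)^[k + 1] y ≠ 0 → w ((GG a c n l)^[k] y) ^ (n - l) ≠ w c)
    (hw : w x = w y) (hlt : w (x - ω * y) < w x) (k : ℕ) :
    (GG a c n l)^[k + 1] x ≠ 0 ∧ (GG a c n l)^[k + 1] y ≠ 0 ∧
      w ((GG a c n l)^[k + 1] x) = w ((GG a c n l)^[k + 1] y) ∧
      w ((GG a c n l)^[k + 1] x - (GG a c n l)^[k + 1] y) * w x =
        w (x - ω * y) * w ((GG a c n l)^[k + 1] x) := by
  have hwx : w x ≠ 0 := (Valuation.ne_zero_iff w).2 hx
  have hwx0 : 0 < w x := zero_lt_iff.2 hwx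
  induction k with
  | zero =>
    have hne := hsep 0 hx hy
    have hX0 := hX 0
    have hY0 := hY 0
    rw [Function.iterate_succ_apply', Function.iterate_zero_apply] at hX0 hY0
    rw [Function.iterate_succ_apply', Function.iterate_succ_apply', Function.iterate_zero_apply,
      Function.iterate_zero_apply]
    rw [Function.iterate_succ_apply', Function.iterate_succ_apply', Function.iterate_zero_apply,
      Function.iterate_zero_apply] at hne
    exact step h2 hH hc hx hy hX0 hY0 hne hω hw hlt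
  | succ k ih =>
    obtain ⟨i1, i2, i3, i4⟩ := ih
    have hne := hsep (k + 1) i1 i2
    have hXk := hX (k + 1)
    have hYk := hY (k + 1)
    rw [Function.iterate_succ_apply' _ (k + 1)] at hXk hYk
    rw [Function.iterate_succ_apply' _ (k + 1), Function.iterate_succ_apply' _ (k + 1)] at hne
    rw [Function.iterate_succ_apply' _ (k + 1), Function.iterate_succ_apply' _ (k + 1)]
    generalize (GG a c n l)^[k + 1] x = u at i1 i3 i4 hne hXk ⊢
    generalize (GG a c n l)^[k + 1] y = v at i2 i3 i4 hne hYk ⊢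
    have hwu : w u ≠ 0 := (Valuation.ne_zero_iff w).2 i1
    have hwu0 : 0 < w u := zero_lt_iff.2 hwu
    have hlt' : w (u - 1 * v) < w u := by
      rw [one_mul]
      by_contra hcon
      push Not at hcon
      have e1 : w u * w x ≤ w (u - v) * w x := mul_le_mul_left hcon _
      rw [i4] at e1
      have e2 : w (x - ω * y) * w u < w x * w u := mul_lt_mul_of_pos_right hlt hwu0
      rw [mul_comm (w x)] at e2
      exact absurd (e1.trans_lt e2) (lt_irrefl _)
    obtain ⟨j1, j2, j3, j4⟩ := step h2 hH hc i1 i2 hXk hYk hne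
      (show Om n l (1 : K) from ⟨one_pow _, one_pow _⟩) i3 hlt'
    refine ⟨j1, j2, j3, ?_⟩
    rw [one_mul] at j4
    refine mul_right_cancel₀ hwu ?_
    calc w (GG a c n l u - GG a c n l v) * w x * w u
        = (w (GG a c n l u - GG a c n l v) * w u) * w x := by
          rw [mul_assoc, mul_comm (w x), ← mul_assoc]
      _ = (w (u - v) * w x) * w (GG a c n l u) := by
          rw [j4, mul_assoc, mul_comm (w (GG a c n l u)), ← mul_assoc]
      _ = (w (x - ω * y) * w u) * w (GG a c n l u) := by rw [i4]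
      _ = _ := by rw [mul_assoc, mul_comm (w u), ← mul_assoc]

end L2P_

open L2P_

theorem p_L2P (h2 : T_ST2P) (h3 : T_SEPG) : T_L2P := by
  intro K Γ _ _ w a c n l hw hc0 x y ω hPR hOm hω1 hX hY
  obtain ⟨hx, hy, hcase⟩ := hPR
  have hn2 := hw.hn
  have hl2 := hw.hl
  have hG0 : GG a c n l 0 = 0 := by
    unfold GG
    rw [zero_pow (by omega), zero_pow (by omega), mul_zero, mul_zero, add_zero]
  obtain ⟨-, -, hSep⟩ := h3 K (GG a c n l) hG0 x y ⟨hx, hy, hcase⟩
  have hwω : w ω = 1 := w_root w (by omega) hOm.1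
  have hwy : w (ω * y) = w y := by rw [map_mul, hwω, one_mul]
  have hle : w (x - ω * y) ≤ max (w x) (w y) := by
    have := w.map_sub x (ω * y)
    rwa [hwy] at this
  by_contra hne
  have hlt : w (x - ω * y) < max (w x) (w y) := lt_of_le_of_ne hle hne
  have hxy : w x = w y := by
    by_contra hne2
    rcases lt_or_gt_of_ne hne2 with h | h
    · have := w.map_sub_eq_of_lt_right (x := x) (y := ω * y) (by rw [hwy]; exact h)
      rw [this, hwy, max_eq_right h.le] at hlt
      exact lt_irrefl _ hlt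
    · have := w.map_sub_eq_of_lt_left (x := x) (y := ω * y) (by rw [hwy]; exact h)
      rw [this, max_eq_left h.le] at hlt
      exact lt_irrefl _ hlt
  rw [← hxy, max_self] at hlt
  have hwx0 : w x ≠ 0 := (w.ne_zero_iff).mpr hx
  have hch := chain h2 hw hc0 hx hy hSep hOm hX hY hxy hlt
  set f := GG a c n l with hf
  rcases hcase with ⟨hpx, hpy, -⟩ | ⟨i, -, hxi, -, -⟩ | ⟨e, T, L, hye, hnp, hL, hL0, hLe⟩
  · -- both periodic
    obtain ⟨N₁, hN₁, p1⟩ := hpx
    obtain ⟨N₂, hN₂, p2⟩ := hpy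
    have q1 : f^[N₁ * N₂] x = x := p1.mul_const N₂
    have q2 : f^[N₁ * N₂] y = y := p2.const_mul N₁
    have hN : N₁ * N₂ = (N₁ * N₂ - 1) + 1 := by
      have : 0 < N₁ * N₂ := Nat.mul_pos hN₁ hN₂
      omega
    obtain ⟨-, -, -, r⟩ := hch (N₁ * N₂ - 1)
    rw [← hN, q1, q2] at r
    have r' : w (x - y) = w (x - ω * y) := mul_right_cancel₀ hwx0 r
    have r2 : w ((1 - ω) * y) < w y := by
      have e1 : (1 - ω) * y = (x - ω * y) - (x - y) := by ring
      rw [e1]
      refine (w.map_sub _ _).trans_lt (max_lt ?_ ?_)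
      · rw [← hxy]; exact hlt
      · rw [r', ← hxy]; exact hlt
    rw [map_mul, hω1, one_mul] at r2
    exact lt_irrefl _ r2
  · -- `x` reaches zero
    rcases Nat.eq_zero_or_pos i with rfl | hi
    · exact hx hxi
    · obtain ⟨k, rfl⟩ : ∃ k, i = k + 1 := ⟨i - 1, by omega⟩
      exact (hch k).1 hxi
  · -- cycle
    have he0 : e ≠ 0 := by
      rintro rfl
      exact hLe (dvd_zero L)
    have hper : f^[T] x ∈ periodicPts f := by
      rw [← minimalPeriod_pos_iff_mem_periodicPts, hL]
      exact hL0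
    have hT0 : T ≠ 0 := by
      rintro rfl
      apply hnp
      have := hper
      rw [iterate_zero, id_eq] at this
      obtain ⟨N, hN, hp⟩ := this
      exact ⟨N, hN, hp.apply⟩
    have hxn : ∀ k, f^[k + 1] x ≠ 0 := fun k ↦ (hch k).1
    have hyk : ∀ k, f^[k + 1] y = f^[k + 1 + e] x := by
      intro k
      rw [hye, ← iterate_add_apply]
    have hstep : ∀ k : ℕ, w (f^[k + 1] x) = w (f^[k + 1 + e] x) ∧
        w (f^[k + 1] x - f^[k + 1 + e] x) < w (f^[k + 1] x) := by
      intro k
      obtain ⟨-, -, r1, r2⟩ := hch k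
      rw [hyk] at r1 r2
      refine ⟨r1, ?_⟩
      have hk0 : 0 < w (f^[k + 1] x) := zero_lt_iff.mpr ((w.ne_zero_iff).mpr (hxn k))
      have r3 : w (f^[k + 1] x - f^[k + 1 + e] x) * w x < w (f^[k + 1] x) * w x := by
        rw [r2, mul_comm (w (f^[k + 1] x)) (w x)]
        exact mul_lt_mul_of_pos_right hlt hk0
      exact lt_of_mul_lt_mul_right r3 zero_le
    have hall := chain_mul w f x e hstep hxn (L * T)
    have hkey : ∀ k : ℕ, f^[k + 1] x ≠ f^[k + 1 + L * T * e] x := by
      intro k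
      induction k with
      | zero =>
        intro hcon
        apply hnp
        have h5 : T ≤ 0 + 1 + L * T * e := by
          have : T * 1 ≤ T * (L * e) := Nat.mul_le_mul_left T (Nat.mul_pos hL0 (by omega))
          have e2 : T * (L * e) = L * T * e := by ring
          omega
        obtain ⟨s, hs⟩ := Nat.exists_eq_add_of_le h5
        have e3 : f^[0 + 1 + L * T * e] x ∈ periodicPts f := by
          rw [hs, add_comm T s, iterate_add_apply]
          obtain ⟨N, hN, hp⟩ := hper
          exact ⟨N, hN, hp.apply_iterate s⟩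
        rw [← hcon, zero_add, iterate_one] at e3
        exact e3
      | succ k ih =>
        intro hcon
        obtain ⟨s1, s2⟩ := hall k
        have hz0 : f^[k + 1 + L * T * e] x ≠ 0 := by
          have e1 : k + 1 + L * T * e = (k + L * T * e) + 1 := by ring
          rw [e1]
          exact hxn _
        have hfx : f (f^[k + 1] x) = f^[k + 1 + 1] x := (iterate_succ_apply' f (k + 1) x).symm
        have hfz : f (f^[k + 1 + L * T * e] x) = f^[k + 1 + 1 + L * T * e] x := by
          have e1 : k + 1 + 1 + L * T * e = (k + 1 + L * T * e) + 1 := by ring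
          rw [e1, iterate_succ_apply']
        have hne2 : w (f^[k + 1] x) ^ (n - l) ≠ w c := hX (k + 1) (hxn (k + 1))
        obtain ⟨t1, -, -, t4⟩ := h2 K Γ w a c n l hw hc0 (f^[k + 1] x) (f^[k + 1 + L * T * e] x) 1
          (hxn k) hz0 s1 hne2 ⟨one_pow _, one_pow _⟩ (by rw [one_mul]; exact s2)
        rw [← hf] at t1 t4
        rw [one_mul, hfx, hfz, hcon, sub_self, map_zero, zero_mul] at t4
        have t5 : w (f^[k + 1] x - f^[k + 1 + L * T * e] x) ≠ 0 :=
          (w.ne_zero_iff).mpr (sub_ne_zero.mpr ih)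
        have t6 : w (f^[k + 1 + 1 + L * T * e] x) ≠ 0 := by
          rw [← hcon]
          exact (w.ne_zero_iff).mpr (hxn (k + 1))
        exact mul_ne_zero t5 t6 t4.symm
    apply hkey T
    have hpL : f^[L] (f^[T] x) = f^[T] x := by
      rw [← hL]
      exact iterate_minimalPeriod
    have hpLm : f^[L * (T * e)] (f^[T] x) = f^[T] x := by
      have : IsPeriodicPt f L (f^[T] x) := hpL
      exact this.mul_const (T * e)
    have e1 : T + 1 + L * T * e = (L * (T * e) + T) + 1 := by ring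
    rw [e1, iterate_succ_apply' f (L * (T * e) + T), iterate_add_apply f (L * (T * e)) T, hpLm,
      iterate_succ_apply' f T]

end Pool.Agent.TTM
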