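import Pool.Agent.TTM.TargetsQ

set_option autoImplicit false

/-!
# TTM-L3B: the parameter is the leading coefficient, places with `w c > 1`
-/

namespace Pool.Agent.TTM

open Function WithZero

namespace L3B_

theorem fo_iter {K : Type} [Field K] {a c : K} {n d : ℕ} {x : K} (h : Fo a c n d x) (k : ℕ) :
    Fo a c n d ((FF a c n d)^[k] x) := by
  unfold Fo at h ⊢
  refine h.subset ?_
  rintro _ ⟨j, rfl⟩
  exact ⟨j + k, by simp only [iterate_add_apply]⟩

theorem ff_om {K : Type} [Field K] {a c : K} {n d : ℕ} {ω : K} (h : Om n d ω) (y : K) :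
    FF a c n d (ω * y) = FF a c n d y := by
  unfold FF
  rw [mul_pow, mul_pow, h.1, h.2, one_mul, one_mul]

theorem pow_inj {Γ : Type} [LinearOrderedCommGroupWithZero Γ] {u v : Γ} {m : ℕ} (hm : m ≠ 0)
    (h : u ^ m = v ^ m) : u = v := by
  rcases lt_trichotomy u v with h1 | h1 | h1
  · exact absurd h (pow_lt_pow_left₀ h1 zero_le hm).ne
  · exact h1
  · exact absurd h (pow_lt_pow_left₀ h1 zero_le hm).ne'

end L3B_

open L3B_ in
theorem p_L3B (h1 : T_ESCB) (h2 : T_ST3B) : T_L3B := by
  intro K _ w a c n d hw ha hc x y ω hx hy hfx hfy hsep hom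
  have hn := hw.hn
  have hd := hw.hd
  have hc0 : c ≠ 0 := by
    rintro rfl
    rw [map_zero] at hc
    exact absurd hc (not_lt.2 zero_le)
  have ha0 : a ≠ 0 := by
    rintro rfl
    rw [map_zero] at ha
    exact zero_ne_one ha
  have hwc : w c ≠ 0 := (Valuation.ne_zero_iff w).2 hc0
  have hpos : ∀ z : K, Fo c a n d z → z ≠ 0 → w c * w z ^ (n + d) = 1 := fun z hz hz0 =>
    (h1 K ℤᵐ⁰ w a c n d hw ha hc0 z hz hz0).2.2 hc
  have hnd : n + d ≠ 0 := by omega
  have hval : ∀ z : K, Fo c a n d z → z ≠ 0 → w z = w x := fun z hz hz0 =>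
    pow_inj hnd (mul_left_cancel₀ hwc ((hpos z hz hz0).trans (hpos x hfx hx).symm))
  have hxy : w x = w y := (hval y hfy hy).symm
  set ρ := w x with hρ
  have hρ0 : ρ ≠ 0 := (Valuation.ne_zero_iff w).2 hx
  have hρp : 0 < ρ := zero_lt_iff.2 hρ0
  have hρ1 : ρ < 1 := by
    by_contra hcon
    have h3 : 1 ≤ ρ ^ (n + d) := one_le_pow₀ (not_lt.1 hcon)
    have h4 := hpos x hfx hx
    have h5 : 1 < w c * ρ ^ (n + d) := one_lt_mul_of_lt_of_le' hc h3
    rw [h4] at h5
    exact lt_irrefl _ h5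
  have hbig : ρ < w c * ρ ^ n := by
    have h4 := hpos x hfx hx
    rw [pow_add, ← mul_assoc] at h4
    by_contra hcon
    have h5 : w c * ρ ^ n ≤ 1 := (not_lt.1 hcon).trans hρ1.le
    have h6 : ρ ^ d < 1 := pow_lt_one₀ zero_le hρ1 (by omega)
    have h7 : w c * ρ ^ n * ρ ^ d < 1 := by
      refine (mul_le_mul' h5 le_rfl).trans_lt ?_
      rw [one_mul]
      exact h6
    rw [h4] at h7
    exact lt_irrefl _ h7
  by_contra hGP
  have hG3 : ∀ j : ℕ, w (x - ω * y) ≠ ρ * ρ ^ ((d + 1) * j) := by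
    intro j hj
    apply hGP
    unfold GPP
    rw [hj, ← hxy, max_self, log_mul hρ0 (pow_ne_zero _ hρ0), log_pow]
    refine ⟨(j : ℤ) * log ρ, ?_⟩
    rw [nsmul_eq_mul]
    push_cast
    ring
  have hle : ∀ u v : K, w u ≤ ρ → w v ≤ ρ → w (u - v) ≤ ρ := fun u v hu hv =>
    (Valuation.map_sub w u v).trans (max_le hu hv)
  have hω : w ω = 1 := by
    have h3 : w ω ^ n = 1 ^ n := by rw [← map_pow, hom.1, map_one, one_pow]
    exact pow_inj (by omega) h3
  have hδlt : w (x - ω * y) < ρ := by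
    refine lt_of_le_of_ne (hle _ _ le_rfl ?_) ?_
    · rw [map_mul, hω, one_mul, hxy]
    · have := hG3 0
      rwa [mul_zero, pow_zero, mul_one] at this
  have hne : x ≠ ω * y := by
    intro he
    have h3 := hsep 0 hx hy
    refine h3 ?_
    show FF c a n d x = FF c a n d y
    rw [he, ff_om hom]
  have hδ0 : w (x - ω * y) ≠ 0 := (Valuation.ne_zero_iff w).2 (sub_ne_zero.2 hne)
  have key : ∀ k : ℕ, (FF c a n d)^[k] x ≠ 0 ∧ (FF c a n d)^[k] y ≠ 0 ∧ ∃ ωk : K,
      Om n d ωk ∧ w ((FF c a n d)^[k] x - ωk * (FF c a n d)^[k] y) * ρ ^ ((d + 1) * k) =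
        w (x - ω * y) ∧ w ((FF c a n d)^[k] x - ωk * (FF c a n d)^[k] y) < ρ ∧
      (1 ≤ k → ωk = 1) := by
    intro k
    induction k with
    | zero =>
      refine ⟨hx, hy, ω, hom, ?_, hδlt, fun h => absurd h (by omega)⟩
      rw [mul_zero, pow_zero, mul_one]
      rfl
    | succ k ih =>
      obtain ⟨hX, hY, ωk, hok, hwk, hlt, -⟩ := ih
      set X := (FF c a n d)^[k] x with hXd
      set Y := (FF c a n d)^[k] y with hYd
      have eX : (FF c a n d)^[k + 1] x = FF c a n d X := iterate_succ_apply' _ _ _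
      have eY : (FF c a n d)^[k + 1] y = FF c a n d Y := iterate_succ_apply' _ _ _
      have fX1 : Fo c a n d (FF c a n d X) := by rw [← eX]; exact fo_iter hfx (k + 1)
      have fY1 : Fo c a n d (FF c a n d Y) := by rw [← eY]; exact fo_iter hfy (k + 1)
      have hwY : w Y = ρ := hval Y (fo_iter hfy k) hY
      have hwle : ∀ z : K, Fo c a n d z → w z ≤ ρ := by
        intro z hz
        by_cases hz0 : z = 0
        · rw [hz0, map_zero]
          exact zero_le
        · exact (hval z hz hz0).le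
      have h3 : w (FF c a n d X - FF c a n d Y) * w Y = w (X - ωk * Y) * (w c * w Y ^ n) := by
        refine h2 K ℤᵐ⁰ w c a n d hw hc0 ha0 X Y ωk hY ?_ ?_ hok ?_
        · rw [ha]
          exact hpos Y (fo_iter hfy k) hY
        · rw [hwY]
          exact (hwle _ fY1).trans_lt hbig
        · rw [hwY]
          exact hlt
      rw [hwY] at h3
      have h4 : w (FF c a n d X - FF c a n d Y) * ρ ^ (d + 1) = w (X - ωk * Y) := by
        calc w (FF c a n d X - FF c a n d Y) * ρ ^ (d + 1)
            = w (FF c a n d X - FF c a n d Y) * ρ * ρ ^ d := by rw [pow_succ', mul_assoc]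
          _ = w (X - ωk * Y) * (w c * ρ ^ (n + d)) := by
            rw [h3, pow_add, mul_assoc, mul_assoc]
          _ = w (X - ωk * Y) := by rw [hpos x hfx hx, mul_one]
      have h4' : w (FF c a n d X - FF c a n d Y) * ρ ^ ((d + 1) * (k + 1)) = w (x - ω * y) := by
        rw [← hwk, ← h4, mul_assoc, ← pow_add]
        congr 2
        ring
      have h5 : w (FF c a n d X - FF c a n d Y) ≠ ρ := by
        intro h5
        rw [h5] at h4'
        exact hG3 (k + 1) h4'.symm
      have h6 : FF c a n d X ≠ FF c a n d Y := by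
        have := hsep k hX hY
        rwa [eX, eY] at this
      have hX1 : FF c a n d X ≠ 0 := by
        intro h0
        have hY1 : FF c a n d Y ≠ 0 := fun h7 => h6 (h0.trans h7.symm)
        apply h5
        rw [h0, zero_sub, Valuation.map_neg]
        exact hval _ fY1 hY1
      have hY1 : FF c a n d Y ≠ 0 := by
        intro h0
        apply h5
        rw [h0, sub_zero]
        exact hval _ fX1 hX1
      refine ⟨by rw [eX]; exact hX1, by rw [eY]; exact hY1, 1, ⟨one_pow _, one_pow _⟩, ?_, ?_,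
        fun _ => rfl⟩
      · rw [eX, eY, one_mul]
        exact h4'
      · rw [eX, eY, one_mul]
        exact lt_of_le_of_ne (hle _ _ (hwle _ fX1) (hwle _ fY1)) h5
  -- contradiction: an infinite set of distances
  have hinj : Injective fun k : ℕ =>
      w ((FF c a n d)^[k + 1] x - (FF c a n d)^[k + 1] y) := by
    have hform : ∀ k : ℕ, w ((FF c a n d)^[k + 1] x - (FF c a n d)^[k + 1] y) *
        ρ ^ ((d + 1) * (k + 1)) = w (x - ω * y) := by
      intro k
      obtain ⟨-, -, ωk, -, hwk, -, hok⟩ := key (k + 1)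
      rw [hok (by omega), one_mul] at hwk
      exact hwk
    intro i j hij
    have hi := hform i
    have hj := hform j
    have hij' : w ((FF c a n d)^[i + 1] x - (FF c a n d)^[i + 1] y) =
      w ((FF c a n d)^[j + 1] x - (FF c a n d)^[j + 1] y) := hij
    rw [hij'] at hi
    have hD0 : w ((FF c a n d)^[j + 1] x - (FF c a n d)^[j + 1] y) ≠ 0 := by
      intro h0
      rw [h0, zero_mul] at hj
      exact hδ0 hj.symm
    have h3 := mul_left_cancel₀ hD0 (hi.trans hj.symm)
    have h4 : (d + 1) * (i + 1) = (d + 1) * (j + 1) :=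
      (pow_right_injective₀ hρp hρ1.ne) h3
    have h5 : 0 < d + 1 := by omega
    have := Nat.eq_of_mul_eq_mul_left h5 h4
    omega
  refine Set.infinite_range_of_injective hinj ?_
  have hfin := (hfx.prod hfy).image fun p : K × K => w (p.1 - p.2)
  refine hfin.subset ?_
  rintro _ ⟨k, rfl⟩
  exact ⟨((FF c a n d)^[k + 1] x, (FF c a n d)^[k + 1] y), ⟨⟨k + 1, rfl⟩, ⟨k + 1, rfl⟩⟩, rfl⟩

end Pool.Agent.TTM
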