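import Pool.Agent.TTM.TargetsQ

set_option autoImplicit false

/-!
# TTM-L3E: places with `w c < 1` for the polynomials `c z ^ n + a z ^ p`
-/

namespace Pool.Agent.TTM

open Function WithZero

namespace L3E_

theorem fog_iter {K : Type} [Field K] {f : K → K} {x : K} (h : FoG f x) (k : ℕ) :
    FoG f (f^[k] x) := by
  refine Set.Finite.subset h ?_
  rintro _ ⟨m, rfl⟩
  exact ⟨m + k, iterate_add_apply f m k x⟩

theorem gg_om {K : Type} [Field K] {a c : K} {n l : ℕ} {ω : K} (h : Om n l ω) (y : K) :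
    GG a c n l (ω * y) = GG a c n l y := by
  unfold GG
  rw [mul_pow, mul_pow, h.1, h.2, one_mul, one_mul]

theorem gg_zero {K : Type} [Field K] {a c : K} {n l : ℕ} (hn : n ≠ 0) (hl : l ≠ 0) :
    GG a c n l 0 = 0 := by
  unfold GG
  rw [zero_pow hn, zero_pow hl, mul_zero, mul_zero, add_zero]

theorem pow_inj {Γ : Type} [LinearOrderedCommGroupWithZero Γ] {u v : Γ} {m : ℕ} (hm : m ≠ 0)
    (h : u ^ m = v ^ m) : u = v := by
  rcases lt_trichotomy u v with h1 | h1 | h1
  · exact absurd h (pow_lt_pow_left₀ h1 zero_le hm).ne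
  · exact h1
  · exact absurd h (pow_lt_pow_left₀ h1 zero_le hm).ne'

/-- the value of the image below the turning position -/
theorem val_lt {K Γ : Type} [Field K] [LinearOrderedCommGroupWithZero Γ] {w : Valuation K Γ}
    {a c : K} {n p : ℕ} (hH : HE w n p) (ha : w a = 1) {z : K} (hz : z ≠ 0)
    (h : w c * w z ^ (n - p) < 1) : w (GG c a n p z) = w z ^ p := by
  have hn := hH.hn
  have hz0 : 0 < w z := zero_lt_iff.2 ((Valuation.ne_zero_iff w).2 hz)
  unfold GG
  have h1 : w (c * z ^ n) < w (a * z ^ p) := by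
    rw [map_mul, map_mul, map_pow, map_pow, ha]
    calc w c * w z ^ n = w c * w z ^ (n - p) * w z ^ p := by
          rw [mul_assoc, ← pow_add]
          congr 2
          omega
      _ < 1 * w z ^ p := mul_lt_mul_of_pos_right h (pow_pos hz0 p)
  rw [Valuation.map_add_eq_of_lt_right w h1, map_mul, map_pow, ha, one_mul]

/-- one step of the induction -/
theorem step (h1 : T_ESCE) (h2 : T_ST2E) (h3 : T_ST3E) (h6 : T_POSE) {K : Type} [Field K]
    {w : Valuation K ℤᵐ⁰} {a c : K} {n p : ℕ} (hH : HE w n p) (ha : w a = 1) (hc0 : c ≠ 0)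
    (hc : w c < 1) {u v ω : K} (hu : u ≠ 0) (hv : v ≠ 0) (fu : FoG (GG c a n p) u)
    (fv : FoG (GG c a n p) v) (hne : GG c a n p u ≠ GG c a n p v)
    (hns : w c * w u ^ (n - p) = 1 → w c * w v ^ (n - p) = 1 →
      max (w (GG c a n p u)) (w (GG c a n p v)) ≠ 1)
    (hω : Om n p ω) (huv : w u = w v) (hpos : 1 < w u)
    (hlt : w (u - ω * v) < w u)
    (hD : ¬ ((p : ℤ) - 1) ∣ log (w (u - ω * v)) - log (w u)) :
    GG c a n p u ≠ 0 ∧ GG c a n p v ≠ 0 ∧ w (GG c a n p u) = w (GG c a n p v) ∧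
      1 < w (GG c a n p u) ∧
      w (GG c a n p u - 1 * GG c a n p v) < w (GG c a n p u) ∧
      ¬ ((p : ℤ) - 1) ∣ log (w (GG c a n p u - 1 * GG c a n p v)) - log (w (GG c a n p u)) ∧
      (log (w (u - ω * v)) - log (w u) <
          log (w (GG c a n p u - 1 * GG c a n p v)) - log (w (GG c a n p u)) ∨
        (log (w (u - ω * v)) - log (w u) =
          log (w (GG c a n p u - 1 * GG c a n p v)) - log (w (GG c a n p u)) ∧
          log (w u) < log (w (GG c a n p u)))) := by
  have hp := hH.hp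
  have hn := hH.hn
  have ha0 : a ≠ 0 := by
    rintro rfl
    rw [map_zero] at ha
    exact zero_ne_one ha
  have hwc0 : w c ≠ 0 := (Valuation.ne_zero_iff w).2 hc0
  have hwc : 0 < w c := zero_lt_iff.2 hwc0
  have hwu : w u ≠ 0 := (Valuation.ne_zero_iff w).2 hu
  have hwu0 : 0 < w u := zero_lt_iff.2 hwu
  have hne0 : u - ω * v ≠ 0 := by
    intro h0
    apply hne
    rw [sub_eq_zero.1 h0, gg_om hω]
  have hwd : w (u - ω * v) ≠ 0 := (Valuation.ne_zero_iff w).2 hne0
  have hwN : w (GG c a n p u - GG c a n p v) ≠ 0 :=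
    (Valuation.ne_zero_iff w).2 (sub_ne_zero.2 hne)
  have hpown : w u < w u ^ p := lt_self_pow₀ hpos (by omega)
  rw [one_mul]
  obtain ⟨e1, e2⟩ := (h1 K ℤᵐ⁰ w a c n p hH ha hc0 u fu hu).2.2 hc
  rcases lt_or_eq_of_le e1 with hlt1 | heq
  · -- below the turning position
    obtain ⟨s1, s2, s3, s4⟩ := h2 K ℤᵐ⁰ w c a n p hH hc0 ha0 u v ω hu hv huv
      (by rw [ha]; exact hlt1.ne) hω hlt
    have hwU : w (GG c a n p u) ≠ 0 := (Valuation.ne_zero_iff w).2 s1
    have hval := val_lt hH ha hu hlt1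
    have hgt : w u < w (GG c a n p u) := by
      rw [hval]
      exact hpown
    have hlog : log (w (GG c a n p u - GG c a n p v)) + log (w u) =
        log (w (u - ω * v)) + log (w (GG c a n p u)) := by
      rw [← log_mul hwN hwu, ← log_mul hwd hwU, s4]
    have hDneg : log (w (u - ω * v)) < log (w u) := (log_lt_log hwd hwu).2 hlt
    have hDD : log (w (u - ω * v)) - log (w u) =
        log (w (GG c a n p u - GG c a n p v)) - log (w (GG c a n p u)) := by linarith
    refine ⟨s1, s2, s3, hpos.trans hgt, ?_, ?_, Or.inr ⟨hDD, (log_lt_log hwu hwU).2 hgt⟩⟩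
    · rw [← log_lt_log hwN hwU]
      linarith
    · rw [← hDD]
      exact hD
  · -- the turning position
    have hnp : n - p ≠ 0 := by omega
    have heqv : w c * w v ^ (n - p) = 1 := by rw [← huv, heq]
    have fU : FoG (GG c a n p) (GG c a n p u) := fog_iter fu 1
    have fV : FoG (GG c a n p) (GG c a n p v) := fog_iter fv 1
    have hle : ∀ z : K, FoG (GG c a n p) z → w z ≤ w u := by
      intro z hz
      by_cases hz0 : z = 0
      · rw [hz0, map_zero]
        exact zero_le
      · by_contra hcon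
        push Not at hcon
        have h8 := ((h1 K ℤᵐ⁰ w a c n p hH ha hc0 z hz hz0).2.2 hc).1
        rw [← heq] at h8
        exact absurd h8 (not_le.2 (mul_lt_mul_of_pos_left (pow_lt_pow_left₀ hcon zero_le hnp)
          hwc))
    have hcn : w c * w u ^ n = w u ^ p := by
      calc w c * w u ^ n = w c * w u ^ (n - p) * w u ^ p := by
            rw [mul_assoc, ← pow_add]
            congr 2
            omega
        _ = w u ^ p := by rw [heq, one_mul]
    have hst := h3 K ℤᵐ⁰ w c a n p hH hc0 ha0 u v ω hv (by rw [heqv, ha])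
      (by rw [← huv, hcn]; exact (hle _ fV).trans_lt hpown) hω (by rw [← huv]; exact hlt)
    rw [← huv, hcn] at hst
    have hns' := hns heq heqv
    set U := GG c a n p u with hU
    set V := GG c a n p v with hV
    set μ := max (w U) (w V) with hμ
    have hlogst : log (w (U - V)) = log (w (u - ω * v)) + p * log (w u) - log (w u) := by
      have h9 : log (w (U - V)) + log (w u) = log (w (u - ω * v)) + p * log (w u) := by
        rw [← log_mul hwN hwu, hst, log_mul hwd (pow_ne_zero _ hwu), log_pow, nsmul_eq_mul]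
      linarith
    -- the divisibility for μ
    have hμd : μ ≠ 0 ∧ ((p : ℤ) - 1) ∣ log μ - p * log (w u) ∧ μ ≤ w u ∧ 1 < μ := by
      have gen : ∀ z : K, z ≠ 0 → FoG (GG c a n p) z → w z = μ → μ ≠ 0 ∧
          ((p : ℤ) - 1) ∣ log μ - p * log (w u) ∧ μ ≤ w u ∧ 1 < μ := by
        intro z hz hfz hzμ
        have hz2 : w z ≠ 1 := by
          rw [hzμ]
          exact hns'
        obtain ⟨R, hR1, hR2⟩ := h6 K w a c n p hH ha hc0 hc z hfz hz hz2
        have hRρ : R = log (w u) := by
          have h10 : log (w c) + ((n : ℤ) - p) * log (w u) = 0 := by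
            have h11 : log (w c * w u ^ (n - p)) = 0 := by rw [heq, log_one]
            rw [log_mul hwc0 (pow_ne_zero _ hwu), log_pow, nsmul_eq_mul,
              Nat.cast_sub hn.le] at h11
            exact h11
          have h9 : ((n : ℤ) - p) ≠ 0 := by
            have : (p : ℤ) < n := by exact_mod_cast hn
            omega
          apply mul_left_cancel₀ h9
          linarith
        rw [hzμ, hRρ] at hR2
        refine ⟨?_, hR2, ?_, ?_⟩
        · rw [← hzμ]
          exact (Valuation.ne_zero_iff w).2 hz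
        · rw [← hzμ]
          exact hle z hfz
        · rw [← hzμ]
          exact lt_of_le_of_ne ((h1 K ℤᵐ⁰ w a c n p hH ha hc0 z hfz hz).2.2 hc).2 hz2.symm
      rcases le_total (w U) (w V) with hUV | hUV
      · have hμV : w V = μ := by rw [hμ, max_eq_right hUV]
        have hV0 : V ≠ 0 := by
          intro h0
          rw [h0, map_zero] at hUV
          have h10 : U = 0 := (Valuation.zero_iff w).1 (le_antisymm hUV zero_le)
          exact hne (h10.trans h0.symm)
        exact gen V hV0 fV hμV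
      · have hμU : w U = μ := by rw [hμ, max_eq_left hUV]
        have hU0 : U ≠ 0 := by
          intro h0
          rw [h0, map_zero] at hUV
          have h10 : V = 0 := (Valuation.zero_iff w).1 (le_antisymm hUV zero_le)
          exact hne (h0.trans h10.symm)
        exact gen U hU0 fU hμU
    obtain ⟨m1, m2, m3, m4⟩ := hμd
    have hltμ : w (U - V) < μ := by
      refine lt_of_le_of_ne (Valuation.map_sub w U V) ?_
      intro hE
      apply hD
      rw [hE] at hlogst
      have h11 : log (w (u - ω * v)) - log (w u) = log μ - p * log (w u) := by linarith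
      rw [h11]
      exact m2
    have hUVeq : w U = w V := by
      by_contra hcon
      rcases lt_or_gt_of_ne hcon with h12 | h12
      · rw [Valuation.map_sub_eq_of_lt_right w h12, hμ, max_eq_right h12.le] at hltμ
        exact lt_irrefl _ hltμ
      · rw [Valuation.map_sub_eq_of_lt_left w h12, hμ, max_eq_left h12.le] at hltμ
        exact lt_irrefl _ hltμ
    have hμU : μ = w U := by rw [hμ, ← hUVeq, max_self]
    rw [hμU] at m1 m2 m3 m4 hltμ
    have hU0 : U ≠ 0 := (Valuation.ne_zero_iff w).1 m1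
    have hV0 : V ≠ 0 := (Valuation.ne_zero_iff w).1 (by rw [← hUVeq]; exact m1)
    have hDk : log (w (U - V)) - log (w U) = (log (w (u - ω * v)) - log (w u)) -
        (log (w U) - p * log (w u)) := by
      rw [hlogst]
      ring
    refine ⟨hU0, hV0, hUVeq, m4, hltμ, ?_, Or.inl ?_⟩
    · rw [hDk]
      intro h13
      apply hD
      have := dvd_add h13 m2
      rwa [sub_add_cancel] at this
    · rw [hDk]
      have h14 : log (w U) < p * log (w u) := by
        have h15 : log (w U) ≤ log (w u) := (log_le_log m1 hwu).2 m3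
        have h16 : log (w u) < log (w u ^ p) :=
          (log_lt_log hwu (pow_ne_zero _ hwu)).2 hpown
        rw [log_pow, nsmul_eq_mul] at h16
        exact h15.trans_lt h16
      linarith

end L3E_

open L3E_ in
theorem p_L3E (h1 : T_ESCE) (h2 : T_ST2E) (h3 : T_ST3E) (h4 : T_SEPG) (h5 : T_L2E)
    (h6 : T_POSE) (h7 : T_NSTE) : T_L3E := by
  intro K _ w a c n p hH ha hc0 hc x y ω hPR hOm hω1
  have hp := hH.hp
  have hn := hH.hn
  have ha0 : a ≠ 0 := by
    rintro rfl
    rw [map_zero] at ha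
    exact zero_ne_one ha
  obtain ⟨hfx, hfy, hsep⟩ := h4 K (GG c a n p) (gg_zero (by omega) (by omega)) x y hPR
  obtain ⟨hx, hy, -⟩ := id hPR
  set f := GG c a n p with hf
  by_contra hGP
  unfold GPP at hGP
  have hwω : w ω = 1 := by
    have h8 : w ω ^ n = 1 ^ n := by rw [← map_pow, hOm.1, map_one, one_pow]
    exact pow_inj (by omega) h8
  have hwωy : w (ω * y) = w y := by rw [map_mul, hwω, one_mul]
  have hle : w (x - ω * y) ≤ max (w x) (w y) := by
    have := Valuation.map_sub w x (ω * y)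
    rwa [hwωy] at this
  have hlt : w (x - ω * y) < max (w x) (w y) := by
    refine lt_of_le_of_ne hle ?_
    intro hE
    apply hGP
    rw [hE, sub_self]
    exact dvd_zero _
  have hxy : w x = w y := by
    by_contra hcon
    rcases lt_or_gt_of_ne hcon with h12 | h12
    · rw [Valuation.map_sub_eq_of_lt_right w (by rw [hwωy]; exact h12), hwωy,
        max_eq_right h12.le] at hlt
      exact lt_irrefl _ hlt
    · rw [Valuation.map_sub_eq_of_lt_left w (by rw [hwωy]; exact h12), max_eq_left h12.le] at hlt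
      exact lt_irrefl _ hlt
  rw [← hxy, max_self] at hlt hGP
  -- (A)
  have hstar : w x ≠ 1 := by
    intro hs
    have stay : ∀ z : K, w z = 1 → ∀ k : ℕ, w (f^[k] z) = 1 := by
      intro z hz1 k
      induction k with
      | zero => exact hz1
      | succ k ih =>
        rw [iterate_succ_apply']
        have i1 : f^[k] z ≠ 0 := by
          rw [← Valuation.ne_zero_iff w, ih]
          exact one_ne_zero
        have h9 := val_lt (a := a) (c := c) hH ha i1 (by rw [ih, one_pow, mul_one]; exact hc)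
        rw [← hf] at h9
        rw [h9, ih, one_pow]
    have noturn : ∀ z : K, w z = 1 → ∀ k : ℕ, f^[k + 1] z ≠ 0 →
        w c * w (f^[k] z) ^ (n - p) ≠ w a := by
      intro z hz1 k _
      rw [stay z hz1 k, one_pow, mul_one, ha]
      exact hc.ne
    have h10 := h5 K ℤᵐ⁰ w c a n p hH hc0 ha0 x y ω hPR hOm hω1 (noturn x hs)
      (noturn y (by rw [← hxy]; exact hs))
    rw [h10, ← hxy, max_self] at hlt
    exact lt_irrefl _ hlt
  -- (B)
  have hpos : 1 < w x :=
    lt_of_le_of_ne ((h1 K ℤᵐ⁰ w a c n p hH ha hc0 x hfx hx).2.2 hc).2 hstar.symm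
  have hStep : ∀ (k : ℕ) (ωk : K), Om n p ωk → f^[k] x ≠ 0 → f^[k] y ≠ 0 →
      w (f^[k] x) = w (f^[k] y) → 1 < w (f^[k] x) →
      w (f^[k] x - ωk * f^[k] y) < w (f^[k] x) →
      ¬ ((p : ℤ) - 1) ∣ log (w (f^[k] x - ωk * f^[k] y)) - log (w (f^[k] x)) →
      f^[k + 1] x ≠ 0 ∧ f^[k + 1] y ≠ 0 ∧ w (f^[k + 1] x) = w (f^[k + 1] y) ∧
      1 < w (f^[k + 1] x) ∧
      w (f^[k + 1] x - 1 * f^[k + 1] y) < w (f^[k + 1] x) ∧
      ¬ ((p : ℤ) - 1) ∣ log (w (f^[k + 1] x - 1 * f^[k + 1] y)) - log (w (f^[k + 1] x)) ∧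
      (log (w (f^[k] x - ωk * f^[k] y)) - log (w (f^[k] x)) <
          log (w (f^[k + 1] x - 1 * f^[k + 1] y)) - log (w (f^[k + 1] x)) ∨
        (log (w (f^[k] x - ωk * f^[k] y)) - log (w (f^[k] x)) =
          log (w (f^[k + 1] x - 1 * f^[k + 1] y)) - log (w (f^[k + 1] x)) ∧
          log (w (f^[k] x)) < log (w (f^[k + 1] x)))) := by
    intro k ωk hωk hX hY hXY hp' hl' hd
    have hne := hsep k hX hY
    have hns := h7 K ℤᵐ⁰ w a c n p hH ha hc0 hc x y k hPR
    rw [← hf] at hns
    rw [iterate_succ_apply' f k x, iterate_succ_apply' f k y] at hne hns ⊢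
    exact step h1 h2 h3 h6 hH ha hc0 hc hX hY (fog_iter hfx k) (fog_iter hfy k) hne hns hωk hXY
      hp' hl' hd
  have key : ∀ k : ℕ, f^[k + 1] x ≠ 0 ∧ f^[k + 1] y ≠ 0 ∧ w (f^[k + 1] x) = w (f^[k + 1] y) ∧
      1 < w (f^[k + 1] x) ∧
      w (f^[k + 1] x - 1 * f^[k + 1] y) < w (f^[k + 1] x) ∧
      ¬ ((p : ℤ) - 1) ∣ log (w (f^[k + 1] x - 1 * f^[k + 1] y)) - log (w (f^[k + 1] x)) := by
    intro k
    induction k with
    | zero =>
      obtain ⟨a1, a2, a3, a4, a5, a6, -⟩ := hStep 0 ω hOm hx hy hxy hpos hlt hGP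
      exact ⟨a1, a2, a3, a4, a5, a6⟩
    | succ k ih =>
      obtain ⟨b1, b2, b3, b4, b5, b6⟩ := ih
      obtain ⟨a1, a2, a3, a4, a5, a6, -⟩ := hStep (k + 1) 1 ⟨one_pow _, one_pow _⟩ b1 b2 b3 b4
        b5 b6
      exact ⟨a1, a2, a3, a4, a5, a6⟩
  -- contradiction: a strictly increasing sequence with finitely many values
  let φ : ℕ → ℤ ×ₗ ℤ := fun k => toLex
    (log (w (f^[k + 1] x - 1 * f^[k + 1] y)) - log (w (f^[k + 1] x)), log (w (f^[k + 1] x)))
  have hmono : StrictMono φ := by
    refine strictMono_nat_of_lt_succ fun k => ?_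
    obtain ⟨b1, b2, b3, b4, b5, b6⟩ := key k
    obtain ⟨-, -, -, -, -, -, a7⟩ := hStep (k + 1) 1 ⟨one_pow _, one_pow _⟩ b1 b2 b3 b4 b5 b6
    exact Prod.Lex.toLex_lt_toLex.2 a7
  refine Set.infinite_range_of_injective hmono.injective ?_
  have hfin := (hfx.prod hfy).image fun p : K × K =>
    (toLex (log (w (p.1 - 1 * p.2)) - log (w p.1), log (w p.1)) : ℤ ×ₗ ℤ)
  refine hfin.subset ?_
  rintro _ ⟨k, rfl⟩
  exact ⟨(f^[k + 1] x, f^[k + 1] y), ⟨⟨k + 1, rfl⟩, ⟨k + 1, rfl⟩⟩, rfl⟩

end Pool.Agent.TTM
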