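import Pool.Agent.TTM.TargetsP

set_option autoImplicit false

/-!
# TTM, target NBP: bounds for periodic points and for the lengths of tails
-/

namespace Pool.Agent.TTM

open Function NumberField IsDedekindDomain WithZero

namespace NBP_

/-! ### places -/

/-- A nonzero element is a unit outside of finitely many places. -/
theorem unit_out (K : Type) [Field K] [NumberField K] (x : K) (hx : x ≠ 0) : ∃ N : ℕ, N ≠ 0 ∧
    ∀ v : HeightOneSpectrum (𝓞 K), (N : 𝓞 K) ∉ v.asIdeal → v.valuation K x = 1 := by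
  obtain ⟨a, b, hb, rfl⟩ := IsFractionRing.div_surjective (A := 𝓞 K) x
  have hb0 : b ≠ 0 := nonZeroDivisors.ne_zero hb
  have ha0 : a ≠ 0 := by
    rintro rfl
    rw [map_zero, zero_div] at hx
    exact hx rfl
  have key : ∀ c : 𝓞 K, c ≠ 0 → ∃ N : ℕ, N ≠ 0 ∧
      ∀ v : HeightOneSpectrum (𝓞 K), (N : 𝓞 K) ∉ v.asIdeal → c ∉ v.asIdeal := by
    intro c hc
    refine ⟨Ideal.absNorm (Ideal.span {c}), ?_, fun v hv hcv => hv ?_⟩
    · rw [Ne, Ideal.absNorm_eq_zero_iff, Ideal.span_singleton_eq_bot]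
      exact hc
    · exact (Ideal.span_singleton_le_iff_mem _).2 hcv (Ideal.absNorm_mem _)
  obtain ⟨N, hN, h1⟩ := key a ha0
  obtain ⟨N', hN', h2⟩ := key b hb0
  refine ⟨N * N', Nat.mul_ne_zero hN hN', fun v hv => ?_⟩
  rw [Nat.cast_mul] at hv
  have h3 : ∀ c : 𝓞 K, c ∉ v.asIdeal → v.valuation K (algebraMap (𝓞 K) K c) = 1 := by
    intro c hc
    exact le_antisymm (v.valuation_le_one _) (not_lt.1 fun h =>
      hc ((v.valuation_lt_one_iff_mem _).1 h))
  rw [map_div₀, h3 a (h1 v fun h => hv (v.asIdeal.mul_mem_right _ h)),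
    h3 b (h2 v fun h => hv (v.asIdeal.mul_mem_left _ h)), div_one]

theorem out_list (K : Type) [Field K] [NumberField K] : ∀ L : List K, (∀ x ∈ L, x ≠ 0) →
    ∃ N : ℕ, N ≠ 0 ∧ ∀ v : HeightOneSpectrum (𝓞 K), (N : 𝓞 K) ∉ v.asIdeal →
      ∀ x ∈ L, v.valuation K x = 1
  | [], _ => ⟨1, one_ne_zero, fun v _ x hx => by simp at hx⟩
  | (x :: L), h => by
    obtain ⟨N, hN, h1⟩ := unit_out K x (h x (by simp))
    obtain ⟨M, hM, h2⟩ := out_list K L (fun y hy => h y (List.mem_cons_of_mem _ hy))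
    refine ⟨N * M, Nat.mul_ne_zero hN hM, fun v hv y hy => ?_⟩
    rw [Nat.cast_mul] at hv
    rcases List.mem_cons.1 hy with rfl | hy
    · exact h1 v fun h => hv (v.asIdeal.mul_mem_right _ h)
    · exact h2 v (fun h => hv (v.asIdeal.mul_mem_left _ h)) y hy

section one

variable {K : Type} [Field K] (w : Valuation K ℤᵐ⁰)

theorem w_root {ω : K} {n : ℕ} (hn : n ≠ 0) (h : ω ^ n = 1) : w ω = 1 := by
  have h1 : w ω ^ n = 1 := by rw [← map_pow, h, map_one]
  exact (pow_left_inj₀ zero_le zero_le hn).1 (by rw [h1, one_pow])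

theorem gpp_of_eq {n : ℕ} {x y ω : K} (h : w (x - ω * y) = max (w x) (w y)) :
    GPP w n x y ω := by
  unfold GPP
  rw [h, sub_self]
  exact dvd_zero _

theorem gpp_symm {n : ℕ} {x y ω : K} (hω : ω ≠ 0) (hw : w ω = 1) (h : GPP w n x y ω⁻¹) :
    GPP w n y x ω := by
  unfold GPP at h ⊢
  have e : y - ω * x = -(ω * (x - ω⁻¹ * y)) := by
    field_simp
    ring
  have e2 : w (y - ω * x) = w (x - ω⁻¹ * y) := by
    rw [e, Valuation.map_neg, map_mul, hw, one_mul]
  rw [e2, max_comm]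
  exact h

theorem GG_root {a c ω y : K} {n l : ℕ} (hω : Om n l ω) :
    GG a c n l (ω * y) = GG a c n l y := by
  unfold GG
  rw [mul_pow, mul_pow, hω.1, hω.2, one_mul, one_mul]

theorem Om_inv {n l : ℕ} {ω : K} (hω : Om n l ω) : Om n l ω⁻¹ := by
  refine ⟨?_, ?_⟩
  · rw [inv_pow, hω.1, inv_one]
  · rw [inv_pow, hω.2, inv_one]

theorem one_sub_inv {ω : K} (hω : ω ≠ 0) (hw : w ω = 1) (h : w (1 - ω) = 1) :
    w (1 - ω⁻¹) = 1 := by
  have e : 1 - ω⁻¹ = -((1 - ω) * ω⁻¹) := by
    field_simp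
    ring
  rw [e, Valuation.map_neg, map_mul, h, map_inv₀, hw, inv_one, one_mul]

end one

/-! ### dynamics -/

section dyn

variable {K : Type} [Field K] {f : K → K}

omit [Field K] in
theorem FoG_iter {x : K} (h : FoG f x) (m : ℕ) : FoG f (f^[m] x) := by
  refine h.subset ?_
  rintro _ ⟨k, rfl⟩
  exact ⟨k + m, iterate_add_apply _ _ _ _⟩

omit [Field K] in
theorem iter_sub (z : K) {i j : ℕ} (h : i ≤ j) : f^[j - i] (f^[i] z) = f^[j] z := by
  rw [← iterate_add_apply]
  congr 1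
  omega

variable {B₀ : ℕ}

theorem per_bound (hB : ∀ P Q : Finset K, (∀ p ∈ P, ∀ q ∈ Q, PRG f p q ∨ PRG f q p) →
    P.card ≤ B₀ ∨ Q.card ≤ B₀) (S : Finset K) (hS : ∀ x ∈ S, x ≠ 0 ∧ x ∈ periodicPts f) :
    S.card ≤ 2 * B₀ + 1 := by
  classical
  obtain ⟨P, hPS, hP⟩ := Finset.exists_subset_card_eq (s := S) (n := S.card / 2)
    (Nat.div_le_self _ _)
  have h := hB P (S \ P) (fun p hp q hq => by
    rw [Finset.mem_sdiff] at hq
    left
    exact ⟨(hS p (hPS hp)).1, (hS q hq.1).1, Or.inl ⟨(hS p (hPS hp)).2, (hS q hq.1).2,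
      fun h => hq.2 (h ▸ hp)⟩⟩)
  have h2 : (S \ P).card + P.card = S.card := Finset.card_sdiff_add_card_eq_card hPS
  rcases h with h | h <;> omega

/-- A sequence of different points, pairs in different classes modulo `L` are of the type `PRG`. -/
theorem seq_bound (hB : ∀ P Q : Finset K, (∀ p ∈ P, ∀ q ∈ Q, PRG f p q ∨ PRG f q p) →
    P.card ≤ B₀ ∨ Q.card ≤ B₀) (u : ℕ → K) (t L : ℕ) (hL : 2 ≤ L)
    (hinj : ∀ i j, i < j → j ≤ t → u i ≠ u j)
    (hp : ∀ i j, i < j → j ≤ t → ¬ L ∣ j - i → PRG f (u i) (u j) ∨ PRG f (u j) (u i)) :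
    t ≤ L * B₀ := by
  classical
  by_contra hlt
  rw [not_le] at hlt
  have hinj' : ∀ i j, i ≤ t → j ≤ t → u i = u j → i = j := by
    intro i j hi hj h
    rcases lt_trichotomy i j with h1 | h1 | h1
    · exact absurd h (hinj i j h1 hj)
    · exact h1
    · exact absurd h.symm (hinj j i h1 hi)
  have hle : ∀ i ∈ Finset.range (B₀ + 1), L * i + 1 ≤ t := by
    intro i hi
    have h1 : i ≤ B₀ := Nat.lt_succ_iff.1 (Finset.mem_range.1 hi)
    have h2 : L * i ≤ L * B₀ := Nat.mul_le_mul_left L h1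
    omega
  have hcP : ((Finset.range (B₀ + 1)).image fun i => u (L * i)).card = B₀ + 1 := by
    rw [Finset.card_image_of_injOn, Finset.card_range]
    intro i hi j hj h
    have h1 := hle i (Finset.mem_coe.1 hi)
    have h2 := hle j (Finset.mem_coe.1 hj)
    exact Nat.eq_of_mul_eq_mul_left (by omega) (hinj' _ _ (by omega) (by omega) h)
  have hcQ : ((Finset.range (B₀ + 1)).image fun i => u (L * i + 1)).card = B₀ + 1 := by
    rw [Finset.card_image_of_injOn, Finset.card_range]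
    intro i hi j hj h
    have h1 := hle i (Finset.mem_coe.1 hi)
    have h2 := hle j (Finset.mem_coe.1 hj)
    have h3 := hinj' _ _ h1 h2 h
    have h4 : L * i = L * j := Nat.succ_injective h3
    exact Nat.eq_of_mul_eq_mul_left (by omega) h4
  have h := hB ((Finset.range (B₀ + 1)).image fun i => u (L * i))
    ((Finset.range (B₀ + 1)).image fun i => u (L * i + 1)) (by
      intro p hp' q hq'
      obtain ⟨i, hi, rfl⟩ := Finset.mem_image.1 hp'
      obtain ⟨j, hj, rfl⟩ := Finset.mem_image.1 hq'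
      have h1 := hle i hi
      have h2 := hle j hj
      rcases lt_or_ge (L * i) (L * j + 1) with h3 | h3
      · refine hp _ _ h3 h2 fun h4 => ?_
        have h5 : L ∣ L * j + 1 := by
          have h6 : L * j + 1 = (L * j + 1 - L * i) + L * i := by omega
          rw [h6]
          exact dvd_add h4 (dvd_mul_right _ _)
        have h7 : L ∣ 1 := (Nat.dvd_add_right (dvd_mul_right L j)).1 h5
        have := Nat.le_of_dvd one_pos h7
        omega
      · have h3' : L * j + 1 < L * i := by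
          rcases Nat.lt_or_eq_of_le h3 with h8 | h8
          · exact h8
          · exfalso
            have h7 : L ∣ 1 := (Nat.dvd_add_right (dvd_mul_right L j)).1
              (h8 ▸ dvd_mul_right L i)
            have := Nat.le_of_dvd one_pos h7
            omega
        refine (hp _ _ h3' (by omega) fun h4 => ?_).symm
        have h5 : L ∣ L * j + 1 := by
          have h6 : L * j + 1 = L * i - (L * i - (L * j + 1)) := by omega
          rw [h6]
          exact Nat.dvd_sub (dvd_mul_right _ _) h4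
        have h7 : L ∣ 1 := (Nat.dvd_add_right (dvd_mul_right L j)).1 h5
        have := Nat.le_of_dvd one_pos h7
        omega)
  rw [hcP, hcQ] at h
  omega

theorem tail_zero (hf0 : f 0 = 0) (hB : ∀ P Q : Finset K,
    (∀ p ∈ P, ∀ q ∈ Q, PRG f p q ∨ PRG f q p) → P.card ≤ B₀ ∨ Q.card ≤ B₀)
    (z : K) (k : ℕ) (h1 : f^[k] z ≠ 0) (h2 : f^[k + 1] z = 0) : k ≤ 2 * B₀ := by
  have h0 : ∀ m, f^[m] (0 : K) = 0 := fun m => iterate_fixed hf0 m
  have hne : ∀ i, i ≤ k → f^[i] z ≠ 0 := by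
    intro i hi h
    have h3 := iter_sub (f := f) z hi
    rw [h, h0] at h3
    exact h1 h3.symm
  have hpz : ∀ i j, i < j → j ≤ k → PZG f (f^[j] z) (f^[i] z) := by
    intro i j hij hj
    refine ⟨k + 1 - j, k + 1 - i, ?_, ?_, ?_⟩
    · rw [iter_sub z (by omega)]
      exact h2
    · rw [← iterate_add_apply]
      exact hne _ (by omega)
    · rw [iter_sub z (by omega)]
      exact h2
  refine seq_bound hB (fun i => f^[i] z) k 2 le_rfl ?_ ?_
  · intro i j hij hj h
    obtain ⟨s, -, h3, h4, -⟩ := hpz i j hij hj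
    rw [h] at h4
    exact h4 h3
  · intro i j hij hj _
    right
    exact ⟨hne j hj, hne i (by omega), Or.inr (Or.inl (hpz i j hij hj))⟩

theorem tail_cyc (hf0 : f 0 = 0) (hB : ∀ P Q : Finset K,
    (∀ p ∈ P, ∀ q ∈ Q, PRG f p q ∨ PRG f q p) → P.card ≤ B₀ ∨ Q.card ≤ B₀)
    (z : K) (t : ℕ) (h1 : f^[t] z ∉ periodicPts f) (h2 : f^[t + 1] z ∈ periodicPts f)
    (h3 : f (f^[t + 1] z) ≠ f^[t + 1] z) : t ≤ (2 * B₀ + 1) * B₀ := by
  classical
  have h0 : ∀ m, f^[m] (0 : K) = 0 := fun m => iterate_fixed hf0 m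
  obtain ⟨L, hL⟩ : ∃ L, L = minimalPeriod f (f^[t + 1] z) := ⟨_, rfl⟩
  have hL0 : 0 < L := by rw [hL]; exact minimalPeriod_pos_of_mem_periodicPts h2
  have hL1 : L ≠ 1 := by
    rw [hL]
    intro h
    exact h3 (minimalPeriod_eq_one_iff_isFixedPt.1 h)
  have hLB : L ≤ 2 * B₀ + 1 := by
    have hc : ((Finset.range L).image fun i => f^[i] (f^[t + 1] z)).card = L := by
      rw [Finset.card_image_of_injOn, Finset.card_range]
      intro i hi j hj h
      rw [hL] at hi hj
      exact iterate_injOn_Iio_minimalPeriod (by simpa using hi) (by simpa using hj) h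
    rw [← hc]
    refine per_bound hB _ ?_
    intro x hx
    obtain ⟨i, hi, rfl⟩ := Finset.mem_image.1 hx
    rw [Finset.mem_range] at hi
    refine ⟨fun h => ?_, ?_⟩
    · have h4 : f^[L] (f^[t + 1] z) = f^[t + 1] z := by
        rw [hL]
        exact isPeriodicPt_minimalPeriod f _
      have h5 := iter_sub (f := f) (f^[t + 1] z) hi.le
      rw [h, h0, h4] at h5
      rw [← h5, hf0] at h3
      exact h3 rfl
    · obtain ⟨N, hN, hp⟩ := h2
      exact ⟨N, hN, hp.apply_iterate i⟩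
  have hnp : ∀ i, i ≤ t → f^[i] z ∉ periodicPts f := by
    rintro i hi ⟨N, hN, hp⟩
    refine h1 ⟨N, hN, ?_⟩
    rw [← iter_sub z hi]
    exact hp.apply_iterate _
  have hne : ∀ i, i ≤ t → f^[i] z ≠ 0 := by
    intro i hi h
    exact hnp i hi (by rw [h]; exact ⟨1, one_pos, hf0⟩)
  refine le_trans (seq_bound hB (fun i => f^[i] z) t L (by omega) ?_ ?_)
    (Nat.mul_le_mul_right _ hLB)
  · intro i j hij hj h
    refine hnp i (by omega) ⟨j - i, by omega, ?_⟩
    change f^[j - i] (f^[i] z) = f^[i] z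
    rw [iter_sub z hij.le]
    exact h.symm
  · intro i j hij hj hd
    left
    refine ⟨hne i (by omega), hne j hj, Or.inr (Or.inr ⟨j - i, t + 1 - i, L, ?_, ?_, ?_, hL0,
      hd⟩)⟩
    · exact (iter_sub z hij.le).symm
    · rw [← iterate_succ_apply' f i z]
      exact hnp (i + 1) (by omega)
    · rw [iter_sub z (by omega), hL]

end dyn

end NBP_

open NBP_ in
theorem p_NBP (h0 : T_ESCP) (h1 : T_L1P) (h2 : T_L2P) (h3 : T_L3P) (h4 : T_SEPG)
    (h5 : T_CNTP) : T_NBP := by
  intro K _ _ a n l m ζ ha hn hm hmn hml hl1 hln hcop hζ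
  have hl4 : 4 ≤ l := hm.trans (Nat.le_of_dvd (by omega) hml)
  have hζs : ∀ s : ℕ, 1 ≤ s → s ≤ 3 → (1 : K) - ζ ^ s ≠ 0 := by
    intro s hs1 hs3 h
    exact hζ.pow_ne_one_of_pos_of_lt (by omega) (by omega) (sub_eq_zero.1 h).symm
  obtain ⟨N, hN, hout⟩ := out_list K [a, (n : K), (l : K), ((n - l : ℕ) : K), 1 - ζ ^ 1,
    1 - ζ ^ 2, 1 - ζ ^ 3] (by
      intro x hx
      simp only [List.mem_cons, List.not_mem_nil, or_false] at hx
      rcases hx with rfl | rfl | rfl | rfl | rfl | rfl | rfl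
      · exact ha
      · exact Nat.cast_ne_zero.2 (by omega)
      · exact Nat.cast_ne_zero.2 (by omega)
      · exact Nat.cast_ne_zero.2 (by omega)
      · exact hζs 1 le_rfl (by norm_num)
      · exact hζs 2 (by norm_num) (by norm_num)
      · exact hζs 3 (by norm_num) le_rfl)
  obtain ⟨B₀, hB₀⟩ := h5 K n m N ζ hn hm hζ hN
  refine ⟨(2 * B₀ + 1) * (B₀ + 1), fun c hc => ?_⟩
  have hf0 : GG a c n l 0 = 0 := by
    unfold GG
    rw [zero_pow (by omega), zero_pow (by omega), mul_zero, mul_zero, add_zero]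
  have hOm : ∀ s : ℕ, Om n l (ζ ^ s) := by
    intro s
    refine ⟨?_, ?_⟩
    · rw [← pow_mul, mul_comm, pow_mul, (hζ.pow_eq_one_iff_dvd n).2 hmn, one_pow]
    · rw [← pow_mul, mul_comm, pow_mul, (hζ.pow_eq_one_iff_dvd l).2 hml, one_pow]
  have hζ0 : ∀ s : ℕ, ζ ^ s ≠ 0 := fun s => pow_ne_zero _ (hζ.ne_zero (by omega))
  -- the conclusion at one place
  have key : ∀ (x y : K), PRG (GG a c n l) x y → ∀ v : HeightOneSpectrum (𝓞 K),
      (N : 𝓞 K) ∉ v.asIdeal → ∀ ω : K, Om n l ω → v.valuation K (1 - ω) = 1 →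
      GPP (v.valuation K) n x y ω := by
    intro x y hxy v hv ω hω h1ω
    have hv' := hout v hv
    have HPv : HP (v.valuation K) a n l := ⟨by omega, hln, hv' a (by simp), hv' n (by simp),
      hv' l (by simp), hv' ((n - l : ℕ) : K) (by simp)⟩
    rcases lt_trichotomy (v.valuation K c) 1 with h | h | h
    · obtain ⟨hFx, hFy, -⟩ := h4 K _ hf0 x y hxy
      refine gpp_of_eq _ (h2 K _ (v.valuation K) a c n l HPv hc x y ω hxy hω h1ω ?_ ?_)
      · intro k hk
        rw [iterate_succ_apply'] at hk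
        have hk0 : (GG a c n l)^[k] x ≠ 0 := fun e => by
          rw [e] at hk
          exact hk hf0
        exact (h0 K _ (v.valuation K) a c n l HPv hc _ (FoG_iter hFx k) hk0).2.2.1 h hk
      · intro k hk
        rw [iterate_succ_apply'] at hk
        have hk0 : (GG a c n l)^[k] y ≠ 0 := fun e => by
          rw [e] at hk
          exact hk hf0
        exact (h0 K _ (v.valuation K) a c n l HPv hc _ (FoG_iter hFy k) hk0).2.2.1 h hk
    · exact gpp_of_eq _ (h1 K _ (v.valuation K) a c n l HPv h x y ω hxy hω h1ω)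
    · exact h3 K (v.valuation K) a c n l HPv hcop h x y ω hxy hω h1ω
  have hsep : ∀ x y ω : K, PRG (GG a c n l) x y → Om n l ω → x - ω * y ≠ 0 ∧ y - ω * x ≠ 0 := by
    intro x y ω hxy hω
    obtain ⟨-, -, hs⟩ := h4 K _ hf0 x y hxy
    have hs0 := hs 0 hxy.1 hxy.2.1
    simp only [zero_add, iterate_one] at hs0
    refine ⟨fun h => hs0 ?_, fun h => hs0 ?_⟩
    · rw [sub_eq_zero.1 h, GG_root hω]
    · rw [sub_eq_zero.1 h, GG_root hω]
  have hB : ∀ P Q : Finset K, (∀ p ∈ P, ∀ q ∈ Q, PRG (GG a c n l) p q ∨ PRG (GG a c n l) q p) →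
      P.card ≤ B₀ ∨ Q.card ≤ B₀ := by
    intro P Q hPQ
    rcases P.eq_empty_or_nonempty with hP | ⟨p₀, hp₀⟩
    · left
      rw [hP, Finset.card_empty]
      exact Nat.zero_le _
    rcases Q.eq_empty_or_nonempty with hQ | ⟨q₀, hq₀⟩
    · right
      rw [hQ, Finset.card_empty]
      exact Nat.zero_le _
    refine hB₀ P Q (fun p hp => ?_) (fun q hq => ?_) (fun p hp q hq s hs1 hs3 => ?_)
    · rcases hPQ p hp q₀ hq₀ with h | h
      · exact h.1
      · exact h.2.1
    · rcases hPQ p₀ hp₀ q hq with h | h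
      · exact h.2.1
      · exact h.1
    · have hpq := hPQ p hp q hq
      refine ⟨?_, fun v hv => ?_⟩
      · rcases hpq with h | h
        · exact (hsep p q _ h (hOm s)).1
        · exact (hsep q p _ h (hOm s)).2
      · have hv1 : v.valuation K (1 - ζ ^ s) = 1 := by
          refine hout v hv _ ?_
          have : s = 1 ∨ s = 2 ∨ s = 3 := by omega
          rcases this with rfl | rfl | rfl <;> simp
        rcases hpq with h | h
        · exact key p q h v hv _ (hOm s) hv1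
        · have hwω : v.valuation K (ζ ^ s) = 1 := w_root _ (by omega) (hOm s).1
          exact gpp_symm _ (hζ0 s) hwω (key q p h v hv _ (Om_inv (hOm s))
            (one_sub_inv _ (hζ0 s) hwω hv1))
  refine ⟨fun S hS => ?_, fun z k hk1 hk2 => ?_, fun z t ht1 ht2 ht3 => ?_⟩
  · refine (per_bound hB S hS).trans ?_
    exact Nat.le_mul_of_pos_right _ (by omega)
  · refine (tail_zero hf0 hB z k hk1 hk2).trans ?_
    nlinarith
  · refine (tail_cyc hf0 hB z t ht1 ht2 ht3).trans ?_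
    exact Nat.mul_le_mul_left _ (by omega)

end Pool.Agent.TTM
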