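import Pool.Agent.TTM.Targets

set_option autoImplicit false

/-!
# TTM, target SEP: the pairs of `PR` are separated (elementary dynamics)
-/

namespace Pool.Agent.TTM

open Function

namespace SEP_

variable {α : Type} {f : α → α}

/-- eventually periodic points have finite orbits -/
theorem fin_of {x : α} {T L : ℕ} (hL : 0 < L) (h : f^[L] (f^[T] x) = f^[T] x) :
    (Set.range fun k : ℕ => f^[k] x).Finite := by
  have key : ∀ k : ℕ, ∃ j < T + L, f^[k] x = f^[j] x := by
    intro k
    induction k using Nat.strong_induction_on with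
    | _ k ih =>
      rcases lt_or_ge k (T + L) with hk | hk
      · exact ⟨k, hk, rfl⟩
      · obtain ⟨m, rfl⟩ := Nat.exists_eq_add_of_le hk
        obtain ⟨j, hj, e⟩ := ih (T + m) (by omega)
        refine ⟨j, hj, ?_⟩
        rw [← e]
        have e1 : f^[T + L + m] x = f^[m] (f^[L] (f^[T] x)) := by
          rw [← iterate_add_apply, ← iterate_add_apply]
          congr 1
          omega
        rw [e1, h, ← iterate_add_apply]
        congr 1
        omega
  refine Set.Finite.subset ((Set.finite_lt_nat (T + L)).image fun k : ℕ => f^[k] x) ?_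
  rintro _ ⟨k, rfl⟩
  obtain ⟨j, hj, e⟩ := key k
  exact ⟨j, hj, e.symm⟩

theorem fin_per {x : α} (h : x ∈ periodicPts f) : (Set.range fun k : ℕ => f^[k] x).Finite := by
  obtain ⟨N, hN, hp⟩ := h
  exact fin_of (T := 0) hN hp

/-- `f` is injective on the periodic points -/
theorem inj_per {x y : α} (hx : x ∈ periodicPts f) (hy : y ∈ periodicPts f) {k : ℕ}
    (h : f^[k] x = f^[k] y) : x = y := by
  obtain ⟨N, hN, hpx⟩ := hx
  obtain ⟨M, hM, hpy⟩ := hy
  have h1 : IsPeriodicPt f (N * M * k) x := by
    rw [mul_assoc]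
    exact hpx.mul_const _
  have h2 : IsPeriodicPt f (N * M * k) y := by
    have e : N * M * k = M * (N * k) := by ring
    rw [e]
    exact hpy.mul_const _
  have hle : k ≤ N * M * k := Nat.le_mul_of_pos_left k (Nat.mul_pos hN hM)
  have e : N * M * k = (N * M * k - k) + k := by omega
  have e1 : x = f^[N * M * k - k] (f^[k] x) := by
    rw [← iterate_add_apply, ← e]
    exact h1.symm
  have e2 : y = f^[N * M * k - k] (f^[k] y) := by
    rw [← iterate_add_apply, ← e]
    exact h2.symm
  rw [e1, e2, h]

end SEP_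

open SEP_ in
theorem p_SEP : T_SEP := by
  intro K _ a c n d hn hd x y hPR
  obtain ⟨hx0, hy0, h⟩ := hPR
  have hf0 : FF a c n d 0 = 0 := by
    unfold FF
    rw [zero_pow (by omega), zero_pow (by omega), mul_zero, inv_zero, mul_zero, add_zero]
  rcases h with ⟨hx, hy, hxy⟩ | ⟨hx, hy, i, hi1, hi2⟩ | ⟨e, T, L, rfl, -, hm, hL, hd'⟩
  · refine ⟨fin_per hx, fin_per hy, fun k _ _ h1 => hxy (inj_per hx hy h1)⟩
  · refine ⟨hx, hy, fun k h1 h2 h3 => ?_⟩
    rcases le_or_gt (k + 1) i with hk | hk
    · obtain ⟨m, rfl⟩ := Nat.exists_eq_add_of_le' hk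
      rw [iterate_add_apply] at hi1 hi2
      rw [h3] at hi1
      exact hi2 hi1
    · obtain ⟨m, rfl⟩ := Nat.exists_eq_add_of_le' (Nat.lt_succ_iff.1 hk)
      rw [iterate_add_apply, hi1, iterate_fixed hf0] at h1
      exact h1 rfl
  · have hper : (FF a c n d)^[T] x ∈ periodicPts (FF a c n d) := by
      rw [← minimalPeriod_pos_iff_mem_periodicPts, hm]
      exact hL
    have hp : IsPeriodicPt (FF a c n d) L ((FF a c n d)^[T] x) := by
      rw [← hm]
      exact isPeriodicPt_minimalPeriod _ _
    have hfx : Fo a c n d x := fin_of hL hp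
    refine ⟨hfx, ?_, fun k _ _ h3 => ?_⟩
    · refine Set.Finite.subset hfx ?_
      rintro _ ⟨k, rfl⟩
      refine ⟨k + e, ?_⟩
      simp only []
      rw [iterate_add_apply]
    · rw [← iterate_add_apply] at h3
      have h4 : IsPeriodicPt (FF a c n d) e ((FF a c n d)^[k + 1] ((FF a c n d)^[T] x)) := by
        show (FF a c n d)^[e] ((FF a c n d)^[k + 1] ((FF a c n d)^[T] x)) =
          (FF a c n d)^[k + 1] ((FF a c n d)^[T] x)
        have e1 : (FF a c n d)^[e] ((FF a c n d)^[k + 1] ((FF a c n d)^[T] x)) =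
            (FF a c n d)^[T] ((FF a c n d)^[k + 1 + e] x) := by
          rw [← iterate_add_apply, ← iterate_add_apply, ← iterate_add_apply]
          congr 1
          omega
        rw [e1, ← h3, ← iterate_add_apply, ← iterate_add_apply]
        congr 1
        omega
      have h5 := h4.minimalPeriod_dvd
      rw [minimalPeriod_apply_iterate hper, hm] at h5
      exact hd' h5

end Pool.Agent.TTM
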