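import Pool.Agent.TTM.TargetsQ
import Pool.Agent.TTM.P_NBP
import Pool.Agent.TTM.P_SEP

set_option autoImplicit false

/-!
# TTM, target NBB: bounds for periodic points and for the lengths of tails
-/

namespace Pool.Agent.TTM

open Function NumberField IsDedekindDomain WithZero

namespace NBB_

theorem pr_of_prg {K : Type} [Field K] {a c : K} {n d : ℕ} (hf0 : FF a c n d 0 = 0) {x y : K}
    (h : PRG (FF a c n d) x y) : PR a c n d x y := by
  obtain ⟨hx, hy, h | ⟨i, j, h1, h2, h3⟩ | h⟩ := h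
  · exact ⟨hx, hy, Or.inl h⟩
  · refine ⟨hx, hy, Or.inr (Or.inl ⟨?_, ?_, i, h1, h2⟩)⟩
    · refine SEP_.fin_of (T := i) (L := 1) one_pos ?_
      rw [iterate_one, h1, hf0]
    · refine SEP_.fin_of (T := j) (L := 1) one_pos ?_
      rw [iterate_one, h3, hf0]
  · exact ⟨hx, hy, Or.inr (Or.inr h)⟩

theorem FF_root {K : Type} [Field K] {a c ω y : K} {n d : ℕ} (hω : Om n d ω) :
    FF a c n d (ω * y) = FF a c n d y := by
  unfold FF
  rw [mul_pow, mul_pow, hω.1, hω.2, one_mul, one_mul]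

end NBB_

open NBP_ NBB_ in
theorem p_NBB (h0 : T_ESCB) (h1 : T_L1) (h2 : T_L2B) (h3 : T_L3B) (h4 : T_SEP)
    (h5 : T_CNTP) : T_NBB := by
  intro K _ _ a n d m ζ ha hn hd hm hmn hmd hζ
  have hζs : ∀ s : ℕ, 1 ≤ s → s ≤ 3 → (1 : K) - ζ ^ s ≠ 0 := by
    intro s hs1 hs3 h
    exact hζ.pow_ne_one_of_pos_of_lt (by omega) (by omega) (sub_eq_zero.1 h).symm
  obtain ⟨N, hN, hout⟩ := out_list K [a, (n : K), (d : K), ((n + d : ℕ) : K), 1 - ζ ^ 1,
    1 - ζ ^ 2, 1 - ζ ^ 3] (by
      intro x hx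
      simp only [List.mem_cons, List.not_mem_nil, or_false] at hx
      rcases hx with rfl | rfl | rfl | rfl | rfl | rfl | rfl
      · exact ha
      · exact Nat.cast_ne_zero.2 (by omega)
      · exact Nat.cast_ne_zero.2 (by omega)
      · exact Nat.cast_ne_zero.2 (by omega)
      · exact hζs 1 le_rfl (by norm_num)
      · exact hζs 2 (by norm_num) (by norm_num)
      · exact hζs 3 (by norm_num) le_rfl)
  obtain ⟨B₀, hB₀⟩ := h5 K (d + 2) m N ζ (by omega) hm hζ hN
  refine ⟨(2 * B₀ + 1) * (B₀ + 1), fun c hc => ?_⟩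
  have hf0 : FF c a n d 0 = 0 := by
    unfold FF
    rw [zero_pow (by omega), zero_pow (by omega), inv_zero, mul_zero, mul_zero, add_zero]
  have hOm : ∀ s : ℕ, Om n d (ζ ^ s) := by
    intro s
    refine ⟨?_, ?_⟩
    · rw [← pow_mul, mul_comm, pow_mul, (hζ.pow_eq_one_iff_dvd n).2 hmn, one_pow]
    · rw [← pow_mul, mul_comm, pow_mul, (hζ.pow_eq_one_iff_dvd d).2 hmd, one_pow]
  have hζ0 : ∀ s : ℕ, ζ ^ s ≠ 0 := fun s => pow_ne_zero _ (hζ.ne_zero (by omega))
  -- the conclusion at one place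
  have key : ∀ (x y : K), PRG (FF c a n d) x y → ∀ v : HeightOneSpectrum (𝓞 K),
      (N : 𝓞 K) ∉ v.asIdeal → ∀ ω : K, Om n d ω → v.valuation K (1 - ω) = 1 →
      GPP (v.valuation K) (d + 2) x y ω := by
    intro x y hxy v hv ω hω h1ω
    have hv' := hout v hv
    have hva : v.valuation K a = 1 := hv' a (by simp)
    have HBv : HB (v.valuation K) n d := ⟨by omega, by omega, hv' n (by simp),
      hv' d (by simp), hv' ((n + d : ℕ) : K) (by simp)⟩
    have hPR := pr_of_prg hf0 hxy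
    obtain ⟨hFx, hFy, hS⟩ := h4 K c a n d (by omega) (by omega) x y hPR
    have hlow : v.valuation K c < 1 → ∀ z : K, Fo c a n d z → ∀ k : ℕ,
        (FF c a n d)^[k + 1] z ≠ 0 →
        v.valuation K c * v.valuation K ((FF c a n d)^[k] z) ^ (n + d) ≠ v.valuation K a := by
      intro h z hz k hk
      rw [iterate_succ_apply'] at hk
      have hk0 : (FF c a n d)^[k] z ≠ 0 := fun e => by
        rw [e] at hk
        exact hk hf0
      rw [hva]
      exact (h0 K _ (v.valuation K) a c n d HBv hva hc _ (FoG_iter hz k) hk0).2.1 h hk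
    rcases lt_trichotomy (v.valuation K c) 1 with h | h | h
    · exact gpp_of_eq _ (h2 K _ (v.valuation K) c a n d HBv hc ha x y ω hPR hω h1ω
        (hlow h x hFx) (hlow h y hFy))
    · exact gpp_of_eq _ (h1 K _ (v.valuation K) c a n d ⟨by omega, by omega, h, HBv.wn, HBv.wd,
        HBv.wnd⟩ hva x y ω hPR hω h1ω)
    · exact h3 K (v.valuation K) a c n d HBv hva h x y ω hPR.1 hPR.2.1 hFx hFy hS hω
  have hsep : ∀ x y ω : K, PRG (FF c a n d) x y → Om n d ω → x - ω * y ≠ 0 ∧ y - ω * x ≠ 0 := by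
    intro x y ω hxy hω
    obtain ⟨-, -, hs⟩ := h4 K c a n d (by omega) (by omega) x y (pr_of_prg hf0 hxy)
    have hs0 := hs 0 hxy.1 hxy.2.1
    simp only [zero_add, iterate_one] at hs0
    refine ⟨fun h => hs0 ?_, fun h => hs0 ?_⟩
    · rw [sub_eq_zero.1 h, FF_root hω]
    · rw [sub_eq_zero.1 h, FF_root hω]
  have hB : ∀ P Q : Finset K, (∀ p ∈ P, ∀ q ∈ Q, PRG (FF c a n d) p q ∨ PRG (FF c a n d) q p) →
      P.card ≤ B₀ ∨ Q.card ≤ B₀ := by
    intro P Q hPQ
    rcases P.eq_empty_or_nonempty with hP | ⟨p₀, hp₀⟩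
    · left
      rw [hP, Finset.card_empty]
      exact Nat.zero_le _
    rcases Q.eq_empty_or_nonempty with hQ | ⟨q₀, hq₀⟩
    · right
      rw [hQ, Finset.card_empty]
      exact Nat.zero_le _
    refine hB₀ P Q (fun p hp => ?_) (fun q hq => ?_) (fun p hp q hq s hs1 hs3 => ?_)
    · rcases hPQ p hp q₀ hq₀ with h | h
      · exact h.1
      · exact h.2.1
    · rcases hPQ p₀ hp₀ q hq with h | h
      · exact h.2.1
      · exact h.1
    · have hpq := hPQ p hp q hq
      refine ⟨?_, fun v hv => ?_⟩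
      · rcases hpq with h | h
        · exact (hsep p q _ h (hOm s)).1
        · exact (hsep q p _ h (hOm s)).2
      · have hv1 : v.valuation K (1 - ζ ^ s) = 1 := by
          refine hout v hv _ ?_
          have : s = 1 ∨ s = 2 ∨ s = 3 := by omega
          rcases this with rfl | rfl | rfl <;> simp
        rcases hpq with h | h
        · exact key p q h v hv _ (hOm s) hv1
        · have hwω : v.valuation K (ζ ^ s) = 1 := w_root _ (by omega) (hOm s).1
          exact gpp_symm _ (hζ0 s) hwω (key q p h v hv _ (Om_inv (hOm s))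
            (one_sub_inv _ (hζ0 s) hwω hv1))
  refine ⟨fun S hS => ?_, fun z k hk1 hk2 => ?_, fun z t ht1 ht2 ht3 => ?_⟩
  · refine (per_bound hB S hS).trans ?_
    exact Nat.le_mul_of_pos_right _ (by omega)
  · refine (tail_zero hf0 hB z k hk1 hk2).trans ?_
    nlinarith
  · refine (tail_cyc hf0 hB z t ht1 ht2 ht3).trans ?_
    exact Nat.mul_le_mul_left _ (by omega)

end Pool.Agent.TTM
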