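import Pool.Agent.TTM.TargetsQ
import Pool.Agent.TTM.P_NBP

set_option autoImplicit false

/-!
# TTM, target NBE: bounds for periodic points and for the lengths of tails

The parameter is the leading coefficient of `c z ^ n + a z ^ p`.
-/

namespace Pool.Agent.TTM

open Function NumberField IsDedekindDomain WithZero

open NBP_ in
theorem p_NBE (h0 : T_ESCE) (h1 : T_L1P) (h2 : T_L2E) (h3 : T_L3E) (h4 : T_SEPG)
    (h5 : T_CNTP) : T_NBE := by
  intro K _ _ a n p m ζ ha hp hpn hm hmn hmp hζ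
  have hζs : ∀ s : ℕ, 1 ≤ s → s ≤ 3 → (1 : K) - ζ ^ s ≠ 0 := by
    intro s hs1 hs3 h
    exact hζ.pow_ne_one_of_pos_of_lt (by omega) (by omega) (sub_eq_zero.1 h).symm
  obtain ⟨N, hN, hout⟩ := out_list K [a, (n : K), (p : K), ((n - p : ℕ) : K), 1 - ζ ^ 1,
    1 - ζ ^ 2, 1 - ζ ^ 3] (by
      intro x hx
      simp only [List.mem_cons, List.not_mem_nil, or_false] at hx
      rcases hx with rfl | rfl | rfl | rfl | rfl | rfl | rfl
      · exact ha
      · exact Nat.cast_ne_zero.2 (by omega)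
      · exact Nat.cast_ne_zero.2 (by omega)
      · exact Nat.cast_ne_zero.2 (by omega)
      · exact hζs 1 le_rfl (by norm_num)
      · exact hζs 2 (by norm_num) (by norm_num)
      · exact hζs 3 (by norm_num) le_rfl)
  obtain ⟨B₀, hB₀⟩ := h5 K p m N ζ hp hm hζ hN
  refine ⟨(2 * B₀ + 1) * (B₀ + 1), fun c hc => ?_⟩
  have hf0 : GG c a n p 0 = 0 := by
    unfold GG
    rw [zero_pow (by omega), zero_pow (by omega), mul_zero, mul_zero, add_zero]
  have hOm : ∀ s : ℕ, Om n p (ζ ^ s) := by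
    intro s
    refine ⟨?_, ?_⟩
    · rw [← pow_mul, mul_comm, pow_mul, (hζ.pow_eq_one_iff_dvd n).2 hmn, one_pow]
    · rw [← pow_mul, mul_comm, pow_mul, (hζ.pow_eq_one_iff_dvd p).2 hmp, one_pow]
  have hζ0 : ∀ s : ℕ, ζ ^ s ≠ 0 := fun s => pow_ne_zero _ (hζ.ne_zero (by omega))
  -- the conclusion at one place
  have key : ∀ (x y : K), PRG (GG c a n p) x y → ∀ v : HeightOneSpectrum (𝓞 K),
      (N : 𝓞 K) ∉ v.asIdeal → ∀ ω : K, Om n p ω → v.valuation K (1 - ω) = 1 →
      GPP (v.valuation K) p x y ω := by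
    intro x y hxy v hv ω hω h1ω
    have hv' := hout v hv
    have hva : v.valuation K a = 1 := hv' a (by simp)
    have HEv : HE (v.valuation K) n p := ⟨by omega, hpn, hv' n (by simp),
      hv' p (by simp), hv' ((n - p : ℕ) : K) (by simp)⟩
    rcases lt_trichotomy (v.valuation K c) 1 with h | h | h
    · exact h3 K (v.valuation K) a c n p HEv hva hc h x y ω hxy hω h1ω
    · have HPv : HP (v.valuation K) c n p := ⟨by omega, hpn, h, hv' n (by simp),
        hv' p (by simp), hv' ((n - p : ℕ) : K) (by simp)⟩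
      exact gpp_of_eq _ (h1 K _ (v.valuation K) c a n p HPv hva x y ω hxy hω h1ω)
    · obtain ⟨hFx, hFy, -⟩ := h4 K _ hf0 x y hxy
      have cond : ∀ z : K, FoG (GG c a n p) z → ∀ k : ℕ, (GG c a n p)^[k + 1] z ≠ 0 →
          v.valuation K c * v.valuation K ((GG c a n p)^[k] z) ^ (n - p) ≠
            v.valuation K a := by
        intro z hz k hk
        rw [iterate_succ_apply'] at hk
        have hk0 : (GG c a n p)^[k] z ≠ 0 := fun e => by
          rw [e] at hk
          exact hk hf0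
        rw [hva]
        exact (h0 K _ (v.valuation K) a c n p HEv hva hc _ (FoG_iter hz k) hk0).2.1 h hk
      exact gpp_of_eq _ (h2 K _ (v.valuation K) c a n p HEv hc ha x y ω hxy hω h1ω
        (cond x hFx) (cond y hFy))
  have hsep : ∀ x y ω : K, PRG (GG c a n p) x y → Om n p ω → x - ω * y ≠ 0 ∧ y - ω * x ≠ 0 := by
    intro x y ω hxy hω
    obtain ⟨-, -, hs⟩ := h4 K _ hf0 x y hxy
    have hs0 := hs 0 hxy.1 hxy.2.1
    simp only [zero_add, iterate_one] at hs0
    refine ⟨fun h => hs0 ?_, fun h => hs0 ?_⟩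
    · rw [sub_eq_zero.1 h, GG_root hω]
    · rw [sub_eq_zero.1 h, GG_root hω]
  have hB : ∀ P Q : Finset K, (∀ p' ∈ P, ∀ q ∈ Q, PRG (GG c a n p) p' q ∨
      PRG (GG c a n p) q p') → P.card ≤ B₀ ∨ Q.card ≤ B₀ := by
    intro P Q hPQ
    rcases P.eq_empty_or_nonempty with hP | ⟨p₀, hp₀⟩
    · left
      rw [hP, Finset.card_empty]
      exact Nat.zero_le _
    rcases Q.eq_empty_or_nonempty with hQ | ⟨q₀, hq₀⟩
    · right
      rw [hQ, Finset.card_empty]
      exact Nat.zero_le _
    refine hB₀ P Q (fun p' hp' => ?_) (fun q hq => ?_) (fun p' hp' q hq s hs1 hs3 => ?_)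
    · rcases hPQ p' hp' q₀ hq₀ with h | h
      · exact h.1
      · exact h.2.1
    · rcases hPQ p₀ hp₀ q hq with h | h
      · exact h.2.1
      · exact h.1
    · have hpq := hPQ p' hp' q hq
      refine ⟨?_, fun v hv => ?_⟩
      · rcases hpq with h | h
        · exact (hsep p' q _ h (hOm s)).1
        · exact (hsep q p' _ h (hOm s)).2
      · have hv1 : v.valuation K (1 - ζ ^ s) = 1 := by
          refine hout v hv _ ?_
          have : s = 1 ∨ s = 2 ∨ s = 3 := by omega
          rcases this with rfl | rfl | rfl <;> simp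
        rcases hpq with h | h
        · exact key p' q h v hv _ (hOm s) hv1
        · have hwω : v.valuation K (ζ ^ s) = 1 := w_root _ (by omega) (hOm s).1
          exact gpp_symm _ (hζ0 s) hwω (key q p' h v hv _ (Om_inv (hOm s))
            (one_sub_inv _ (hζ0 s) hwω hv1))
  refine ⟨fun S hS => ?_, fun z k hk1 hk2 => ?_, fun z t ht1 ht2 ht3 => ?_⟩
  · refine (per_bound hB S hS).trans ?_
    exact Nat.le_mul_of_pos_right _ (by omega)
  · refine (tail_zero hf0 hB z k hk1 hk2).trans ?_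
    nlinarith
  · refine (tail_cyc hf0 hB z t ht1 ht2 ht3).trans ?_
    exact Nat.mul_le_mul_left _ (by omega)

end Pool.Agent.TTM
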