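import Pool.Agent.TTM.TargetsQ

set_option autoImplicit false

/-!
# TTM, block NSTE: no star after a turning position
-/

namespace Pool.Agent.TTM

open Function

namespace NSTE_

variable {K Γ : Type} [Field K] [LinearOrderedCommGroupWithZero Γ] {w : Valuation K Γ} {a c : K}
  {n p : ℕ}

/-- a star position stays -/
theorem step (h : HE w n p) (ha : w a = 1) (hc : w c < 1) {z : K} (hz : w z = 1) :
    w (GG c a n p z) = 1 := by
  have h1 : w (a * z ^ p) = 1 := by
    rw [map_mul, map_pow, ha, hz, one_pow, mul_one]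
  have h2 : w (c * z ^ n) < w (a * z ^ p) := by
    rw [h1, map_mul, map_pow, hz, one_pow, mul_one]
    exact hc
  unfold GG
  rw [Valuation.map_add_eq_of_lt_right w h2, h1]

/-- all iterates of a star position have the value `1` -/
theorem iter (h : HE w n p) (ha : w a = 1) (hc : w c < 1) {z : K} (hz : w z = 1) (m : ℕ) :
    w ((GG c a n p)^[m] z) = 1 := by
  induction m with
  | zero => exact hz
  | succ m ih =>
    rw [iterate_succ_apply']
    exact step h ha hc ih

/-- a turning position is above `1` -/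
theorem turn (hc : w c < 1) {z : K} (hz : w c * w z ^ (n - p) = 1) : 1 < w z := by
  by_contra hcon
  rw [not_lt] at hcon
  have h1 : w z ^ (n - p) ≤ 1 := pow_le_one' hcon _
  have h2 : w c * w z ^ (n - p) ≤ w c := mul_le_of_le_one_right' h1
  rw [hz] at h2
  exact absurd hc (not_lt.2 h2)

theorem gg_zero (h : HE w n p) : GG c a n p 0 = 0 := by
  have hp := h.hp
  have hn := h.hn
  unfold GG
  rw [zero_pow (by omega), zero_pow (by omega)]
  ring

theorem iter_zero (h : HE w n p) (m : ℕ) : (GG c a n p)^[m] 0 = 0 := by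
  induction m with
  | zero => rfl
  | succ m ih => rw [iterate_succ_apply', ih, gg_zero h]

/-- a point of a cycle after a turning position is not at star -/
theorem per (h : HE w n p) (ha : w a = 1) (hc : w c < 1) {x : K} (k : ℕ)
    (hx : x ∈ periodicPts (GG c a n p)) (ht : w c * w ((GG c a n p)^[k] x) ^ (n - p) = 1) :
    w ((GG c a n p)^[k + 1] x) ≠ 1 := by
  intro hs
  obtain ⟨q, hq, hqx⟩ := hx
  have h1 : IsPeriodicPt (GG c a n p) q ((GG c a n p)^[k] x) := hqx.apply_iterate k
  have h2 : (GG c a n p)^[q - 1] ((GG c a n p)^[k + 1] x) = (GG c a n p)^[k] x := by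
    rw [← iterate_add_apply]
    have h3 : q - 1 + (k + 1) = q + k := by omega
    rw [h3, iterate_add_apply]
    exact h1
  have h3 := iter h ha hc hs (q - 1)
  rw [h2] at h3
  have h4 := turn hc ht
  rw [h3] at h4
  exact lt_irrefl _ h4

/-- a point which reaches `0` is not at star -/
theorem zer (h : HE w n p) (ha : w a = 1) (hc : w c < 1) {x : K} (k i : ℕ)
    (hx : (GG c a n p)^[i] x = 0) : w ((GG c a n p)^[k + 1] x) ≠ 1 := by
  intro hs
  have h1 := iter h ha hc hs i
  rw [← iterate_add_apply, add_comm, iterate_add_apply, hx, iter_zero h, map_zero] at h1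
  exact zero_ne_one h1

theorem max_ne {u v : Γ} (hu : u ≠ 1) (hv : v ≠ 1) : max u v ≠ 1 := by
  rcases max_choice u v with h | h
  · rw [h]; exact hu
  · rw [h]; exact hv

end NSTE_

open NSTE_ in
/-- no star after a turning position -/
theorem p_NSTE (h1 : T_ESCE) (h3 : T_SEPG) : T_NSTE := by
  intro K Γ _ _ w a c n p h ha hc0 hc x y k hP hx hy
  obtain ⟨hx0, hy0, hP' | hP' | hP'⟩ := id hP
  · exact max_ne (per h ha hc k hP'.1 hx) (per h ha hc k hP'.2.1 hy)
  · obtain ⟨i, j, hi, _, hj⟩ := hP'
    exact max_ne (zer h ha hc k i hi) (zer h ha hc k j hj)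
  · obtain ⟨e, T, L, hye, _, _, _, hLe⟩ := hP'
    have he : 1 ≤ e := by
      rcases Nat.eq_zero_or_pos e with h0 | h0
      · rw [h0] at hLe
        exact absurd (dvd_zero L) hLe
      · exact h0
    have h4 : (GG c a n p)^[k] y = (GG c a n p)^[e - 1] ((GG c a n p)^[k + 1] x) := by
      rw [hye, ← iterate_add_apply, ← iterate_add_apply]
      congr 1
      omega
    have h5 : 1 < w ((GG c a n p)^[k] y) := turn hc hy
    have h6 : w ((GG c a n p)^[k + 1] x) ≠ 1 := by
      intro hs
      have h7 := iter h ha hc hs (e - 1)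
      rw [← h4] at h7
      rw [h7] at h5
      exact lt_irrefl _ h5
    have h7 : (GG c a n p)^[k + 1] x ≠ 0 := by
      intro h0
      rw [h0, iter_zero h] at h4
      rw [h4, map_zero] at h5
      exact absurd h5 (not_lt.2 zero_le_one)
    have h8 : FoG (GG c a n p) x := (h3 K (GG c a n p) (gg_zero h) x y hP).1
    have h9 : FoG (GG c a n p) ((GG c a n p)^[k + 1] x) := by
      refine Set.Finite.subset h8 ?_
      rintro _ ⟨m, rfl⟩
      exact ⟨m + (k + 1), by simp only [iterate_add_apply]⟩
    have h10 := ((h1 K Γ w a c n p h ha hc0 _ h9 h7).2.2 hc).2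
    have h11 : 1 < w ((GG c a n p)^[k + 1] x) := lt_of_le_of_ne h10 h6.symm
    exact (h11.trans_le (le_max_left _ _)).ne'

end Pool.Agent.TTM
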