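import Pool.Agent.TTM.TargetsQ

set_option autoImplicit false

/-!
# TTM-POSE: positions for `w c < 1`
-/

namespace Pool.Agent.TTM

open Function NumberField IsDedekindDomain WithZero

namespace POSE_

lemma fo_step {K : Type} (f : K → K) (x : K) (h : FoG f x) : FoG f (f x) := by
  refine Set.Finite.subset h ?_
  rintro _ ⟨k, rfl⟩
  exact ⟨k + 1, by simp [Function.iterate_succ_apply]⟩

lemma main (h1 : T_ESCE) (K : Type) [Field K] (w : Valuation K ℤᵐ⁰) (a c : K) (n p : ℕ)
    (hp : HE w n p) (wa : w a = 1) (hc0 : c ≠ 0) (hc : w c < 1) :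
    ∀ (N : ℕ) (z : K), FoG (GG c a n p) z → z ≠ 0 → w z ≠ 1 →
      -log (w c) - log (w z) ≤ N → ∃ R : ℤ, log (w c) = -(((n : ℤ) - p) * R) ∧
        ((p : ℤ) - 1) ∣ log (w z) - p * R := by
  have hl := hp.hp
  have hn := hp.hn
  have wc0 : w c ≠ 0 := (Valuation.ne_zero_iff w).2 hc0
  have e1 : ((n - p : ℕ) : ℤ) = (n : ℤ) - p := by push_cast [hn.le]; ring
  have key : ∀ z : K, FoG (GG c a n p) z → z ≠ 0 → w z ≠ 1 →
      ((n : ℤ) - p) * log (w z) ≤ -log (w c) ∧ 0 < log (w z) := by
    intro z hz z0 hs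
    have wz0 : w z ≠ 0 := (Valuation.ne_zero_iff w).2 z0
    obtain ⟨-, -, h4⟩ := h1 K ℤᵐ⁰ w a c n p hp wa hc0 z hz z0
    obtain ⟨h5, h6⟩ := h4 hc
    refine ⟨?_, ?_⟩
    · have := (log_le_log (mul_ne_zero wc0 (pow_ne_zero _ wz0)) one_ne_zero).2 h5
      rw [log_mul wc0 (pow_ne_zero _ wz0), log_pow, nsmul_eq_mul, e1, log_one] at this
      linarith
    · have h7 : 1 < w z := lt_of_le_of_ne h6 (Ne.symm hs)
      have := (log_lt_log (x := (1 : ℤᵐ⁰)) one_ne_zero wz0).2 h7
      rwa [log_one] at this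
  have hnl : (0 : ℤ) < (n : ℤ) - p := by omega
  intro N
  induction N with
  | zero =>
    intro z hz z0 hs hN
    obtain ⟨k1, k2⟩ := key z hz z0 hs
    push_cast at hN
    have h4 : log (w c) = -(((n : ℤ) - p) * log (w z)) := by
      have : log (w z) ≤ ((n : ℤ) - p) * log (w z) := by nlinarith
      linarith
    exact ⟨log (w z), h4, ⟨- log (w z), by ring⟩⟩
  | succ N ih =>
    intro z hz z0 hs hN
    obtain ⟨k1, k2⟩ := key z hz z0 hs
    rcases eq_or_lt_of_le k1 with h4 | h4
    · exact ⟨log (w z), by linarith, ⟨- log (w z), by ring⟩⟩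
    · have wz0 : w z ≠ 0 := (Valuation.ne_zero_iff w).2 z0
      have wlt : w (c * z ^ n) < w (a * z ^ p) := by
        rw [map_mul, map_mul, map_pow, map_pow, wa, one_mul]
        refine (log_lt_log (mul_ne_zero wc0 (pow_ne_zero _ wz0)) (pow_ne_zero _ wz0)).1 ?_
        rw [log_mul wc0 (pow_ne_zero _ wz0), log_pow, log_pow, nsmul_eq_mul, nsmul_eq_mul]
        linarith
      have wg : w (GG c a n p z) = w z ^ p := by
        unfold GG
        rw [Valuation.map_add_eq_of_lt_right w wlt, map_mul, map_pow, wa, one_mul]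
      have lg : log (w (GG c a n p z)) = p * log (w z) := by
        rw [wg, log_pow, nsmul_eq_mul]
      have wg0 : w (GG c a n p z) ≠ 0 := by
        rw [wg]
        exact pow_ne_zero _ wz0
      have g0 : GG c a n p z ≠ 0 := (Valuation.ne_zero_iff w).1 wg0
      have hl0 : (2 : ℤ) ≤ p := by exact_mod_cast hl
      have hs' : w (GG c a n p z) ≠ 1 := by
        intro h
        have h8 := congrArg log h
        rw [lg, log_one] at h8
        have := mul_pos (show (0 : ℤ) < p by linarith) k2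
        omega
      have h9 : log (w z) + 1 ≤ p * log (w z) := by nlinarith
      obtain ⟨R, hR1, hR2⟩ := ih (GG c a n p z) (fo_step _ _ hz) g0 hs' (by
        rw [lg]
        push_cast at hN
        linarith)
      refine ⟨R, hR1, ?_⟩
      obtain ⟨q, hq⟩ := hR2
      refine ⟨q - log (w z), ?_⟩
      rw [lg] at hq
      linear_combination hq

end POSE_

/-- positions for `w c < 1` -/
theorem p_POSE (h1 : T_ESCE) : T_POSE := by
  intro K _ w a c n p hp wa hc0 hc z hz z0 hs
  exact POSE_.main h1 K w a c n p hp wa hc0 hc (-log (w c) - log (w z)).toNat z hz z0 hs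
    (Int.self_le_toNat _)

end Pool.Agent.TTM
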