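import Pool.Agent.TTM.Targets

set_option autoImplicit false

/-!
# TTM, target ST2: one step away from the turning position
-/

namespace Pool.Agent.TTM

open Function NumberField IsDedekindDomain

namespace ST2_

section

variable {K Γ : Type} [Field K] [LinearOrderedCommGroupWithZero Γ] (w : Valuation K Γ)

/-- second order expansion -/
theorem expand {ε : K} (hε : w ε ≤ 1) (k : ℕ) :
    ∃ t : K, w t ≤ 1 ∧ (1 + ε) ^ k = 1 + k * ε + ε ^ 2 * t := by
  have hn : ∀ k : ℕ, w (k : K) ≤ 1 := by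
    intro k
    induction k with
    | zero => simp
    | succ k ih =>
      push_cast
      exact (w.map_add _ _).trans (max_le ih (by simp))
  induction k with
  | zero => exact ⟨0, by simp, by simp⟩
  | succ k ih =>
    obtain ⟨t, ht, e⟩ := ih
    refine ⟨k + t * (1 + ε), ?_, ?_⟩
    · refine (w.map_add _ _).trans (max_le (hn k) ?_)
      rw [map_mul]
      refine mul_le_one' ht ((w.map_add _ _).trans (max_le (by simp) hε))
    · rw [pow_succ, e]
      push_cast
      ring

theorem one_add {ε : K} (hε : w ε < 1) : w (1 + ε) = 1 := by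
  rw [Valuation.map_add_eq_of_lt_left w (by simpa using hε), map_one]

theorem pow_sub {ε : K} (hε : w ε < 1) {k : ℕ} (hk : w (k : K) = 1) :
    w ((1 + ε) ^ k - 1) = w ε := by
  obtain ⟨t, ht, e⟩ := expand w hε.le k
  have e1 : (1 + ε) ^ k - 1 = ε * (k + ε * t) := by rw [e]; ring
  have h1 : w (ε * t) < w (k : K) := by
    rw [map_mul, hk]
    exact mul_lt_one_of_lt_of_le hε ht
  rw [e1, map_mul, Valuation.map_add_eq_of_lt_left w h1, hk, mul_one]

theorem inv_sub {ε : K} (hε : w ε < 1) {k : ℕ} (hk : w (k : K) = 1) :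
    w (((1 + ε) ^ k)⁻¹ - 1) = w ε := by
  have h0 : w ((1 + ε) ^ k) = 1 := by rw [map_pow, one_add w hε, one_pow]
  have h1 : (1 + ε) ^ k ≠ 0 := by
    intro h
    rw [h, map_zero] at h0
    exact zero_ne_one h0
  have e1 : ((1 + ε) ^ k)⁻¹ - 1 = -((1 + ε) ^ k - 1) * ((1 + ε) ^ k)⁻¹ := by
    field_simp
    ring
  rw [e1, map_mul, Valuation.map_neg, pow_sub w hε hk, map_inv₀, h0, inv_one, mul_one]

/-- two terms of different size -/
theorem two {P Q u v ε : K} (hPQ : w Q < w P) (hu : w u = 1) (hv : w v = 1)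
    (hu' : w (u - 1) = w ε) (hv' : w (v - 1) = w ε) :
    P * u + Q * v ≠ 0 ∧ P + Q ≠ 0 ∧ w (P * u + Q * v) = w P ∧ w (P + Q) = w P ∧
      w ((P * u + Q * v) - (P + Q)) = w P * w ε := by
  have hP : 0 < w P := lt_of_le_of_lt zero_le hPQ
  have h1 : w (P * u + Q * v) = w P := by
    rw [Valuation.map_add_eq_of_lt_left w (by rw [map_mul, map_mul, hu, hv, mul_one, mul_one]
                                              exact hPQ), map_mul, hu, mul_one]
  have h2 : w (P + Q) = w P := Valuation.map_add_eq_of_lt_left w hPQ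
  refine ⟨?_, ?_, h1, h2, ?_⟩
  · intro h
    rw [h, map_zero] at h1
    exact hP.ne h1
  · intro h
    rw [h, map_zero] at h2
    exact hP.ne h2
  · have e : (P * u + Q * v) - (P + Q) = P * (u - 1) + Q * (v - 1) := by ring
    rw [e]
    rcases eq_or_ne (w ε) 0 with h0 | h0
    · rw [h0] at hu' hv'
      rw [(Valuation.zero_iff w).1 hu', (Valuation.zero_iff w).1 hv', h0]
      simp
    · have hε : 0 < w ε := zero_lt_iff.2 h0
      rw [Valuation.map_add_eq_of_lt_left w (by
        rw [map_mul, map_mul, hu', hv']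
        exact mul_lt_mul_of_pos_right hPQ hε), map_mul, hu']

end

end ST2_

open ST2_ in
theorem p_ST2 : T_ST2 := by
  intro K Γ _ _ w a c n d hW hc x y ω hx hy hxy hne hω hlt
  have hn0 : n ≠ 0 := by have := hW.hn; omega
  have hwω : w ω = 1 := by
    have h1 : w ω ^ n = 1 := by rw [← map_pow, hω.1, map_one]
    exact (pow_eq_one_iff_of_nonneg zero_le hn0).1 h1
  have hω0 : ω ≠ 0 := by
    intro h
    rw [h, map_zero] at hwω
    exact zero_ne_one hwω
  -- replace `y`
  set z : K := ω * y with hz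
  have hz0 : z ≠ 0 := mul_ne_zero hω0 hy
  have hwz : w z = w x := by rw [hz, map_mul, hwω, one_mul, hxy]
  have hfz : FF a c n d y = FF a c n d z := by
    unfold FF
    rw [hz, mul_pow, mul_pow, hω.1, hω.2, one_mul, one_mul]
  have hwx0 : w x ≠ 0 := (Valuation.ne_zero_iff w).2 hx
  have hwz0 : w z ≠ 0 := (Valuation.ne_zero_iff w).2 hz0
  -- the relative difference
  obtain ⟨ε, hε⟩ : ∃ ε : K, x = z * (1 + ε) := ⟨x / z - 1, by field_simp; ring⟩
  have hδ : x - z = z * ε := by rw [hε]; ring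
  have hwε : w (x - z) = w x * w ε := by rw [hδ, map_mul, hwz]
  have hε1 : w ε < 1 := by
    have h1 : w x * w ε < w x * 1 := by rw [← hwε, mul_one]; exact hlt
    exact lt_of_mul_lt_mul_left h1 zero_le
  have hu := one_add w hε1
  have hun : w ((1 + ε) ^ n) = 1 := by rw [map_pow, hu, one_pow]
  have hud : w (((1 + ε) ^ d)⁻¹) = 1 := by rw [map_inv₀, map_pow, hu, one_pow, inv_one]
  have hun' := pow_sub w hε1 hW.wn
  have hud' := inv_sub w hε1 hW.wd
  set A : K := a * z ^ n with hA
  set C : K := c * (z ^ d)⁻¹ with hC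
  have hwA : w A = w x ^ n := by rw [hA, map_mul, hW.wa, one_mul, map_pow, hwz]
  have hwC : w C = w c * (w x ^ d)⁻¹ := by rw [hC, map_mul, map_inv₀, map_pow, hwz]
  have hfx : FF a c n d x = A * (1 + ε) ^ n + C * ((1 + ε) ^ d)⁻¹ := by
    unfold FF
    rw [hε, hA, hC, mul_pow z (1 + ε) n, mul_pow z (1 + ε) d, mul_inv]
    ring
  have hfz' : FF a c n d z = A + C := rfl
  have hxd : 0 < w x ^ d := zero_lt_iff.2 (pow_ne_zero d hwx0)
  have hAd : w A * w x ^ d = w x ^ (n + d) := by rw [hwA, pow_add]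
  have hCd : w C * w x ^ d = w c := by
    rw [hwC, mul_assoc, inv_mul_cancel₀ hxd.ne', mul_one]
  have hfin : ∀ P : K, FF a c n d x ≠ 0 ∧ FF a c n d z ≠ 0 ∧ w (FF a c n d x) = w P ∧
      w (FF a c n d z) = w P ∧ w (FF a c n d x - FF a c n d z) = w P * w ε →
      FF a c n d x ≠ 0 ∧ FF a c n d y ≠ 0 ∧ w (FF a c n d x) = w (FF a c n d y) ∧
      w (FF a c n d x - FF a c n d y) * w x = w (x - ω * y) * w (FF a c n d x) := by
    rintro P ⟨h1, h2, h3, h4, h5⟩
    rw [hfz, ← hz]
    refine ⟨h1, h2, by rw [h3, h4], ?_⟩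
    rw [h5, h3, hwε]
    ac_rfl
  rcases lt_or_gt_of_ne hne with h | h
  · -- `C` is larger
    have hlt' : w A < w C := by
      rw [← hAd, ← hCd] at h
      exact lt_of_mul_lt_mul_right h zero_le
    obtain ⟨g1, g2, g3, g4, g5⟩ := two w hlt' hud hun hud' hun'
    refine hfin C ?_
    rw [hfx, hfz', add_comm (A * (1 + ε) ^ n), add_comm A C]
    exact ⟨g1, g2, g3, g4, g5⟩
  · have hlt' : w C < w A := by
      rw [← hAd, ← hCd] at h
      exact lt_of_mul_lt_mul_right h zero_le
    obtain ⟨g1, g2, g3, g4, g5⟩ := two w hlt' hun hud hun' hud'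
    refine hfin A ?_
    rw [hfx, hfz']
    exact ⟨g1, g2, g3, g4, g5⟩

end Pool.Agent.TTM
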