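import Pool.Agent.TTM.TargetsQ
import Pool.Agent.TTM.P_ST2

set_option autoImplicit false

/-!
# TTM, target ST2B: one step away from the turning position, any leading coefficient
-/

namespace Pool.Agent.TTM

open Function NumberField IsDedekindDomain

open ST2_ in
theorem p_ST2B : T_ST2B := by
  intro K Γ _ _ w a c n d hW ha hc x y ω hx hy hxy hne hω hlt
  have hn0 : n ≠ 0 := by have := hW.hn; omega
  have hwω : w ω = 1 := by
    have h1 : w ω ^ n = 1 := by rw [← map_pow, hω.1, map_one]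
    exact (pow_eq_one_iff_of_nonneg zero_le hn0).1 h1
  have hω0 : ω ≠ 0 := by
    intro h
    rw [h, map_zero] at hwω
    exact zero_ne_one hwω
  -- replace `y`
  set z : K := ω * y with hz
  have hz0 : z ≠ 0 := mul_ne_zero hω0 hy
  have hwz : w z = w x := by rw [hz, map_mul, hwω, one_mul, hxy]
  have hfz : FF a c n d y = FF a c n d z := by
    unfold FF
    rw [hz, mul_pow, mul_pow, hω.1, hω.2, one_mul, one_mul]
  have hwx0 : w x ≠ 0 := (Valuation.ne_zero_iff w).2 hx
  have hwz0 : w z ≠ 0 := (Valuation.ne_zero_iff w).2 hz0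
  -- the relative difference
  obtain ⟨ε, hε⟩ : ∃ ε : K, x = z * (1 + ε) := ⟨x / z - 1, by field_simp; ring⟩
  have hδ : x - z = z * ε := by rw [hε]; ring
  have hwε : w (x - z) = w x * w ε := by rw [hδ, map_mul, hwz]
  have hε1 : w ε < 1 := by
    have h1 : w x * w ε < w x * 1 := by rw [← hwε, mul_one]; exact hlt
    exact lt_of_mul_lt_mul_left h1 zero_le
  have hu := one_add w hε1
  have hun : w ((1 + ε) ^ n) = 1 := by rw [map_pow, hu, one_pow]
  have hud : w (((1 + ε) ^ d)⁻¹) = 1 := by rw [map_inv₀, map_pow, hu, one_pow, inv_one]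
  have hun' := pow_sub w hε1 hW.wn
  have hud' := inv_sub w hε1 hW.wd
  set A : K := a * z ^ n with hA
  set C : K := c * (z ^ d)⁻¹ with hC
  have hwA : w A = w a * w x ^ n := by rw [hA, map_mul, map_pow, hwz]
  have hwC : w C = w c * (w x ^ d)⁻¹ := by rw [hC, map_mul, map_inv₀, map_pow, hwz]
  have hfx : FF a c n d x = A * (1 + ε) ^ n + C * ((1 + ε) ^ d)⁻¹ := by
    unfold FF
    rw [hε, hA, hC, mul_pow z (1 + ε) n, mul_pow z (1 + ε) d, mul_inv]
    ring
  have hfz' : FF a c n d z = A + C := rfl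
  have hxd : 0 < w x ^ d := zero_lt_iff.2 (pow_ne_zero d hwx0)
  have hAd : w A * w x ^ d = w a * w x ^ (n + d) := by rw [hwA, pow_add, mul_assoc]
  have hCd : w C * w x ^ d = w c := by
    rw [hwC, mul_assoc, inv_mul_cancel₀ hxd.ne', mul_one]
  have hfin : ∀ P : K, FF a c n d x ≠ 0 ∧ FF a c n d z ≠ 0 ∧ w (FF a c n d x) = w P ∧
      w (FF a c n d z) = w P ∧ w (FF a c n d x - FF a c n d z) = w P * w ε →
      FF a c n d x ≠ 0 ∧ FF a c n d y ≠ 0 ∧ w (FF a c n d x) = w (FF a c n d y) ∧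
      w (FF a c n d x - FF a c n d y) * w x = w (x - ω * y) * w (FF a c n d x) := by
    rintro P ⟨h1, h2, h3, h4, h5⟩
    rw [hfz, ← hz]
    refine ⟨h1, h2, by rw [h3, h4], ?_⟩
    rw [h5, h3, hwε]
    ac_rfl
  rcases lt_or_gt_of_ne hne with h | h
  · -- `C` is larger
    have hlt' : w A < w C := by
      rw [← hAd, ← hCd] at h
      exact lt_of_mul_lt_mul_right h zero_le
    obtain ⟨g1, g2, g3, g4, g5⟩ := two w hlt' hud hun hud' hun'
    refine hfin C ?_
    rw [hfx, hfz', add_comm (A * (1 + ε) ^ n), add_comm A C]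
    exact ⟨g1, g2, g3, g4, g5⟩
  · have hlt' : w C < w A := by
      rw [← hAd, ← hCd] at h
      exact lt_of_mul_lt_mul_right h zero_le
    obtain ⟨g1, g2, g3, g4, g5⟩ := two w hlt' hun hud hun' hud'
    refine hfin A ?_
    rw [hfx, hfz']
    exact ⟨g1, g2, g3, g4, g5⟩

end Pool.Agent.TTM
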