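import Pool.Agent.TTM.TargetsQ
import Pool.Agent.TTM.P_ST2

set_option autoImplicit false

/-!
# TTM, target ST2E: one step away from the turning position, `a` arbitrary
-/

namespace Pool.Agent.TTM

open Function NumberField IsDedekindDomain

open ST2_ in
theorem p_ST2E : T_ST2E := by
  intro K Γ _ _ w a c n l hW ha hc x y ω hx hy hxy hne hω hlt
  have hn0 : n ≠ 0 := by have := hW.hn; omega
  have hwω : w ω = 1 := by
    have h1 : w ω ^ n = 1 := by rw [← map_pow, hω.1, map_one]
    exact (pow_eq_one_iff_of_nonneg zero_le hn0).1 h1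
  have hω0 : ω ≠ 0 := by
    intro h
    rw [h, map_zero] at hwω
    exact zero_ne_one hwω
  -- replace `y`
  set z : K := ω * y with hz
  have hz0 : z ≠ 0 := mul_ne_zero hω0 hy
  have hwz : w z = w x := by rw [hz, map_mul, hwω, one_mul, hxy]
  have hfz : GG a c n l y = GG a c n l z := by
    unfold GG
    rw [hz, mul_pow, mul_pow, hω.1, hω.2, one_mul, one_mul]
  have hwx0 : w x ≠ 0 := (Valuation.ne_zero_iff w).2 hx
  -- the relative difference
  obtain ⟨ε, hε⟩ : ∃ ε : K, x = z * (1 + ε) := ⟨x / z - 1, by field_simp; ring⟩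
  have hδ : x - z = z * ε := by rw [hε]; ring
  have hwε : w (x - z) = w x * w ε := by rw [hδ, map_mul, hwz]
  have hε1 : w ε < 1 := by
    have h1 : w x * w ε < w x * 1 := by rw [← hwε, mul_one]; exact hlt
    exact lt_of_mul_lt_mul_left h1 zero_le
  have hu := one_add w hε1
  have hun : w ((1 + ε) ^ n) = 1 := by rw [map_pow, hu, one_pow]
  have hul : w ((1 + ε) ^ l) = 1 := by rw [map_pow, hu, one_pow]
  have hun' := pow_sub w hε1 hW.wn
  have hul' := pow_sub w hε1 hW.wp
  set A : K := a * z ^ n with hA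
  set C : K := c * z ^ l with hC
  have hwA : w A = w a * w x ^ (n - l) * w x ^ l := by
    rw [hA, map_mul, map_pow, hwz, mul_assoc, ← pow_add, Nat.sub_add_cancel hW.hn.le]
  have hwC : w C = w c * w x ^ l := by rw [hC, map_mul, map_pow, hwz]
  have hfx : GG a c n l x = A * (1 + ε) ^ n + C * (1 + ε) ^ l := by
    unfold GG
    rw [hε, hA, hC, mul_pow z (1 + ε) n, mul_pow z (1 + ε) l]
    ring
  have hfz' : GG a c n l z = A + C := rfl
  have hxl : 0 < w x ^ l := zero_lt_iff.2 (pow_ne_zero l hwx0)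
  have hfin : ∀ P : K, GG a c n l x ≠ 0 ∧ GG a c n l z ≠ 0 ∧ w (GG a c n l x) = w P ∧
      w (GG a c n l z) = w P ∧ w (GG a c n l x - GG a c n l z) = w P * w ε →
      GG a c n l x ≠ 0 ∧ GG a c n l y ≠ 0 ∧ w (GG a c n l x) = w (GG a c n l y) ∧
      w (GG a c n l x - GG a c n l y) * w x = w (x - ω * y) * w (GG a c n l x) := by
    rintro P ⟨h1, h2, h3, h4, h5⟩
    rw [hfz, ← hz]
    refine ⟨h1, h2, by rw [h3, h4], ?_⟩
    rw [h5, h3, hwε]
    ac_rfl
  rcases lt_or_gt_of_ne hne with h | h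
  · -- `C` is larger
    have hlt' : w A < w C := by
      rw [hwA, hwC]
      exact mul_lt_mul_of_pos_right h hxl
    obtain ⟨g1, g2, g3, g4, g5⟩ := two w hlt' hul hun hul' hun'
    refine hfin C ?_
    rw [hfx, hfz', add_comm (A * (1 + ε) ^ n), add_comm A C]
    exact ⟨g1, g2, g3, g4, g5⟩
  · have hlt' : w C < w A := by
      rw [hwA, hwC]
      exact mul_lt_mul_of_pos_right h hxl
    obtain ⟨g1, g2, g3, g4, g5⟩ := two w hlt' hun hul hun' hul'
    refine hfin A ?_
    rw [hfx, hfz']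
    exact ⟨g1, g2, g3, g4, g5⟩

end Pool.Agent.TTM
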