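import Pool.Agent.TTM.Targets

set_option autoImplicit false

/-!
# TTM: one step at the turning position, with cancellation (ST3)
-/

namespace Pool.Agent.TTM

open Function

namespace ST3_

variable {K Γ : Type} [Field K] [LinearOrderedCommGroupWithZero Γ] (w : Valuation K Γ)

theorem nat_le (k : ℕ) : w (k : K) ≤ 1 := by
  induction k with
  | zero => simp
  | succ k ih =>
    push_cast
    exact (w.map_add _ _).trans (max_le ih (by simp))

theorem expand {ε : K} (h : w ε ≤ 1) (k : ℕ) :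
    ∃ t : K, w t ≤ 1 ∧ (1 + ε) ^ k = 1 + k * ε + ε ^ 2 * t := by
  induction k with
  | zero => exact ⟨0, by simp, by simp⟩
  | succ k ih =>
    obtain ⟨t, ht, e⟩ := ih
    refine ⟨k + t + ε * t, ?_, ?_⟩
    · refine (w.map_add _ _).trans
        (max_le ((w.map_add _ _).trans (max_le (nat_le w k) ht)) ?_)
      rw [map_mul]
      exact mul_le_one' h ht
    · rw [pow_succ, e]
      push_cast
      ring

theorem core {A C ε N D s t : K} {r : Γ} (hr : r ≠ 0) (hA : w A = r) (hC : w C = r)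
    (hAC : w (A + C) < r) (hε : w ε < 1) (hN : w N ≤ 1) (hD : w D ≤ 1)
    (hND : w (N + D) = 1) (hs : w s ≤ 1) (ht : w t ≤ 1) :
    w (N * A - D * C + ε * (A * (s + (N + ε * s) * (D + ε * t)) - C * t)) = r := by
  have hr0 : 0 < r := zero_lt_iff.2 hr
  have h1 : w (ε * s) ≤ 1 := by
    rw [map_mul]
    exact mul_le_one' hε.le hs
  have h2 : w (ε * t) ≤ 1 := by
    rw [map_mul]
    exact mul_le_one' hε.le ht
  have h3 : w ((N + ε * s) * (D + ε * t)) ≤ 1 := by
    rw [map_mul]
    exact mul_le_one' ((w.map_add _ _).trans (max_le hN h1))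
      ((w.map_add _ _).trans (max_le hD h2))
  have h4 : w (A * (s + (N + ε * s) * (D + ε * t))) ≤ r := by
    rw [map_mul, hA]
    exact mul_le_of_le_one_right' ((w.map_add _ _).trans (max_le hs h3))
  have h5 : w (C * t) ≤ r := by
    rw [map_mul, hC]
    exact mul_le_of_le_one_right' ht
  have h6 : w (ε * (A * (s + (N + ε * s) * (D + ε * t)) - C * t)) < r := by
    rw [map_mul]
    have h7 : w (A * (s + (N + ε * s) * (D + ε * t)) - C * t) ≤ r :=
      (w.map_sub _ _).trans (max_le h4 h5)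
    exact (mul_le_mul_right h7 (w ε)).trans_lt (mul_lt_of_lt_one_left hr0 hε)
  have h8 : w (-(D * (A + C))) < r := by
    rw [Valuation.map_neg, map_mul]
    exact (mul_le_of_le_one_left' hD).trans_lt hAC
  have h9 : w ((N + D) * A) = r := by
    rw [map_mul, hND, one_mul, hA]
  have h10 : w (-(D * (A + C)) + ε * (A * (s + (N + ε * s) * (D + ε * t)) - C * t)) <
      w ((N + D) * A) := by
    rw [h9]
    exact (w.map_add _ _).trans_lt (max_lt h8 h6)
  have e : N * A - D * C + ε * (A * (s + (N + ε * s) * (D + ε * t)) - C * t) =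
      (N + D) * A + (-(D * (A + C)) +
        ε * (A * (s + (N + ε * s) * (D + ε * t)) - C * t)) := by ring
  rw [e, Valuation.map_add_eq_of_lt_left w h10, h9]

end ST3_

open ST3_ in
theorem p_ST3 : T_ST3 := by
  intro K Γ _ _ w a c n d hw hc x y ω hy hyc hf hω hxy
  have hn0 : n ≠ 0 := by have := hw.hn; omega
  have wω : w ω = 1 := by
    have h1 : w ω ^ n = 1 := by
      rw [← map_pow, hω.1, map_one]
    exact (pow_eq_one_iff.1 h1).resolve_right hn0
  -- replace `y` by `z = ω y`
  obtain ⟨z, hz⟩ : ∃ z, z = ω * y := ⟨_, rfl⟩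
  have wz : w z = w y := by
    rw [hz, map_mul, wω, one_mul]
  have fz : FF a c n d z = FF a c n d y := by
    unfold FF
    rw [hz, mul_pow, mul_pow, hω.1, hω.2, one_mul, one_mul]
  rw [← hz] at hxy ⊢
  rw [← wz] at hyc hf hxy ⊢
  rw [← fz] at hf ⊢
  have hρ : w z ≠ 0 := by
    rw [wz]
    exact (Valuation.ne_zero_iff w).2 hy
  have hz0 : z ≠ 0 := (Valuation.ne_zero_iff w).1 hρ
  have hρ0 : 0 < w z := zero_lt_iff.2 hρ
  -- `x = z (1 + ε)`
  obtain ⟨ε, hε⟩ : ∃ ε, ε = (x - z) / z := ⟨_, rfl⟩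
  have hx : x = z * (1 + ε) := by
    rw [hε]
    field_simp
    ring
  have wε' : w ε * w z = w (x - z) := by
    rw [← map_mul, hε]
    congr 1
    field_simp
  have wε : w ε < 1 := by
    by_contra hcon
    push Not at hcon
    have h1 : w z ≤ w ε * w z := le_mul_of_one_le_left' hcon
    rw [wε'] at h1
    exact absurd hxy (not_lt.2 h1)
  have w1 : w (1 + ε) = 1 := by
    have h1 : w ε < w (1 : K) := by rw [map_one]; exact wε
    rw [Valuation.map_add_eq_of_lt_left w h1, map_one]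
  have h10 : (1 + ε) ≠ 0 := by
    intro h
    rw [h, map_zero] at w1
    exact zero_ne_one w1
  obtain ⟨s, hs, es⟩ := expand w wε.le n
  obtain ⟨t, ht, et⟩ := expand w wε.le d
  obtain ⟨A, hA⟩ : ∃ A, A = a * z ^ n := ⟨_, rfl⟩
  obtain ⟨C, hC⟩ : ∃ C, C = c * (z ^ d)⁻¹ := ⟨_, rfl⟩
  have wA : w A = w z ^ n := by
    rw [hA, map_mul, hw.wa, one_mul, map_pow]
  have wC : w C = w z ^ n := by
    rw [hC, map_mul, map_inv₀, map_pow, ← hyc, pow_add]
    rw [mul_assoc, mul_inv_cancel₀ (pow_ne_zero _ hρ), mul_one]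
  have fz' : FF a c n d z = A + C := by
    rw [hA, hC]
    rfl
  have hcore := core w (N := (n : K)) (D := (d : K)) (pow_ne_zero n hρ) wA wC
    (by rw [← fz']; exact hf) wε (nat_le w n) (nat_le w d)
    (by have := hw.wnd; push_cast at this; exact this) hs ht
  have key : (FF a c n d x - FF a c n d z) * (1 + ε) ^ d = ε * ((n : K) * A - d * C +
      ε * (A * (s + (n + ε * s) * (d + ε * t)) - C * t)) := by
    have e1 : FF a c n d x = A * (1 + ε) ^ n + C * ((1 + ε) ^ d)⁻¹ := by
      unfold FF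
      rw [hx, hA, hC, mul_pow, mul_pow, mul_inv]
      ring
    have h2 : (1 + ε) ^ d ≠ 0 := pow_ne_zero _ h10
    rw [e1, fz']
    have e2 : (A * (1 + ε) ^ n + C * ((1 + ε) ^ d)⁻¹ - (A + C)) * (1 + ε) ^ d =
        A * ((1 + ε) ^ n - 1) * (1 + ε) ^ d - C * ((1 + ε) ^ d - 1) := by
      field_simp
      ring
    rw [e2, es, et]
    ring
  have h3 := congrArg w key
  rw [map_mul, map_pow, w1, one_pow, mul_one, map_mul, hcore] at h3
  rw [h3, ← wε', mul_assoc, ← pow_succ']
  congr 2
  omega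

end Pool.Agent.TTM
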