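import Pool.Agent.TTM.Targets

set_option autoImplicit false

/-!
# TTM: TOT, the number of points over `K`
-/

namespace Pool.Agent.TTM

open Function

namespace TOT_

section

variable {K : Type} [Field K]

/-- zero goes to zero -/
lemma FF_zero (a c : K) {n d : ℕ} (hn : n ≠ 0) (hd : d ≠ 0) : FF a c n d 0 = 0 := by
  unfold FF
  rw [zero_pow hn, zero_pow hd, inv_zero, mul_zero, mul_zero, add_zero]

/-- iterates of zero -/
lemma it_zero {f : K → K} (h : f 0 = 0) (k : ℕ) : f^[k] 0 = 0 := iterate_fixed h k

omit [Field K] in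
/-- iterates of periodic points are periodic -/
lemma per_it {f : K → K} {x : K} (h : x ∈ periodicPts f) (k : ℕ) :
    f^[k] x ∈ periodicPts f := by
  obtain ⟨m, hm, hp⟩ := h
  exact ⟨m, hm, hp.apply_iterate k⟩

/-- the preimages of a point -/
lemma pre_card [DecidableEq K] {a : K} (ha : a ≠ 0) (c y : K) {n d : ℕ} (hn : n ≠ 0)
    (T : Finset K) (hT : ∀ z ∈ T, FF a c n d z = y) : T.card ≤ n + d + 1 := by
  set p : Polynomial K := Polynomial.C a * Polynomial.X ^ (n + d) -
    Polynomial.C y * Polynomial.X ^ d + Polynomial.C c * Polynomial.X ^ 0 with hp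
  have hc : p.coeff (n + d) = a := by
    rw [hp]
    simp only [Polynomial.coeff_add, Polynomial.coeff_sub, Polynomial.coeff_C_mul,
      Polynomial.coeff_X_pow]
    rw [if_neg (show ¬ n + d = d by omega), if_neg (show ¬ n + d = 0 by omega)]
    simp
  have hp0 : p ≠ 0 := by
    intro h
    rw [h, Polynomial.coeff_zero] at hc
    exact ha hc.symm
  have hdeg : p.natDegree ≤ n + d := by
    rw [hp]
    refine (Polynomial.natDegree_add_le _ _).trans (max_le ?_ ?_)
    · refine (Polynomial.natDegree_sub_le _ _).trans (max_le ?_ ?_)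
      · exact Polynomial.natDegree_C_mul_X_pow_le a (n + d)
      · exact (Polynomial.natDegree_C_mul_X_pow_le y d).trans (by omega)
    · exact (Polynomial.natDegree_C_mul_X_pow_le c 0).trans (by omega)
  have hsub : T ⊆ insert 0 p.roots.toFinset := by
    intro z hz
    by_cases h0 : z = 0
    · rw [h0]; exact Finset.mem_insert_self _ _
    · refine Finset.mem_insert_of_mem ?_
      rw [Multiset.mem_toFinset, Polynomial.mem_roots hp0, Polynomial.IsRoot.def, hp]
      have h1 := hT z hz
      unfold FF at h1
      have hzd : z ^ d ≠ 0 := pow_ne_zero d h0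
      have h2 : c = (y - a * z ^ n) * z ^ d := by
        rw [← h1]
        rw [add_sub_cancel_left, inv_mul_cancel_right₀ hzd]
      simp only [Polynomial.eval_add, Polynomial.eval_sub, Polynomial.eval_mul,
        Polynomial.eval_C, Polynomial.eval_pow, Polynomial.eval_X]
      rw [h2, pow_add]
      ring
  calc T.card ≤ (insert 0 p.roots.toFinset).card := Finset.card_le_card hsub
    _ ≤ p.roots.toFinset.card + 1 := Finset.card_insert_le _ _
    _ ≤ n + d + 1 := by
      have h1 := Multiset.toFinset_card_le p.roots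
      have h2 := Polynomial.card_roots' p
      omega

omit [Field K] in
/-- points whose `k`-th image is in a small set -/
lemma count {f : K → K} {R : Set K} {r q : ℕ} [DecidableEq K]
    (hR : ∀ T : Finset K, (∀ z ∈ T, z ∈ R) → T.card ≤ r)
    (hq : ∀ (y : K) (T : Finset K), (∀ z ∈ T, f z = y) → T.card ≤ q) :
    ∀ (k : ℕ) (S : Finset K), (∀ z ∈ S, f^[k] z ∈ R) → S.card ≤ q ^ k * r := by
  intro k
  induction k with
  | zero =>
    intro S hS
    rw [pow_zero, one_mul]
    exact hR S hS
  | succ k ih =>
    intro S hS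
    have h1 : S.card ≤ q * (S.image f).card := by
      refine Finset.card_le_mul_card_image S q fun y _ => hq y _ fun z hz => ?_
      exact (Finset.mem_filter.1 hz).2
    have h2 := ih (S.image f) (by
      intro y hy
      obtain ⟨z, hz, rfl⟩ := Finset.mem_image.1 hy
      exact hS z hz)
    calc S.card ≤ q * (S.image f).card := h1
      _ ≤ q * (q ^ k * r) := Nat.mul_le_mul_left q h2
      _ = q ^ (k + 1) * r := by rw [pow_succ]; ring

end

section

variable {K L : Type} [Field K] [Field L] (φ : K →+* L)

lemma map_FF (a c : K) (n d : ℕ) (z : K) : φ (FF a c n d z) = FF (φ a) (φ c) n d (φ z) := by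
  unfold FF
  rw [map_add, map_mul, map_mul, map_inv₀, map_pow, map_pow]

lemma map_it (a c : K) (n d : ℕ) (z : K) (k : ℕ) :
    φ ((FF a c n d)^[k] z) = (FF (φ a) (φ c) n d)^[k] (φ z) := by
  induction k with
  | zero => rfl
  | succ k ih => rw [iterate_succ_apply', iterate_succ_apply', map_FF, ih]

lemma map_per (a c : K) (n d : ℕ) (z : K) :
    z ∈ periodicPts (FF a c n d) ↔ φ z ∈ periodicPts (FF (φ a) (φ c) n d) := by
  constructor
  · rintro ⟨m, hm, hp⟩
    refine ⟨m, hm, ?_⟩
    unfold IsPeriodicPt IsFixedPt at hp ⊢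
    rw [← map_it, hp]
  · rintro ⟨m, hm, hp⟩
    refine ⟨m, hm, ?_⟩
    unfold IsPeriodicPt IsFixedPt at hp ⊢
    rw [← map_it] at hp
    exact φ.injective hp

end

end TOT_

open TOT_ in
theorem p_TOT (h : T_NB) : T_TOT := by
  classical
  intro K _ _ a n d ha hn hd hg
  set m := Nat.gcd n d with hm
  have hm0 : m ≠ 0 := by omega
  have : NeZero m := ⟨hm0⟩
  let L := CyclotomicField m K
  have : NumberField L := IsCyclotomicExtension.numberField {m} K L
  have : NeZero ((m : ℕ) : L) := ⟨by exact_mod_cast hm0⟩
  set φ := algebraMap K L with hφ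
  have hφa : φ a ≠ 0 := (map_ne_zero φ).2 ha
  obtain ⟨B, hB⟩ := h L (φ a) n d m (IsCyclotomicExtension.zeta m K L) hφa hn hg
    (Nat.gcd_dvd_left n d) (Nat.gcd_dvd_right n d) hd (IsCyclotomicExtension.zeta_spec m K L)
  refine ⟨(n + d + 1) ^ (B + 2) * (B + 1), fun c hc S hS => ?_⟩
  have hφc : φ c ≠ 0 := (map_ne_zero φ).2 hc
  obtain ⟨h1, h2, h3⟩ := hB (φ c) hφc
  set f := FF a c n d with hf
  have f0 : f 0 = 0 := FF_zero a c (by omega) (by omega)
  have hR : ∀ T : Finset K, (∀ z ∈ T, z ∈ {z : K | z = 0 ∨ z ∈ periodicPts f}) →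
      T.card ≤ B + 1 := by
    intro T hT
    have h4 : ((T.erase 0).image φ).card ≤ B := by
      refine h1 _ fun x hx => ?_
      obtain ⟨z, hz, rfl⟩ := Finset.mem_image.1 hx
      obtain ⟨hz0, hzT⟩ := Finset.mem_erase.1 hz
      refine ⟨(map_ne_zero φ).2 hz0, ?_⟩
      rcases hT z hzT with h5 | h5
      · exact absurd h5 hz0
      · exact (map_per φ a c n d z).1 h5
    rw [Finset.card_image_of_injective _ φ.injective] at h4
    have h5 := Finset.pred_card_le_card_erase (s := T) (a := 0)
    omega
  refine (count (f := f) hR (fun y T hT => pre_card ha c y (by omega) T hT) (B + 2) S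
    fun z hz => ?_)
  -- the point is in the small set after `B + 2` steps
  rcases hS z hz with h4 | h4 | h4
  · exact Or.inr (per_it h4 _)
  · left
    obtain ⟨k, hk⟩ := h4
    have hex : ∃ k, f^[k] z = 0 := ⟨k, hk⟩
    have h5 : ∀ j, j ≤ B + 2 → f^[j] z = 0 → f^[B + 2] z = 0 := by
      intro j hj h6
      obtain ⟨i, hi⟩ := Nat.exists_eq_add_of_le hj
      rw [hi, add_comm, iterate_add_apply, h6, it_zero f0]
    refine h5 (Nat.find hex) ?_ (Nat.find_spec hex)
    rcases hq : Nat.find hex with _ | k'
    · omega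
    · have h6 := h2 (φ z) k' (by
        rw [← map_it]
        exact (map_ne_zero φ).2 (Nat.find_min hex (by omega))) (by
        rw [← map_it]
        have := Nat.find_spec hex
        rw [hq] at this
        exact (map_eq_zero φ).2 this)
      omega
  · right
    obtain ⟨k, hk, hk'⟩ := h4
    have hex : ∃ k, f^[k] z ∈ periodicPts f := ⟨k, hk⟩
    have h5 : ∀ j, j ≤ B + 2 → f^[j] z ∈ periodicPts f → f^[B + 2] z ∈ periodicPts f := by
      intro j hj h6
      obtain ⟨i, hi⟩ := Nat.exists_eq_add_of_le hj
      rw [hi, add_comm, iterate_add_apply]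
      exact per_it h6 i
    refine h5 (Nat.find hex) ?_ (Nat.find_spec hex)
    have hle : Nat.find hex ≤ k := Nat.find_min' hex hk
    have hfix : f (f^[Nat.find hex] z) ≠ f^[Nat.find hex] z := by
      intro h6
      obtain ⟨i, hi⟩ := Nat.exists_eq_add_of_le hle
      have h7 : f^[k] z = f^[Nat.find hex] z := by
        rw [hi, add_comm, iterate_add_apply]
        exact iterate_fixed h6 i
      apply hk'
      rw [h7]
      exact h6
    rcases hq : Nat.find hex with _ | t
    · omega
    · have hs := Nat.find_spec hex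
      rw [hq] at hs hfix
      have h6 := h3 (φ z) t (by
        rw [← map_it]
        intro h7
        exact Nat.find_min hex (by omega) ((map_per φ a c n d _).2 h7)) (by
        rw [← map_it]
        exact (map_per φ a c n d _).1 hs) (by
        rw [← map_it, ← map_FF]
        intro h7
        exact hfix (φ.injective h7))
      omega

end Pool.Agent.TTM
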