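import Pool.Agent.TTM.TargetsP
import Pool.Agent.TTM.P_TOT

set_option autoImplicit false

/-!
# TTM: TOTP, the number of points over `K` (polynomials)
-/

namespace Pool.Agent.TTM

open Function

namespace TOTP_

section

variable {K : Type} [Field K]

/-- zero goes to zero -/
lemma GG_zero (a c : K) {n l : ℕ} (hn : n ≠ 0) (hl : l ≠ 0) : GG a c n l 0 = 0 := by
  unfold GG
  rw [zero_pow hn, zero_pow hl, mul_zero, mul_zero, add_zero]

/-- the preimages of a point -/
lemma pre_card [DecidableEq K] {a : K} (ha : a ≠ 0) (c y : K) {n l : ℕ} (hn : n ≠ 0)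
    (hl : l < n) (T : Finset K) (hT : ∀ z ∈ T, GG a c n l z = y) : T.card ≤ n := by
  set p : Polynomial K := Polynomial.C a * Polynomial.X ^ n +
    Polynomial.C c * Polynomial.X ^ l - Polynomial.C y * Polynomial.X ^ 0 with hp
  have hc : p.coeff n = a := by
    rw [hp]
    simp only [Polynomial.coeff_add, Polynomial.coeff_sub, Polynomial.coeff_C_mul,
      Polynomial.coeff_X_pow]
    rw [if_neg (show ¬ n = l by omega), if_neg (show ¬ n = 0 by omega)]
    simp
  have hp0 : p ≠ 0 := by
    intro h
    rw [h, Polynomial.coeff_zero] at hc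
    exact ha hc.symm
  have hdeg : p.natDegree ≤ n := by
    rw [hp]
    refine (Polynomial.natDegree_sub_le _ _).trans (max_le ?_ ?_)
    · refine (Polynomial.natDegree_add_le _ _).trans (max_le ?_ ?_)
      · exact Polynomial.natDegree_C_mul_X_pow_le a n
      · exact (Polynomial.natDegree_C_mul_X_pow_le c l).trans hl.le
    · exact (Polynomial.natDegree_C_mul_X_pow_le y 0).trans (by omega)
  have hsub : T ⊆ p.roots.toFinset := by
    intro z hz
    rw [Multiset.mem_toFinset, Polynomial.mem_roots hp0, Polynomial.IsRoot.def, hp]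
    have h1 := hT z hz
    unfold GG at h1
    simp only [Polynomial.eval_add, Polynomial.eval_sub, Polynomial.eval_mul,
      Polynomial.eval_C, Polynomial.eval_pow, Polynomial.eval_X]
    rw [h1]
    ring
  calc T.card ≤ p.roots.toFinset.card := Finset.card_le_card hsub
    _ ≤ n := by
      have h1 := Multiset.toFinset_card_le p.roots
      have h2 := Polynomial.card_roots' p
      omega

end

section

variable {K L : Type} [Field K] [Field L] (φ : K →+* L)

lemma map_GG (a c : K) (n l : ℕ) (z : K) : φ (GG a c n l z) = GG (φ a) (φ c) n l (φ z) := by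
  unfold GG
  rw [map_add, map_mul, map_mul, map_pow, map_pow]

lemma map_it (a c : K) (n l : ℕ) (z : K) (k : ℕ) :
    φ ((GG a c n l)^[k] z) = (GG (φ a) (φ c) n l)^[k] (φ z) := by
  induction k with
  | zero => rfl
  | succ k ih => rw [iterate_succ_apply', iterate_succ_apply', map_GG, ih]

lemma map_per (a c : K) (n l : ℕ) (z : K) :
    z ∈ periodicPts (GG a c n l) ↔ φ z ∈ periodicPts (GG (φ a) (φ c) n l) := by
  constructor
  · rintro ⟨m, hm, hp⟩
    refine ⟨m, hm, ?_⟩
    unfold IsPeriodicPt IsFixedPt at hp ⊢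
    rw [← map_it, hp]
  · rintro ⟨m, hm, hp⟩
    refine ⟨m, hm, ?_⟩
    unfold IsPeriodicPt IsFixedPt at hp ⊢
    rw [← map_it] at hp
    exact φ.injective hp

end

end TOTP_

open TOTP_ in
theorem p_TOTP (h : T_NBP) : T_TOTP := by
  classical
  intro K _ _ a n d ha hn hd hdn hg hcop
  set m := Nat.gcd n d with hm
  have hm0 : m ≠ 0 := by omega
  have : NeZero m := ⟨hm0⟩
  let L := CyclotomicField m K
  have : NumberField L := IsCyclotomicExtension.numberField {m} K L
  have : NeZero ((m : ℕ) : L) := ⟨by exact_mod_cast hm0⟩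
  set φ := algebraMap K L with hφ
  have hφa : φ a ≠ 0 := (map_ne_zero φ).2 ha
  obtain ⟨B, hB⟩ := h L (φ a) n d m (IsCyclotomicExtension.zeta m K L) hφa hn hg
    (Nat.gcd_dvd_left n d) (Nat.gcd_dvd_right n d) hd hdn hcop
    (IsCyclotomicExtension.zeta_spec m K L)
  refine ⟨n ^ (B + 2) * (B + 1), fun c hc S hS => ?_⟩
  have hφc : φ c ≠ 0 := (map_ne_zero φ).2 hc
  obtain ⟨h1, h2, h3⟩ := hB (φ c) hφc
  set f := GG a c n d with hf
  have f0 : f 0 = 0 := GG_zero a c (by omega) (by omega)
  have hR : ∀ T : Finset K, (∀ z ∈ T, z ∈ {z : K | z = 0 ∨ z ∈ periodicPts f}) →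
      T.card ≤ B + 1 := by
    intro T hT
    have h4 : ((T.erase 0).image φ).card ≤ B := by
      refine h1 _ fun x hx => ?_
      obtain ⟨z, hz, rfl⟩ := Finset.mem_image.1 hx
      obtain ⟨hz0, hzT⟩ := Finset.mem_erase.1 hz
      refine ⟨(map_ne_zero φ).2 hz0, ?_⟩
      rcases hT z hzT with h5 | h5
      · exact absurd h5 hz0
      · exact (map_per φ a c n d z).1 h5
    rw [Finset.card_image_of_injective _ φ.injective] at h4
    have h5 := Finset.pred_card_le_card_erase (s := T) (a := 0)
    omega
  refine (TOT_.count (f := f) hR (fun y T hT => pre_card ha c y (by omega) hdn T hT) (B + 2) S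
    fun z hz => ?_)
  -- the point is in the small set after `B + 2` steps
  rcases hS z hz with h4 | h4 | h4
  · exact Or.inr (TOT_.per_it h4 _)
  · left
    obtain ⟨k, hk⟩ := h4
    have hex : ∃ k, f^[k] z = 0 := ⟨k, hk⟩
    have h5 : ∀ j, j ≤ B + 2 → f^[j] z = 0 → f^[B + 2] z = 0 := by
      intro j hj h6
      obtain ⟨i, hi⟩ := Nat.exists_eq_add_of_le hj
      rw [hi, add_comm, iterate_add_apply, h6, TOT_.it_zero f0]
    refine h5 (Nat.find hex) ?_ (Nat.find_spec hex)
    rcases hq : Nat.find hex with _ | k'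
    · omega
    · have h6 := h2 (φ z) k' (by
        rw [← map_it]
        exact (map_ne_zero φ).2 (Nat.find_min hex (by omega))) (by
        rw [← map_it]
        have := Nat.find_spec hex
        rw [hq] at this
        exact (map_eq_zero φ).2 this)
      omega
  · right
    obtain ⟨k, hk, hk'⟩ := h4
    have hex : ∃ k, f^[k] z ∈ periodicPts f := ⟨k, hk⟩
    have h5 : ∀ j, j ≤ B + 2 → f^[j] z ∈ periodicPts f → f^[B + 2] z ∈ periodicPts f := by
      intro j hj h6
      obtain ⟨i, hi⟩ := Nat.exists_eq_add_of_le hj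
      rw [hi, add_comm, iterate_add_apply]
      exact TOT_.per_it h6 i
    refine h5 (Nat.find hex) ?_ (Nat.find_spec hex)
    have hle : Nat.find hex ≤ k := Nat.find_min' hex hk
    have hfix : f (f^[Nat.find hex] z) ≠ f^[Nat.find hex] z := by
      intro h6
      obtain ⟨i, hi⟩ := Nat.exists_eq_add_of_le hle
      have h7 : f^[k] z = f^[Nat.find hex] z := by
        rw [hi, add_comm, iterate_add_apply]
        exact iterate_fixed h6 i
      apply hk'
      rw [h7]
      exact h6
    rcases hq : Nat.find hex with _ | t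
    · omega
    · have hs := Nat.find_spec hex
      rw [hq] at hs hfix
      have h6 := h3 (φ z) t (by
        rw [← map_it]
        intro h7
        exact Nat.find_min hex (by omega) ((map_per φ a c n d _).2 h7)) (by
        rw [← map_it]
        exact (map_per φ a c n d _).1 hs) (by
        rw [← map_it, ← map_GG]
        intro h7
        exact hfix (φ.injective h7))
      omega

end Pool.Agent.TTM
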