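import Pool.Agent.TTM.TargetsQ
import Pool.Agent.TTM.P_TOTP

set_option autoImplicit false

/-!
# TTM: TOTE, the number of points over `K` (the parameter is the leading coefficient)
-/

namespace Pool.Agent.TTM

open Function

open TOTP_ in
/-- **TOTE** -/
theorem p_TOTE (h : T_NBE) : T_TOTE := by
  classical
  intro K _ _ a n d ha hd hdn hg
  set m := Nat.gcd n d with hm
  have hm0 : m ≠ 0 := by omega
  have : NeZero m := ⟨hm0⟩
  let L := CyclotomicField m K
  have : NumberField L := IsCyclotomicExtension.numberField {m} K L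
  have : NeZero ((m : ℕ) : L) := ⟨by exact_mod_cast hm0⟩
  set φ := algebraMap K L with hφ
  have hφa : φ a ≠ 0 := (map_ne_zero φ).2 ha
  obtain ⟨B, hB⟩ := h L (φ a) n d m (IsCyclotomicExtension.zeta m K L) hφa hd hdn hg
    (Nat.gcd_dvd_left n d) (Nat.gcd_dvd_right n d) (IsCyclotomicExtension.zeta_spec m K L)
  refine ⟨n ^ (B + 2) * (B + 1), fun c hc S hS => ?_⟩
  have hφc : φ c ≠ 0 := (map_ne_zero φ).2 hc
  obtain ⟨h1, h2, h3⟩ := hB (φ c) hφc
  set f := GG c a n d with hf
  have f0 : f 0 = 0 := GG_zero c a (by omega) (by omega)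
  have hR : ∀ T : Finset K, (∀ z ∈ T, z ∈ {z : K | z = 0 ∨ z ∈ periodicPts f}) →
      T.card ≤ B + 1 := by
    intro T hT
    have h4 : ((T.erase 0).image φ).card ≤ B := by
      refine h1 _ fun x hx => ?_
      obtain ⟨z, hz, rfl⟩ := Finset.mem_image.1 hx
      obtain ⟨hz0, hzT⟩ := Finset.mem_erase.1 hz
      refine ⟨(map_ne_zero φ).2 hz0, ?_⟩
      rcases hT z hzT with h5 | h5
      · exact absurd h5 hz0
      · exact (map_per φ c a n d z).1 h5
    rw [Finset.card_image_of_injective _ φ.injective] at h4
    have h5 := Finset.pred_card_le_card_erase (s := T) (a := 0)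
    omega
  refine (TOT_.count (f := f) hR (fun y T hT => pre_card hc a y (by omega) hdn T hT) (B + 2) S
    fun z hz => ?_)
  -- the point is in the small set after `B + 2` steps
  rcases hS z hz with h4 | h4 | h4
  · exact Or.inr (TOT_.per_it h4 _)
  · left
    obtain ⟨k, hk⟩ := h4
    have hex : ∃ k, f^[k] z = 0 := ⟨k, hk⟩
    have h5 : ∀ j, j ≤ B + 2 → f^[j] z = 0 → f^[B + 2] z = 0 := by
      intro j hj h6
      obtain ⟨i, hi⟩ := Nat.exists_eq_add_of_le hj
      rw [hi, add_comm, iterate_add_apply, h6, TOT_.it_zero f0]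
    refine h5 (Nat.find hex) ?_ (Nat.find_spec hex)
    rcases hq : Nat.find hex with _ | k'
    · omega
    · have h6 := h2 (φ z) k' (by
        rw [← map_it]
        exact (map_ne_zero φ).2 (Nat.find_min hex (by omega))) (by
        rw [← map_it]
        have := Nat.find_spec hex
        rw [hq] at this
        exact (map_eq_zero φ).2 this)
      omega
  · right
    obtain ⟨k, hk, hk'⟩ := h4
    have hex : ∃ k, f^[k] z ∈ periodicPts f := ⟨k, hk⟩
    have h5 : ∀ j, j ≤ B + 2 → f^[j] z ∈ periodicPts f → f^[B + 2] z ∈ periodicPts f := by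
      intro j hj h6
      obtain ⟨i, hi⟩ := Nat.exists_eq_add_of_le hj
      rw [hi, add_comm, iterate_add_apply]
      exact TOT_.per_it h6 i
    refine h5 (Nat.find hex) ?_ (Nat.find_spec hex)
    have hle : Nat.find hex ≤ k := Nat.find_min' hex hk
    have hfix : f (f^[Nat.find hex] z) ≠ f^[Nat.find hex] z := by
      intro h6
      obtain ⟨i, hi⟩ := Nat.exists_eq_add_of_le hle
      have h7 : f^[k] z = f^[Nat.find hex] z := by
        rw [hi, add_comm, iterate_add_apply]
        exact iterate_fixed h6 i
      apply hk'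
      rw [h7]
      exact h6
    rcases hq : Nat.find hex with _ | t
    · omega
    · have hs := Nat.find_spec hex
      rw [hq] at hs hfix
      have h6 := h3 (φ z) t (by
        rw [← map_it]
        intro h7
        exact Nat.find_min hex (by omega) ((map_per φ c a n d _).2 h7)) (by
        rw [← map_it]
        exact (map_per φ c a n d _).1 hs) (by
        rw [← map_it, ← map_GG]
        intro h7
        exact hfix (φ.injective h7))
      omega

end Pool.Agent.TTM
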