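import Pool.Agent.TTM.All12
import Pool.Agent.TTM.Final
import Pool.Agent.TTM.P_ESCB
import Pool.Agent.TTM.P_ESCE
import Pool.Agent.TTM.P_L2B
import Pool.Agent.TTM.P_L2E
import Pool.Agent.TTM.P_L3B
import Pool.Agent.TTM.P_L3E
import Pool.Agent.TTM.P_NBB
import Pool.Agent.TTM.P_NBE
import Pool.Agent.TTM.P_NSTE
import Pool.Agent.TTM.P_POSE
import Pool.Agent.TTM.P_ST2B
import Pool.Agent.TTM.P_ST2E
import Pool.Agent.TTM.P_ST3B
import Pool.Agent.TTM.P_ST3E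
import Pool.Agent.TTM.P_TOTB
import Pool.Agent.TTM.P_TOTE

set_option autoImplicit false

/-!
# TTM: assembly of part 3 and the final theorem
-/

namespace Pool.Agent.TTM

/-! part 3, (B) -/

theorem all_L2B : T_L2B := p_L2B p_ST2B p_SEP
theorem all_L3B : T_L3B := p_L3B p_ESCB p_ST3B
theorem all_NBB : T_NBB := p_NBB p_ESCB all_L1 all_L2B all_L3B p_SEP all_CNTP
theorem all_TOTB : T_TOTB := p_TOTB all_NBB

/-! part 3, (E) -/

theorem all_L2E : T_L2E := p_L2E p_ST2E p_SEPG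
theorem all_POSE : T_POSE := p_POSE p_ESCE
theorem all_NSTE : T_NSTE := p_NSTE p_ESCE p_SEPG
theorem all_L3E : T_L3E := p_L3E p_ESCE p_ST2E p_ST3E p_SEPG all_L2E all_POSE all_NSTE
theorem all_NBE : T_NBE := p_NBE p_ESCE all_L1P all_L2E all_L3E p_SEPG all_CNTP
theorem all_TOTE : T_TOTE := p_TOTE all_NBE

/-- the final theorem -/
theorem all_two (K : Type) [Field K]
    [NumberField K] (a : K) (k l : ℤ) (ha : a ≠ 0)
    (h : l = 0 ∧ (5 ≤ k ∨ k ≤ -4 ∨ 3 ≤ |k| ∧ a = 1 ∧ Module.finrank ℚ K = 1) ∨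
      l ≠ 0 ∧ k ≠ l ∧ (0 < k ∨ 0 < l) ∧ 4 ≤ Int.gcd k l ∧ (6 ≤ k ∨ k ≤ -4) ∧
        (0 < l → l < k → Int.gcd l (k - 1) = 1)) :
    ∃ B : ℕ, ∀ c : K, (l = 0 ∨ c ≠ 0) →
      {P : Option K | ∃ i m : ℕ, 0 < m ∧
        (twoMap a c k l)^[m] ((twoMap a c k l)^[i] P) = (twoMap a c k l)^[i] P ∧
        (l = 0 ∨ i = 0 ∨ twoMap a c k l ((twoMap a c k l)^[i] P) ≠ (twoMap a c k l)^[i] P ∨
          (twoMap a c k l)^[i] P = none ∨ (twoMap a c k l)^[i] P = some 0)}.encard ≤ B :=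
  two_all all_TOT all_TOTP all_TOTB all_TOTE K a k l ha h

end Pool.Agent.TTM
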