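import Pool.Agent.TTM.Targets

set_option autoImplicit false

/-!
# TTM: CH2, the chain for `w c < 1` (MP_c076ed_nt)
-/

namespace Pool.Agent.TTM

open Function

namespace CH2_

theorem fo_iterate {K : Type} [Field K] {a c : K} {n d : ℕ} {x : K} (h : Fo a c n d x) (k : ℕ) :
    Fo a c n d ((FF a c n d)^[k] x) := by
  refine Set.Finite.subset h ?_
  rintro _ ⟨m, rfl⟩
  exact ⟨m + k, Function.iterate_add_apply _ m k x⟩

/-- one step -/
theorem step {K Γ : Type} [Field K] [LinearOrderedCommGroupWithZero Γ]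
    (h1 : T_ESC) (h2 : T_ST2) {w : Valuation K Γ} {a c : K} {n d : ℕ} (hH : HW w a n d)
    (hc : c ≠ 0) (hc1 : w c < 1) {x y ω : K} (hx : x ≠ 0) (hy : y ≠ 0) (hfx : Fo a c n d x)
    (hfy : Fo a c n d y) (hne : FF a c n d x ≠ FF a c n d y) (hω : Om n d ω) (hw : w x = w y)
    (hlt : w (x - ω * y) < w x) :
    FF a c n d x ≠ 0 ∧ FF a c n d y ≠ 0 ∧ w (FF a c n d x) = w (FF a c n d y) ∧
      w (FF a c n d x - FF a c n d y) * w x = w (x - ω * y) * w (FF a c n d x) := by
  refine h2 K Γ w a c n d hH hc x y ω hx hy hw ?_ hω hlt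
  by_cases h0 : FF a c n d x = 0
  · have h0' : FF a c n d y ≠ 0 := fun h => hne (h0.trans h.symm)
    rw [hw]
    exact (h1 K Γ w a c n d hH hc y hfy hy).2.2.1 hc1 h0'
  · exact (h1 K Γ w a c n d hH hc x hfx hx).2.2.1 hc1 h0

end CH2_

open CH2_ in
theorem p_CH2 (h1 : T_ESC) (h2 : T_ST2) : T_CH2 := by
  intro K Γ _ _ w a c n d hH hc hc1 x y ω hx hy hfx hfy hsep hω hw hlt k
  have hwx : w x ≠ 0 := (Valuation.ne_zero_iff w).2 hx
  have hwx0 : 0 < w x := zero_lt_iff.2 hwx
  induction k with
  | zero =>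
    rw [Function.iterate_succ_apply', Function.iterate_succ_apply', Function.iterate_zero_apply,
      Function.iterate_zero_apply]
    have hne := hsep 0 hx hy
    rw [Function.iterate_succ_apply', Function.iterate_succ_apply', Function.iterate_zero_apply,
      Function.iterate_zero_apply] at hne
    exact step h1 h2 hH hc hc1 hx hy hfx hfy hne hω hw hlt
  | succ k ih =>
    obtain ⟨i1, i2, i3, i4⟩ := ih
    have hne := hsep (k + 1) i1 i2
    have hfx' := fo_iterate hfx (k + 1)
    have hfy' := fo_iterate hfy (k + 1)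
    rw [Function.iterate_succ_apply' _ (k + 1), Function.iterate_succ_apply' _ (k + 1)] at hne
    rw [Function.iterate_succ_apply' _ (k + 1), Function.iterate_succ_apply' _ (k + 1)]
    generalize (FF a c n d)^[k + 1] x = u at i1 i3 i4 hne hfx' ⊢
    generalize (FF a c n d)^[k + 1] y = v at i2 i3 i4 hne hfy' ⊢
    have hwu : w u ≠ 0 := (Valuation.ne_zero_iff w).2 i1
    have hwu0 : 0 < w u := zero_lt_iff.2 hwu
    have hlt' : w (u - 1 * v) < w u := by
      rw [one_mul]
      by_contra hcon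
      push Not at hcon
      have e1 : w u * w x ≤ w (u - v) * w x := mul_le_mul_left hcon _
      rw [i4] at e1
      have e2 : w (x - ω * y) * w u < w x * w u := mul_lt_mul_of_pos_right hlt hwu0
      rw [mul_comm (w x)] at e2
      exact absurd (e1.trans_lt e2) (lt_irrefl _)
    obtain ⟨j1, j2, j3, j4⟩ := step h1 h2 hH hc hc1 i1 i2 hfx' hfy' hne
      (show Om n d (1 : K) from ⟨one_pow _, one_pow _⟩) i3 hlt'
    refine ⟨j1, j2, j3, ?_⟩
    rw [one_mul] at j4
    refine mul_right_cancel₀ hwu ?_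
    calc w (FF a c n d u - FF a c n d v) * w x * w u
        = (w (FF a c n d u - FF a c n d v) * w u) * w x := by
          rw [mul_assoc, mul_comm (w x), ← mul_assoc]
      _ = (w (u - v) * w x) * w (FF a c n d u) := by
          rw [j4, mul_assoc, mul_comm (w (FF a c n d u)), ← mul_assoc]
      _ = (w (x - ω * y) * w u) * w (FF a c n d u) := by rw [i4]
      _ = _ := by rw [mul_assoc, mul_comm (w u), ← mul_assoc]

end Pool.Agent.TTM
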