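import Pool.Agent.TTM.TargetsP
import Pool.Agent.PDP.SymTail
import Pool.Agent.HMW.SEL

set_option autoImplicit false

/-!
# TTM: counting with few points in windows, polynomials
-/

namespace Pool.Agent.TTM

open Function NumberField IsDedekindDomain

namespace CNTP_

/-- the logarithm of the quotient -/
theorem quot_log {K : Type} [Field K] [NumberField K] (v : HeightOneSpectrum (𝓞 K)) (n : ℕ)
    (hn : 1 ≤ n) {p q ω ω' : K} (hne : p - ω * q ≠ 0) (hne' : p - ω' * q ≠ 0)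
    (h : GPP (v.valuation K) n p q ω) (h' : GPP (v.valuation K) n p q ω') :
    ((n - 1 : ℕ) : ℤ) ∣ WithZero.log (v.valuation K ((p - ω * q) / (p - ω' * q))) := by
  have hw : v.valuation K (p - ω * q) ≠ 0 := (Valuation.ne_zero_iff _).2 hne
  have hw' : v.valuation K (p - ω' * q) ≠ 0 := (Valuation.ne_zero_iff _).2 hne'
  rw [map_div₀, WithZero.log_div hw hw', Nat.cast_sub hn, Nat.cast_one]
  have h3 := dvd_sub h h'
  rwa [sub_sub_sub_cancel_right] at h3

end CNTP_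

open CNTP_

theorem p_CNTP (hG : Pool.Agent.HMW.T_KGU) : T_CNTP := by
  intro K _ _ n m N ζ hn hm hζ hN
  classical
  obtain ⟨A, hA0, hA⟩ := Pool.Agent.HMW.p_SEL K (n - 1) (N : 𝓞 K) (by omega)
    (by exact_mod_cast hN)
  have hζ0 : ζ ≠ 0 := hζ.ne_zero (by omega)
  have hζ1 : ζ ≠ 1 := hζ.ne_one (by omega)
  have hζ2 : ζ ^ 2 ≠ 1 := hζ.pow_ne_one_of_pos_of_lt (by omega) (by omega)
  have h1ζ : 1 + ζ ≠ 0 := by
    intro h0
    apply hζ2
    linear_combination (ζ - 1) * h0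
  set A' : Finset K := (A.image fun a => ζ / (1 + ζ) * a) ∪ (A.image fun a => (1 + ζ)⁻¹ * a)
    with hA'
  have hA'0 : ∀ a ∈ A', a ≠ 0 := by
    intro a ha
    rw [hA', Finset.mem_union, Finset.mem_image, Finset.mem_image] at ha
    rcases ha with ⟨b, hb, rfl⟩ | ⟨b, hb, rfl⟩
    · exact mul_ne_zero (div_ne_zero hζ0 h1ζ) (hA0 _ hb)
    · exact mul_ne_zero (inv_ne_zero h1ζ) (hA0 _ hb)
  obtain ⟨B, hB⟩ := Pool.Agent.PDP.win_mo hG K A' hA'0 (n - 1) (by omega) ζ hζ0 h1ζ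
    (sub_ne_zero.2 hζ1)
  refine ⟨B, fun P Q hP hQ h => ?_⟩
  have hc : (Q.image fun q => ζ * q).card = Q.card :=
    Finset.card_image_of_injective _ (mul_right_injective₀ hζ0)
  rw [← hc]
  refine hB P _ hP (fun q' hq' => ?_) fun p hp q' hq' => ?_
  · obtain ⟨q, hq, rfl⟩ := Finset.mem_image.1 hq'
    exact mul_ne_zero hζ0 (hQ q hq)
  · obtain ⟨q, hq, rfl⟩ := Finset.mem_image.1 hq'
    have hy0 : ζ * q ≠ 0 := mul_ne_zero hζ0 (hQ q hq)
    have h2 := h p hp q hq 2 (by norm_num) (by norm_num)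
    have hpw : ∀ s : ℕ, 1 ≤ s → s ≤ 3 → ∃ a ∈ A, ∃ z : K, z ≠ 0 ∧
        p - ζ ^ s * q = a * z ^ (n - 1) * (p - ζ ^ 2 * q) := by
      intro s hs1 hs3
      have h1 := h p hp q hq s hs1 hs3
      obtain ⟨a, ha, z, hz, e⟩ := hA ((p - ζ ^ s * q) / (p - ζ ^ 2 * q))
        (div_ne_zero h1.1 h2.1)
        fun v hv => quot_log v n (by omega) h1.1 h2.1 (h1.2 v hv) (h2.2 v hv)
      exact ⟨a, ha, z, hz, (div_eq_iff h2.1).1 e⟩
    have hy : p - ζ * (ζ * q) ≠ 0 := by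
      have h3 := h2.1
      rwa [sq, mul_assoc] at h3
    obtain ⟨a, ha, u, -, e1⟩ := hpw 1 le_rfl (by norm_num)
    obtain ⟨b, hb, v, -, e2⟩ := hpw 3 (by norm_num) le_rfl
    obtain ⟨r1, r2⟩ := Pool.Agent.PDP.two_alg (M := n - 1) (ζ := ζ) (x := p) (y := ζ * q)
      (a := a) (b := b) (u := u) (v := v) hy0 h1ζ hy (by linear_combination e1)
      (by linear_combination e2)
    refine ⟨?_, ⟨_, ?_, u, r1⟩, _, ?_, v, r2⟩
    · intro h0
      apply hy
      have h1 : p / (ζ * q) = ζ := sub_eq_zero.1 h0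
      rw [div_eq_iff hy0] at h1
      rw [← h1, sub_self]
    · rw [hA', Finset.mem_union]
      exact Or.inl (Finset.mem_image_of_mem _ ha)
    · rw [hA', Finset.mem_union]
      exact Or.inr (Finset.mem_image_of_mem _ hb)

end Pool.Agent.TTM
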