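import Pool.Agent.TTM.Targets

set_option autoImplicit false

/-! # TTM, ESC: positions of the points with finite orbit -/

namespace Pool.Agent.TTM

open Function

namespace ESC_

variable {K Γ : Type} [Field K] [LinearOrderedCommGroupWithZero Γ]

theorem fo_next {a c : K} {n d : ℕ} {x : K} (h : Fo a c n d x) : Fo a c n d (FF a c n d x) := by
  refine Set.Finite.subset h ?_
  rintro _ ⟨k, rfl⟩
  exact ⟨k + 1, rfl⟩

/-- the region of escape -/
def R (w : Valuation K Γ) (c : K) (n d : ℕ) (z : K) : Prop := 1 < w z ∧ w c < w z ^ (n + d)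

theorem w_fst (w : Valuation K Γ) {a : K} {n d : ℕ} (h : HW w a n d) (z : K) :
    w (a * z ^ n) = w z ^ n := by
  rw [map_mul, map_pow, h.wa, one_mul]

theorem w_snd (w : Valuation K Γ) (c : K) (d : ℕ) (z : K) :
    w (c * (z ^ d)⁻¹) = w c * (w z ^ d)⁻¹ := by
  rw [map_mul, map_inv₀, map_pow]

theorem w_big (w : Valuation K Γ) {a c : K} {n d : ℕ} (h : HW w a n d) {z : K} (hz : z ≠ 0)
    (hc : w c < w z ^ (n + d)) : w (FF a c n d z) = w z ^ n := by
  have hz0 : 0 < w z := zero_lt_iff.mpr ((Valuation.ne_zero_iff w).mpr hz)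
  have h1 : w c * (w z ^ d)⁻¹ < w z ^ n := by
    rw [mul_inv_lt_iff₀ (pow_pos hz0 d), ← pow_add]
    exact hc
  unfold FF
  rw [Valuation.map_add_eq_of_lt_left w (by rw [w_fst w h, w_snd]; exact h1), w_fst w h]

theorem w_small (w : Valuation K Γ) {a c : K} {n d : ℕ} (h : HW w a n d) {z : K} (hz : z ≠ 0)
    (hc : w z ^ (n + d) < w c) : w (FF a c n d z) = w c * (w z ^ d)⁻¹ := by
  have hz0 : 0 < w z := zero_lt_iff.mpr ((Valuation.ne_zero_iff w).mpr hz)
  have h1 : w z ^ n < w c * (w z ^ d)⁻¹ := by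
    rw [lt_mul_inv_iff₀ (pow_pos hz0 d), ← pow_add]
    exact hc
  unfold FF
  rw [Valuation.map_add_eq_of_lt_right w (by rw [w_fst w h, w_snd]; exact h1), w_snd]

theorem R_ne {w : Valuation K Γ} {c : K} {n d : ℕ} {z : K} (h : R w c n d z) : z ≠ 0 := by
  rintro rfl
  have := h.1
  rw [map_zero] at this
  exact absurd this (not_lt.mpr zero_le_one)

theorem R_step (w : Valuation K Γ) {a c : K} {n d : ℕ} (h : HW w a n d) {z : K}
    (hR : R w c n d z) : w z < w (FF a c n d z) ∧ R w c n d (FF a c n d z) := by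
  have h1 := w_big w h (R_ne hR) hR.2
  have hn := h.hn
  have h2 : w z < w z ^ n := by
    have : w z ^ 1 < w z ^ n := pow_lt_pow_right₀ hR.1 (by omega)
    simpa using this
  rw [← h1] at h2
  refine ⟨h2, hR.1.trans h2, lt_of_lt_of_le hR.2 ?_⟩
  exact pow_le_pow_left₀ zero_le' h2.le _

theorem not_R (w : Valuation K Γ) {a c : K} {n d : ℕ} (h : HW w a n d) {z : K}
    (hz : Fo a c n d z) : ¬ R w c n d z := by
  intro hR
  have hk : ∀ k : ℕ, R w c n d ((FF a c n d)^[k] z) := by
    intro k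
    induction k with
    | zero => exact hR
    | succ k ih =>
      rw [Function.iterate_succ_apply']
      exact (R_step w h ih).2
  have hm : StrictMono fun k : ℕ => w ((FF a c n d)^[k] z) := by
    refine strictMono_nat_of_lt_succ (fun k => ?_)
    rw [Function.iterate_succ_apply']
    exact (R_step w h (hk k)).1
  have hinj : Function.Injective fun k : ℕ => (FF a c n d)^[k] z := fun i j hij =>
    hm.injective (congrArg w hij)
  exact Set.infinite_range_of_injective hinj hz

theorem one_lt_pow_imp {g : Γ} {k : ℕ} (h : 1 < g ^ k) : 1 < g := by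
  by_contra hg
  exact absurd h (not_lt.mpr (pow_le_one₀ zero_le' (not_lt.mp hg)))

theorem main (w : Valuation K Γ) {a c : K} {n d : ℕ} (h : HW w a n d) (hc : c ≠ 0) {x : K}
    (hx : Fo a c n d x) (hx0 : x ≠ 0) :
    (w c ≤ 1 → w x ≤ 1) ∧ (w c = 1 → w x = 1) ∧
    (w c < 1 → FF a c n d x ≠ 0 → w x ^ (n + d) ≠ w c) ∧ (1 < w c → w x ^ (n + d) = w c) := by
  have hn := h.hn
  have hd := h.hd
  have hwx : 0 < w x := zero_lt_iff.mpr ((Valuation.ne_zero_iff w).mpr hx0)
  have hwc : 0 < w c := zero_lt_iff.mpr ((Valuation.ne_zero_iff w).mpr hc)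
  have P1 : w c ≤ 1 → w x ≤ 1 := by
    intro h1
    by_contra h2
    push Not at h2
    exact not_R w h hx ⟨h2, lt_of_le_of_lt h1 (one_lt_pow₀ h2 (by omega))⟩
  refine ⟨P1, ?_, ?_, ?_⟩
  · intro h1
    refine le_antisymm (P1 h1.le) ?_
    by_contra h2
    push Not at h2
    have h3 : w x ^ (n + d) < w c := by
      rw [h1]
      exact pow_lt_one₀ zero_le' h2 (by omega)
    have h4 := w_small w h hx0 h3
    have h5 : 1 < w (FF a c n d x) := by
      rw [h4, h1, one_mul]
      exact (one_lt_inv₀ (pow_pos hwx d)).mpr (pow_lt_one₀ zero_le' h2 (by omega))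
    refine not_R w h (fo_next hx) ⟨h5, ?_⟩
    rw [h1]
    exact one_lt_pow₀ h5 (by omega)
  · intro h1 hy h2
    have h3 : w x < 1 := by
      by_contra h3
      push Not at h3
      have : 1 ≤ w x ^ (n + d) := one_le_pow₀ h3
      rw [h2] at this
      exact absurd h1 (not_lt.mpr this)
    set y := FF a c n d x with hydef
    have hwy : 0 < w y := zero_lt_iff.mpr ((Valuation.ne_zero_iff w).mpr hy)
    have h4 : w y ≤ w x ^ n := by
      rw [hydef]
      unfold FF
      refine (Valuation.map_add w _ _).trans ?_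
      rw [w_fst w h, w_snd, ← h2, pow_add, mul_inv_cancel_right₀ (pow_ne_zero _ hwx.ne'), max_self]
    have h5 : w y ^ (n + d) < w c := by
      rw [← h2]
      refine pow_lt_pow_left₀ ?_ zero_le' (by omega)
      refine lt_of_le_of_lt h4 ?_
      have : w x ^ n < w x ^ 1 := pow_lt_pow_right_of_lt_one₀ hwx h3 (by omega)
      simpa using this
    have h6 := w_small w h hy h5
    have h7 : 1 < w (FF a c n d y) := by
      rw [h6, lt_mul_inv_iff₀ (pow_pos hwy d), one_mul, ← h2]
      refine lt_of_le_of_lt (pow_le_pow_left₀ zero_le' h4 d) ?_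
      rw [← pow_mul]
      refine pow_lt_pow_right_of_lt_one₀ hwx h3 ?_
      nlinarith
    exact not_R w h (fo_next (fo_next hx)) ⟨h7, h1.trans (one_lt_pow₀ h7 (by omega))⟩
  · intro h1
    rcases lt_trichotomy (w x ^ (n + d)) (w c) with h2 | h2 | h2
    · exfalso
      have h3 := w_small w h hx0 h2
      have h4 : w c < w (FF a c n d x) ^ (n + d) := by
        rw [h3, mul_pow, inv_pow, lt_mul_inv_iff₀ (pow_pos (pow_pos hwx d) _), ← pow_mul,
          mul_comm d, pow_mul]
        have h5 : (w x ^ (n + d)) ^ d < w c ^ d := pow_lt_pow_left₀ h2 zero_le' (by omega)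
        calc w c * (w x ^ (n + d)) ^ d < w c * w c ^ d := mul_lt_mul_of_pos_left h5 hwc
          _ = w c ^ (1 + d) := by rw [pow_add, pow_one]
          _ ≤ w c ^ (n + d) := pow_le_pow_right₀ h1.le (by omega)
      exact not_R w h (fo_next hx) ⟨one_lt_pow_imp (h1.trans h4), h4⟩
    · exact h2
    · exact absurd ⟨one_lt_pow_imp (h1.trans h2), h2⟩ (not_R w h hx)

end ESC_

theorem p_ESC : T_ESC := by
  intro K Γ _ _ w a c n d h hc x hx hx0
  exact ESC_.main w h hc hx hx0

end Pool.Agent.TTM
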