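import Pool.Agent.TTM.TargetsP

set_option autoImplicit false

/-! # TTM, ESCP: positions of the points with finite orbit for the polynomials -/

namespace Pool.Agent.TTM

open Function

namespace ESCP_

variable {K Γ : Type} [Field K] [LinearOrderedCommGroupWithZero Γ]

theorem fo_next {f : K → K} {x : K} (h : FoG f x) : FoG f (f x) := by
  refine Set.Finite.subset h ?_
  rintro _ ⟨k, rfl⟩
  exact ⟨k + 1, rfl⟩

theorem w_fst (w : Valuation K Γ) {a : K} {n l : ℕ} (h : HP w a n l) (z : K) :
    w (a * z ^ n) = w z ^ n := by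
  rw [map_mul, map_pow, h.wa, one_mul]

theorem w_snd (w : Valuation K Γ) (c : K) (l : ℕ) (z : K) :
    w (c * z ^ l) = w c * w z ^ l := by
  rw [map_mul, map_pow]

theorem split {n l : ℕ} (h : l < n) (g : Γ) : g ^ n = g ^ (n - l) * g ^ l := by
  rw [← pow_add]
  congr 1
  omega

theorem w_big (w : Valuation K Γ) {a c : K} {n l : ℕ} (h : HP w a n l) {z : K} (hz : z ≠ 0)
    (hc : w c < w z ^ (n - l)) : w (GG a c n l z) = w z ^ n := by
  have hz0 : 0 < w z := zero_lt_iff.mpr ((Valuation.ne_zero_iff w).mpr hz)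
  have h1 : w c * w z ^ l < w z ^ n := by
    rw [split h.hn (w z)]
    exact mul_lt_mul_of_pos_right hc (pow_pos hz0 l)
  unfold GG
  rw [Valuation.map_add_eq_of_lt_left w (by rw [w_fst w h, w_snd]; exact h1), w_fst w h]

theorem w_small (w : Valuation K Γ) {a c : K} {n l : ℕ} (h : HP w a n l) {z : K} (hz : z ≠ 0)
    (hc : w z ^ (n - l) < w c) : w (GG a c n l z) = w c * w z ^ l := by
  have hz0 : 0 < w z := zero_lt_iff.mpr ((Valuation.ne_zero_iff w).mpr hz)
  have h1 : w z ^ n < w c * w z ^ l := by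
    rw [split h.hn (w z)]
    exact mul_lt_mul_of_pos_right hc (pow_pos hz0 l)
  unfold GG
  rw [Valuation.map_add_eq_of_lt_right w (by rw [w_fst w h, w_snd]; exact h1), w_snd]

/-- the first region of escape -/
def R (w : Valuation K Γ) (c : K) (n l : ℕ) (z : K) : Prop := 1 < w z ∧ w c < w z ^ (n - l)

theorem R_ne {w : Valuation K Γ} {c : K} {n l : ℕ} {z : K} (h : R w c n l z) : z ≠ 0 := by
  rintro rfl
  have := h.1
  rw [map_zero] at this
  exact absurd this (not_lt.mpr zero_le_one)

theorem R_step (w : Valuation K Γ) {a c : K} {n l : ℕ} (h : HP w a n l) {z : K}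
    (hR : R w c n l z) : w z < w (GG a c n l z) ∧ R w c n l (GG a c n l z) := by
  have h1 := w_big w h (R_ne hR) hR.2
  have hl := h.hl
  have hn := h.hn
  have h2 : w z < w z ^ n := by
    have : w z ^ 1 < w z ^ n := pow_lt_pow_right₀ hR.1 (by omega)
    simpa using this
  rw [← h1] at h2
  refine ⟨h2, hR.1.trans h2, lt_of_lt_of_le hR.2 ?_⟩
  exact pow_le_pow_left₀ zero_le' h2.le _

theorem not_R (w : Valuation K Γ) {a c : K} {n l : ℕ} (h : HP w a n l) {z : K}
    (hz : FoG (GG a c n l) z) : ¬ R w c n l z := by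
  intro hR
  have hk : ∀ k : ℕ, R w c n l ((GG a c n l)^[k] z) := by
    intro k
    induction k with
    | zero => exact hR
    | succ k ih =>
      rw [Function.iterate_succ_apply']
      exact (R_step w h ih).2
  have hm : StrictMono fun k : ℕ => w ((GG a c n l)^[k] z) := by
    refine strictMono_nat_of_lt_succ (fun k => ?_)
    rw [Function.iterate_succ_apply']
    exact (R_step w h (hk k)).1
  have hinj : Function.Injective fun k : ℕ => (GG a c n l)^[k] z := fun i j hij =>
    hm.injective (congrArg w hij)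
  exact Set.infinite_range_of_injective hinj hz

/-- the second region of escape -/
def Q (w : Valuation K Γ) (c : K) (n l : ℕ) (z : K) : Prop :=
  z ≠ 0 ∧ w z ^ (n - l) < w c ∧ w c * w z ^ (l - 1) < 1

theorem Q_step (w : Valuation K Γ) {a c : K} {n l : ℕ} (h : HP w a n l) {z : K}
    (hQ : Q w c n l z) : w (GG a c n l z) < w z ∧ Q w c n l (GG a c n l z) := by
  obtain ⟨hz, h1, h2⟩ := hQ
  have hl := h.hl
  have hz0 : 0 < w z := zero_lt_iff.mpr ((Valuation.ne_zero_iff w).mpr hz)
  have hc0 : 0 < w c := lt_of_le_of_lt zero_le' h1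
  have h3 := w_small w h hz h1
  have h4 : w (GG a c n l z) < w z := by
    have e : w c * w z ^ l = w c * w z ^ (l - 1) * w z := by
      rw [mul_assoc, ← pow_succ]
      congr 2
      omega
    rw [h3, e]
    calc w c * w z ^ (l - 1) * w z < 1 * w z := mul_lt_mul_of_pos_right h2 hz0
      _ = w z := one_mul _
  refine ⟨h4, ?_, ?_, ?_⟩
  · rw [← Valuation.ne_zero_iff w, h3]
    exact mul_ne_zero hc0.ne' (pow_ne_zero _ hz0.ne')
  · exact lt_of_le_of_lt (pow_le_pow_left₀ zero_le' h4.le _) h1
  · refine lt_of_le_of_lt ?_ h2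
    exact mul_le_mul_right (pow_le_pow_left₀ zero_le' h4.le _) _

theorem not_Q (w : Valuation K Γ) {a c : K} {n l : ℕ} (h : HP w a n l) {z : K}
    (hz : FoG (GG a c n l) z) : ¬ Q w c n l z := by
  intro hQ
  have hk : ∀ k : ℕ, Q w c n l ((GG a c n l)^[k] z) := by
    intro k
    induction k with
    | zero => exact hQ
    | succ k ih =>
      rw [Function.iterate_succ_apply']
      exact (Q_step w h ih).2
  have hm : StrictAnti fun k : ℕ => w ((GG a c n l)^[k] z) := by
    refine strictAnti_nat_of_succ_lt (fun k => ?_)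
    rw [Function.iterate_succ_apply']
    exact (Q_step w h (hk k)).1
  have hinj : Function.Injective fun k : ℕ => (GG a c n l)^[k] z := fun i j hij =>
    hm.injective (congrArg w hij)
  exact Set.infinite_range_of_injective hinj hz

theorem main (w : Valuation K Γ) {a c : K} {n l : ℕ} (h : HP w a n l) (hc : c ≠ 0) {x : K}
    (hx : FoG (GG a c n l) x) (hx0 : x ≠ 0) :
    (w c ≤ 1 → w x ≤ 1) ∧ (w c = 1 → w x = 1) ∧
    (w c < 1 → GG a c n l x ≠ 0 → w x ^ (n - l) ≠ w c) ∧
    (1 < w c → w x ^ (n - l) ≤ w c ∧ 1 ≤ w c * w x ^ (l - 1)) := by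
  have hl := h.hl
  have hn := h.hn
  have hwx : 0 < w x := zero_lt_iff.mpr ((Valuation.ne_zero_iff w).mpr hx0)
  have hwc : 0 < w c := zero_lt_iff.mpr ((Valuation.ne_zero_iff w).mpr hc)
  have P1 : w c ≤ 1 → w x ≤ 1 := by
    intro h1
    by_contra h2
    push Not at h2
    exact not_R w h hx ⟨h2, lt_of_le_of_lt h1 (one_lt_pow₀ h2 (by omega))⟩
  refine ⟨P1, ?_, ?_, ?_⟩
  · intro h1
    refine le_antisymm (P1 h1.le) ?_
    by_contra h2
    push Not at h2
    refine not_Q w h hx ⟨hx0, ?_, ?_⟩
    · rw [h1]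
      exact pow_lt_one₀ zero_le' h2 (by omega)
    · rw [h1, one_mul]
      exact pow_lt_one₀ zero_le' h2 (by omega)
  · intro h1 hy h2
    have h3 : w x < 1 := by
      by_contra h3
      push Not at h3
      have : 1 ≤ w x ^ (n - l) := one_le_pow₀ h3
      rw [h2] at this
      exact absurd h1 (not_lt.mpr this)
    set y := GG a c n l x with hydef
    have h4 : w y ≤ w x ^ n := by
      rw [hydef]
      unfold GG
      refine (Valuation.map_add w _ _).trans ?_
      rw [w_fst w h, w_snd, ← h2, ← split hn, max_self]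
    refine not_Q w h (fo_next hx) ⟨hy, ?_, ?_⟩
    · rw [← h2]
      refine pow_lt_pow_left₀ ?_ zero_le' (by omega)
      refine lt_of_le_of_lt h4 ?_
      have : w x ^ n < w x ^ 1 := pow_lt_pow_right_of_lt_one₀ hwx h3 (by omega)
      simpa using this
    · have h5 : w y ^ (l - 1) ≤ 1 :=
        pow_le_one₀ zero_le' (h4.trans (pow_le_one₀ zero_le' h3.le))
      refine lt_of_le_of_lt ?_ h1
      calc w c * w y ^ (l - 1) ≤ w c * 1 := mul_le_mul_right h5 _
        _ = w c := mul_one _
  · intro h1
    constructor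
    · by_contra h2
      push Not at h2
      have h3 : 1 < w x := by
        by_contra h3
        push Not at h3
        exact absurd (h1.trans h2) (not_lt.mpr (pow_le_one₀ zero_le' h3))
      exact not_R w h hx ⟨h3, h2⟩
    · by_contra h2
      push Not at h2
      have h3 : w x < 1 := by
        by_contra h3
        push Not at h3
        have h4 : 1 ≤ w x ^ (l - 1) := one_le_pow₀ h3
        refine absurd h2 (not_lt.mpr ?_)
        calc (1 : Γ) ≤ w c := h1.le
          _ = w c * 1 := (mul_one _).symm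
          _ ≤ w c * w x ^ (l - 1) := mul_le_mul_right h4 _
      exact not_Q w h hx ⟨hx0, (pow_lt_one₀ zero_le' h3 (by omega)).trans h1, h2⟩

end ESCP_

theorem p_ESCP : T_ESCP := by
  intro K Γ _ _ w a c n l h hc x hx hx0
  exact ESCP_.main w h hc hx hx0

end Pool.Agent.TTM
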