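import Pool.Agent.TTM.Targets

set_option autoImplicit false

/-!
# TTM: places with `w c = 1`
-/

namespace Pool.Agent.TTM

open Function

namespace L1_

section

variable {K : Type} [Field K] {a c : K} {n d : ℕ}

theorem FF_zero (hn : 1 ≤ n) (hd : 1 ≤ d) : FF a c n d 0 = 0 := by
  unfold FF
  rw [zero_pow (by omega), zero_pow (by omega)]
  simp

theorem iter_zero (hn : 1 ≤ n) (hd : 1 ≤ d) (k : ℕ) : (FF a c n d)^[k] 0 = 0 :=
  iterate_fixed (FF_zero hn hd) k

theorem zero_of_le (hn : 1 ≤ n) (hd : 1 ≤ d) {x : K} {i k : ℕ} (h : i ≤ k)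
    (hi : (FF a c n d)^[i] x = 0) : (FF a c n d)^[k] x = 0 := by
  obtain ⟨m, rfl⟩ := Nat.exists_eq_add_of_le' h
  rw [iterate_add_apply, hi, iter_zero hn hd]

theorem Fo_iter {x : K} (h : Fo a c n d x) (k : ℕ) : Fo a c n d ((FF a c n d)^[k] x) := by
  refine h.subset ?_
  rintro _ ⟨i, rfl⟩
  exact ⟨i + k, by simp only [iterate_add_apply]⟩

theorem ne_zero_of_periodic (hn : 1 ≤ n) (hd : 1 ≤ d) {x : K} (hx : x ≠ 0)
    (h : x ∈ periodicPts (FF a c n d)) (i : ℕ) : (FF a c n d)^[i] x ≠ 0 := by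
  intro hi
  obtain ⟨N, hN, hp⟩ := h
  have h1 : (FF a c n d)^[N * (i + 1)] x = x := (hp.mul_const (i + 1))
  have h2 : (FF a c n d)^[N * (i + 1)] x = 0 := by
    refine zero_of_le hn hd ?_ hi
    calc i ≤ 1 * (i + 1) := by omega
      _ ≤ N * (i + 1) := Nat.mul_le_mul_right _ hN
  exact hx (h1.symm.trans h2)

variable {Γ : Type} [LinearOrderedCommGroupWithZero Γ] {w : Valuation K Γ}

theorem chain (h2 : T_ST1) (H : HW w a n d) (hc : w c = 1) (u v : K) (k : ℕ)
    (hu : ∀ i < k, w ((FF a c n d)^[i] u) = 1) (hv : ∀ i < k, w ((FF a c n d)^[i] v) = 1) :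
    w ((FF a c n d)^[k] u - (FF a c n d)^[k] v) ≤ w (u - v) := by
  induction k with
  | zero => exact le_rfl
  | succ k ih =>
    rw [iterate_succ_apply', iterate_succ_apply']
    have h := h2 K Γ w a c n d H hc _ _ 1 (hu k (Nat.lt_succ_self k)) (hv k (Nat.lt_succ_self k))
      ⟨one_pow n, one_pow d⟩
    rw [one_mul] at h
    exact h.trans (ih (fun i hi => hu i (by omega)) fun i hi => hv i (by omega))

theorem chain' (h2 : T_ST1) (H : HW w a n d) (hc : w c = 1) (x y ω : K) (hω : Om n d ω) (k : ℕ)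
    (hu : ∀ i ≤ k, w ((FF a c n d)^[i] x) = 1) (hv : ∀ i ≤ k, w ((FF a c n d)^[i] y) = 1) :
    w ((FF a c n d)^[k + 1] x - (FF a c n d)^[k + 1] y) ≤ w (x - ω * y) := by
  rw [iterate_succ_apply, iterate_succ_apply]
  refine (chain h2 H hc _ _ k (fun i hi => ?_) fun i hi => ?_).trans
    (h2 K Γ w a c n d H hc x y ω (hu 0 (Nat.zero_le _)) (hv 0 (Nat.zero_le _)) hω)
  · rw [← iterate_succ_apply]
    exact hu _ hi
  · rw [← iterate_succ_apply]
    exact hv _ hi

/-- the case of two periodic points -/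
theorem casePP (h1 : T_ESC) (h2 : T_ST1) (H : HW w a n d) (hc0 : c ≠ 0) (hc : w c = 1)
    (x y ω : K) (hω : Om n d ω) (hω1 : w (1 - ω) = 1) (hx : x ≠ 0) (hy : y ≠ 0)
    (fx : Fo a c n d x) (fy : Fo a c n d y) (hPP : PP a c n d x y) (hlt : w (x - ω * y) < 1) :
    False := by
  have hn : 1 ≤ n := by have := H.hn; omega
  have hd : 1 ≤ d := by have := H.hd; omega
  obtain ⟨px, py, -⟩ := hPP
  have ux : ∀ i, w ((FF a c n d)^[i] x) = 1 := fun i =>
    (h1 K Γ w a c n d H hc0 _ (Fo_iter fx i) (ne_zero_of_periodic hn hd hx px i)).2.1 hc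
  have uy : ∀ i, w ((FF a c n d)^[i] y) = 1 := fun i =>
    (h1 K Γ w a c n d H hc0 _ (Fo_iter fy i) (ne_zero_of_periodic hn hd hy py i)).2.1 hc
  obtain ⟨N, hN, qx⟩ := px
  obtain ⟨M, hM, qy⟩ := py
  have e1 : (FF a c n d)^[N * M] x = x := qx.mul_const M
  have e2 : (FF a c n d)^[N * M] y = y := qy.const_mul N
  obtain ⟨k, hk⟩ : ∃ k, N * M = k + 1 := ⟨N * M - 1, by
    have := Nat.mul_pos hN hM
    omega⟩
  have h3 := chain' h2 H hc x y ω hω k (fun i _ => ux i) fun i _ => uy i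
  rw [← hk, e1, e2] at h3
  have h4 : w (x - y) < 1 := h3.trans_lt hlt
  have h5 : w ((1 - ω) * y) < 1 := by
    have e : (1 - ω) * y = (x - ω * y) - (x - y) := by ring
    rw [e]
    exact (w.map_sub _ _).trans_lt (max_lt hlt h4)
  rw [map_mul, hω1, one_mul] at h5
  have h6 := uy 0
  rw [iterate_zero_apply] at h6
  exact absurd h5 (by rw [h6]; exact lt_irrefl _)

/-- the case of a point which reaches zero before the other one -/
theorem casePZ (h1 : T_ESC) (h2 : T_ST1) (H : HW w a n d) (hc0 : c ≠ 0) (hc : w c = 1)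
    (x y ω : K) (hω : Om n d ω) (hx : x ≠ 0)
    (fx : Fo a c n d x) (fy : Fo a c n d y)
    (hPZ : ∃ i : ℕ, (FF a c n d)^[i] x = 0 ∧ (FF a c n d)^[i] y ≠ 0)
    (hlt : w (x - ω * y) < 1) : False := by
  classical
  have hn : 1 ≤ n := by have := H.hn; omega
  have hd : 1 ≤ d := by have := H.hd; omega
  obtain ⟨i₀, hx0, hy0⟩ := hPZ
  have hex : ∃ i, (FF a c n d)^[i] x = 0 := ⟨i₀, hx0⟩
  set i := Nat.find hex with hi
  have hxi : (FF a c n d)^[i] x = 0 := Nat.find_spec hex
  have hle : i ≤ i₀ := Nat.find_min' hex hx0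
  have hyk : ∀ k ≤ i₀, (FF a c n d)^[k] y ≠ 0 := fun k hk h => hy0 (zero_of_le hn hd hk h)
  have hxk : ∀ k < i, (FF a c n d)^[k] x ≠ 0 := fun k hk => Nat.find_min hex hk
  have hi1 : i ≠ 0 := by
    intro h
    rw [h] at hxi
    exact hx hxi
  obtain ⟨k, hk⟩ : ∃ k, i = k + 1 := ⟨i - 1, by omega⟩
  have h3 := chain' h2 H hc x y ω hω k
    (fun m hm => (h1 K Γ w a c n d H hc0 _ (Fo_iter fx m) (hxk m (by omega))).2.1 hc)
    (fun m hm => (h1 K Γ w a c n d H hc0 _ (Fo_iter fy m) (hyk m (by omega))).2.1 hc)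
  rw [← hk, hxi, zero_sub, Valuation.map_neg,
    (h1 K Γ w a c n d H hc0 _ (Fo_iter fy i) (hyk i hle)).2.1 hc] at h3
  exact absurd (h3.trans_lt hlt) (lt_irrefl _)

/-- the case of a tail of a cycle -/
theorem casePC (h1 : T_ESC) (h2 : T_ST1) (h3 : T_MUL) (H : HW w a n d) (hc0 : c ≠ 0)
    (hc : w c = 1) (x y ω : K) (hω : Om n d ω) (fx : Fo a c n d x)
    (hPC : PC a c n d x y) (hlt : w (x - ω * y) < 1) : False := by
  classical
  have hn : 1 ≤ n := by have := H.hn; omega
  have hd : 1 ≤ d := by have := H.hd; omega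
  obtain ⟨e, T, L, rfl, hnp, hL, hL0, hLe⟩ := hPC
  set f := FF a c n d with hf
  have he0 : e ≠ 0 := by
    rintro rfl
    exact hLe (dvd_zero L)
  -- the point at time `T` and all later ones
  have hper : ∀ m, T ≤ m → minimalPeriod f (f^[m] x) = L := by
    intro m hm
    obtain ⟨q, rfl⟩ := Nat.exists_eq_add_of_le' hm
    rw [iterate_add_apply]
    have hpt : f^[T] x ∈ periodicPts f := by
      rw [← minimalPeriod_pos_iff_mem_periodicPts, hL]
      exact hL0
    rw [minimalPeriod_apply_iterate hpt, hL]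
  have hne : ∀ m, f^[m] x ≠ 0 := by
    intro m hm
    have h4 : f^[m + T] x = 0 := zero_of_le hn hd (Nat.le_add_right _ _) hm
    have h5 := hper (m + T) (Nat.le_add_left _ _)
    rw [h4] at h5
    have h6 : IsFixedPt f 0 := FF_zero hn hd
    have h7 : L ∣ 1 := by
      rw [← h5]
      exact (h6.isPeriodicPt 1).minimalPeriod_dvd
    exact hLe ((Nat.dvd_one.1 h7) ▸ one_dvd e)
  have hu : ∀ m, w (f^[m] x) = 1 := fun m =>
    (h1 K Γ w a c n d H hc0 _ (Fo_iter fx m) (hne m)).2.1 hc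
  have hT : T ≠ 0 := by
    rintro rfl
    apply hnp
    have hpt : x ∈ periodicPts f := by
      rw [← minimalPeriod_pos_iff_mem_periodicPts]
      have := hper 0 le_rfl
      rw [iterate_zero_apply] at this
      rw [this]
      exact hL0
    obtain ⟨N, hN, hp⟩ := hpt
    exact ⟨N, hN, hp.apply⟩
  have hadd : ∀ i j, f^[i] (f^[j] x) = f^[i + j] x := fun i j =>
    (iterate_add_apply f i j x).symm
  -- consecutive distances
  have hdist : ∀ m, 1 ≤ m → w (f^[m] x - f^[m + e] x) < 1 := by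
    intro m hm
    obtain ⟨k, rfl⟩ := Nat.exists_eq_add_of_le' hm
    have h4 := chain' h2 H hc x (f^[e] x) ω hω k (fun i _ => hu i)
      (fun i _ => by
        have h5 : (FF a c n d)^[i] (f^[e] x) = f^[i + e] x := hadd i e
        rw [h5]
        exact hu _)
    have h5 : (FF a c n d)^[k + 1] (f^[e] x) = f^[k + 1 + e] x := hadd (k + 1) e
    rw [h5] at h4
    exact h4.trans_lt hlt
  have hdist' : ∀ q m, 1 ≤ m → w (f^[m] x - f^[m + q * e] x) < 1 := by
    intro q
    induction q with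
    | zero =>
      intro m _
      rw [Nat.zero_mul, Nat.add_zero, sub_self, map_zero]
      exact zero_lt_one
    | succ q ih =>
      intro m hm
      have h4 := ih m hm
      have h5 := hdist (m + q * e) (by omega)
      have e1 : m + (q + 1) * e = m + q * e + e := by ring
      rw [e1]
      have e2 : f^[m] x - f^[m + q * e + e] x =
          (f^[m] x - f^[m + q * e] x) + (f^[m + q * e] x - f^[m + q * e + e] x) := by ring
      rw [e2]
      exact (w.map_add _ _).trans_lt (max_lt h4 h5)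
  -- the periodic point
  have hbig : T ≤ L * T * e := by
    calc T = 1 * T * 1 := by ring
      _ ≤ L * T * e := Nat.mul_le_mul (Nat.mul_le_mul_right _ hL0) (Nat.pos_of_ne_zero he0)
  have hz0 : f^[1] x ≠ f^[1 + L * T * e] x := by
    intro h
    apply hnp
    have h4 : 0 < minimalPeriod f (f^[1 + L * T * e] x) := by
      rw [hper _ (by omega)]
      exact hL0
    rw [minimalPeriod_pos_iff_mem_periodicPts, ← h] at h4
    exact h4
  have hzT : f^[1 + T] x = f^[1 + T + L * T * e] x := by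
    have h4 : IsPeriodicPt f (L * (T * e)) (f^[1 + T] x) := by
      have h5 : IsPeriodicPt f L (f^[1 + T] x) := by
        rw [← hper (1 + T) (by omega)]
        exact isPeriodicPt_minimalPeriod _ _
      exact h5.mul_const (T * e)
    have h5 : f^[L * (T * e)] (f^[1 + T] x) = f^[1 + T] x := h4
    rw [hadd] at h5
    rw [← h5]
    congr 1
    ring_nf
  have hex : ∃ k, f^[1 + k] x = f^[1 + k + L * T * e] x := ⟨T, hzT⟩
  have hspec := Nat.find_spec hex
  have hmin : ∀ k < Nat.find hex, ¬ f^[1 + k] x = f^[1 + k + L * T * e] x :=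
    fun k hk => Nat.find_min hex hk
  have hk0 : Nat.find hex ≠ 0 := by
    intro h
    rw [h] at hspec
    exact hz0 hspec
  obtain ⟨k, hk⟩ : ∃ k, Nat.find hex = k + 1 := ⟨Nat.find hex - 1, by omega⟩
  have hXU : f^[1 + k] x ≠ f^[1 + k + L * T * e] x := hmin k (by omega)
  rw [hk] at hspec
  have hfXU : f (f^[1 + k] x) = f (f^[1 + k + L * T * e] x) := by
    have e1 : (1 + k).succ = 1 + (k + 1) := by omega
    have e2 : (1 + k + L * T * e).succ = 1 + (k + 1) + L * T * e := by omega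
    have e3 : f (f^[1 + k] x) = f^[1 + (k + 1)] x := by
      rw [← e1, iterate_succ_apply']
    have e4 : f (f^[1 + k + L * T * e] x) = f^[1 + (k + 1) + L * T * e] x := by
      rw [← e2, iterate_succ_apply']
    rw [e3, e4]
    exact hspec
  have hUper : minimalPeriod f (f^[1 + k + L * T * e] x) = L := hper _ (by omega)
  have hUZ : f^[1 + k + L * T * e] x ≠ f^[1 + k + L * T * e + e] x := by
    intro h
    apply hLe
    rw [← hUper]
    apply IsPeriodicPt.minimalPeriod_dvd
    have h4 : f^[e] (f^[1 + k + L * T * e] x) = f^[1 + k + L * T * e] x := by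
      rw [hadd, Nat.add_comm e]
      exact h.symm
    exact h4
  have hw1 : w (f^[1 + k] x - f^[1 + k + L * T * e] x) < 1 := hdist' (L * T) (1 + k) (by omega)
  have hw2 : w (f^[1 + k + L * T * e] x - f^[1 + k + L * T * e + e] x) < 1 :=
    hdist _ (by omega)
  have h5 := h3 K Γ w a c n d H hc _ _ _ (hu (1 + k)) (hu (1 + k + L * T * e))
    (hu (1 + k + L * T * e + e)) hXU hfXU hw1 hw2 hUZ
  -- go once around the cycle
  have hpp : ∀ u, minimalPeriod f u = L → IsPeriodicPt f L u := by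
    intro u hu'
    have h := isPeriodicPt_minimalPeriod f u
    rwa [hu'] at h
  have h6 : IsPeriodicPt f L (f^[1 + k + L * T * e] x) := hpp _ hUper
  have h7 : IsPeriodicPt f L (f^[1 + k + L * T * e + e] x) := hpp _ (hper _ (by omega))
  obtain ⟨l, hl⟩ : ∃ l, L = l + 1 := ⟨L - 1, by omega⟩
  have hcyc : ∀ u, IsPeriodicPt f L u → f^[l] (f u) = u := by
    intro u hu'
    have h : f^[L] u = u := hu'
    rwa [hl, iterate_succ_apply] at h
  have hstep : ∀ i M, w (f^[i] (f (f^[M] x))) = 1 := by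
    intro i M
    have h : f^[i] (f (f^[M] x)) = f^[i + (1 + M)] x := by
      rw [iterate_add_apply f i, iterate_add_apply f 1, iterate_one]
    rw [h]
    exact hu _
  have h8 := chain h2 H hc (f (f^[1 + k + L * T * e] x)) (f (f^[1 + k + L * T * e + e] x)) l
    (fun i _ => hstep i _) (fun i _ => hstep i _)
  have h9 : (FF a c n d)^[l] (f (f^[1 + k + L * T * e] x)) = f^[1 + k + L * T * e] x :=
    hcyc _ h6
  have h10 : (FF a c n d)^[l] (f (f^[1 + k + L * T * e + e] x)) =
      f^[1 + k + L * T * e + e] x := hcyc _ h7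
  rw [h9, h10] at h8
  exact absurd (h8.trans_lt h5) (lt_irrefl _)

end

end L1_

open L1_ in
theorem p_L1 (h1 : T_ESC) (h2 : T_ST1) (h3 : T_MUL) (h4 : T_SEP) : T_L1 := by
  intro K Γ _ _ w a c n d H hc x y ω hPR hω hω1
  have hc0 : c ≠ 0 := by
    rintro rfl
    rw [map_zero] at hc
    exact zero_ne_one hc
  obtain ⟨fx, fy, -⟩ := h4 K a c n d (by have := H.hn; omega) (by have := H.hd; omega) x y hPR
  obtain ⟨hx, hy, hcase⟩ := hPR
  have wx : w x = 1 := (h1 K Γ w a c n d H hc0 x fx hx).2.1 hc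
  have wy : w y = 1 := (h1 K Γ w a c n d H hc0 y fy hy).2.1 hc
  have wω : w ω = 1 := by
    have h5 : w ω ^ n = 1 := by rw [← map_pow, hω.1, map_one]
    have h6 : n ≠ 0 := by have := H.hn; omega
    exact (pow_left_inj₀ zero_le zero_le h6).1 (by rw [h5, one_pow])
  rw [wx, wy, max_self]
  refine le_antisymm ?_ ?_
  · refine (w.map_sub _ _).trans ?_
    rw [map_mul, wx, wy, wω, one_mul, max_self]
  · by_contra hlt
    rw [not_le] at hlt
    rcases hcase with h | h | h
    · exact casePP h1 h2 H hc0 hc x y ω hω hω1 hx hy fx fy h hlt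
    · exact casePZ h1 h2 H hc0 hc x y ω hω hx fx fy h.2.2 hlt
    · exact casePC h1 h2 h3 H hc0 hc x y ω hω fx h hlt

end Pool.Agent.TTM
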