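import Pool.Agent.TTM.TargetsP

set_option autoImplicit false

/-!
# TTM-L3P: places with `w c > 1` for the polynomials `a z ^ n + c z ^ l`
-/

namespace Pool.Agent.TTM

open Function WithZero

namespace L3P_

theorem fog_iter {K : Type} [Field K] {f : K → K} {x : K} (h : FoG f x) (k : ℕ) :
    FoG f (f^[k] x) := by
  refine Set.Finite.subset h ?_
  rintro _ ⟨m, rfl⟩
  exact ⟨m + k, iterate_add_apply f m k x⟩

theorem gg_om {K : Type} [Field K] {a c : K} {n l : ℕ} {ω : K} (h : Om n l ω) (y : K) :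
    GG a c n l (ω * y) = GG a c n l y := by
  unfold GG
  rw [mul_pow, mul_pow, h.1, h.2, one_mul, one_mul]

theorem gg_zero {K : Type} [Field K] {a c : K} {n l : ℕ} (hn : n ≠ 0) (hl : l ≠ 0) :
    GG a c n l 0 = 0 := by
  unfold GG
  rw [zero_pow hn, zero_pow hl, mul_zero, mul_zero, add_zero]

theorem pow_inj {Γ : Type} [LinearOrderedCommGroupWithZero Γ] {u v : Γ} {m : ℕ} (hm : m ≠ 0)
    (h : u ^ m = v ^ m) : u = v := by
  rcases lt_trichotomy u v with h1 | h1 | h1
  · exact absurd h (pow_lt_pow_left₀ h1 zero_le hm).ne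
  · exact h1
  · exact absurd h (pow_lt_pow_left₀ h1 zero_le hm).ne'

/-- the value of the image below the turning position -/
theorem val_lt {K Γ : Type} [Field K] [LinearOrderedCommGroupWithZero Γ] {w : Valuation K Γ}
    {a c : K} {n l : ℕ} (hH : HP w a n l) {z : K} (hz : z ≠ 0) (h : w z ^ (n - l) < w c) :
    w (GG a c n l z) = w c * w z ^ l := by
  have hl := hH.hn
  have hz0 : 0 < w z := zero_lt_iff.2 ((Valuation.ne_zero_iff w).2 hz)
  unfold GG
  have h1 : w (a * z ^ n) < w (c * z ^ l) := by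
    rw [map_mul, map_mul, map_pow, map_pow, hH.wa, one_mul]
    calc w z ^ n = w z ^ (n - l) * w z ^ l := by
          rw [← pow_add]
          congr 1
          omega
      _ < w c * w z ^ l := mul_lt_mul_of_pos_right h (pow_pos hz0 l)
  rw [Valuation.map_add_eq_of_lt_right w h1, map_mul, map_pow]

/-- points at the fixed position -/
theorem star {K Γ : Type} [Field K] [LinearOrderedCommGroupWithZero Γ] {w : Valuation K Γ}
    {a c : K} {n l : ℕ} (hH : HP w a n l) (hc : 1 < w c) {z : K} (hz : z ≠ 0)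
    (hs : w c * w z ^ (l - 1) = 1) :
    w (GG a c n l z) = w z ∧ w z ^ (n - l) < w c := by
  have hl := hH.hl
  have hz0 : 0 < w z := zero_lt_iff.2 ((Valuation.ne_zero_iff w).2 hz)
  have hz1 : w z ≤ 1 := by
    by_contra hcon
    push Not at hcon
    have h1 : (1 : Γ) ≤ w z ^ (l - 1) := one_le_pow₀ hcon.le
    have h2 : (1 : Γ) < w c * w z ^ (l - 1) := by
      calc (1 : Γ) < w c := hc
        _ = w c * 1 := (mul_one _).symm
        _ ≤ w c * w z ^ (l - 1) := by gcongr
    exact absurd hs h2.ne'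
  have h3 : w z ^ (n - l) < w c := (pow_le_one₀ zero_le hz1).trans_lt hc
  refine ⟨?_, h3⟩
  rw [val_lt hH hz h3]
  calc w c * w z ^ l = w c * w z ^ (l - 1) * w z := by
        rw [mul_assoc, ← pow_succ]
        congr 2
        omega
    _ = w z := by rw [hs, one_mul]

/-- one step of the induction -/
theorem step (h1 : T_ESCP) (h2 : T_ST2P) (h3 : T_ST3P) (h6 : T_POSP) {K : Type} [Field K]
    {w : Valuation K ℤᵐ⁰} {a c : K} {n l : ℕ} (hH : HP w a n l) (hcop : Nat.Coprime l (n - 1))
    (hc : 1 < w c) {u v ω : K} (hu : u ≠ 0) (hv : v ≠ 0) (fu : FoG (GG a c n l) u)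
    (fv : FoG (GG a c n l) v) (hne : GG a c n l u ≠ GG a c n l v)
    (hns : w u ^ (n - l) = w c → w v ^ (n - l) = w c →
      w c * (max (w (GG a c n l u)) (w (GG a c n l v))) ^ (l - 1) ≠ 1)
    (hω : Om n l ω) (huv : w u = w v) (hpos : 1 < w c * w u ^ (l - 1))
    (hlt : w (u - ω * v) < w u)
    (hD : ¬ ((n : ℤ) - 1) ∣ log (w (u - ω * v)) - log (w u)) :
    GG a c n l u ≠ 0 ∧ GG a c n l v ≠ 0 ∧ w (GG a c n l u) = w (GG a c n l v) ∧
      1 < w c * w (GG a c n l u) ^ (l - 1) ∧
      w (GG a c n l u - 1 * GG a c n l v) < w (GG a c n l u) ∧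
      ¬ ((n : ℤ) - 1) ∣ log (w (GG a c n l u - 1 * GG a c n l v)) - log (w (GG a c n l u)) ∧
      (log (w (u - ω * v)) - log (w u) <
          log (w (GG a c n l u - 1 * GG a c n l v)) - log (w (GG a c n l u)) ∨
        (log (w (u - ω * v)) - log (w u) =
          log (w (GG a c n l u - 1 * GG a c n l v)) - log (w (GG a c n l u)) ∧
          log (w u) < log (w (GG a c n l u)))) := by
  have hl := hH.hl
  have hn := hH.hn
  have hc0 : c ≠ 0 := by
    rintro rfl
    rw [map_zero] at hc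
    exact absurd hc (not_lt.2 zero_le)
  have hwc0 : w c ≠ 0 := (Valuation.ne_zero_iff w).2 hc0
  have hwu : w u ≠ 0 := (Valuation.ne_zero_iff w).2 hu
  have hwu0 : 0 < w u := zero_lt_iff.2 hwu
  have hne0 : u - ω * v ≠ 0 := by
    intro h0
    apply hne
    rw [sub_eq_zero.1 h0, gg_om hω]
  have hwd : w (u - ω * v) ≠ 0 := (Valuation.ne_zero_iff w).2 hne0
  have hwN : w (GG a c n l u - GG a c n l v) ≠ 0 :=
    (Valuation.ne_zero_iff w).2 (sub_ne_zero.2 hne)
  have hDneg : log (w (u - ω * v)) < log (w u) := (log_lt_log hwd hwu).2 hlt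
  rw [one_mul]
  obtain ⟨e1, e2⟩ := (h1 K ℤᵐ⁰ w a c n l hH hc0 u fu hu).2.2.2 hc
  rcases lt_or_eq_of_le e1 with hlt1 | heq
  · -- below the turning position
    obtain ⟨s1, s2, s3, s4⟩ := h2 K ℤᵐ⁰ w a c n l hH hc0 u v ω hu hv huv hlt1.ne hω hlt
    have hwU : w (GG a c n l u) ≠ 0 := (Valuation.ne_zero_iff w).2 s1
    have hval := val_lt hH hu hlt1
    have hgt : w u < w (GG a c n l u) := by
      rw [hval]
      calc w u = 1 * w u := (one_mul _).symm
        _ < w c * w u ^ (l - 1) * w u := mul_lt_mul_of_pos_right hpos hwu0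
        _ = w c * w u ^ l := by
            rw [mul_assoc, ← pow_succ]
            congr 2
            omega
    have hlog : log (w (GG a c n l u - GG a c n l v)) + log (w u) =
        log (w (u - ω * v)) + log (w (GG a c n l u)) := by
      rw [← log_mul hwN hwu, ← log_mul hwd hwU, s4]
    have hDD : log (w (u - ω * v)) - log (w u) =
        log (w (GG a c n l u - GG a c n l v)) - log (w (GG a c n l u)) := by linarith
    refine ⟨s1, s2, s3, ?_, ?_, ?_, Or.inr ⟨hDD, (log_lt_log hwu hwU).2 hgt⟩⟩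
    · calc 1 < w c * w u ^ (l - 1) := hpos
        _ ≤ w c * w (GG a c n l u) ^ (l - 1) := by gcongr
    · rw [← log_lt_log hwN hwU]
      linarith
    · rw [← hDD]
      exact hD
  · -- the turning position
    have hnl : n - l ≠ 0 := by omega
    have heqv : w v ^ (n - l) = w c := by rw [← huv, heq]
    have hρ1 : 1 < w u := by
      by_contra hcon
      have h7 := pow_le_one₀ zero_le (not_lt.1 hcon) (n := n - l)
      rw [heq] at h7
      exact absurd hc (not_lt.2 h7)
    have fU : FoG (GG a c n l) (GG a c n l u) := fog_iter fu 1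
    have fV : FoG (GG a c n l) (GG a c n l v) := fog_iter fv 1
    have hle : ∀ z : K, FoG (GG a c n l) z → w z ≤ w u := by
      intro z hz
      by_cases hz0 : z = 0
      · rw [hz0, map_zero]
        exact zero_le
      · by_contra hcon
        push Not at hcon
        have h8 := ((h1 K ℤᵐ⁰ w a c n l hH hc0 z hz hz0).2.2.2 hc).1
        rw [← heq] at h8
        exact absurd h8 (not_le.2 (pow_lt_pow_left₀ hcon zero_le hnl))
    have hpown : w u < w u ^ n := lt_self_pow₀ hρ1 (by omega)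
    have hst := h3 K ℤᵐ⁰ w a c n l hH hc0 u v ω hv heqv
      (by rw [← huv]; exact (hle _ fV).trans_lt hpown) hω (by rw [← huv]; exact hlt)
    rw [← huv] at hst
    have hns' := hns heq heqv
    set U := GG a c n l u with hU
    set V := GG a c n l v with hV
    set μ := max (w U) (w V) with hμ
    have hlogst : log (w (U - V)) = log (w (u - ω * v)) + ((n : ℤ) - 1) * log (w u) := by
      rw [hst, log_mul hwd (pow_ne_zero _ hwu), log_pow, nsmul_eq_mul]
      congr 2
      rw [Nat.cast_sub (by omega)]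
      norm_num
    -- the divisibility for μ
    have hμd : μ ≠ 0 ∧ ((n : ℤ) - 1) ∣ log μ - n * log (w u) ∧ μ ≤ w u ∧
        1 < w c * μ ^ (l - 1) := by
      have gen : ∀ z : K, z ≠ 0 → FoG (GG a c n l) z → w z = μ → μ ≠ 0 ∧
          ((n : ℤ) - 1) ∣ log μ - n * log (w u) ∧ μ ≤ w u ∧ 1 < w c * μ ^ (l - 1) := by
        intro z hz hfz hzμ
        have hz2 : w c * w z ^ (l - 1) ≠ 1 := by
          rw [hzμ]
          exact hns'
        obtain ⟨R, hR1, hR2⟩ := h6 K w a c n l hH hcop hc z hfz hz hz2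
        have hRρ : R = log (w u) := by
          rw [← heq, log_pow, nsmul_eq_mul, Nat.cast_sub hn.le] at hR1
          have h9 : ((n : ℤ) - l) ≠ 0 := by
            have : (l : ℤ) < n := by exact_mod_cast hn
            omega
          exact (mul_left_cancel₀ h9 hR1).symm
        rw [hzμ, hRρ] at hR2
        refine ⟨?_, hR2, ?_, ?_⟩
        · rw [← hzμ]
          exact (Valuation.ne_zero_iff w).2 hz
        · rw [← hzμ]
          exact hle z hfz
        · rw [← hzμ]
          exact lt_of_le_of_ne ((h1 K ℤᵐ⁰ w a c n l hH hc0 z hfz hz).2.2.2 hc).2 hz2.symm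
      rcases le_total (w U) (w V) with hUV | hUV
      · have hμV : w V = μ := by rw [hμ, max_eq_right hUV]
        have hV0 : V ≠ 0 := by
          intro h0
          rw [h0, map_zero] at hUV
          have h10 : U = 0 := (Valuation.zero_iff w).1 (le_antisymm hUV zero_le)
          exact hne (h10.trans h0.symm)
        exact gen V hV0 fV hμV
      · have hμU : w U = μ := by rw [hμ, max_eq_left hUV]
        have hU0 : U ≠ 0 := by
          intro h0
          rw [h0, map_zero] at hUV
          have h10 : V = 0 := (Valuation.zero_iff w).1 (le_antisymm hUV zero_le)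
          exact hne (h0.trans h10.symm)
        exact gen U hU0 fU hμU
    obtain ⟨m1, m2, m3, m4⟩ := hμd
    have hltμ : w (U - V) < μ := by
      refine lt_of_le_of_ne (Valuation.map_sub w U V) ?_
      intro hE
      apply hD
      rw [hE] at hlogst
      have h11 : log (w (u - ω * v)) - log (w u) = log μ - n * log (w u) := by
        rw [hlogst]
        ring
      rw [h11]
      exact m2
    have hUVeq : w U = w V := by
      by_contra hcon
      rcases lt_or_gt_of_ne hcon with h12 | h12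
      · rw [Valuation.map_sub_eq_of_lt_right w h12, hμ, max_eq_right h12.le] at hltμ
        exact lt_irrefl _ hltμ
      · rw [Valuation.map_sub_eq_of_lt_left w h12, hμ, max_eq_left h12.le] at hltμ
        exact lt_irrefl _ hltμ
    have hμU : μ = w U := by rw [hμ, ← hUVeq, max_self]
    rw [hμU] at m1 m2 m3 m4 hltμ
    have hU0 : U ≠ 0 := (Valuation.ne_zero_iff w).1 m1
    have hV0 : V ≠ 0 := (Valuation.ne_zero_iff w).1 (by rw [← hUVeq]; exact m1)
    have hDk : log (w (U - V)) - log (w U) = (log (w (u - ω * v)) - log (w u)) -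
        (log (w U) - n * log (w u)) := by
      rw [hlogst]
      ring
    refine ⟨hU0, hV0, hUVeq, m4, hltμ, ?_, Or.inl ?_⟩
    · rw [hDk]
      intro h13
      apply hD
      have := dvd_add h13 m2
      rwa [sub_add_cancel] at this
    · rw [hDk]
      have h14 : log (w U) < n * log (w u) := by
        have h15 : log (w U) ≤ log (w u) := (log_le_log m1 hwu).2 m3
        have h16 : log (w u) < log (w u ^ n) :=
          (log_lt_log hwu (pow_ne_zero _ hwu)).2 hpown
        rw [log_pow, nsmul_eq_mul] at h16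
        exact h15.trans_lt h16
      linarith

end L3P_

open L3P_ in
theorem p_L3P (h1 : T_ESCP) (h2 : T_ST2P) (h3 : T_ST3P) (h4 : T_SEPG) (h5 : T_L2P)
    (h6 : T_POSP) (h7 : T_NST) : T_L3P := by
  intro K _ w a c n l hH hcop hc x y ω hPR hOm hω1
  have hl := hH.hl
  have hn := hH.hn
  obtain ⟨hfx, hfy, hsep⟩ := h4 K (GG a c n l) (gg_zero (by omega) (by omega)) x y hPR
  obtain ⟨hx, hy, -⟩ := id hPR
  have hc0 : c ≠ 0 := by
    rintro rfl
    rw [map_zero] at hc
    exact absurd hc (not_lt.2 zero_le)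
  set f := GG a c n l with hf
  by_contra hGP
  unfold GPP at hGP
  have hwω : w ω = 1 := by
    have h8 : w ω ^ n = 1 ^ n := by rw [← map_pow, hOm.1, map_one, one_pow]
    exact pow_inj (by omega) h8
  have hwωy : w (ω * y) = w y := by rw [map_mul, hwω, one_mul]
  have hle : w (x - ω * y) ≤ max (w x) (w y) := by
    have := Valuation.map_sub w x (ω * y)
    rwa [hwωy] at this
  have hlt : w (x - ω * y) < max (w x) (w y) := by
    refine lt_of_le_of_ne hle ?_
    intro hE
    apply hGP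
    rw [hE, sub_self]
    exact dvd_zero _
  have hxy : w x = w y := by
    by_contra hcon
    rcases lt_or_gt_of_ne hcon with h12 | h12
    · rw [Valuation.map_sub_eq_of_lt_right w (by rw [hwωy]; exact h12), hwωy,
        max_eq_right h12.le] at hlt
      exact lt_irrefl _ hlt
    · rw [Valuation.map_sub_eq_of_lt_left w (by rw [hwωy]; exact h12), max_eq_left h12.le] at hlt
      exact lt_irrefl _ hlt
  rw [← hxy, max_self] at hlt hGP
  -- (A)
  have hstar : w c * w x ^ (l - 1) ≠ 1 := by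
    intro hs
    have stay : ∀ z : K, z ≠ 0 → w c * w z ^ (l - 1) = 1 → ∀ k : ℕ, f^[k] z ≠ 0 ∧
        w c * w (f^[k] z) ^ (l - 1) = 1 := by
      intro z hz hz1 k
      induction k with
      | zero => exact ⟨hz, hz1⟩
      | succ k ih =>
        obtain ⟨i1, i2⟩ := ih
        rw [iterate_succ_apply']
        have h9 := (star hH hc i1 i2).1
        rw [← hf] at h9
        refine ⟨?_, by rw [h9]; exact i2⟩
        rw [← Valuation.ne_zero_iff w, h9]
        exact (Valuation.ne_zero_iff w).2 i1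
    have noturn : ∀ z : K, z ≠ 0 → w c * w z ^ (l - 1) = 1 → ∀ k : ℕ, f^[k + 1] z ≠ 0 →
        w (f^[k] z) ^ (n - l) ≠ w c := by
      intro z hz hz1 k _
      obtain ⟨i1, i2⟩ := stay z hz hz1 k
      exact (star hH hc i1 i2).2.ne
    have h10 := h5 K ℤᵐ⁰ w a c n l hH hc0 x y ω hPR hOm hω1 (noturn x hx hs)
      (noturn y hy (by rw [← hxy]; exact hs))
    rw [h10, ← hxy, max_self] at hlt
    exact lt_irrefl _ hlt
  -- (B)
  have hpos : 1 < w c * w x ^ (l - 1) :=
    lt_of_le_of_ne ((h1 K ℤᵐ⁰ w a c n l hH hc0 x hfx hx).2.2.2 hc).2 hstar.symm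
  have hStep : ∀ (k : ℕ) (ωk : K), Om n l ωk → f^[k] x ≠ 0 → f^[k] y ≠ 0 →
      w (f^[k] x) = w (f^[k] y) → 1 < w c * w (f^[k] x) ^ (l - 1) →
      w (f^[k] x - ωk * f^[k] y) < w (f^[k] x) →
      ¬ ((n : ℤ) - 1) ∣ log (w (f^[k] x - ωk * f^[k] y)) - log (w (f^[k] x)) →
      f^[k + 1] x ≠ 0 ∧ f^[k + 1] y ≠ 0 ∧ w (f^[k + 1] x) = w (f^[k + 1] y) ∧
      1 < w c * w (f^[k + 1] x) ^ (l - 1) ∧
      w (f^[k + 1] x - 1 * f^[k + 1] y) < w (f^[k + 1] x) ∧
      ¬ ((n : ℤ) - 1) ∣ log (w (f^[k + 1] x - 1 * f^[k + 1] y)) - log (w (f^[k + 1] x)) ∧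
      (log (w (f^[k] x - ωk * f^[k] y)) - log (w (f^[k] x)) <
          log (w (f^[k + 1] x - 1 * f^[k + 1] y)) - log (w (f^[k + 1] x)) ∨
        (log (w (f^[k] x - ωk * f^[k] y)) - log (w (f^[k] x)) =
          log (w (f^[k + 1] x - 1 * f^[k + 1] y)) - log (w (f^[k + 1] x)) ∧
          log (w (f^[k] x)) < log (w (f^[k + 1] x)))) := by
    intro k ωk hωk hX hY hXY hp hl' hd
    have hne := hsep k hX hY
    have hns := h7 K ℤᵐ⁰ w a c n l hH hc x y k hPR
    rw [← hf] at hns
    rw [iterate_succ_apply' f k x, iterate_succ_apply' f k y] at hne hns ⊢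
    exact step h1 h2 h3 h6 hH hcop hc hX hY (fog_iter hfx k) (fog_iter hfy k) hne hns hωk hXY hp
      hl' hd
  have key : ∀ k : ℕ, f^[k + 1] x ≠ 0 ∧ f^[k + 1] y ≠ 0 ∧ w (f^[k + 1] x) = w (f^[k + 1] y) ∧
      1 < w c * w (f^[k + 1] x) ^ (l - 1) ∧
      w (f^[k + 1] x - 1 * f^[k + 1] y) < w (f^[k + 1] x) ∧
      ¬ ((n : ℤ) - 1) ∣ log (w (f^[k + 1] x - 1 * f^[k + 1] y)) - log (w (f^[k + 1] x)) := by
    intro k
    induction k with
    | zero =>
      obtain ⟨a1, a2, a3, a4, a5, a6, -⟩ := hStep 0 ω hOm hx hy hxy hpos hlt hGP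
      exact ⟨a1, a2, a3, a4, a5, a6⟩
    | succ k ih =>
      obtain ⟨b1, b2, b3, b4, b5, b6⟩ := ih
      obtain ⟨a1, a2, a3, a4, a5, a6, -⟩ := hStep (k + 1) 1 ⟨one_pow _, one_pow _⟩ b1 b2 b3 b4
        b5 b6
      exact ⟨a1, a2, a3, a4, a5, a6⟩
  -- contradiction: a strictly increasing sequence with finitely many values
  let φ : ℕ → ℤ ×ₗ ℤ := fun k => toLex
    (log (w (f^[k + 1] x - 1 * f^[k + 1] y)) - log (w (f^[k + 1] x)), log (w (f^[k + 1] x)))
  have hmono : StrictMono φ := by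
    refine strictMono_nat_of_lt_succ fun k => ?_
    obtain ⟨b1, b2, b3, b4, b5, b6⟩ := key k
    obtain ⟨-, -, -, -, -, -, a7⟩ := hStep (k + 1) 1 ⟨one_pow _, one_pow _⟩ b1 b2 b3 b4 b5 b6
    exact Prod.Lex.toLex_lt_toLex.2 a7
  refine Set.infinite_range_of_injective hmono.injective ?_
  have hfin := (hfx.prod hfy).image fun p : K × K =>
    (toLex (log (w (p.1 - 1 * p.2)) - log (w p.1), log (w p.1)) : ℤ ×ₗ ℤ)
  refine hfin.subset ?_
  rintro _ ⟨k, rfl⟩
  exact ⟨(f^[k + 1] x, f^[k + 1] y), ⟨⟨k + 1, rfl⟩, ⟨k + 1, rfl⟩⟩, rfl⟩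

end Pool.Agent.TTM
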