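import Pool.Agent.TTM.Targets
import Pool.Agent.PDR.Good

set_option autoImplicit false

/-!
# TTM (MP_c076ed_nt): the multiplier argument (target MUL)
-/

namespace Pool.Agent.TTM

open Function

namespace MUL_

open Pool.Agent.PDP (Si Si_mul)
open Pool.Agent.PDR (c_mul c_pow c_sum Si_cong Si_int)

variable {K : Type} [Field K]

/-- the difference quotient of the map, times `u ^ d v ^ d` -/
def Hq (a c : K) (n d : ℕ) (u v : K) : K := a * (u ^ d * v ^ d * Si n u v) - c * Si d u v

theorem Hq_eq (a c : K) (n d : ℕ) {u v : K} (hu : u ≠ 0) (hv : v ≠ 0) :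
    (FF a c n d u - FF a c n d v) * (u ^ d * v ^ d) = (u - v) * Hq a c n d u v := by
  have h1 := Si_mul n u v
  have h2 := Si_mul d u v
  have hu' : u ^ d ≠ 0 := pow_ne_zero _ hu
  have hv' : v ^ d ≠ 0 := pow_ne_zero _ hv
  have e1 : (FF a c n d u - FF a c n d v) * (u ^ d * v ^ d) =
      a * (u ^ n - v ^ n) * (u ^ d * v ^ d) - c * (u ^ d - v ^ d) := by
    unfold FF
    field_simp
    ring
  rw [e1, ← h1, ← h2]
  unfold Hq
  ring

variable {Γ : Type} [LinearOrderedCommGroupWithZero Γ] {w : Valuation K Γ}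

theorem Hq_cong {a c : K} (n d : ℕ) {x u z : K} (ha : w a = 1) (hc : w c = 1) (hx : w x = 1)
    (hu : w u = 1) (hz : w z = 1) (h1 : w (x - u) < 1) (h2 : w (u - z) < 1) :
    w (Hq a c n d u z - Hq a c n d x u) < 1 := by
  have h1' : w (u - x) < 1 := by rw [Valuation.map_sub_swap]; exact h1
  have h2' : w (z - u) < 1 := by rw [Valuation.map_sub_swap]; exact h2
  have p1 : w (u ^ d - x ^ d) < 1 := c_pow h1' hu.le hx.le d
  have p2 : w (z ^ d - u ^ d) < 1 := c_pow h2' hz.le hu.le d
  have q1 : w (Si n u z - Si n x u) < 1 := Si_cong h1' h2' hu.le hx.le hz.le hu.le n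
  have q2 : w (Si d u z - Si d x u) < 1 := Si_cong h1' h2' hu.le hx.le hz.le hu.le d
  have m1 : w (u ^ d * z ^ d - x ^ d * u ^ d) < 1 := by
    refine c_mul p1 p2 ?_ ?_
    · rw [map_pow, hu, one_pow]
    · rw [map_pow, hu, one_pow]
  have m2 : w (u ^ d * z ^ d * Si n u z - x ^ d * u ^ d * Si n x u) < 1 := by
    refine c_mul m1 q1 ?_ ?_
    · rw [map_mul, map_pow, map_pow, hu, hz, one_pow, mul_one]
    · exact Si_int hx.le hu.le n
  have e : Hq a c n d u z - Hq a c n d x u =
      a * (u ^ d * z ^ d * Si n u z - x ^ d * u ^ d * Si n x u) -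
        c * (Si d u z - Si d x u) := by
    unfold Hq
    ring
  rw [e]
  refine lt_of_le_of_lt (Valuation.map_sub w _ _) (max_lt ?_ ?_)
  · rw [map_mul, ha, one_mul]
    exact m2
  · rw [map_mul, hc, one_mul]
    exact q2

end MUL_

theorem p_MUL : T_MUL := by
  intro K Γ _ _ w a c n d hw hc x u z hx hu hz hxu hf h1 h2 huz
  have hx0 : x ≠ 0 := by
    rintro rfl
    rw [map_zero] at hx
    exact zero_ne_one hx
  have hu0 : u ≠ 0 := by
    rintro rfl
    rw [map_zero] at hu
    exact zero_ne_one hu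
  have hz0 : z ≠ 0 := by
    rintro rfl
    rw [map_zero] at hz
    exact zero_ne_one hz
  have hH : MUL_.Hq a c n d x u = 0 := by
    have h := MUL_.Hq_eq a c n d hx0 hu0
    rw [hf, sub_self, zero_mul] at h
    rcases mul_eq_zero.1 h.symm with h3 | h3
    · exact absurd (sub_eq_zero.1 h3) hxu
    · exact h3
  have hc2 := MUL_.Hq_cong n d hw.wa hc hx hu hz h1 h2
  rw [hH, sub_zero] at hc2
  have h := congrArg w (MUL_.Hq_eq a c n d hu0 hz0)
  rw [map_mul, map_mul, map_mul, map_pow, map_pow, hu, hz, one_pow, mul_one, mul_one] at h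
  rw [h]
  have hpos : 0 < w (u - z) := by
    rw [zero_lt_iff]
    exact (Valuation.ne_zero_iff w).2 (sub_ne_zero.2 huz)
  calc w (u - z) * w (MUL_.Hq a c n d u z) < w (u - z) * 1 :=
        mul_lt_mul_of_pos_left hc2 hpos
    _ = w (u - z) := mul_one _

end Pool.Agent.TTM
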