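import Pool.Agent.TTM.TargetsP
import Pool.Agent.PDR.Good

set_option autoImplicit false

/-!
# TTM (MP_c076ed_nt), second part: the multiplier argument (target MULP)
-/

namespace Pool.Agent.TTM

open Function

namespace MULP_

open Pool.Agent.PDP (Si Si_mul)
open Pool.Agent.PDR (Si_cong)

variable {K : Type} [Field K]

/-- the difference quotient of the polynomial -/
def Hq (a c : K) (n l : ℕ) (u v : K) : K := a * Si n u v + c * Si l u v

theorem Hq_eq (a c : K) (n l : ℕ) (u v : K) :
    GG a c n l u - GG a c n l v = (u - v) * Hq a c n l u v := by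
  have h1 := Si_mul n u v
  have h2 := Si_mul l u v
  have e1 : GG a c n l u - GG a c n l v = a * (u ^ n - v ^ n) + c * (u ^ l - v ^ l) := by
    unfold GG
    ring
  rw [e1, ← h1, ← h2]
  unfold Hq
  ring

variable {Γ : Type} [LinearOrderedCommGroupWithZero Γ] {w : Valuation K Γ}

theorem Hq_cong {a c : K} (n l : ℕ) {x u z : K} (ha : w a = 1) (hc : w c = 1) (hx : w x = 1)
    (hu : w u = 1) (hz : w z = 1) (h1 : w (x - u) < 1) (h2 : w (u - z) < 1) :
    w (Hq a c n l u z - Hq a c n l x u) < 1 := by
  have h1' : w (u - x) < 1 := by rw [Valuation.map_sub_swap]; exact h1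
  have h2' : w (z - u) < 1 := by rw [Valuation.map_sub_swap]; exact h2
  have q1 : w (Si n u z - Si n x u) < 1 := Si_cong h1' h2' hu.le hx.le hz.le hu.le n
  have q2 : w (Si l u z - Si l x u) < 1 := Si_cong h1' h2' hu.le hx.le hz.le hu.le l
  have e : Hq a c n l u z - Hq a c n l x u =
      a * (Si n u z - Si n x u) + c * (Si l u z - Si l x u) := by
    unfold Hq
    ring
  rw [e]
  refine lt_of_le_of_lt (Valuation.map_add w _ _) (max_lt ?_ ?_)
  · rw [map_mul, ha, one_mul]
    exact q1
  · rw [map_mul, hc, one_mul]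
    exact q2

end MULP_

theorem p_MULP : T_MULP := by
  intro K Γ _ _ w a c n l hw hc x u z hx hu hz hxu hf h1 h2 huz
  have hH : MULP_.Hq a c n l x u = 0 := by
    have h := MULP_.Hq_eq a c n l x u
    rw [hf, sub_self] at h
    rcases mul_eq_zero.1 h.symm with h3 | h3
    · exact absurd (sub_eq_zero.1 h3) hxu
    · exact h3
  have hc2 := MULP_.Hq_cong n l hw.wa hc hx hu hz h1 h2
  rw [hH, sub_zero] at hc2
  have h := congrArg w (MULP_.Hq_eq a c n l u z)
  rw [map_mul] at h
  rw [h]
  have hpos : 0 < w (u - z) := by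
    rw [zero_lt_iff]
    exact (Valuation.ne_zero_iff w).2 (sub_ne_zero.2 huz)
  calc w (u - z) * w (MULP_.Hq a c n l u z) < w (u - z) * 1 :=
        mul_lt_mul_of_pos_left hc2 hpos
    _ = w (u - z) := mul_one _

end Pool.Agent.TTM
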