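import Pool.Agent.TTM.Targets
import Pool.Agent.TTM.P_SEP
import Pool.Agent.PDR.Omega2
import Pool.Agent.PDP.Power

set_option autoImplicit false

/-!
# TTM, target NB: bounds for periodic points and tails
-/

namespace Pool.Agent.TTM

open Function NumberField IsDedekindDomain

namespace NB_

section

variable {K : Type} [Field K] {Γ : Type} [LinearOrderedCommGroupWithZero Γ]

lemma val_root (w : Valuation K Γ) {m : ℕ} (hm : m ≠ 0) {ω : K} (h : ω ^ m = 1) : w ω = 1 := by
  have h1 : w ω ^ m = 1 := by rw [← map_pow, h, map_one]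
  exact (pow_eq_one_iff_of_nonneg zero_le hm).1 h1

lemma val_one_sub (w : Valuation K Γ) {m : ℕ} (hm : m ≠ 0) {ω : K} (h : ω ^ m = 1)
    (h1 : ω ≠ 1) (hwm : w (m : K) = 1) : w (1 - ω) = 1 := by
  have hω := val_root w hm h
  have hle : w (ω - 1) ≤ 1 := by
    refine (w.map_sub _ _).trans ?_
    rw [hω, map_one, max_self]
  have hpow : ∀ j : ℕ, w (ω ^ j - 1) ≤ w (ω - 1) := by
    intro j
    rw [← geom_sum_mul ω j, map_mul]
    refine mul_le_of_le_one_left' (w.map_sum_le fun i _ => ?_)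
    rw [map_pow, hω, one_pow]
  have hsum : ∑ j ∈ Finset.range m, (ω ^ j - 1) = -(m : K) := by
    have h2 : (∑ j ∈ Finset.range m, ω ^ j) = 0 := by
      have h3 := geom_sum_mul ω m
      rw [h, sub_self] at h3
      exact (mul_eq_zero.1 h3).resolve_right (sub_ne_zero.2 h1)
    rw [Finset.sum_sub_distrib, h2]
    simp
  have hge : 1 ≤ w (ω - 1) := by
    have h3 : w (-(m : K)) ≤ w (ω - 1) := by
      rw [← hsum]
      exact w.map_sum_le fun j _ => hpow j
    rwa [w.map_neg, hwm] at h3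
  rw [w.map_sub_swap]
  exact le_antisymm hle hge

lemma ff_mul {a c ω : K} {n d : ℕ} (h : Om n d ω) (y : K) :
    FF a c n d (ω * y) = FF a c n d y := by
  unfold FF
  rw [mul_pow, mul_pow, h.1, h.2, one_mul, one_mul]

lemma ff_zero {a c : K} {n d : ℕ} (hn : n ≠ 0) (hd : d ≠ 0) : FF a c n d 0 = 0 := by
  unfold FF
  rw [zero_pow hn, zero_pow hd, inv_zero, mul_zero, mul_zero, add_zero]

lemma gp_swap {w : Valuation K Γ} {n : ℕ} {x y ω : K} (hω : w ω = 1) (h : GP w n x y ω⁻¹) :
    GP w n y x ω := by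
  have hω0 : ω ≠ 0 := by
    rintro rfl
    rw [map_zero] at hω
    exact zero_ne_one hω
  have e : y - ω * x = -(ω * (x - ω⁻¹ * y)) := by
    field_simp
    ring
  have e2 : w (y - ω * x) = w (x - ω⁻¹ * y) := by
    rw [e, w.map_neg, map_mul, hω, one_mul]
  rcases h with h | ⟨h1, j, h2⟩
  · left
    rw [e2, h, max_comm]
  · right
    refine ⟨h1.symm, j, ?_⟩
    rw [e2, ← h1]
    exact h2

end

/-- the places -/
lemma place (h1 : T_L1) (h2 : T_L2) (h3 : T_L3) (h4 : T_SEP) {K : Type} [Field K] {Γ : Type}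
    [LinearOrderedCommGroupWithZero Γ] {w : Valuation K Γ} {a c : K} {n d m : ℕ} (hm : m ≠ 0)
    (hmn : m ∣ n) (hmd : m ∣ d) (hW : HW w a n d) (hwm : w (m : K) = 1) (hc : c ≠ 0) {x y ω : K}
    (hω : ω ^ m = 1) (hω1 : ω ≠ 1) (hP : PR a c n d x y) : GP w n x y ω := by
  have hO : Om n d ω := by
    obtain ⟨n', rfl⟩ := hmn
    obtain ⟨d', rfl⟩ := hmd
    exact ⟨by rw [pow_mul, hω, one_pow], by rw [pow_mul, hω, one_pow]⟩
  have hs := val_one_sub w hm hω hω1 hwm
  rcases lt_trichotomy (w c) 1 with hlt | heq | hgt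
  · exact Or.inl (h2 K Γ w a c n d hW hc hlt x y ω hP hO hs)
  · exact Or.inl (h1 K Γ w a c n d hW heq x y ω hP hO hs)
  · obtain ⟨f1, f2, f3⟩ := h4 K a c n d (by have := hW.hn; omega) (by have := hW.hd; omega) x y hP
    exact h3 K Γ w a c n d hW hgt x y ω hP.1 hP.2.1 f1 f2 f3 hO

lemma ne_of_pr (h4 : T_SEP) {K : Type} [Field K] {a c : K} {n d : ℕ} (hn : 1 ≤ n) (hd : 1 ≤ d)
    {x y ω : K} (hO : Om n d ω) (hP : PR a c n d x y) : x - ω * y ≠ 0 := by
  intro h
  obtain ⟨-, -, f3⟩ := h4 K a c n d hn hd x y hP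
  refine f3 0 hP.1 hP.2.1 ?_
  rw [zero_add, iterate_one, sub_eq_zero.1 h, ff_mul hO]

/-- the main count -/
lemma core (h1 : T_L1) (h2 : T_L2) (h3 : T_L3) (h4 : T_SEP) (h5 : T_CNT) (K : Type) [Field K]
    [NumberField K] (a : K) (n d m : ℕ) (ζ : K) (ha : a ≠ 0) (hn : 6 ≤ n) (hm : 4 ≤ m)
    (hmn : m ∣ n) (hmd : m ∣ d) (hd : 1 ≤ d) (hζ : IsPrimitiveRoot ζ m) :
    ∃ B : ℕ, ∀ c : K, c ≠ 0 → ∀ P Q : Finset K, (∀ p ∈ P, p ≠ 0) → (∀ q ∈ Q, q ≠ 0) →
      (∀ p ∈ P, ∀ q ∈ Q, PR a c n d p q ∨ PR a c n d q p) → P.card ≤ B ∨ Q.card ≤ B := by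
  have hd4 : 4 ≤ d := hm.trans (Nat.le_of_dvd hd hmd)
  obtain ⟨N, hN, hu⟩ := PDR.unit_out K a ha
  obtain ⟨B, hB⟩ := h5 K n m (N * (n * (d * ((n + d) * m)))) ζ hn hm hζ
    (by positivity)
  refine ⟨B, fun c hc P Q hP hQ hPQ => hB P Q hP hQ fun p hp q hq s hs1 hs3 => ?_⟩
  have hm0 : m ≠ 0 := by omega
  have hz : (ζ ^ s) ^ m = 1 := by rw [← pow_mul, mul_comm, pow_mul, hζ.pow_eq_one, one_pow]
  have hz1 : ζ ^ s ≠ 1 := hζ.pow_ne_one_of_pos_of_lt (by omega) (by omega)
  have hz' : ((ζ ^ s)⁻¹) ^ m = 1 := by rw [inv_pow, hz, inv_one]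
  have hz1' : (ζ ^ s)⁻¹ ≠ 1 := fun h => hz1 (inv_eq_one.1 h)
  have hO : ∀ ω : K, ω ^ m = 1 → Om n d ω := by
    intro ω hω
    obtain ⟨n', rfl⟩ := hmn
    obtain ⟨d', rfl⟩ := hmd
    exact ⟨by rw [pow_mul, hω, one_pow], by rw [pow_mul, hω, one_pow]⟩
  have hpl : ∀ v : HeightOneSpectrum (𝓞 K),
      ((N * (n * (d * ((n + d) * m))) : ℕ) : 𝓞 K) ∉ v.asIdeal →
      HW (v.valuation K) a n d ∧ v.valuation K (m : K) = 1 := by
    intro v hv
    have k1 : ∀ x y : ℕ, ((x * y : ℕ) : 𝓞 K) ∉ v.asIdeal →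
        ((x : ℕ) : 𝓞 K) ∉ v.asIdeal ∧ ((y : ℕ) : 𝓞 K) ∉ v.asIdeal := by
      intro x y hxy
      rw [Nat.cast_mul] at hxy
      exact ⟨fun h => hxy (v.asIdeal.mul_mem_right _ h), fun h => hxy (v.asIdeal.mul_mem_left _ h)⟩
    obtain ⟨v1, v2⟩ := k1 _ _ hv
    obtain ⟨v3, v4⟩ := k1 _ _ v2
    obtain ⟨v5, v6⟩ := k1 _ _ v4
    obtain ⟨v7, v8⟩ := k1 _ _ v6
    exact ⟨⟨by omega, by omega, hu v v1, PDP.val_one v n v3, PDP.val_one v d v5,
      PDP.val_one v (n + d) v7⟩, PDP.val_one v m v8⟩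
  rcases hPQ p hp q hq with hpr | hpr
  · refine ⟨ne_of_pr h4 (by omega) hd (hO _ hz) hpr, fun v hv => ?_⟩
    obtain ⟨w1, w2⟩ := hpl v hv
    exact place h1 h2 h3 h4 hm0 hmn hmd w1 w2 hc hz hz1 hpr
  · refine ⟨?_, fun v hv => ?_⟩
    · intro h0
      refine ne_of_pr h4 (by omega) hd (hO _ hz') hpr ?_
      have hne : ζ ^ s ≠ 0 := by
        intro h
        rw [h, zero_pow hm0] at hz
        exact zero_ne_one hz
      have e : q - (ζ ^ s)⁻¹ * p = -(ζ ^ s)⁻¹ * (p - ζ ^ s * q) := by
        field_simp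
        ring
      rw [e, h0, mul_zero]
    · obtain ⟨w1, w2⟩ := hpl v hv
      exact gp_swap (val_root _ hm0 hz) (place h1 h2 h3 h4 hm0 hmn hmd w1 w2 hc hz' hz1' hpr)

end NB_

open NB_ in
theorem p_NB (h1 : T_L1) (h2 : T_L2) (h3 : T_L3) (h4 : T_SEP) (h5 : T_CNT) : T_NB := by
  classical
  intro K _ _ a n d m ζ ha hn hm hmn hmd hd hζ
  obtain ⟨B, hB⟩ := core h1 h2 h3 h4 h5 K a n d m ζ ha hn hm hmn hmd hd hζ
  refine ⟨(2 * B + 1) * (B + 1), fun c hc => ?_⟩
  have hB' := hB c hc
  set f := FF a c n d with hf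
  have hf0 : f 0 = 0 := ff_zero (by omega) (by omega)
  have hf0' : ∀ k : ℕ, f^[k] 0 = 0 := fun k => iterate_fixed hf0 k
  have hle : 2 * B + 1 ≤ (2 * B + 1) * (B + 1) := Nat.le_mul_of_pos_right _ (by omega)
  -- periodic points
  have c1 : ∀ S : Finset K, (∀ x ∈ S, x ≠ 0 ∧ x ∈ periodicPts f) → S.card ≤ 2 * B + 1 := by
    intro S hS
    obtain ⟨P, hPS, hPc⟩ := Finset.exists_subset_card_eq (Nat.div_le_self S.card 2)
    have hQc : (S \ P).card = S.card - S.card / 2 := by
      rw [Finset.card_sdiff_of_subset hPS, hPc]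
    have h := hB' P (S \ P) (fun p hp => (hS p (hPS hp)).1)
      (fun q hq => (hS q (Finset.mem_sdiff.1 hq).1).1) (fun p hp q hq => by
        obtain ⟨q1, q2⟩ := Finset.mem_sdiff.1 hq
        refine Or.inl ⟨(hS p (hPS hp)).1, (hS q q1).1, Or.inl ⟨(hS p (hPS hp)).2, (hS q q1).2, ?_⟩⟩
        rintro rfl
        exact q2 hp)
    rw [hPc, hQc] at h
    omega
  refine ⟨fun S hS => (c1 S hS).trans hle, fun z k hk hk1 => ?_, fun z t hnp hp hne => ?_⟩
  · -- tails which end at zero
    have hnz : ∀ i, i ≤ k → f^[i] z ≠ 0 := by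
      intro i hi h0
      apply hk
      obtain ⟨j, rfl⟩ := Nat.exists_eq_add_of_le' hi
      rw [iterate_add_apply, h0, hf0']
    have hz0 : ∀ i, k + 1 ≤ i → f^[i] z = 0 := by
      intro i hi
      obtain ⟨j, rfl⟩ := Nat.exists_eq_add_of_le' hi
      rw [iterate_add_apply, hk1, hf0']
    have hFo : ∀ i, Fo a c n d (f^[i] z) := by
      intro i
      refine SEP_.fin_of (T := k + 1) (L := 1) one_pos ?_
      rw [← hf, iterate_one, ← iterate_add_apply, hz0 _ (by omega), hf0]
    have hPZ : ∀ i j, i < j → j ≤ k → PR a c n d (f^[j] z) (f^[i] z) := by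
      intro i j hij hj
      refine ⟨hnz j hj, hnz i (by omega), Or.inr (Or.inl ⟨hFo j, hFo i, k + 1 - j, ?_, ?_⟩)⟩
      · rw [← hf, ← iterate_add_apply]
        exact hz0 _ (by omega)
      · rw [← hf, ← iterate_add_apply]
        exact hnz _ (by omega)
    have hinj : ∀ i j, i < j → j ≤ k → f^[i] z ≠ f^[j] z := by
      intro i j hij hj he
      have h6 := congrArg (fun y => f^[k + 1 - j] y) he
      simp only [← iterate_add_apply] at h6
      rw [hz0 (k + 1 - j + j) (by omega)] at h6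
      exact hnz (k + 1 - j + i) (by omega) h6
    have hinj' : ∀ i j, i ≤ k → j ≤ k → f^[i] z = f^[j] z → i = j := by
      intro i j hi hj he
      rcases lt_trichotomy i j with h | h | h
      · exact absurd he (hinj i j h hj)
      · exact h
      · exact absurd he.symm (hinj j i h hi)
    have h := hB' ((Finset.range (k / 2 + 1)).image fun b => f^[2 * b] z)
      ((Finset.range ((k + 1) / 2)).image fun b => f^[2 * b + 1] z) (by
        intro p hp
        obtain ⟨b, hb, rfl⟩ := Finset.mem_image.1 hp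
        rw [Finset.mem_range] at hb
        exact hnz _ (by omega)) (by
        intro p hp
        obtain ⟨b, hb, rfl⟩ := Finset.mem_image.1 hp
        rw [Finset.mem_range] at hb
        exact hnz _ (by omega)) (by
        intro p hp q hq
        obtain ⟨b, hb, rfl⟩ := Finset.mem_image.1 hp
        obtain ⟨b', hb', rfl⟩ := Finset.mem_image.1 hq
        rw [Finset.mem_range] at hb hb'
        rcases lt_or_gt_of_ne (show 2 * b ≠ 2 * b' + 1 by omega) with hlt | hlt
        · exact Or.inr (hPZ _ _ hlt (by omega))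
        · exact Or.inl (hPZ _ _ hlt (by omega)))
    rw [Finset.card_image_of_injOn, Finset.card_image_of_injOn, Finset.card_range,
      Finset.card_range] at h
    · have : k ≤ 2 * B := by omega
      omega
    · intro b hb b' hb' he
      simp only [Finset.coe_range, Set.mem_Iio] at hb hb'
      have := hinj' _ _ (by omega) (by omega) he
      omega
    · intro b hb b' hb' he
      simp only [Finset.coe_range, Set.mem_Iio] at hb hb'
      have := hinj' _ _ (by omega) (by omega) he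
      omega
  · -- tails which end in a cycle
    obtain ⟨L, hL⟩ : ∃ L, L = minimalPeriod f (f^[t + 1] z) := ⟨_, rfl⟩
    have hL0 : 0 < L := by
      rw [hL]
      exact minimalPeriod_pos_of_mem_periodicPts hp
    have hL1 : L ≠ 1 := by
      intro h
      apply hne
      have := isPeriodicPt_minimalPeriod f (f^[t + 1] z)
      rw [← hL, h] at this
      exact this
    have hw0 : f^[t + 1] z ≠ 0 := by
      intro h
      apply hne
      rw [h, hf0]
    have hnz : ∀ i, f^[i] z ≠ 0 := by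
      intro i h0
      have hper : f^[L] (f^[t + 1] z) = f^[t + 1] z := by
        rw [hL]
        exact isPeriodicPt_minimalPeriod f (f^[t + 1] z)
      have hper2 : f^[L * i] (f^[t + 1] z) = f^[t + 1] z := by
        rw [mul_comm]
        exact (show IsPeriodicPt f L _ from hper).const_mul i
      have hi : i ≤ L * i := Nat.le_mul_of_pos_left i hL0
      obtain ⟨j, hj⟩ := Nat.exists_eq_add_of_le hi
      apply hw0
      rw [← hper2, ← iterate_add_apply, show L * i + (t + 1) = (j + (t + 1)) + i by omega,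
        iterate_add_apply, h0, hf0']
    have hLB : L ≤ 2 * B + 1 := by
      have h := c1 ((Finset.range L).image fun i => f^[i] (f^[t + 1] z)) (by
        intro x hx
        obtain ⟨b, hb, rfl⟩ := Finset.mem_image.1 hx
        refine ⟨?_, ?_⟩
        · rw [← iterate_add_apply]
          exact hnz _
        · obtain ⟨N, hN, hN'⟩ := hp
          exact ⟨N, hN, hN'.apply_iterate b⟩)
      rw [Finset.card_image_of_injOn, Finset.card_range] at h
      · exact h
      · rw [Finset.coe_range, hL]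
        exact iterate_injOn_Iio_minimalPeriod
    have hnper : ∀ i, i ≤ t → f^[i] z ∉ periodicPts f := by
      intro i hi hper
      apply hnp
      obtain ⟨j, rfl⟩ := Nat.exists_eq_add_of_le' hi
      rw [iterate_add_apply]
      obtain ⟨N, hN, hN'⟩ := hper
      exact ⟨N, hN, hN'.apply_iterate j⟩
    have hinj : ∀ i j, i < j → i ≤ t → f^[i] z ≠ f^[j] z := by
      intro i j hij hi he
      refine hnper i hi ⟨j - i, by omega, ?_⟩
      rw [IsPeriodicPt, IsFixedPt, ← iterate_add_apply, show j - i + i = j by omega]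
      exact he.symm
    have hinj' : ∀ i j, i ≤ t → j ≤ t → f^[i] z = f^[j] z → i = j := by
      intro i j hi hj he
      rcases lt_trichotomy i j with h | h | h
      · exact absurd he (hinj i j h hi)
      · exact h
      · exact absurd he.symm (hinj j i h hj)
    have hPC : ∀ i j, i < j → j < t → ¬ L ∣ j - i → PR a c n d (f^[i] z) (f^[j] z) := by
      intro i j hij hj hdv
      refine ⟨hnz i, hnz j, Or.inr (Or.inr ⟨j - i, t + 1 - i, L, ?_, ?_, ?_, hL0, hdv⟩)⟩
      · rw [← hf, ← iterate_add_apply, show j - i + i = j by omega]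
      · rw [← hf, ← iterate_succ_apply' f]
        exact hnper _ (by omega)
      · rw [← hf, ← iterate_add_apply, show t + 1 - i + i = t + 1 by omega, hL]
    obtain ⟨s, hs⟩ : ∃ s, s = t / L := ⟨_, rfl⟩
    have hst : L * s ≤ t := by rw [hs]; exact Nat.mul_div_le t L
    have hst' : t < L * (s + 1) := by
      rw [hs]
      exact Nat.lt_mul_div_succ t hL0
    have hidx : ∀ b r, b < s → r < 2 → L * b + r < t := by
      intro b r hb hr
      calc L * b + r < L * b + L := by omega
        _ = L * (b + 1) := by ring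
        _ ≤ L * s := Nat.mul_le_mul_left _ hb
        _ ≤ t := hst
    have hLd : ¬ L ∣ 1 := by
      intro h
      exact hL1 (Nat.dvd_one.1 h)
    have h := hB' ((Finset.range s).image fun b => f^[L * b] z)
      ((Finset.range s).image fun b => f^[L * b + 1] z) (by
        intro p hp
        obtain ⟨b, hb, rfl⟩ := Finset.mem_image.1 hp
        exact hnz _) (by
        intro p hp
        obtain ⟨b, hb, rfl⟩ := Finset.mem_image.1 hp
        exact hnz _) (by
        intro p hp q hq
        obtain ⟨b, hb, rfl⟩ := Finset.mem_image.1 hp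
        obtain ⟨b', hb', rfl⟩ := Finset.mem_image.1 hq
        rw [Finset.mem_range] at hb hb'
        have i1 := hidx b 0 hb (by omega)
        have i2 := hidx b' 1 hb' (by omega)
        rcases lt_trichotomy (L * b) (L * b' + 1) with hlt | heq | hlt
        · refine Or.inl (hPC _ _ hlt i2 fun hdv => hLd ?_)
          have h7 : L ∣ L * b' + 1 := by
            have := (Nat.dvd_add_right (Dvd.intro b rfl : L ∣ L * b)).2 hdv
            rwa [Nat.add_sub_cancel' hlt.le] at this
          exact (Nat.dvd_add_right (Dvd.intro b' rfl : L ∣ L * b')).1 h7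
        · exfalso
          apply hLd
          have h7 : L ∣ L * b' + 1 := heq ▸ Dvd.intro b rfl
          exact (Nat.dvd_add_right (Dvd.intro b' rfl : L ∣ L * b')).1 h7
        · refine Or.inr (hPC _ _ hlt i1 fun hdv => hLd ?_)
          have h7 : L ∣ L * b' + 1 := by
            have h8 : L ∣ (L * b' + 1) + (L * b - (L * b' + 1)) := by
              rw [Nat.add_sub_cancel' hlt.le]
              exact Dvd.intro b rfl
            exact (Nat.dvd_add_left hdv).1 h8
          exact (Nat.dvd_add_right (Dvd.intro b' rfl : L ∣ L * b')).1 h7)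
    rw [Finset.card_image_of_injOn, Finset.card_image_of_injOn, Finset.card_range,
      or_self] at h
    · calc t ≤ L * (s + 1) := hst'.le
        _ ≤ (2 * B + 1) * (B + 1) := Nat.mul_le_mul hLB (by omega)
    · intro b hb b' hb' he
      simp only [Finset.coe_range, Set.mem_Iio] at hb hb'
      have h6 := hinj' _ _ (hidx b 1 hb (by omega)).le (hidx b' 1 hb' (by omega)).le he
      exact Nat.eq_of_mul_eq_mul_left hL0 (Nat.add_right_cancel h6)
    · intro b hb b' hb' he
      simp only [Finset.coe_range, Set.mem_Iio] at hb hb'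
      have h6 := hinj' _ _ (hidx b 0 hb (by omega)).le (hidx b' 0 hb' (by omega)).le he
      exact Nat.eq_of_mul_eq_mul_left hL0 h6

end Pool.Agent.TTM
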