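import Pool.Agent.TTM.TargetsP

set_option autoImplicit false

/-!
# TTM-POSP: positions for `w c > 1`
-/

namespace Pool.Agent.TTM

open Function NumberField IsDedekindDomain WithZero

namespace POSP_

lemma fo_step {K : Type} (f : K → K) (x : K) (h : FoG f x) : FoG f (f x) := by
  refine Set.Finite.subset h ?_
  rintro _ ⟨k, rfl⟩
  exact ⟨k + 1, by simp [Function.iterate_succ_apply]⟩

lemma main (h1 : T_ESCP) (K : Type) [Field K] (w : Valuation K ℤᵐ⁰) (a c : K) (n l : ℕ)
    (hp : HP w a n l) (hco : Nat.Coprime l (n - 1)) (hc : 1 < w c) :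
    ∀ (N : ℕ) (z : K), FoG (GG a c n l) z → z ≠ 0 → w c * w z ^ (l - 1) ≠ 1 →
      log (w c) - log (w z) ≤ N → ∃ R : ℤ, log (w c) = ((n : ℤ) - l) * R ∧
        ((n : ℤ) - 1) ∣ log (w z) - n * R := by
  have hl := hp.hl
  have hn := hp.hn
  have hc0 : c ≠ 0 := by
    rintro rfl
    rw [map_zero] at hc
    exact absurd hc (not_lt.2 zero_le_one)
  have wc0 : w c ≠ 0 := (Valuation.ne_zero_iff w).2 hc0
  have hC : 0 < log (w c) := by
    have := (log_lt_log (x := (1 : ℤᵐ⁰)) one_ne_zero wc0).2 hc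
    rwa [log_one] at this
  have e1 : ((n - l : ℕ) : ℤ) = (n : ℤ) - l := by push_cast [hn.le]; ring
  have e2 : ((l - 1 : ℕ) : ℤ) = (l : ℤ) - 1 := by
    have : 1 ≤ l := by omega
    push_cast [this]
    ring
  have e3 : ((n - 1 : ℕ) : ℤ) = (n : ℤ) - 1 := by
    have : 1 ≤ n := by omega
    push_cast [this]
    ring
  have key : ∀ z : K, FoG (GG a c n l) z → z ≠ 0 → w c * w z ^ (l - 1) ≠ 1 →
      ((n : ℤ) - l) * log (w z) ≤ log (w c) ∧ 0 < log (w c) + ((l : ℤ) - 1) * log (w z) := by
    intro z hz z0 hs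
    have wz0 : w z ≠ 0 := (Valuation.ne_zero_iff w).2 z0
    obtain ⟨-, -, -, h4⟩ := h1 K ℤᵐ⁰ w a c n l hp hc0 z hz z0
    obtain ⟨h5, h6⟩ := h4 hc
    refine ⟨?_, ?_⟩
    · have := (log_le_log (pow_ne_zero _ wz0) wc0).2 h5
      rw [log_pow, nsmul_eq_mul, e1] at this
      exact this
    · have h7 : 1 < w c * w z ^ (l - 1) := lt_of_le_of_ne h6 (Ne.symm hs)
      have := (log_lt_log one_ne_zero (mul_ne_zero wc0 (pow_ne_zero _ wz0))).2 h7
      rw [log_mul wc0 (pow_ne_zero _ wz0), log_pow, nsmul_eq_mul, e2, log_one] at this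
      exact this
  have hcop : IsCoprime ((n : ℤ) - 1) (l : ℤ) := by
    have := (Nat.isCoprime_iff_coprime.2 hco).symm
    rwa [e3] at this
  have hnl : (0 : ℤ) < (n : ℤ) - l := by omega
  intro N
  induction N with
  | zero =>
    intro z hz z0 hs hN
    obtain ⟨k1, k2⟩ := key z hz z0 hs
    push_cast at hN
    have h3 : log (w c) ≤ log (w z) := by linarith
    have h4 : log (w c) = ((n : ℤ) - l) * log (w z) := by
      have : log (w z) ≤ ((n : ℤ) - l) * log (w z) := by nlinarith
      linarith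
    exact ⟨log (w z), h4, ⟨- log (w z), by ring⟩⟩
  | succ N ih =>
    intro z hz z0 hs hN
    obtain ⟨k1, k2⟩ := key z hz z0 hs
    rcases eq_or_lt_of_le k1 with h4 | h4
    · exact ⟨log (w z), h4.symm, ⟨- log (w z), by ring⟩⟩
    · have wz0 : w z ≠ 0 := (Valuation.ne_zero_iff w).2 z0
      have wlt : w (a * z ^ n) < w (c * z ^ l) := by
        rw [map_mul, map_mul, map_pow, map_pow, hp.wa, one_mul]
        refine (log_lt_log (pow_ne_zero _ wz0) (mul_ne_zero wc0 (pow_ne_zero _ wz0))).1 ?_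
        rw [log_mul wc0 (pow_ne_zero _ wz0), log_pow, log_pow, nsmul_eq_mul, nsmul_eq_mul]
        linarith
      have wg : w (GG a c n l z) = w c * w z ^ l := by
        unfold GG
        rw [Valuation.map_add_eq_of_lt_right w wlt, map_mul, map_pow]
      have lg : log (w (GG a c n l z)) = log (w c) + l * log (w z) := by
        rw [wg, log_mul wc0 (pow_ne_zero _ wz0), log_pow, nsmul_eq_mul]
      have wg0 : w (GG a c n l z) ≠ 0 := by
        rw [wg]
        exact mul_ne_zero wc0 (pow_ne_zero _ wz0)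
      have g0 : GG a c n l z ≠ 0 := (Valuation.ne_zero_iff w).1 wg0
      have hs' : w c * w (GG a c n l z) ^ (l - 1) ≠ 1 := by
        intro h
        have h8 := congrArg log h
        rw [log_mul wc0 (pow_ne_zero _ wg0), log_pow, nsmul_eq_mul, e2, log_one, lg] at h8
        have h9 : (l : ℤ) * (log (w c) + ((l : ℤ) - 1) * log (w z)) = 0 := by
          linear_combination h8
        have hl0 : (0 : ℤ) < l := by omega
        have := mul_pos hl0 k2
        omega
      obtain ⟨R, hR1, hR2⟩ := ih (GG a c n l z) (fo_step _ _ hz) g0 hs' (by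
        rw [lg]
        push_cast at hN
        linarith)
      refine ⟨R, hR1, ?_⟩
      obtain ⟨q, hq⟩ := hR2
      refine hcop.dvd_of_dvd_mul_left ⟨q - l * R, ?_⟩
      rw [lg] at hq
      linear_combination hq - hR1

end POSP_

/-- positions for `w c > 1` -/
theorem p_POSP (h1 : T_ESCP) : T_POSP := by
  intro K _ w a c n l hp hco hc z hz z0 hs
  exact POSP_.main h1 K w a c n l hp hco hc (log (w c) - log (w z)).toNat z hz z0 hs
    (Int.self_le_toNat _)

end Pool.Agent.TTM
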