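import Pool.Agent.TTM.TargetsP
import Pool.Agent.TTM.P_SEP

set_option autoImplicit false

/-!
# TTM, target SEPG: the pairs of `PRG` are separated, general function
-/

namespace Pool.Agent.TTM

open Function

namespace SEPG_

theorem fin_zero {K : Type} [Field K] {f : K → K} (hf0 : f 0 = 0) {x : K} {i : ℕ}
    (h : f^[i] x = 0) : FoG f x := by
  refine SEP_.fin_of (T := i) (L := 1) one_pos ?_
  rw [h]
  exact hf0

end SEPG_

open SEP_ SEPG_ in
theorem p_SEPG : T_SEPG := by
  intro K _ f hf0 x y hPR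
  obtain ⟨hx0, hy0, h⟩ := hPR
  rcases h with ⟨hx, hy, hxy⟩ | ⟨i, j, hi1, hi2, hj⟩ | ⟨e, T, L, rfl, -, hm, hL, hd'⟩
  · refine ⟨fin_per hx, fin_per hy, fun k _ _ h1 => hxy (inj_per hx hy h1)⟩
  · refine ⟨fin_zero hf0 hi1, fin_zero hf0 hj, fun k h1 h2 h3 => ?_⟩
    rcases le_or_gt (k + 1) i with hk | hk
    · obtain ⟨m, rfl⟩ := Nat.exists_eq_add_of_le' hk
      rw [iterate_add_apply] at hi1 hi2
      rw [h3] at hi1
      exact hi2 hi1
    · obtain ⟨m, rfl⟩ := Nat.exists_eq_add_of_le' (Nat.lt_succ_iff.1 hk)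
      rw [iterate_add_apply, hi1, iterate_fixed hf0] at h1
      exact h1 rfl
  · have hper : f^[T] x ∈ periodicPts f := by
      rw [← minimalPeriod_pos_iff_mem_periodicPts, hm]
      exact hL
    have hp : IsPeriodicPt f L (f^[T] x) := by
      rw [← hm]
      exact isPeriodicPt_minimalPeriod _ _
    have hfx : FoG f x := fin_of hL hp
    refine ⟨hfx, ?_, fun k _ _ h3 => ?_⟩
    · refine Set.Finite.subset hfx ?_
      rintro _ ⟨k, rfl⟩
      refine ⟨k + e, ?_⟩
      simp only []
      rw [iterate_add_apply]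
    · rw [← iterate_add_apply] at h3
      have h4 : IsPeriodicPt f e (f^[k + 1] (f^[T] x)) := by
        show f^[e] (f^[k + 1] (f^[T] x)) = f^[k + 1] (f^[T] x)
        have e1 : f^[e] (f^[k + 1] (f^[T] x)) = f^[T] (f^[k + 1 + e] x) := by
          rw [← iterate_add_apply, ← iterate_add_apply, ← iterate_add_apply]
          congr 1
          omega
        rw [e1, ← h3, ← iterate_add_apply, ← iterate_add_apply]
        congr 1
        omega
      have h5 := h4.minimalPeriod_dvd
      rw [minimalPeriod_apply_iterate hper, hm] at h5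
      exact hd' h5

end Pool.Agent.TTM
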