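import Pool.Agent.TTM.Targets

set_option autoImplicit false

/-!
# TTM, target ST1: one step at a place where `c` is a unit
-/

namespace Pool.Agent.TTM

open Function

namespace ST1_

variable {K Γ : Type} [Field K] [LinearOrderedCommGroupWithZero Γ]

theorem root_one (w : Valuation K Γ) {ω : K} {n : ℕ} (hn : n ≠ 0) (h : ω ^ n = 1) :
    w ω = 1 := by
  have h1 : w ω ^ n = 1 := by rw [← map_pow, h, map_one]
  rcases lt_trichotomy (w ω) 1 with h2 | h2 | h2
  · exact absurd h1 (pow_lt_one₀ zero_le h2 hn).ne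
  · exact h2
  · exact absurd h1 (one_lt_pow₀ h2 hn).ne'

theorem pow_sub_le (w : Valuation K Γ) {u v : K} (hu : w u = 1) (hv : w v = 1) (k : ℕ) :
    w (u ^ k - v ^ k) ≤ w (u - v) := by
  rw [← (Commute.all u v).mul_geom_sum₂ k, map_mul]
  refine mul_le_of_le_one_right' ?_
  refine w.map_sum_le fun i _ => ?_
  rw [map_mul, map_pow, map_pow, hu, hv, one_pow, one_pow, one_mul]

theorem FF_rot (a c : K) {n d : ℕ} {ω : K} (h : Om n d ω) (y : K) :
    FF a c n d (ω * y) = FF a c n d y := by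
  unfold FF
  rw [mul_pow, mul_pow, h.1, h.2, one_mul, one_mul]

end ST1_

open ST1_ in
theorem p_ST1 : T_ST1 := by
  intro K Γ _ _ w a c n d hW hc x y ω hx hy hω
  have hω1 : w ω = 1 := root_one w (by have := hW.hn; omega) hω.1
  set v : K := ω * y with hv
  have hv1 : w v = 1 := by rw [hv, map_mul, hω1, hy, one_mul]
  have hx0 : x ≠ 0 := by
    rintro rfl
    rw [map_zero] at hx
    exact zero_ne_one hx
  have hv0 : v ≠ 0 := by
    intro h0
    rw [h0, map_zero] at hv1
    exact zero_ne_one hv1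
  rw [← FF_rot a c hω y, ← hv]
  have e : FF a c n d x - FF a c n d v =
      a * (x ^ n - v ^ n) + c * (v ^ d - x ^ d) * ((x ^ d)⁻¹ * (v ^ d)⁻¹) := by
    unfold FF
    field_simp
    ring
  rw [e]
  refine w.map_add_le ?_ ?_
  · rw [map_mul, hW.wa, one_mul]
    exact pow_sub_le w hx hv1 n
  · have h1 : w ((x ^ d)⁻¹ * (v ^ d)⁻¹) = 1 := by
      rw [map_mul, map_inv₀, map_inv₀, map_pow, map_pow, hx, hv1, one_pow, inv_one, one_mul]
    rw [map_mul, map_mul, h1, hc, one_mul, mul_one, w.map_sub_swap]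
    exact pow_sub_le w hx hv1 d

end Pool.Agent.TTM
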