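import Pool.Agent.TTM.TargetsP
import Pool.Agent.TTM.P_ST1

set_option autoImplicit false

/-!
# TTM, target ST1P: one step at a place where `c` is a unit (polynomials)
-/

namespace Pool.Agent.TTM

open Function

theorem ST1P_rot {K : Type} [Field K] (a c : K) {n l : ℕ} {ω : K} (h : Om n l ω) (y : K) :
    GG a c n l (ω * y) = GG a c n l y := by
  unfold GG
  rw [mul_pow, mul_pow, h.1, h.2, one_mul, one_mul]

theorem p_ST1P : T_ST1P := by
  intro K Γ _ _ w a c n l hW hc x y ω hx hy hω
  have hn : n ≠ 0 := by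
    have := hW.hn
    have := hW.hl
    omega
  have hω1 : w ω = 1 := ST1_.root_one w hn hω.1
  have hv1 : w (ω * y) = 1 := by rw [map_mul, hω1, hy, one_mul]
  rw [← ST1P_rot a c hω y]
  have e : GG a c n l x - GG a c n l (ω * y) =
      a * (x ^ n - (ω * y) ^ n) + c * (x ^ l - (ω * y) ^ l) := by
    unfold GG
    ring
  rw [e]
  refine w.map_add_le ?_ ?_
  · rw [map_mul, hW.wa, one_mul]
    exact ST1_.pow_sub_le w hx hv1 n
  · rw [map_mul, hc, one_mul]
    exact ST1_.pow_sub_le w hx hv1 l

end Pool.Agent.TTM
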