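import Pool.Agent.TTM.TargetsP
import Pool.Agent.TTM.P_ST3

set_option autoImplicit false

/-!
# TTM, target ST3P: one step at the turning position, with cancellation, for the polynomials
-/

namespace Pool.Agent.TTM

open Function

namespace ST3P_

variable {K Γ : Type} [Field K] [LinearOrderedCommGroupWithZero Γ] (w : Valuation K Γ)

theorem core {A C ε N D s t : K} {r : Γ} (hr : r ≠ 0) (hA : w A = r) (hC : w C = r)
    (hAC : w (A + C) < r) (hε : w ε < 1) (hD : w D ≤ 1)
    (hND : w (N - D) = 1) (hs : w s ≤ 1) (ht : w t ≤ 1) :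
    w (N * A + D * C + ε * (A * s + C * t)) = r := by
  have hr0 : 0 < r := zero_lt_iff.2 hr
  have h4 : w (A * s) ≤ r := by
    rw [map_mul, hA]
    exact mul_le_of_le_one_right' hs
  have h5 : w (C * t) ≤ r := by
    rw [map_mul, hC]
    exact mul_le_of_le_one_right' ht
  have h6 : w (ε * (A * s + C * t)) < r := by
    rw [map_mul]
    have h7 : w (A * s + C * t) ≤ r := (w.map_add _ _).trans (max_le h4 h5)
    exact (mul_le_mul_right h7 (w ε)).trans_lt (mul_lt_of_lt_one_left hr0 hε)
  have h8 : w (D * (A + C)) < r := by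
    rw [map_mul]
    exact (mul_le_of_le_one_left' hD).trans_lt hAC
  have h9 : w ((N - D) * A) = r := by
    rw [map_mul, hND, one_mul, hA]
  have h10 : w (D * (A + C) + ε * (A * s + C * t)) < w ((N - D) * A) := by
    rw [h9]
    exact (w.map_add _ _).trans_lt (max_lt h8 h6)
  have e : N * A + D * C + ε * (A * s + C * t) =
      (N - D) * A + (D * (A + C) + ε * (A * s + C * t)) := by ring
  rw [e, Valuation.map_add_eq_of_lt_left w h10, h9]

end ST3P_

open ST3_ in
theorem p_ST3P : T_ST3P := by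
  intro K Γ _ _ w a c n l hw hc x y ω hy hyc hf hω hxy
  have hn0 : n ≠ 0 := by have := hw.hn; omega
  have wω : w ω = 1 := by
    have h1 : w ω ^ n = 1 := by
      rw [← map_pow, hω.1, map_one]
    exact (pow_eq_one_iff.1 h1).resolve_right hn0
  -- replace `y` by `z = ω y`
  obtain ⟨z, hz⟩ : ∃ z, z = ω * y := ⟨_, rfl⟩
  have wz : w z = w y := by
    rw [hz, map_mul, wω, one_mul]
  have fz : GG a c n l z = GG a c n l y := by
    unfold GG
    rw [hz, mul_pow, mul_pow, hω.1, hω.2, one_mul, one_mul]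
  rw [← hz] at hxy ⊢
  rw [← wz] at hyc hf hxy ⊢
  rw [← fz] at hf ⊢
  have hρ : w z ≠ 0 := by
    rw [wz]
    exact (Valuation.ne_zero_iff w).2 hy
  have hz0 : z ≠ 0 := (Valuation.ne_zero_iff w).1 hρ
  -- `x = z (1 + ε)`
  obtain ⟨ε, hε⟩ : ∃ ε, ε = (x - z) / z := ⟨_, rfl⟩
  have hx : x = z * (1 + ε) := by
    rw [hε]
    field_simp
    ring
  have wε' : w ε * w z = w (x - z) := by
    rw [← map_mul, hε]
    congr 1
    field_simp
  have wε : w ε < 1 := by
    by_contra hcon
    push Not at hcon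
    have h1 : w z ≤ w ε * w z := le_mul_of_one_le_left' hcon
    rw [wε'] at h1
    exact absurd hxy (not_lt.2 h1)
  obtain ⟨s, hs, es⟩ := expand w wε.le n
  obtain ⟨t, ht, et⟩ := expand w wε.le l
  obtain ⟨A, hA⟩ : ∃ A, A = a * z ^ n := ⟨_, rfl⟩
  obtain ⟨C, hC⟩ : ∃ C, C = c * z ^ l := ⟨_, rfl⟩
  have wA : w A = w z ^ n := by
    rw [hA, map_mul, hw.wa, one_mul, map_pow]
  have wC : w C = w z ^ n := by
    rw [hC, map_mul, map_pow, ← hyc, ← pow_add, Nat.sub_add_cancel hw.hn.le]
  have fz' : GG a c n l z = A + C := by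
    rw [hA, hC]
    rfl
  have hcore := ST3P_.core w (N := (n : K)) (D := (l : K)) (pow_ne_zero n hρ) wA wC
    (by rw [← fz']; exact hf) wε (nat_le w l)
    (by rw [← Nat.cast_sub hw.hn.le]; exact hw.wnl) hs ht
  have key : GG a c n l x - GG a c n l z =
      ε * ((n : K) * A + l * C + ε * (A * s + C * t)) := by
    have e1 : GG a c n l x = A * (1 + ε) ^ n + C * (1 + ε) ^ l := by
      unfold GG
      rw [hx, hA, hC, mul_pow z (1 + ε) n, mul_pow z (1 + ε) l]
      ring
    rw [e1, fz', es, et]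
    ring
  rw [key, map_mul, hcore, ← wε', mul_assoc, ← pow_succ']
  congr 2
  omega

end Pool.Agent.TTM
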