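import Pool.Agent.HMW.AllK
import Pool.Agent.TTM.P_CH2
import Pool.Agent.TTM.P_CNT
import Pool.Agent.TTM.P_CNTP
import Pool.Agent.TTM.P_ESC
import Pool.Agent.TTM.P_ESCP
import Pool.Agent.TTM.P_L1
import Pool.Agent.TTM.P_L1P
import Pool.Agent.TTM.P_L2
import Pool.Agent.TTM.P_L2P
import Pool.Agent.TTM.P_L3
import Pool.Agent.TTM.P_L3P
import Pool.Agent.TTM.P_MUL
import Pool.Agent.TTM.P_MULP
import Pool.Agent.TTM.P_NB
import Pool.Agent.TTM.P_NBP
import Pool.Agent.TTM.P_NST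
import Pool.Agent.TTM.P_POSP
import Pool.Agent.TTM.P_SEP
import Pool.Agent.TTM.P_SEPG
import Pool.Agent.TTM.P_ST1
import Pool.Agent.TTM.P_ST1P
import Pool.Agent.TTM.P_ST2
import Pool.Agent.TTM.P_ST2P
import Pool.Agent.TTM.P_ST3
import Pool.Agent.TTM.P_ST3P
import Pool.Agent.TTM.P_TOT
import Pool.Agent.TTM.P_TOTP

set_option autoImplicit false

/-!
# TTM: assembly of parts 1 and 2
-/

namespace Pool.Agent.TTM

/-! part 1 -/

theorem all_L1 : T_L1 := p_L1 p_ESC p_ST1 p_MUL p_SEP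
theorem all_CH2 : T_CH2 := p_CH2 p_ESC p_ST2
theorem all_L2 : T_L2 := p_L2 p_ESC p_ST2 p_SEP all_CH2
theorem all_L3 : T_L3 := p_L3 p_ESC p_ST3
theorem all_CNT : T_CNT := p_CNT HMW.all_KGU
theorem all_NB : T_NB := p_NB all_L1 all_L2 all_L3 p_SEP all_CNT
theorem all_TOT : T_TOT := p_TOT all_NB

/-! part 2 -/

theorem all_L1P : T_L1P := p_L1P p_ESCP p_ST1P p_MULP p_SEPG
theorem all_L2P : T_L2P := p_L2P p_ST2P p_SEPG
theorem all_POSP : T_POSP := p_POSP p_ESCP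
theorem all_NST : T_NST := p_NST p_ESCP p_SEPG
theorem all_L3P : T_L3P := p_L3P p_ESCP p_ST2P p_ST3P p_SEPG all_L2P all_POSP all_NST
theorem all_CNTP : T_CNTP := p_CNTP HMW.all_KGU
theorem all_NBP : T_NBP := p_NBP p_ESCP all_L1P all_L2P all_L3P p_SEPG all_CNTP
theorem all_TOTP : T_TOTP := p_TOTP all_NBP

end Pool.Agent.TTM
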