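import Mathlib

set_option autoImplicit false

/-!
# TTM (MP_c076ed_nt): the maps `a z ^ n + c z ^ (-d)`: definitions

`FF a c n d z = a z ^ n + c / z ^ d` as a function `K → K`, with the junk value
`FF a c n d 0 = 0`. So `0`
plays the role of the point at infinity (`0` is mapped to infinity and infinity is fixed): a
point `z ≠ 0`
lands at infinity if and only if `(FF a c n d)^[k] z = 0` for some `k`, and the nonzero periodic
points
of `FF` are the periodic points different from infinity.
-/

namespace Pool.Agent.TTM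

open Function

section

variable {K : Type} [Field K]

/-- the map, `0` goes to `0` -/
def FF (a c : K) (n d : ℕ) (z : K) : K := a * z ^ n + c * (z ^ d)⁻¹

/-- finite orbit -/
def Fo (a c : K) (n d : ℕ) (x : K) : Prop :=
  (Set.range fun k : ℕ => (FF a c n d)^[k] x).Finite

/-- as long as both orbits are nonzero they are different in the next step -/
def Sep (a c : K) (n d : ℕ) (x y : K) : Prop :=
  ∀ k : ℕ, (FF a c n d)^[k] x ≠ 0 → (FF a c n d)^[k] y ≠ 0 →
    (FF a c n d)^[k + 1] x ≠ (FF a c n d)^[k + 1] y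

/-- two different periodic points -/
def PP (a c : K) (n d : ℕ) (x y : K) : Prop :=
  x ∈ periodicPts (FF a c n d) ∧ y ∈ periodicPts (FF a c n d) ∧ x ≠ y

/-- `x` reaches `0` before `y` -/
def PZ (a c : K) (n d : ℕ) (x y : K) : Prop :=
  Fo a c n d x ∧ Fo a c n d y ∧ ∃ i : ℕ, (FF a c n d)^[i] x = 0 ∧ (FF a c n d)^[i] y ≠ 0

/-- `y` is the `e`-th image of `x`, the image of `x` is not periodic, the orbit of `x` ends in a
cycle of exact length `L`, and `e` is not a multiple of `L` -/
def PC (a c : K) (n d : ℕ) (x y : K) : Prop :=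
  ∃ e T L : ℕ, y = (FF a c n d)^[e] x ∧ FF a c n d x ∉ periodicPts (FF a c n d) ∧
    minimalPeriod (FF a c n d) ((FF a c n d)^[T] x) = L ∧ 0 < L ∧ ¬ L ∣ e

/-- the pairs which are considered -/
def PR (a c : K) (n d : ℕ) (x y : K) : Prop :=
  x ≠ 0 ∧ y ≠ 0 ∧ (PP a c n d x y ∨ PZ a c n d x y ∨ PC a c n d x y)

variable {Γ : Type} [LinearOrderedCommGroupWithZero Γ]

/-- the place `w` is good for `a`, `n`, `d` -/
structure HW (w : Valuation K Γ) (a : K) (n d : ℕ) : Prop where
  hn : 3 ≤ n
  hd : 2 ≤ d
  wa : w a = 1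
  wn : w (n : K) = 1
  wd : w (d : K) = 1
  wnd : w ((n + d : ℕ) : K) = 1

/-- `ω` is a common root of unity for the exponents -/
def Om (n d : ℕ) (ω : K) : Prop := ω ^ n = 1 ∧ ω ^ d = 1

/-- the conclusion at one place -/
def GP (w : Valuation K Γ) (n : ℕ) (x y ω : K) : Prop :=
  w (x - ω * y) = max (w x) (w y) ∨
    (w x = w y ∧ ∃ j : ℕ, w (x - ω * y) * w x ^ ((n - 1) * j) = w x)

end

/-- the map on the projective line (`none` is the point at infinity) -/
noncomputable def mcMap {K : Type} [Field K] (a c : K) (n d : ℕ) : Option K → Option K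
  | none => none
  | some z => open Classical in if z = 0 then none else some (a * z ^ n + c * (z ^ d)⁻¹)

end Pool.Agent.TTM
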