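import Pool.Agent.TTM.Targets
import Pool.Agent.PDR.PowAll

set_option autoImplicit false

/-!
# FIN: the maps `a z ^ n + c z ^ (-d)` on the projective line
-/

namespace Pool.Agent.TTM

open Function

namespace FIN_

section

variable {K : Type} [Field K]

/-- the point at infinity goes to `0` -/
def psi : Option K → K := fun P => P.getD 0

theorem FF_zero (a c : K) {n d : ℕ} (hn : 1 ≤ n) (hd : 1 ≤ d) : FF a c n d 0 = 0 := by
  unfold FF
  rw [zero_pow (by omega), zero_pow (by omega)]
  simp

theorem semi (a c : K) {n d : ℕ} (hn : 1 ≤ n) (hd : 1 ≤ d) :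
    Semiconj psi (mcMap a c n d) (FF a c n d) := by
  intro P
  rcases P with _ | z
  · simp [mcMap, psi, FF_zero a c hn hd]
  · by_cases hz : z = 0
    · subst hz
      simp [mcMap, psi, FF_zero a c hn hd]
    · simp [mcMap, psi, hz, FF]

theorem iter_none (a c : K) (n d k : ℕ) : (mcMap a c n d)^[k] none = none := by
  induction k with
  | zero => rfl
  | succ k ih => rw [iterate_succ_apply]; exact ih

/-- the three cases on the affine line -/
theorem cases3 (a c : K) {n d : ℕ} (hn : 1 ≤ n) (hd : 1 ≤ d) (z : K) (k m : ℕ) (hm : 0 < m)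
    (h1 : (mcMap a c n d)^[m] ((mcMap a c n d)^[k] (some z)) = (mcMap a c n d)^[k] (some z))
    (h2 : k = 0 ∨ (mcMap a c n d)^[k] (some z) = none ∨
      mcMap a c n d ((mcMap a c n d)^[k] (some z)) ≠ (mcMap a c n d)^[k] (some z)) :
    z ∈ periodicPts (FF a c n d) ∨ (∃ k, (FF a c n d)^[k] z = 0) ∨
      ∃ k, (FF a c n d)^[k] z ∈ periodicPts (FF a c n d) ∧
        FF a c n d ((FF a c n d)^[k] z) ≠ (FF a c n d)^[k] z := by
  have hs := semi a c hn hd
  have hk : psi ((mcMap a c n d)^[k] (some z)) = (FF a c n d)^[k] z :=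
    (hs.iterate_right k) (some z)
  rcases h2 with h2 | h2 | h2
  · subst h2
    left
    refine ⟨m, hm, ?_⟩
    have h3 : psi ((mcMap a c n d)^[m] (some z)) = (FF a c n d)^[m] z :=
      (hs.iterate_right m) (some z)
    have h4 : (mcMap a c n d)^[m] (some z) = some z := h1
    rw [h4] at h3
    exact h3.symm
  · right; left
    refine ⟨k, ?_⟩
    rw [← hk, h2]
    rfl
  · right; right
    refine ⟨k, ?_⟩
    generalize (mcMap a c n d)^[k] (some z) = Q at h1 h2 hk
    rcases Q with _ | y
    · exact absurd rfl h2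
    · have hk' : y = (FF a c n d)^[k] z := hk
      rw [← hk']
      have hy : y ≠ 0 := by
        rintro rfl
        obtain ⟨m', rfl⟩ : ∃ m', m = m' + 1 := ⟨m - 1, by omega⟩
        rw [iterate_succ_apply] at h1
        have h5 : mcMap a c n d (some 0) = none := by simp [mcMap]
        rw [h5, iter_none] at h1
        exact absurd h1 (by simp)
      have h6 : psi ((mcMap a c n d)^[m] (some y)) = (FF a c n d)^[m] y :=
        (hs.iterate_right m) (some y)
      rw [h1] at h6
      refine ⟨⟨m, hm, h6.symm⟩, fun h7 => h2 ?_⟩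
      have h8 : mcMap a c n d (some y) = some (FF a c n d y) := by simp [mcMap, hy, FF]
      rw [h8, h7]

end

end FIN_

/-- FIN -/
theorem p_FIN (h : T_TOT) : T_FIN := by
  intro K _ _ a n d ha hn hd hg
  classical
  obtain ⟨B, hB⟩ := h K a n d ha hn hd hg
  refine ⟨B + 1, fun c hc => ?_⟩
  refine Pool.Agent.PDR.encard_le_of _ _ fun s hs => ?_
  have hinj : Set.InjOn (FIN_.psi (K := K))
      ((s.erase none : Finset (Option K)) : Set (Option K)) := by
    rintro (_ | x) hx (_ | y) hy hxy
    · rfl
    · simp at hx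
    · simp at hy
    · have : x = y := hxy
      rw [this]
  have hcard : s.card ≤ ((s.erase none).image FIN_.psi).card + 1 := by
    rw [Finset.card_image_of_injOn hinj]
    have := Finset.pred_card_le_card_erase (s := s) (a := none)
    omega
  have hS : ∀ z ∈ (s.erase none).image FIN_.psi,
      z ∈ periodicPts (FF a c n d) ∨ (∃ k, (FF a c n d)^[k] z = 0) ∨
      ∃ k, (FF a c n d)^[k] z ∈ periodicPts (FF a c n d) ∧
        FF a c n d ((FF a c n d)^[k] z) ≠ (FF a c n d)^[k] z := by
    intro z hz
    obtain ⟨P, hP, rfl⟩ := Finset.mem_image.1 hz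
    rw [Finset.mem_erase] at hP
    rcases P with _ | y
    · exact absurd rfl hP.1
    · obtain ⟨k, m, hm, h1, h2⟩ := hs _ hP.2
      exact FIN_.cases3 a c (by omega) hd y k m hm h1 h2
  have h3 := hB c hc _ hS
  omega

end Pool.Agent.TTM
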