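import Pool.Agent.TTM.TargetsP

set_option autoImplicit false

/-!
# TTM, block NST: no star after a turning position
-/

namespace Pool.Agent.TTM

open Function

namespace NST_

variable {K Γ : Type} [Field K] [LinearOrderedCommGroupWithZero Γ] {w : Valuation K Γ} {a c : K}
  {n l : ℕ}

/-- a star position is below `1` -/
theorem lt_one (h : HP w a n l) (hc : 1 < w c) {z : K} (hz : w c * w z ^ (l - 1) = 1) :
    0 < w z ∧ w z < 1 := by
  have hl := h.hl
  have hz0 : w z ≠ 0 := by
    intro h0
    rw [h0, zero_pow (by omega), mul_zero] at hz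
    exact zero_ne_one hz
  refine ⟨zero_lt_iff.2 hz0, ?_⟩
  by_contra hcon
  rw [not_lt] at hcon
  have h1 : 1 ≤ w z ^ (l - 1) := one_le_pow₀ hcon
  have h2 : w c ≤ w c * w z ^ (l - 1) := le_mul_of_one_le_right' h1
  rw [hz] at h2
  exact absurd hc (not_lt.2 h2)

/-- a star position stays -/
theorem step (h : HP w a n l) (hc : 1 < w c) {z : K} (hz : w c * w z ^ (l - 1) = 1) :
    w (GG a c n l z) = w z := by
  have hl := h.hl
  have hn := h.hn
  obtain ⟨hz0, hz1⟩ := lt_one h hc hz
  have h1 : w (c * z ^ l) = w z := by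
    rw [map_mul, map_pow]
    have h2 : w z ^ l = w z ^ (l - 1) * w z := by
      rw [← pow_succ]
      congr 1
      omega
    rw [h2, ← mul_assoc, hz, one_mul]
  have h2 : w (a * z ^ n) < w (c * z ^ l) := by
    rw [h1, map_mul, map_pow, h.wa, one_mul]
    calc w z ^ n < w z ^ 1 := pow_lt_pow_right_of_lt_one₀ hz0 hz1 (by omega)
      _ = w z := pow_one _
  unfold GG
  rw [Valuation.map_add_eq_of_lt_right w h2, h1]

/-- all iterates of a star position have the same value -/
theorem iter (h : HP w a n l) (hc : 1 < w c) {z : K} (hz : w c * w z ^ (l - 1) = 1) (m : ℕ) :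
    w ((GG a c n l)^[m] z) = w z := by
  induction m with
  | zero => rfl
  | succ m ih =>
    rw [iterate_succ_apply']
    have h1 : w c * w ((GG a c n l)^[m] z) ^ (l - 1) = 1 := by rw [ih, hz]
    rw [step h hc h1, ih]

/-- a turning position is above `1` -/
theorem turn (h : HP w a n l) (hc : 1 < w c) {z : K} (hz : w z ^ (n - l) = w c) : 1 < w z := by
  by_contra hcon
  rw [not_lt] at hcon
  have h1 : w z ^ (n - l) ≤ 1 := pow_le_one' hcon _
  rw [hz] at h1
  exact absurd hc (not_lt.2 h1)

theorem gg_zero (h : HP w a n l) : GG a c n l 0 = 0 := by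
  have hl := h.hl
  have hn := h.hn
  unfold GG
  rw [zero_pow (by omega), zero_pow (by omega)]
  ring

theorem iter_zero (h : HP w a n l) (m : ℕ) : (GG a c n l)^[m] 0 = 0 := by
  induction m with
  | zero => rfl
  | succ m ih => rw [iterate_succ_apply', ih, gg_zero h]

/-- a point of a cycle after a turning position is not at star -/
theorem per (h : HP w a n l) (hc : 1 < w c) {x : K} (k : ℕ)
    (hx : x ∈ periodicPts (GG a c n l)) (ht : w ((GG a c n l)^[k] x) ^ (n - l) = w c) :
    w c * w ((GG a c n l)^[k + 1] x) ^ (l - 1) ≠ 1 := by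
  intro hs
  obtain ⟨p, hp, hpx⟩ := hx
  have h1 : IsPeriodicPt (GG a c n l) p ((GG a c n l)^[k] x) := hpx.apply_iterate k
  have h2 : (GG a c n l)^[p - 1] ((GG a c n l)^[k + 1] x) = (GG a c n l)^[k] x := by
    rw [← iterate_add_apply]
    have h3 : p - 1 + (k + 1) = p + k := by omega
    rw [h3, iterate_add_apply]
    exact h1
  have h3 := iter h hc hs (p - 1)
  rw [h2] at h3
  have h4 := turn h hc ht
  rw [h3] at h4
  exact absurd h4 (not_lt.2 (lt_one h hc hs).2.le)

/-- a point which reaches `0` is not at star -/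
theorem zer (h : HP w a n l) (hc : 1 < w c) {x : K} (k i : ℕ)
    (hx : (GG a c n l)^[i] x = 0) : w c * w ((GG a c n l)^[k + 1] x) ^ (l - 1) ≠ 1 := by
  intro hs
  have h1 := iter h hc hs i
  rw [← iterate_add_apply, add_comm, iterate_add_apply, hx, iter_zero h, map_zero] at h1
  exact absurd h1 (lt_one h hc hs).1.ne

theorem max_ne (hc : 1 < w c) {u v : Γ} (hu : w c * u ^ (l - 1) ≠ 1)
    (hv : w c * v ^ (l - 1) ≠ 1) : w c * (max u v) ^ (l - 1) ≠ 1 := by
  rcases max_choice u v with h | h
  · rw [h]; exact hu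
  · rw [h]; exact hv

end NST_

open NST_ in
/-- no star after a turning position -/
theorem p_NST (h1 : T_ESCP) (h3 : T_SEPG) : T_NST := by
  intro K Γ _ _ w a c n l h hc x y k hP hx hy
  have hl := h.hl
  have hc0 : c ≠ 0 := by
    rintro rfl
    rw [map_zero] at hc
    exact absurd hc (not_lt.2 zero_le_one)
  obtain ⟨hx0, hy0, hP' | hP' | hP'⟩ := id hP
  · exact max_ne hc (per h hc k hP'.1 hx) (per h hc k hP'.2.1 hy)
  · obtain ⟨i, j, hi, _, hj⟩ := hP'
    exact max_ne hc (zer h hc k i hi) (zer h hc k j hj)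
  · obtain ⟨e, T, L, hye, _, _, _, hLe⟩ := hP'
    have he : 1 ≤ e := by
      rcases Nat.eq_zero_or_pos e with h0 | h0
      · rw [h0] at hLe
        exact absurd (dvd_zero L) hLe
      · exact h0
    have h4 : (GG a c n l)^[k] y = (GG a c n l)^[e - 1] ((GG a c n l)^[k + 1] x) := by
      rw [hye, ← iterate_add_apply, ← iterate_add_apply]
      congr 1
      omega
    have h5 : 1 < w ((GG a c n l)^[k] y) := turn h hc hy
    have h6 : w c * w ((GG a c n l)^[k + 1] x) ^ (l - 1) ≠ 1 := by
      intro hs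
      have h7 := iter h hc hs (e - 1)
      rw [← h4] at h7
      rw [h7] at h5
      exact absurd h5 (not_lt.2 (lt_one h hc hs).2.le)
    have h7 : (GG a c n l)^[k + 1] x ≠ 0 := by
      intro h0
      rw [h0, iter_zero h] at h4
      rw [h4, map_zero] at h5
      exact absurd h5 (not_lt.2 zero_le_one)
    have h8 : FoG (GG a c n l) x := (h3 K (GG a c n l) (gg_zero h) x y hP).1
    have h9 : FoG (GG a c n l) ((GG a c n l)^[k + 1] x) := by
      refine Set.Finite.subset h8 ?_
      rintro _ ⟨m, rfl⟩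
      exact ⟨m + (k + 1), by simp only [iterate_add_apply]⟩
    have h10 := ((h1 K Γ w a c n l h hc0 _ h9 h7).2.2.2 hc).2
    have h11 : 1 < w c * w ((GG a c n l)^[k + 1] x) ^ (l - 1) := lt_of_le_of_ne h10 h6.symm
    have h12 : w c * w ((GG a c n l)^[k + 1] x) ^ (l - 1) ≤
        w c * (max (w ((GG a c n l)^[k + 1] x)) (w ((GG a c n l)^[k + 1] y))) ^ (l - 1) :=
      mul_le_mul_right (pow_le_pow_left₀ zero_le (le_max_left _ _) _) _
    exact (h11.trans_le h12).ne'

end Pool.Agent.TTM
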