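import Pool.Agent.TTM.TargetsQ
import Pool.Agent.TTM.P_ST3
import Pool.Agent.TTM.P_ST3P

set_option autoImplicit false

/-!
# TTM, target ST3E: one step at the turning position, with cancellation, `a` arbitrary
-/

namespace Pool.Agent.TTM

open Function

open ST3_ in
theorem p_ST3E : T_ST3E := by
  intro K Γ _ _ w a c n l hw ha hc x y ω hy hyc hf hω hxy
  have hn0 : n ≠ 0 := by have := hw.hn; omega
  have wω : w ω = 1 := by
    have h1 : w ω ^ n = 1 := by
      rw [← map_pow, hω.1, map_one]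
    exact (pow_eq_one_iff.1 h1).resolve_right hn0
  have wa0 : w a ≠ 0 := (Valuation.ne_zero_iff w).2 ha
  -- replace `y` by `z = ω y`
  obtain ⟨z, hz⟩ : ∃ z, z = ω * y := ⟨_, rfl⟩
  have wz : w z = w y := by
    rw [hz, map_mul, wω, one_mul]
  have fz : GG a c n l z = GG a c n l y := by
    unfold GG
    rw [hz, mul_pow, mul_pow, hω.1, hω.2, one_mul, one_mul]
  rw [← hz] at hxy ⊢
  rw [← wz] at hyc hf hxy ⊢
  rw [← fz] at hf ⊢
  have hρ : w z ≠ 0 := by
    rw [wz]
    exact (Valuation.ne_zero_iff w).2 hy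
  have hz0 : z ≠ 0 := (Valuation.ne_zero_iff w).1 hρ
  -- `x = z (1 + ε)`
  obtain ⟨ε, hε⟩ : ∃ ε, ε = (x - z) / z := ⟨_, rfl⟩
  have hx : x = z * (1 + ε) := by
    rw [hε]
    field_simp
    ring
  have wε' : w ε * w z = w (x - z) := by
    rw [← map_mul, hε]
    congr 1
    field_simp
  have wε : w ε < 1 := by
    by_contra hcon
    push Not at hcon
    have h1 : w z ≤ w ε * w z := le_mul_of_one_le_left' hcon
    rw [wε'] at h1
    exact absurd hxy (not_lt.2 h1)
  obtain ⟨s, hs, es⟩ := expand w wε.le n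
  obtain ⟨t, ht, et⟩ := expand w wε.le l
  obtain ⟨A, hA⟩ : ∃ A, A = a * z ^ n := ⟨_, rfl⟩
  obtain ⟨C, hC⟩ : ∃ C, C = c * z ^ l := ⟨_, rfl⟩
  have wA : w A = w a * w z ^ n := by
    rw [hA, map_mul, map_pow]
  have wC : w C = w a * w z ^ n := by
    rw [hC, map_mul, map_pow, ← hyc, mul_assoc, ← pow_add, Nat.sub_add_cancel hw.hn.le]
  have fz' : GG a c n l z = A + C := by
    rw [hA, hC]
    rfl
  have hcore := ST3P_.core w (N := (n : K)) (D := (l : K))
    (mul_ne_zero wa0 (pow_ne_zero n hρ)) wA wC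
    (by rw [← fz']; exact hf) wε (nat_le w l)
    (by rw [← Nat.cast_sub hw.hn.le]; exact hw.wnp) hs ht
  have key : GG a c n l x - GG a c n l z =
      ε * ((n : K) * A + l * C + ε * (A * s + C * t)) := by
    have e1 : GG a c n l x = A * (1 + ε) ^ n + C * (1 + ε) ^ l := by
      unfold GG
      rw [hx, hA, hC, mul_pow z (1 + ε) n, mul_pow z (1 + ε) l]
      ring
    rw [e1, fz', es, et]
    ring
  rw [key, map_mul, hcore, ← wε', mul_right_comm]

end Pool.Agent.TTM
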