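import Pool.Agent.TTM.Defs
import Pool.Agent.HMW.TargetsK

set_option autoImplicit false

/-!
# TTM (MP_c076ed_nt): the maps `a z ^ n + c z ^ (-d)`: targets (helper65)

THEOREM. `K` number field, `a ∈ K^*`, `n ≥ 6`, `gcd(n, d) ≥ 4`. There is `B` such that for all
`c ∈ K^*` at
most `B` points of the projective line are preperiodic for `a z ^ n + c z ^ (-d)` and (periodic
or end at
infinity or in a cycle of length at least two).

CONVENTIONS. Read `Defs.lean` first (2 minutes). `f = FF a c n d`, `f 0 = 0`. Each target `T_X`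
is to be
proved as `theorem p_X (hypotheses = the targets named in its docstring) : T_X` in the NEW file
`Pool/Agent/TTM/P_X.lean` (import this file), namespace `Pool.Agent.TTM`, helper lemmas in the
sub-namespace `X_`. Write `x_k = f^[k] x`. `w` is a valuation (multiplicative, `w (x + y) ≤ max`).
-/

namespace Pool.Agent.TTM

open Function NumberField IsDedekindDomain

/-! ### one place -/

/-- **ESC** (60 min). Positions of the points with finite orbit. PROOF. (0) `R = {z | 1 < w z,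
w c < w z ^ (n+d)}`: for `z ∈ R`, `w (a z^n) > w (c / z^d)`, so `w (f z) = w z ^ n > w z` and `f
z ∈ R`; hence
`w (z_k)` is strictly increasing and the orbit is infinite: no `x_k` is in `R` (if `Fo x`).
(1) `w c ≤ 1`: so `w x ≤ 1`. (2) `w c = 1`, `w x < 1`:
`w (c / x^d) = (w x)^(-d) > 1 ≥ w (a x^n)`, so
`w (f x) > 1`, `f x ∈ R`. (3) `w c < 1`, `w x ^ (n+d) = w c`, `y = f x ≠ 0`: `w x < 1`,
`w y ≤ w x ^ n`,
`w y ^ (n+d) ≤ w c ^ n < w c`, so `w (f y) = w c / w y ^ d ≥ w x ^ (n+d) / w x ^ (n d) > 1` as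
`n d > n + d`; so `f y ∈ R`. (4) `1 < w c`: if `w x ^ (n+d) > w c` then `x ∈ R`. If
`w x ^ (n+d) < w c` then `w (f x) = w c / w x ^ d` and
`w (f x) ^ (n+d) = w c ^ (n+d) / (w x ^ (n+d)) ^ d > w c ^ n ≥ w c`, so `f x ∈ R`. -/
def T_ESC : Prop := ∀ (K Γ : Type) [Field K] [LinearOrderedCommGroupWithZero Γ]
  (w : Valuation K Γ) (a c : K) (n d : ℕ), HW w a n d → c ≠ 0 → ∀ x : K, Fo a c n d x → x ≠ 0 →
    (w c ≤ 1 → w x ≤ 1) ∧ (w c = 1 → w x = 1) ∧
    (w c < 1 → FF a c n d x ≠ 0 → w x ^ (n + d) ≠ w c) ∧ (1 < w c → w x ^ (n + d) = w c)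

/-- **ST1** (30 min). One step for `w c = 1`. PROOF. `f (ω y) = f y`. For units `u, v`:
`f u - f v = a (u^n - v^n) + c (v^d - u^d) / (u^d v^d)`, and `w (u^k - v^k) ≤ w (u - v)`
(geometric sum,
`Commute.mul_geom_sum₂` or `Pool.Agent.PDP.Si_mul`). Here `v = ω y`, `w ω = 1`. -/
def T_ST1 : Prop := ∀ (K Γ : Type) [Field K] [LinearOrderedCommGroupWithZero Γ]
  (w : Valuation K Γ) (a c : K) (n d : ℕ), HW w a n d → w c = 1 → ∀ x y ω : K, w x = 1 →
    w y = 1 → Om n d ω → w (FF a c n d x - FF a c n d y) ≤ w (x - ω * y)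

/-- **MUL** (45 min). The multiplier argument for `w c = 1`. PROOF.
`S_k(u, v) = ∑_{i<k} u^i v^(k-1-i)`,
`H(u, v) = a u^d v^d S_n(u, v) - c S_d(u, v)`: `(f u - f v) u^d v^d = (u - v) H(u, v)` for
`u, v ≠ 0`. So
`H(x, u) = 0`. As `w (x - u) < 1`, `w (u - z) < 1` and all are units, `w (H(u, z) - H(x, u)) < 1`
(congruences for products, powers and sums: `Pool.Agent.PDR.c_mul`, `c_pow`, `c_sum`, `Si_cong`,
`Si_int` in PDR/Good.lean; note `H(u, z) - H(x, u)`, first arguments `u, x`, second `z, u`). So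
`w (H(u, z)) < 1` and `w (f u - f z) = w (u - z) * w (H(u, z))`. -/
def T_MUL : Prop := ∀ (K Γ : Type) [Field K] [LinearOrderedCommGroupWithZero Γ]
  (w : Valuation K Γ) (a c : K) (n d : ℕ), HW w a n d → w c = 1 → ∀ x u z : K, w x = 1 →
    w u = 1 → w z = 1 → x ≠ u → FF a c n d x = FF a c n d u → w (x - u) < 1 → w (u - z) < 1 →
    u ≠ z → w (FF a c n d u - FF a c n d z) < w (u - z)

/-- **ST2** (60 min). One step away from the turning position. PROOF. `f (ω y) = f y`, `w ω = 1`,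
so let
`ω = 1` (`y` replaced by `ω y`). `x = y (1 + ε)`, `w ε = w (x - y) / w y < 1`. `A = a y^n`,
`C = c / y^d`:
`f x - f y = A ((1+ε)^n - 1) + C ((1+ε)^(-d) - 1)`. `(1+ε)^k - 1 = ε (k + ε * integral)`, so
`w ((1+ε)^k - 1) = w ε` if `w k = 1`; the same for `(1+ε)^(-d) - 1 = -((1+ε)^d - 1) / (1+ε)^d`. If
`w x ^ (n+d) > w c` then `w A > w C`, `w (f x) = w (f y) = w A`, `w (f x - f y) = w A * w ε`. If
`w x ^ (n+d) < w c` then the same with `C`. -/
def T_ST2 : Prop := ∀ (K Γ : Type) [Field K] [LinearOrderedCommGroupWithZero Γ]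
  (w : Valuation K Γ) (a c : K) (n d : ℕ), HW w a n d → c ≠ 0 → ∀ x y ω : K, x ≠ 0 → y ≠ 0 →
    w x = w y → w x ^ (n + d) ≠ w c → Om n d ω → w (x - ω * y) < w x →
    FF a c n d x ≠ 0 ∧ FF a c n d y ≠ 0 ∧ w (FF a c n d x) = w (FF a c n d y) ∧
      w (FF a c n d x - FF a c n d y) * w x = w (x - ω * y) * w (FF a c n d x)

/-- **ST3** (60 min). One step at the turning position, with cancellation. PROOF. As in ST2 let
`ω = 1`,
`x = y (1 + ε)`. `w A = w C = w y ^ n`, `A + C = f y` is smaller than `w y ^ n`.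
`f x - f y = ε (n A - d C + ε * (..))` with `w (..) ≤ w y ^ n`, and
`n A - d C = (n + d) A - d (A + C)`
has `w = w y ^ n`. So `w (f x - f y) = w ε * w y ^ n = w (x - y) * w y ^ (n - 1)`. -/
def T_ST3 : Prop := ∀ (K Γ : Type) [Field K] [LinearOrderedCommGroupWithZero Γ]
  (w : Valuation K Γ) (a c : K) (n d : ℕ), HW w a n d → c ≠ 0 → ∀ x y ω : K, y ≠ 0 →
    w y ^ (n + d) = w c → w (FF a c n d y) < w y ^ n → Om n d ω → w (x - ω * y) < w y →
    w (FF a c n d x - FF a c n d y) = w (x - ω * y) * w y ^ (n - 1)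

/-- **SEP** (45 min). The pairs of `PR` are separated (no valuation). PROOF. `f 0 = 0`
(`1 ≤ n, d`).
PP: periodic points have finite orbits and `f` is injective on them. PZ: if `x_k, y_k ≠ 0` and
`x_(k+1) = y_(k+1)` then `k + 1 ≤ i`, so `x_i = y_i`. PC: `x_(T)` is periodic of exact period
`L`, `L ≥ 2`
(as `L ∤ e`), so no `x_k` is `0`, the orbit of `x` is finite, and `y_k = x_(k+e)`; if
`x_(k+1) = x_(k+1+e)` then `x_(m+e) = x_m` for all `m ≥ k + 1`, also for a large `m` with `x_m`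
in the
cycle, so `L ∣ e`. -/
def T_SEP : Prop := ∀ (K : Type) [Field K] (a c : K) (n d : ℕ), 1 ≤ n → 1 ≤ d → ∀ x y : K,
  PR a c n d x y → Fo a c n d x ∧ Fo a c n d y ∧ Sep a c n d x y

/-- **L3** (60 min; from ESC, ST3). Places with `w c > 1`. PROOF. `ρ = w x = w y` by ESC (4)
(powers are
injective), `ρ > 1`, and `w (x_k) = ρ` as long as `x_k ≠ 0` (finite orbits), the same for `y`.
Assume
`w (x - ω y) * ρ ^ ((n-1) j) ≠ ρ` for all `j`. `x ≠ ω y` (otherwise `f x = f y`). By induction on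
`k`:
`x_k, y_k ≠ 0` and, with `ω_0 = ω`, `ω_k = 1` for `k ≥ 1`,
`w (x_k - ω_k y_k) = w (x - ω y) * ρ ^ ((n-1) k) < ρ`. Step: `w (y_(k+1)) ≤ ρ < ρ ^ n`, so ST3
gives
`w (x_(k+1) - y_(k+1)) = w (x - ω y) * ρ ^ ((n-1)(k+1))`. This is not `ρ`. By `Sep` `x_(k+1)`,
`y_(k+1)` are
different, so one of them is not `0`; if the other one were `0` the distance would be `ρ`. So
both are
not `0` and the distance is `< ρ`. But then `w (x_k - y_k)`, `k ≥ 1`, is strictly increasing,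
and the pairs `(x_k, y_k)` are in a finite set. Contradiction. -/
def T_L3 : Prop := ∀ (K Γ : Type) [Field K] [LinearOrderedCommGroupWithZero Γ]
  (w : Valuation K Γ) (a c : K) (n d : ℕ), HW w a n d → 1 < w c → ∀ x y ω : K, x ≠ 0 → y ≠ 0 →
    Fo a c n d x → Fo a c n d y → Sep a c n d x y → Om n d ω → GP w n x y ω

/-- **CH2** (45 min; from ESC, ST2). The chain for `w c < 1`. PROOF. Induction on `k`;
`x_k, y_k ≠ 0`,
`w x_k = w y_k`, `w (x_k - ω_k y_k) / w x_k = w (x - ω y) / w x < 1` (`ω_0 = ω`, `ω_k = 1` for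
`k ≥ 1`). By `Sep`
one of `x_(k+1)`, `y_(k+1)` is not `0`, so ESC (3) gives `w x_k ^ (n+d) ≠ w c`. Now ST2. -/
def T_CH2 : Prop := ∀ (K Γ : Type) [Field K] [LinearOrderedCommGroupWithZero Γ]
  (w : Valuation K Γ) (a c : K) (n d : ℕ), HW w a n d → c ≠ 0 → w c < 1 → ∀ x y ω : K, x ≠ 0 →
    y ≠ 0 → Fo a c n d x → Fo a c n d y → Sep a c n d x y → Om n d ω → w x = w y →
    w (x - ω * y) < w x → ∀ k : ℕ, (FF a c n d)^[k + 1] x ≠ 0 ∧ (FF a c n d)^[k + 1] y ≠ 0 ∧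
      w ((FF a c n d)^[k + 1] x) = w ((FF a c n d)^[k + 1] y) ∧
      w ((FF a c n d)^[k + 1] x - (FF a c n d)^[k + 1] y) * w x =
        w (x - ω * y) * w ((FF a c n d)^[k + 1] x)

/-- **L2** (75 min; from ESC, ST2, SEP, CH2). Places with `w c < 1`. PROOF. Assume
`w (x - ω y) < max (w x) (w y)` (always `≤`); then `w x = w y`, and CH2 applies (`Fo`, `Sep` by
SEP).
`w (x - ω y) ≠ 0` (otherwise `f x = f y`). PP: for a common period `N` (`x_N = x`, `y_N = y`) the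
chain
gives `w (x - y) = w (x - ω y) < w x`, so `w ((1 - ω) y) < w y`, but `w (1 - ω) = 1`. PZ: `i ≥ 1`
and
`x_i = 0` contradicts the chain. PC: `x' = x_1`. By the chain `w x'_k = w x'_(k+e)` and
`w (x'_k - x'_(k+e)) < w x'_k` for all `k`. Let `z = x'_(L T e)`: it is periodic (`T ≥ 1`, as
`f x` is not
periodic), `w z = w x'`, `w (x' - z) < w x'` (ultrametric inequality), `z ≠ x'`, and `z_T = x'_T`
(both
in the cycle, `L T e` is a multiple of `L`). By induction on `k` with ST2 (`ω = 1`; ESC (3) as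
`x'_(k+1) ≠ 0`: in PC no `x_k` is `0`): `w (x'_k) = w (z_k)`, `w (x'_k - z_k) < w x'_k`,
`x'_k ≠ z_k`. Contradiction for `k = T`. -/
def T_L2 : Prop := ∀ (K Γ : Type) [Field K] [LinearOrderedCommGroupWithZero Γ]
  (w : Valuation K Γ) (a c : K) (n d : ℕ), HW w a n d → c ≠ 0 → w c < 1 → ∀ x y ω : K,
    PR a c n d x y → Om n d ω → w (1 - ω) = 1 → w (x - ω * y) = max (w x) (w y)

/-- **L1** (75 min; from ESC, ST1, MUL, SEP). Places with `w c = 1`. PROOF. By ESC (2) all nonzero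
points with finite orbit are units (`x_k, y_k` with `Fo`). Assume `w (x - ω y) < 1`. ST1:
`w (x_1 - y_1) < 1`
and, as long as `x_k, y_k ≠ 0`, `w (x_(k+1) - y_(k+1)) ≤ w (x_k - y_k) < 1`. PP: common period
`N`:
`w (x - y) = w (x_N - y_N) ≤ w (x_1 - y_1) < 1`, so `w ((1 - ω) y) < 1`, contradiction. PZ: let
`i` be
minimal with `x_i = 0` or `y_i = 0`; exactly one of them is `0` (`PZ` and `f 0 = 0`), so
`w (x_i - y_i) = 1`.
PC: `x' = x_1`, `w (x'_k - x'_(k+e)) < 1` for all `k` (no `x_k` is `0`). `z = x'_(L T e)`: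
periodic,
`w (x' - z) < 1`, `x' ≠ z`, `x'_T = z_T` (see L2). Let `k < T` with `x'_k ≠ z_k`,
`x'_(k+1) = z_(k+1)`;
`X = x'_k`, `U = z_k`, `Z = U_e`. `w (X - U) < 1`, `f X = f U`, `w (U - Z) < 1`, `U ≠ Z`
(`L ∤ e`). MUL:
`w (f U - f Z) < w (U - Z)`. But `U`, `Z` have the common period `L`, so by ST1 (`ω = 1`)
`w (U - Z) ≤ w (f U - f Z)`. -/
def T_L1 : Prop := ∀ (K Γ : Type) [Field K] [LinearOrderedCommGroupWithZero Γ]
  (w : Valuation K Γ) (a c : K) (n d : ℕ), HW w a n d → w c = 1 → ∀ x y ω : K,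
    PR a c n d x y → Om n d ω → w (1 - ω) = 1 → w (x - ω * y) = max (w x) (w y)

/-! ### number fields -/

/-- **CNT** (60 min; from `HMW.T_KGU`). Counting. PROOF. `p_SEL` (HMW/SEL.lean) with `m := n - 1`
and `N`
gives `A`. Let `A'` be `A` times the constants of `Pool.Agent.PDP.two_alg` (see the beginning of
`Pool.Agent.PDP.sym_tail`, PDP/SymTail.lean), `B` from `Pool.Agent.PDP.win_mo` for `A'`,
`M = n - 1`, `ζ`.
Apply it to `P` and `Q' = {ζ q | q ∈ Q}`. For `p ∈ P`, `q ∈ Q`, `s = 1, 3`: the element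
`(p - ζ^s q) / (p - ζ^2 q)` is not `0`, and by GP `log (v (p - ζ^s q))` is
`log (max (v p) (v q))` modulo
`n - 1` for `s = 1, 2, 3`; so it is `a z^(n-1)`. `two_alg` with `x = p`, `y = ζ q`
(`x - 1 y = p - ζ q`, `x - ζ y = p - ζ² q`, `x - ζ² y = p - ζ³ q`). -/
def T_CNT : Prop := ∀ (K : Type) [Field K] [NumberField K] (n m N : ℕ) (ζ : K), 6 ≤ n → 4 ≤ m →
  IsPrimitiveRoot ζ m → N ≠ 0 → ∃ B : ℕ, ∀ P Q : Finset K, (∀ p ∈ P, p ≠ 0) →
    (∀ q ∈ Q, q ≠ 0) → (∀ p ∈ P, ∀ q ∈ Q, ∀ s : ℕ, 1 ≤ s → s ≤ 3 → p - ζ ^ s * q ≠ 0 ∧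
      ∀ v : HeightOneSpectrum (𝓞 K), (N : 𝓞 K) ∉ v.asIdeal →
        GP (v.valuation K) n p q (ζ ^ s)) → P.card ≤ B ∨ Q.card ≤ B

/-- **NB** (75 min; from L1, L2, L3, SEP, CNT). Bounds for periodic points and for the lengths of
tails.
PROOF. `N` = (from `Pool.Agent.PDR.unit_out` for `a`) times `n d (n+d) m`; then
`HW (v.valuation K) a n d` for
all `v ∌ N` (`Pool.Agent.PDP.val_one`), and `v (1 - ζ^s) = 1` for `m ∤ s` (`1 - ζ^s` divides `m`
in the
integers: `∏_{j=1}^{m-1} (1 - ζ^j) = m`; or see the proof of `PDR.GR.rot_const` / use that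
`(1 - ω)` times an integral element is `m`: `∑_{j<m} (ω^j - 1) = -m` is divisible by `ω - 1`).
`Om n d (ζ^s)`:
`m ∣ n`, `m ∣ d`. So for `PR x y` GP holds for `(x, y, ζ^s)` and `(x, y, ζ^(-s))`, `s = 1, 2, 3`
(cases
`v c < 1`, `= 1`, `> 1`), and `GP w n x y ω ↔ GP w n y x ω⁻¹` (`w ω = 1`). `x - ζ^s y ≠ 0`:
otherwise
`f x = f y`, against `Sep` for `k = 0`. `B₀` from CNT.
(1) `S`: split it into two parts of sizes `⌊#S/2⌋`, `⌈#S/2⌉`; pairs PP. So `#S ≤ 2 B₀ + 1`.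
(2) `z_0, ..., z_k` are different and not `0`; `P = {z_i | i even}`, `Q = {z_i | i odd}`; for
`i < j` the pair
`(z_j, z_i)` is in PZ. (3) `P = {z_i | i < t, L ∣ i}`, `Q = {z_i | i < t, L ∣ i - 1}`; for
`i < j` of
different classes modulo `L` the pair `(z_i, z_j)` is in PC (`z_(i+1)` is not periodic). So
`t ≤ (B₀ + 1) L`, and `L ≤ 2 B₀ + 1` by (1). -/
def T_NB : Prop := ∀ (K : Type) [Field K] [NumberField K] (a : K) (n d m : ℕ) (ζ : K), a ≠ 0 →
  6 ≤ n → 4 ≤ m → m ∣ n → m ∣ d → 1 ≤ d → IsPrimitiveRoot ζ m → ∃ B : ℕ, ∀ c : K, c ≠ 0 →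
    (∀ S : Finset K, (∀ x ∈ S, x ≠ 0 ∧ x ∈ periodicPts (FF a c n d)) → S.card ≤ B) ∧
    (∀ (z : K) (k : ℕ), (FF a c n d)^[k] z ≠ 0 → (FF a c n d)^[k + 1] z = 0 → k ≤ B) ∧
    ∀ (z : K) (t : ℕ), (FF a c n d)^[t] z ∉ periodicPts (FF a c n d) →
      (FF a c n d)^[t + 1] z ∈ periodicPts (FF a c n d) →
      FF a c n d ((FF a c n d)^[t + 1] z) ≠ (FF a c n d)^[t + 1] z → t ≤ B

/-- **TOT** (60 min; from NB). The number of points over `K`. PROOF. `L' = CyclotomicField m K`,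
`m = gcd n d` (as in `PDR.neg_count`, PDR/Neg4.lean, lines 190 ff.), `φ : K → L'`;
`φ (f z) = f (φ z)` for
`FF (φ a) (φ c) n d`. NB for `L'`, `φ a` gives `B`, the same statements hold for `K` with the
same `B`. Let
`R` be the set of the nonzero periodic points and `0` (at most `B + 1` points). Every `z` of the
set
has `f^[B+2] z ∈ R`: periodic: clear; `f^[k] z = 0`: by (2) `f^[B+1] z = 0`; if it lands in a
cycle of
length at least two and is not periodic: by (3) `f^[B+1] z` is periodic. Every `y` has at most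
`n + d + 1` preimages under `f` (`z = 0` or `a z^(n+d) - y z^d + c = 0`, a polynomial of degree
`n + d`, `Polynomial.card_roots'`). So at most `(B + 1) (n + d + 1)^(B+2)` points. -/
def T_TOT : Prop := ∀ (K : Type) [Field K] [NumberField K] (a : K) (n d : ℕ), a ≠ 0 → 6 ≤ n →
  1 ≤ d → 4 ≤ Nat.gcd n d → ∃ B : ℕ, ∀ c : K, c ≠ 0 →
    ∀ S : Finset K, (∀ z ∈ S, z ∈ periodicPts (FF a c n d) ∨ (∃ k, (FF a c n d)^[k] z = 0) ∨
      ∃ k, (FF a c n d)^[k] z ∈ periodicPts (FF a c n d) ∧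
        FF a c n d ((FF a c n d)^[k] z) ≠ (FF a c n d)^[k] z) → S.card ≤ B

/-- **FIN** (45 min; from TOT). The projective line. PROOF. `g = mcMap a c n d`.
`ψ : Option K → K`,
`none ↦ 0`, `some z ↦ z`: `ψ (g P) = f (ψ P)`, so `ψ (g^[k] P) = f^[k] (ψ P)`, and `ψ Q = 0` iff
`Q = none` or `Q = some 0`. For `P` in the set with `P ≠ none`, `P = some z`: `z` is in the set of
TOT: if `g^[k] P = none` then `f^[k] z = 0`; if `g^[k] P` is periodic with `g^[k+1] P ≠ g^[k] P`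
then it is
`some y` with `y ≠ 0` (else it would go to `none` and stay there) and `y` is periodic for `f` and
`f y ≠ y`; if `k = 0` the same without `f y ≠ y`. `Pool.Agent.PDR.encard_le_of`
(PDR/PowAll.lean). -/
def T_FIN : Prop := ∀ (K : Type) [Field K] [NumberField K] (a : K) (n d : ℕ), a ≠ 0 → 6 ≤ n →
  1 ≤ d → 4 ≤ Nat.gcd n d → ∃ B : ℕ, ∀ c : K, c ≠ 0 →
    {P : Option K | ∃ k m : ℕ, 0 < m ∧
      (mcMap a c n d)^[m] ((mcMap a c n d)^[k] P) = (mcMap a c n d)^[k] P ∧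
      (k = 0 ∨ (mcMap a c n d)^[k] P = none ∨
        mcMap a c n d ((mcMap a c n d)^[k] P) ≠ (mcMap a c n d)^[k] P)}.encard ≤ B

end Pool.Agent.TTM
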