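import Pool.Agent.TTM.Targets

set_option autoImplicit false

/-!
# TTM (MP_c076ed_nt), second part: the polynomials `a z ^ n + c z ^ l`: targets (helper65)

THEOREM. `K` number field, `a ∈ K^*`, `n ≥ 6`, `2 ≤ l < n`, `gcd(n, l) ≥ 4`, `gcd(l, n - 1) = 1`.
There is
`B` such that for all `c ∈ K^*` at most `B` points of `K` are preperiodic for `a z ^ n + c z ^ l`
and
(periodic or end at `0` or in a cycle of length at least two).

CONVENTIONS. Same proof as for `a z ^ n + c z ^ (-d)` (`Defs.lean`, `Targets.lean`; all blocks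
are landed
as `Pool/Agent/TTM/P_X.lean`), only the places with `w c > 1` (L3P, POSP) are more complicated.
Each
target `T_X` is to be proved as `theorem
p_X (hypotheses = the targets named in its docstring) : T_X` in
the NEW file `Pool/Agent/TTM/P_X.lean` (import this file and what you need), namespace
`Pool.Agent.TTM`, helper lemmas in `X_`. `g = GG a c n l`, `g 0 = 0`, `x_k = g^[k] x`.
-/

namespace Pool.Agent.TTM

open Function NumberField IsDedekindDomain WithZero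

/-! ### definitions -/

section

variable {K : Type} [Field K]

/-- the polynomial -/
def GG (a c : K) (n l : ℕ) (z : K) : K := a * z ^ n + c * z ^ l

/-- finite orbit -/
def FoG (f : K → K) (x : K) : Prop := (Set.range fun k : ℕ => f^[k] x).Finite

/-- as long as both orbits are nonzero they are different in the next step -/
def SepG (f : K → K) (x y : K) : Prop :=
  ∀ k : ℕ, f^[k] x ≠ 0 → f^[k] y ≠ 0 → f^[k + 1] x ≠ f^[k + 1] y

/-- two different periodic points -/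
def PPG (f : K → K) (x y : K) : Prop := x ∈ periodicPts f ∧ y ∈ periodicPts f ∧ x ≠ y

/-- both reach `0`, `x` before `y` -/
def PZG (f : K → K) (x y : K) : Prop :=
  ∃ i j : ℕ, f^[i] x = 0 ∧ f^[i] y ≠ 0 ∧ f^[j] y = 0

/-- `y` is the `e`-th image of `x`, the image of `x` is not periodic, the orbit of `x` ends in a
cycle of exact length `L`, and `e` is not a multiple of `L` -/
def PCG (f : K → K) (x y : K) : Prop :=
  ∃ e T L : ℕ, y = f^[e] x ∧ f x ∉ periodicPts f ∧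
    minimalPeriod f (f^[T] x) = L ∧ 0 < L ∧ ¬ L ∣ e

/-- the pairs which are considered -/
def PRG (f : K → K) (x y : K) : Prop := x ≠ 0 ∧ y ≠ 0 ∧ (PPG f x y ∨ PZG f x y ∨ PCG f x y)

/-- the place `w` is good for `a`, `n`, `l` -/
structure HP {Γ : Type} [LinearOrderedCommGroupWithZero Γ] (w : Valuation K Γ) (a : K)
    (n l : ℕ) : Prop where
  hl : 2 ≤ l
  hn : l < n
  wa : w a = 1
  wn : w (n : K) = 1
  wl : w (l : K) = 1
  wnl : w ((n - l : ℕ) : K) = 1

/-- the conclusion at one place -/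
def GPP (w : Valuation K ℤᵐ⁰) (n : ℕ) (x y ω : K) : Prop :=
  ((n : ℤ) - 1) ∣ log (w (x - ω * y)) - log (max (w x) (w y))

end

/-! ### one place -/

/-- **SEPG** (30 min). As `p_SEP` for a general function with `f 0 = 0` (`PZG` gives the finite
orbits). -/
def T_SEPG : Prop := ∀ (K : Type) [Field K] (f : K → K), f 0 = 0 → ∀ x y : K,
  PRG f x y → FoG f x ∧ FoG f y ∧ SepG f x y

/-- **ESCP** (45 min; template `P_ESC.lean`). Positions. PROOF. (0) If `1 < w z` and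
`w c < w z ^ (n-l)`
then `w (g z) = w z ^ n > w z`, again in this set: infinite orbit. (1) So `w c ≤ 1` gives
`w x ≤ 1` and
`1 < w c` gives `w x ^ (n-l) ≤ w c`. (2) If `z ≠ 0`, `w z ^ (n-l) < w c` and
`w c * w z ^ (l-1) < 1` then
`w (g z) = w c * w z ^ l < w z`, `g z ≠ 0`, again in this set: infinite orbit. So `1 < w c` gives
`1 ≤ w c * w x ^ (l-1)`, and `w c = 1` gives `w x = 1`. (3) `w c < 1`, `w x ^ (n-l) = w c`,
`y = g x ≠ 0`:
`w x < 1`, `w y ≤ w x ^ n`, so `w y ^ (n-l) ≤ w c ^ n < w c` and `w c * w y ^ (l-1) < 1`: by (2)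
infinite
orbit. -/
def T_ESCP : Prop := ∀ (K Γ : Type) [Field K] [LinearOrderedCommGroupWithZero Γ]
  (w : Valuation K Γ) (a c : K) (n l : ℕ), HP w a n l → c ≠ 0 → ∀ x : K, FoG (GG a c n l) x →
    x ≠ 0 → (w c ≤ 1 → w x ≤ 1) ∧ (w c = 1 → w x = 1) ∧
    (w c < 1 → GG a c n l x ≠ 0 → w x ^ (n - l) ≠ w c) ∧
    (1 < w c → w x ^ (n - l) ≤ w c ∧ 1 ≤ w c * w x ^ (l - 1))

/-- **ST1P** (20 min; template `P_ST1.lean`). -/
def T_ST1P : Prop := ∀ (K Γ : Type) [Field K] [LinearOrderedCommGroupWithZero Γ]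
  (w : Valuation K Γ) (a c : K) (n l : ℕ), HP w a n l → w c = 1 → ∀ x y ω : K, w x = 1 →
    w y = 1 → Om n l ω → w (GG a c n l x - GG a c n l y) ≤ w (x - ω * y)

/-- **MULP** (20 min; template `P_MUL.lean`). `g u - g v = (u - v) H(u, v)`,
`H = a S_n(u, v) + c S_l(u, v)`. -/
def T_MULP : Prop := ∀ (K Γ : Type) [Field K] [LinearOrderedCommGroupWithZero Γ]
  (w : Valuation K Γ) (a c : K) (n l : ℕ), HP w a n l → w c = 1 → ∀ x u z : K, w x = 1 →
    w u = 1 → w z = 1 → x ≠ u → GG a c n l x = GG a c n l u → w (x - u) < 1 → w (u - z) < 1 →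
    u ≠ z → w (GG a c n l u - GG a c n l z) < w (u - z)

/-- **ST2P** (30 min; template `P_ST2.lean`). -/
def T_ST2P : Prop := ∀ (K Γ : Type) [Field K] [LinearOrderedCommGroupWithZero Γ]
  (w : Valuation K Γ) (a c : K) (n l : ℕ), HP w a n l → c ≠ 0 → ∀ x y ω : K, x ≠ 0 → y ≠ 0 →
    w x = w y → w x ^ (n - l) ≠ w c → Om n l ω → w (x - ω * y) < w x →
    GG a c n l x ≠ 0 ∧ GG a c n l y ≠ 0 ∧ w (GG a c n l x) = w (GG a c n l y) ∧
      w (GG a c n l x - GG a c n l y) * w x = w (x - ω * y) * w (GG a c n l x)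

/-- **ST3P** (40 min; template `P_ST3.lean` or `P_ST2.lean`). `A = a y^n`, `C = c y^l`,
`x = y (1 + ε)`:
`g x - g y = ε (n A + l C + ε * (..))`, `n A + l C = (n - l) A + l (A + C)`, `A + C = g y`. -/
def T_ST3P : Prop := ∀ (K Γ : Type) [Field K] [LinearOrderedCommGroupWithZero Γ]
  (w : Valuation K Γ) (a c : K) (n l : ℕ), HP w a n l → c ≠ 0 → ∀ x y ω : K, y ≠ 0 →
    w y ^ (n - l) = w c → w (GG a c n l y) < w y ^ n → Om n l ω → w (x - ω * y) < w y →
    w (GG a c n l x - GG a c n l y) = w (x - ω * y) * w y ^ (n - 1)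

/-- **L2P** (60 min; from ST2P, SEPG; template `P_CH2.lean`, `P_L2.lean`). Orbits without turning
position. The hypothesis on the orbits replaces ESC (3). -/
def T_L2P : Prop := ∀ (K Γ : Type) [Field K] [LinearOrderedCommGroupWithZero Γ]
  (w : Valuation K Γ) (a c : K) (n l : ℕ), HP w a n l → c ≠ 0 → ∀ x y ω : K,
    PRG (GG a c n l) x y → Om n l ω → w (1 - ω) = 1 →
    (∀ k : ℕ, (GG a c n l)^[k + 1] x ≠ 0 → w ((GG a c n l)^[k] x) ^ (n - l) ≠ w c) →
    (∀ k : ℕ, (GG a c n l)^[k + 1] y ≠ 0 → w ((GG a c n l)^[k] y) ^ (n - l) ≠ w c) →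
    w (x - ω * y) = max (w x) (w y)

/-- **L1P** (45 min; from ESCP, ST1P, MULP, SEPG; template `P_L1.lean`). -/
def T_L1P : Prop := ∀ (K Γ : Type) [Field K] [LinearOrderedCommGroupWithZero Γ]
  (w : Valuation K Γ) (a c : K) (n l : ℕ), HP w a n l → w c = 1 → ∀ x y ω : K,
    PRG (GG a c n l) x y → Om n l ω → w (1 - ω) = 1 → w (x - ω * y) = max (w x) (w y)

/-- **POSP** (60 min; from ESCP). Positions for `w c > 1`. PROOF. Strong induction on
`M - log (w z)`, where `M` bounds `log (w u)` for `w u ^ (n-l) ≤ w c`. By ESCP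
`w z ^ (n-l) ≤ w c` and
`1 < w c * w z ^ (l-1)`. If `w z ^ (n-l) = w c`: `R = log (w z)`, `log (w z) - n R = -(n-1) R`.
If `<`: `u = g z`
has `w u = w c * w z ^ l > w z`, `u ≠ 0`, finite orbit and `w c * w u ^ (l-1) > 1`; induction
gives `R` with
`log (w c) = (n-l) R` and `(n-1) ∣ log (w u) - n R`. `log (w u) = (n-l) R + l log (w z)`, so
`l (log (w z) - n R) = (log (w u) - n R) - l (n-1) R` is divisible by `n - 1`, which is prime to
`l`. -/
def T_POSP : Prop := ∀ (K : Type) [Field K] (w : Valuation K ℤᵐ⁰) (a c : K) (n l : ℕ),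
  HP w a n l → Nat.Coprime l (n - 1) → 1 < w c → ∀ z : K, FoG (GG a c n l) z → z ≠ 0 →
    w c * w z ^ (l - 1) ≠ 1 → ∃ R : ℤ, log (w c) = ((n : ℤ) - l) * R ∧
      ((n : ℤ) - 1) ∣ log (w z) - n * R

/-- **NST** (45 min; from ESCP, SEPG). After a turning position the larger of the two points is
not at the
fixed position `w c * w z ^ (l-1) = 1` (call it star). PROOF. `1 < w c`. If `z ≠ 0` has a finite
orbit and
is at star then `w (g z) = w z` and `g z` is at star (`w z < 1`, so `w z ^ (n-l) < w c`): all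
`z_k` are at star
(not `0`, not turning: turning is `w z > 1`). PPG: `x_(k+1)` is periodic, its orbit contains
`x_k`, which is
turning; so it is not at star, the same for `y`. PZG: a point at star never reaches `0`. PCG:
`y_k = x_(k+e)`, `e ≥ 1`, is turning, so `x_(k+1)` is not at star; by ESCP
`w c * w x_(k+1) ^ (l-1) > 1`
(`x_(k+1) ≠ 0`, because `y_k ≠ 0`), so the maximum is above star. -/
def T_NST : Prop := ∀ (K Γ : Type) [Field K] [LinearOrderedCommGroupWithZero Γ]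
  (w : Valuation K Γ) (a c : K) (n l : ℕ), HP w a n l → 1 < w c → ∀ (x y : K) (k : ℕ),
    PRG (GG a c n l) x y → w ((GG a c n l)^[k] x) ^ (n - l) = w c →
    w ((GG a c n l)^[k] y) ^ (n - l) = w c →
    w c * (max (w ((GG a c n l)^[k + 1] x)) (w ((GG a c n l)^[k + 1] y))) ^ (l - 1) ≠ 1

/-- **L3P** (90 min; from ESCP, ST2P, ST3P, SEPG, L2P, POSP, NST). Places with `w c > 1`. PROOF.
Let
`w (x - ω y) < max (w x) (w y)` (otherwise clear); then `w x = w y`. (A) If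
`w c * w x ^ (l-1) = 1`: both
orbits stay at this position (see NST), no turning position, L2P: contradiction. (B) Otherwise, by
ESCP, `w c * w x ^ (l-1) > 1`. Assume `(n-1) ∤ log (w (x - ω y)) - log (w x)`. By induction on `k`
(`ω_0 = ω`, `ω_k = 1` for `k ≥ 1`, `D_k = log (w (x_k - ω_k y_k)) - log (w x_k)`): `x_k, y_k ≠ 0`,
`w x_k = w y_k`, `w c * w x_k ^ (l-1) > 1`, `D_k < 0`, `(n-1) ∤ D_k`. Step,
`w x_k ^ (n-l) < w c`: ST2P gives
`D_(k+1) = D_k` and `w x_(k+1) = w c * w x_k ^ l > w x_k`. Step, `w x_k ^ (n-l) = w c`,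
`ρ = w x_k > 1`: the
positions of `x_(k+1)`, `y_(k+1)` are at most `ρ < ρ ^ n` (ESCP), ST3P:
`w (x_(k+1) - y_(k+1)) = w (x_k - ω_k y_k) * ρ ^ (n-1)`. By `SepG` `x_(k+1) ≠ y_(k+1)`; `μ` = the
larger of
`w x_(k+1)`, `w y_(k+1)`, not at star by NST, so POSP gives `(n-1) ∣ log μ - n R`, `R = log ρ` (as
`(n-l) R = log (w c)`). If `w (x_(k+1) - y_(k+1)) = μ` then `D_k = log μ - n R`, contradiction.
So `< μ`: both
are not `0`, `w x_(k+1) = w y_(k+1) = μ`, `D_(k+1) = D_k + n R - log μ > D_k` (`μ ≤ ρ`, `n ≥ 2`),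
not
divisible. Finally `(D_k, log (w x_k))` is strictly increasing for the lexicographic order,
`k ≥ 1`, so
`(x_k, y_k)` are infinitely many pairs: contradiction. -/
def T_L3P : Prop := ∀ (K : Type) [Field K] (w : Valuation K ℤᵐ⁰) (a c : K) (n l : ℕ),
  HP w a n l → Nat.Coprime l (n - 1) → 1 < w c → ∀ x y ω : K, PRG (GG a c n l) x y →
    Om n l ω → w (1 - ω) = 1 → GPP w n x y ω

/-! ### number fields -/

/-- **CNTP** (20 min; from `HMW.T_KGU`; template `P_CNT.lean`). -/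
def T_CNTP : Prop := ∀ (K : Type) [Field K] [NumberField K] (n m N : ℕ) (ζ : K), 6 ≤ n → 4 ≤ m →
  IsPrimitiveRoot ζ m → N ≠ 0 → ∃ B : ℕ, ∀ P Q : Finset K, (∀ p ∈ P, p ≠ 0) →
    (∀ q ∈ Q, q ≠ 0) → (∀ p ∈ P, ∀ q ∈ Q, ∀ s : ℕ, 1 ≤ s → s ≤ 3 → p - ζ ^ s * q ≠ 0 ∧
      ∀ v : HeightOneSpectrum (𝓞 K), (N : 𝓞 K) ∉ v.asIdeal →
        GPP (v.valuation K) n p q (ζ ^ s)) → P.card ≤ B ∨ Q.card ≤ B

/-- **NBP** (60 min; from ESCP, L1P, L2P, L3P, SEPG, CNTP, `HMW.T_KGU`; template `P_NB.lean`). For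
`v c < 1` the hypothesis of L2P on the orbits is ESCP (3). -/
def T_NBP : Prop := ∀ (K : Type) [Field K] [NumberField K] (a : K) (n l m : ℕ) (ζ : K), a ≠ 0 →
  6 ≤ n → 4 ≤ m → m ∣ n → m ∣ l → 1 ≤ l → l < n → Nat.Coprime l (n - 1) →
  IsPrimitiveRoot ζ m → ∃ B : ℕ, ∀ c : K, c ≠ 0 →
    (∀ S : Finset K, (∀ x ∈ S, x ≠ 0 ∧ x ∈ periodicPts (GG a c n l)) → S.card ≤ B) ∧
    (∀ (z : K) (k : ℕ), (GG a c n l)^[k] z ≠ 0 → (GG a c n l)^[k + 1] z = 0 → k ≤ B) ∧
    ∀ (z : K) (t : ℕ), (GG a c n l)^[t] z ∉ periodicPts (GG a c n l) →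
      (GG a c n l)^[t + 1] z ∈ periodicPts (GG a c n l) →
      GG a c n l ((GG a c n l)^[t + 1] z) ≠ (GG a c n l)^[t + 1] z → t ≤ B

/-- **TOTP** (30 min; from NBP; template `P_TOT.lean`). -/
def T_TOTP : Prop := ∀ (K : Type) [Field K] [NumberField K] (a : K) (n l : ℕ), a ≠ 0 → 6 ≤ n →
  1 ≤ l → l < n → 4 ≤ Nat.gcd n l → Nat.Coprime l (n - 1) → ∃ B : ℕ, ∀ c : K, c ≠ 0 →
    ∀ S : Finset K, (∀ z ∈ S, z ∈ periodicPts (GG a c n l) ∨ (∃ k, (GG a c n l)^[k] z = 0) ∨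
      ∃ k, (GG a c n l)^[k] z ∈ periodicPts (GG a c n l) ∧
        GG a c n l ((GG a c n l)^[k] z) ≠ (GG a c n l)^[k] z) → S.card ≤ B

end Pool.Agent.TTM
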