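import Pool.Agent.TTM.All

set_option autoImplicit false

/-!
# TTM: preimages of fixed points, by a twist

Let `η` be a root of unity of order `|k - l|`. Then `f (η z) = η ^ k * f z` for
`f z = a z ^ k + c z ^ l`, so the orbit of a point `x` under `F = η f` differs from its orbit under
`f` by the factors `η ^ (1 + k + .. + k ^ (j - 1))`. If no power of `k` is divisible by `k - l`, a
fixed point of `f` is moved by `F` to a cycle of length at least two. So the preimages of fixed
points of `f` are preimages of longer cycles of `F`, which is a map of the same type over the field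
with the roots of unity. Hence all preperiodic points can be counted.
-/

namespace Pool.Agent.TTM

open Function

namespace Twist_

/-- the exponents `1 + k + .. + k ^ (j - 1)` -/
def ex (k : ℤ) : ℕ → ℤ
  | 0 => 0
  | j + 1 => 1 + k * ex k j

lemma ex_sub (k : ℤ) (j : ℕ) : ex k (j + 1) - ex k j = k ^ j := by
  induction j with
  | zero => simp [ex]
  | succ j ih =>
    have h1 : ex k (j + 1 + 1) = 1 + k * ex k (j + 1) := rfl
    have h2 : ex k (j + 1) = 1 + k * ex k j := rfl
    rw [h1, pow_succ, ← ih]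
    rw [h2]
    ring

lemma ex_add (k N : ℤ) (x y t : ℕ) (h : N ∣ ex k y - ex k x) :
    N ∣ ex k (y + t) - ex k (x + t) := by
  induction t with
  | zero => exact h
  | succ t ih =>
    have h1 : ex k (y + (t + 1)) - ex k (x + (t + 1)) = k * (ex k (y + t) - ex k (x + t)) := by
      have h2 : ex k (y + (t + 1)) = 1 + k * ex k (y + t) := rfl
      have h3 : ex k (x + (t + 1)) = 1 + k * ex k (x + t) := rfl
      rw [h2, h3]
      ring
    rw [h1]
    exact ih.mul_left k

section

variable {K L : Type} [Field K] [Field L]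

/-- multiplication by `u` on the projective line -/
def act (u : L) (P : Option L) : Option L := P.map fun z => u * z

/-- the twisted map -/
lemma two_act {a c η : L} {k l : ℤ} (hp : 0 < k ∨ 0 < l) {u : L} (hu0 : u ≠ 0)
    (hu : u ^ k = u ^ l) (P : Option L) :
    twoMap (η * a) (η * c) k l (act u P) = act (η * u ^ k) (twoMap a c k l P) := by
  cases P with
  | none =>
    unfold act twoMap
    simp [hp]
  | some z =>
    by_cases h : z = 0 ∧ (k < 0 ∨ l < 0)
    · have h' : u * z = 0 ∧ (k < 0 ∨ l < 0) := ⟨by rw [h.1, mul_zero], h.2⟩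
      unfold act twoMap
      simp only [Option.map_some]
      rw [if_pos h', if_pos h, Option.map_none]
    · have h' : ¬ (u * z = 0 ∧ (k < 0 ∨ l < 0)) := by
        rintro ⟨h1, h2⟩
        exact h ⟨(mul_eq_zero.1 h1).resolve_left hu0, h2⟩
      unfold act twoMap
      simp only [Option.map_some]
      rw [if_neg h', if_neg h, Option.map_some, mul_zpow, mul_zpow, ← hu]
      congr 1
      ring

lemma it_act {a c η : L} {k l : ℤ} (hp : 0 < k ∨ 0 < l) (hη0 : η ≠ 0)
    (hη : η ^ (k - l) = 1) (P : Option L) (i : ℕ) :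
    (twoMap (η * a) (η * c) k l)^[i] P = act (η ^ ex k i) ((twoMap a c k l)^[i] P) := by
  induction i with
  | zero =>
    unfold act ex
    simp
  | succ i ih =>
    have h0 : η ^ ex k i ≠ 0 := zpow_ne_zero _ hη0
    have h1 : (η ^ ex k i) ^ k = (η ^ ex k i) ^ l := by
      have h2 : (η ^ ex k i) ^ (k - l) = 1 := by
        rw [← zpow_mul, mul_comm, zpow_mul, hη, one_zpow]
      rw [zpow_sub₀ h0] at h2
      exact (div_eq_one_iff_eq (zpow_ne_zero _ h0)).1 h2
    have h3 : η * (η ^ ex k i) ^ k = η ^ ex k (i + 1) := by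
      have h4 : ex k (i + 1) = 1 + ex k i * k := by
        rw [mul_comm]
        rfl
      rw [h4, zpow_add₀ hη0, zpow_one, zpow_mul]
    rw [iterate_succ_apply', iterate_succ_apply', ih, two_act hp h0 h1, h3]

variable (φ : K →+* L)

lemma two_map {a c : K} {k l : ℤ} (P : Option K) :
    twoMap (φ a) (φ c) k l (P.map φ) = (twoMap a c k l P).map φ := by
  cases P with
  | none =>
    unfold twoMap
    by_cases h : 0 < k ∨ 0 < l
    · simp [h]
    · simp only [Option.map_none]
      rw [if_neg h, if_neg h, Option.map_some, map_mul, map_zpow₀, map_zero]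
  | some z =>
    by_cases h : z = 0 ∧ (k < 0 ∨ l < 0)
    · have h' : φ z = 0 ∧ (k < 0 ∨ l < 0) := ⟨by rw [h.1, map_zero], h.2⟩
      unfold twoMap
      simp only [Option.map_some]
      rw [if_pos h', if_pos h, Option.map_none]
    · have h' : ¬ (φ z = 0 ∧ (k < 0 ∨ l < 0)) := by
        rintro ⟨h1, h2⟩
        exact h ⟨(map_eq_zero φ).1 h1, h2⟩
      unfold twoMap
      simp only [Option.map_some]
      rw [if_neg h', if_neg h, Option.map_some, map_add, map_mul, map_mul, map_zpow₀, map_zpow₀]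

lemma it_map {a c : K} {k l : ℤ} (P : Option K) (i : ℕ) :
    (twoMap (φ a) (φ c) k l)^[i] (P.map φ) = ((twoMap a c k l)^[i] P).map φ := by
  induction i with
  | zero => rfl
  | succ i ih => rw [iterate_succ_apply', iterate_succ_apply', ih, two_map]

end

end Twist_

open Twist_ in
/-- the final theorem -/
theorem all_two' (K : Type) [Field K] [NumberField K] (a : K) (k l : ℤ) (ha : a ≠ 0)
    (h : l = 0 ∧ (5 ≤ k ∨ k ≤ -4 ∨ 3 ≤ |k| ∧ a = 1 ∧ Module.finrank ℚ K = 1) ∨
      l ≠ 0 ∧ k ≠ l ∧ (0 < k ∨ 0 < l) ∧ 4 ≤ Int.gcd k l ∧ (6 ≤ k ∨ k ≤ -4) ∧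
        (0 < l → l < k → Int.gcd l (k - 1) = 1)) :
    ∃ B : ℕ, ∀ c : K, (l = 0 ∨ c ≠ 0) →
      {P : Option K | ∃ i m : ℕ, 0 < m ∧
        (twoMap a c k l)^[m] ((twoMap a c k l)^[i] P) = (twoMap a c k l)^[i] P ∧
        (l = 0 ∨ (∀ j : ℕ, ¬ (k - l) ∣ k ^ j) ∨ i = 0 ∨
          twoMap a c k l ((twoMap a c k l)^[i] P) ≠ (twoMap a c k l)^[i] P ∨
          (twoMap a c k l)^[i] P = none ∨ (twoMap a c k l)^[i] P = some 0)}.encard ≤ B := by
  classical
  obtain ⟨B1, hB1⟩ := all_two K a k l ha h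
  by_cases hdiv : l ≠ 0 ∧ ∀ j : ℕ, ¬ (k - l) ∣ k ^ j
  swap
  · refine ⟨B1, fun c hc => le_trans (Set.encard_le_encard ?_) (hB1 c hc)⟩
    rintro P ⟨i, m, hm, hp, h1⟩
    refine ⟨i, m, hm, hp, ?_⟩
    rcases h1 with h1 | h1 | h1
    · exact Or.inl h1
    · exact Or.inl (by
        by_contra h2
        exact hdiv ⟨h2, h1⟩)
    · exact Or.inr h1
  obtain ⟨hl, hdiv⟩ := hdiv
  have h2 : k ≠ l ∧ (0 < k ∨ 0 < l) := by
    rcases h with h | h
    · exact absurd h.1 hl
    · exact ⟨h.2.1, h.2.2.1⟩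
  obtain ⟨hkl, hpos⟩ := h2
  set N := (k - l).natAbs with hN
  have hN0 : N ≠ 0 := by omega
  have : NeZero N := ⟨hN0⟩
  let L := CyclotomicField N K
  have : NumberField L := IsCyclotomicExtension.numberField {N} K L
  have : NeZero ((N : ℕ) : L) := ⟨by exact_mod_cast hN0⟩
  set φ := algebraMap K L with hφ
  set η : L := IsCyclotomicExtension.zeta N K L with hη
  have hηp : IsPrimitiveRoot η N := IsCyclotomicExtension.zeta_spec N K L
  have hη0 : η ≠ 0 := hηp.ne_zero hN0
  have hη1 : ∀ n : ℤ, η ^ n = 1 ↔ (k - l) ∣ n := by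
    intro n
    rw [hηp.zpow_eq_one_iff_dvd, hN, Int.natAbs_dvd]
  have hφa : φ a ≠ 0 := (map_ne_zero φ).2 ha
  obtain ⟨B2, hB2⟩ := all_two L (η * φ a) k l (mul_ne_zero hη0 hφa) (by
    rcases h with h | h
    · exact absurd h.1 hl
    · exact Or.inr h)
  refine ⟨B1 + B2, fun c hc => ?_⟩
  have hφc : l = 0 ∨ η * φ c ≠ 0 :=
    hc.imp id fun h3 => mul_ne_zero hη0 ((map_ne_zero φ).2 h3)
  have e1 := hB1 c hc
  have e2 := hB2 (η * φ c) hφc
  set S1 := {P : Option K | ∃ i m : ℕ, 0 < m ∧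
        (twoMap a c k l)^[m] ((twoMap a c k l)^[i] P) = (twoMap a c k l)^[i] P ∧
        (l = 0 ∨ i = 0 ∨ twoMap a c k l ((twoMap a c k l)^[i] P) ≠ (twoMap a c k l)^[i] P ∨
          (twoMap a c k l)^[i] P = none ∨ (twoMap a c k l)^[i] P = some 0)} with hS1
  set F := twoMap (η * φ a) (η * φ c) k l with hF
  set S2 := {P : Option L | ∃ i m : ℕ, 0 < m ∧ F^[m] (F^[i] P) = F^[i] P ∧
        (l = 0 ∨ i = 0 ∨ F (F^[i] P) ≠ F^[i] P ∨ F^[i] P = none ∨ F^[i] P = some 0)} with hS2
  set g : Option K → Option L := fun P => P.map φ with hg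
  have hginj : Injective g := Option.map_injective φ.injective
  have hit : ∀ (P : Option K) (j : ℕ),
      F^[j] (g P) = act (η ^ ex k j) (((twoMap a c k l)^[j] P).map φ) := by
    intro P j
    rw [hg, hF]
    dsimp only
    rw [it_act hpos hη0 ((hη1 _).2 dvd_rfl), it_map]
  have hsub : {P : Option K | ∃ i m : ℕ, 0 < m ∧
        (twoMap a c k l)^[m] ((twoMap a c k l)^[i] P) = (twoMap a c k l)^[i] P ∧
        (l = 0 ∨ (∀ j : ℕ, ¬ (k - l) ∣ k ^ j) ∨ i = 0 ∨
          twoMap a c k l ((twoMap a c k l)^[i] P) ≠ (twoMap a c k l)^[i] P ∨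
          (twoMap a c k l)^[i] P = none ∨ (twoMap a c k l)^[i] P = some 0)} ⊆
      S1 ∪ g ⁻¹' S2 := by
    rintro P ⟨i, m, hm, hp, -⟩
    by_cases hP : P ∈ S1
    · exact Or.inl hP
    right
    have h3 : ¬ (l = 0 ∨ i = 0 ∨
        twoMap a c k l ((twoMap a c k l)^[i] P) ≠ (twoMap a c k l)^[i] P ∨
          (twoMap a c k l)^[i] P = none ∨ (twoMap a c k l)^[i] P = some 0) := fun h4 =>
      hP ⟨i, m, hm, hp, h4⟩
    push Not at h3
    obtain ⟨-, -, h4, h5, h6⟩ := h3
    obtain ⟨p, hpq⟩ := Option.ne_none_iff_exists'.1 h5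
    have hp0 : p ≠ 0 := by
      rintro rfl
      exact h6 hpq
    have h7 : ∀ t : ℕ, (twoMap a c k l)^[i + t] P = some p := by
      intro t
      induction t with
      | zero => exact hpq
      | succ t ih => rw [← add_assoc, iterate_succ_apply', ih, ← hpq, h4]
    -- the sequence of the exponents is eventually periodic
    obtain ⟨x, y, hxy, he⟩ : ∃ x y : ℕ, x < y ∧ (N : ℤ) ∣ ex k y - ex k x := by
      obtain ⟨x, y, hne, he⟩ := Finite.exists_ne_map_eq_of_infinite
        (fun j : ℕ => ((ex k j : ℤ) : ZMod N))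
      rcases lt_or_gt_of_ne hne with h9 | h9
      · exact ⟨x, y, h9, (ZMod.intCast_eq_intCast_iff_dvd_sub _ _ _).1 he⟩
      · exact ⟨y, x, h9, (ZMod.intCast_eq_intCast_iff_dvd_sub _ _ _).1 he.symm⟩
    have h12 : ∀ t : ℕ, F^[i + t] (g P) = some (η ^ ex k (i + t) * φ p) := by
      intro t
      rw [hit, h7]
      rfl
    have h10 : η ^ ex k (i + y) = η ^ ex k (i + x) := by
      have h11 := (hηp.zpow_eq_one_iff_dvd _).2 (ex_add k N x y i he)
      rw [zpow_sub₀ hη0, add_comm y, add_comm x] at h11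
      exact (div_eq_one_iff_eq (zpow_ne_zero _ hη0)).1 h11
    refine ⟨i + x, y - x, by omega, ?_, Or.inr (Or.inr (Or.inl ?_))⟩
    · rw [← iterate_add_apply, show y - x + (i + x) = i + y by omega, h12, h12, h10]
    · rw [← iterate_succ_apply' F (i + x), show (i + x).succ = i + (x + 1) by omega, h12, h12]
      intro h13
      have h14 := mul_right_cancel₀ ((map_ne_zero φ).2 hp0) (Option.some_injective _ h13)
      have h15 : η ^ (ex k (i + x + 1) - ex k (i + x)) = 1 := by
        rw [zpow_sub₀ hη0, add_assoc, h14, div_self (zpow_ne_zero _ hη0)]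
      rw [hη1, ex_sub] at h15
      exact hdiv (i + x) h15
  calc _ ≤ (S1 ∪ g ⁻¹' S2).encard := Set.encard_le_encard hsub
    _ ≤ S1.encard + (g ⁻¹' S2).encard := Set.encard_union_le _ _
    _ ≤ (B1 : ℕ∞) + (B2 : ℕ∞) := by
        refine add_le_add e1 ?_
        rw [← hginj.encard_image]
        exact (Set.encard_le_encard (Set.image_preimage_subset _ _)).trans e2
    _ = ((B1 + B2 : ℕ) : ℕ∞) := by push_cast; rfl

end Pool.Agent.TTM
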