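import Mathlib

set_option autoImplicit false

/-!
# TTM: the two-term maps on the projective line (definition used in the statement)
-/

namespace Pool.Agent.TTM

open Classical in
/-- The map `z ↦ a z ^ k + c z ^ l` of the projective line `Option K` (`none` is the point at
infinity), where `k ≠ l`, and `0 < k` or `0 < l` or `l = 0`. Infinity is fixed if one of the
exponents is positive; for `k < 0`, `l = 0` it is mapped to `c`. If one of the exponents is negative
then `0` is mapped to infinity. -/
noncomputable def twoMap {K : Type} [Field K] (a c : K) (k l : ℤ) : Option K → Option K
  | none => if 0 < k ∨ 0 < l then none else some (c * 0 ^ l)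
  | some z => if z = 0 ∧ (k < 0 ∨ l < 0) then none else some (a * z ^ k + c * z ^ l)

end Pool.Agent.TTM
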